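import Mathlib
import Pool.Agent.H50.G.S.H378R2.Defs
open Finset

namespace Pool.Agent.H378R2

/-- truncated divisor sum -/
noncomputable def VVm (E : Finset ℕ) (R : ℕ) (L : ℝ) (F : ℝ → ℝ) (x : ℤ) : ℝ :=
  ∑ d ∈ adm E R, if (d : ℤ) ∣ x then ((ArithmeticFunction.moebius d : ℤ) : ℝ) * F (Real.log d / L) else 0

/-- weight of a pair of tuples -/
noncomputable def wt {J : ℕ} (F G : Fin J → ℝ → ℝ) (L : ℝ) (d e : Fin J → ℕ) : ℝ :=
  ∏ j, (((ArithmeticFunction.moebius (d j) : ℤ) : ℝ) * ((ArithmeticFunction.moebius (e j) : ℤ) : ℝ) *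
        F j (Real.log (d j) / L) * G j (Real.log (e j) / L))

/-- pairwise coprimality of the lcm's -/
def PC {J : ℕ} (d e : Fin J → ℕ) : Prop :=
  Pairwise (fun i j => (Nat.lcm (d i) (e i)).Coprime (Nat.lcm (d j) (e j)))

/-- divisibility conditions -/
def DC {J : ℕ} (x : Fin J → ℤ) (d e : Fin J → ℕ) : Prop :=
  ∀ j, ((Nat.lcm (d j) (e j) : ℕ) : ℤ) ∣ x j

open Classical in
theorem VV_prod {J : ℕ} (E : Fin J → Finset ℕ) (R : ℕ) (L : ℝ) (F G : Fin J → ℝ → ℝ) (x : Fin J → ℤ) :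
    ∏ j, (VVm (E j) R L (F j) (x j) * VVm (E j) R L (G j) (x j)) =
      ∑ d ∈ Fintype.piFinset (fun j => adm (E j) R), ∑ e ∈ Fintype.piFinset (fun j => adm (E j) R),
        wt F G L d e * (if DC x d e then 1 else 0) := by
  rw [Finset.prod_mul_distrib]
  unfold VVm
  rw [Finset.prod_univ_sum, Finset.prod_univ_sum, Finset.sum_mul_sum]
  refine Finset.sum_congr rfl fun d _ => Finset.sum_congr rfl fun e _ => ?_
  rw [← Finset.prod_mul_distrib]
  by_cases h : DC x d e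
  · rw [if_pos h, mul_one, wt]
    refine Finset.prod_congr rfl fun j _ => ?_
    have h1 := h j
    have hd : ((d j : ℕ) : ℤ) ∣ x j := (Int.natCast_dvd_natCast.2 (Nat.dvd_lcm_left _ _)).trans h1
    have he : ((e j : ℕ) : ℤ) ∣ x j := (Int.natCast_dvd_natCast.2 (Nat.dvd_lcm_right _ _)).trans h1
    rw [if_pos hd, if_pos he]
    ring
  · rw [if_neg h, mul_zero]
    unfold DC at h
    push Not at h
    obtain ⟨j, hj⟩ := h
    apply Finset.prod_eq_zero (Finset.mem_univ j)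
    by_cases hd : ((d j : ℕ) : ℤ) ∣ x j
    · by_cases he : ((e j : ℕ) : ℤ) ∣ x j
      · exfalso
        apply hj
        have := Int.natCast_dvd.1 hd
        have h2 := Int.natCast_dvd.1 he
        exact Int.natCast_dvd.2 (Nat.lcm_dvd this h2)
      · rw [if_neg he, mul_zero]
    · rw [if_neg hd, zero_mul]

open Classical in
/-- discrepancy for a pair of tuples -/
noncomputable def Err {J : ℕ} (N : ℕ) (ν : ℕ → ℝ) (x : ℕ → Fin J → ℤ) (M : ℝ) (w : ℕ → Fin J → ℝ)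
    (d e : Fin J → ℕ) : ℝ :=
  ∑ n ∈ Icc 1 N, (if DC (x n) d e then ν n else 0) -
    M * (if PC d e then ∏ j, ∏ p ∈ (Nat.lcm (d j) (e j)).primeFactors, w p j else 0)

open Classical in
theorem expand {J : ℕ} (E : Fin J → Finset ℕ) (R : ℕ) (L : ℝ) (F G : Fin J → ℝ → ℝ)
    (N : ℕ) (ν : ℕ → ℝ) (x : ℕ → Fin J → ℤ) (M : ℝ) (w : ℕ → Fin J → ℝ) :
    ∑ n ∈ Icc 1 N, ν n * ∏ j, (VVm (E j) R L (F j) (x n j) * VVm (E j) R L (G j) (x n j)) -
      M * sieveSum J F G L E w R =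
    ∑ d ∈ Fintype.piFinset (fun j => adm (E j) R), ∑ e ∈ Fintype.piFinset (fun j => adm (E j) R),
        wt F G L d e * Err N ν x M w d e := by
  unfold sieveSum Err
  simp_rw [VV_prod, Finset.mul_sum]
  rw [Finset.sum_comm, ← Finset.sum_sub_distrib]
  refine Finset.sum_congr rfl fun d _ => ?_
  rw [Finset.sum_comm, ← Finset.sum_sub_distrib]
  refine Finset.sum_congr rfl fun e _ => ?_
  rw [mul_sub, Finset.mul_sum]
  congr 1
  · refine Finset.sum_congr rfl fun n _ => ?_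
    split_ifs <;> ring
  · unfold PC
    split_ifs with h
    · rw [Finset.prod_mul_distrib, wt]
      ring
    · simp

open Classical in
theorem expand_le {J : ℕ} (E : Fin J → Finset ℕ) (R : ℕ) (L : ℝ) (F G : Fin J → ℝ → ℝ)
    (N : ℕ) (ν : ℕ → ℝ) (x : ℕ → Fin J → ℤ) (M : ℝ) (w : ℕ → Fin J → ℝ) :
    |∑ n ∈ Icc 1 N, ν n * ∏ j, (VVm (E j) R L (F j) (x n j) * VVm (E j) R L (G j) (x n j)) -
      M * sieveSum J F G L E w R| ≤
    ∑ d ∈ Fintype.piFinset (fun j => adm (E j) R), ∑ e ∈ Fintype.piFinset (fun j => adm (E j) R),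
        |wt F G L d e| * |Err N ν x M w d e| := by
  rw [expand]
  refine (Finset.abs_sum_le_sum_abs _ _).trans (Finset.sum_le_sum fun d _ => ?_)
  refine (Finset.abs_sum_le_sum_abs _ _).trans (Finset.sum_le_sum fun e _ => ?_)
  rw [abs_mul]

theorem mem_adm {E : Finset ℕ} {R d : ℕ} :
    d ∈ adm E R ↔ (1 ≤ d ∧ d ≤ R) ∧ Squarefree d ∧ ∀ p ∈ E, p.Prime → ¬ p ∣ d := by
  unfold adm
  rw [Finset.mem_filter, Finset.mem_Icc]

/-- bound for the weights -/
theorem abs_wt_le {J : ℕ} (F G : Fin J → ℝ → ℝ) (L Cf : ℝ) (hCf : 0 ≤ Cf)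
    (hF : ∀ j x, |F j x| ≤ Cf) (hG : ∀ j x, |G j x| ≤ Cf) (d e : Fin J → ℕ) :
    |wt F G L d e| ≤ Cf ^ (2 * J) := by
  unfold wt
  rw [Finset.abs_prod]
  have : ∏ j : Fin J, (Cf ^ 2) = Cf ^ (2 * J) := by
    rw [Finset.prod_const, Finset.card_univ, Fintype.card_fin, ← pow_mul]
  rw [← this]
  refine Finset.prod_le_prod (fun j _ => abs_nonneg _) fun j _ => ?_
  rw [abs_mul, abs_mul, abs_mul]
  have hm : ∀ n : ℕ, |((ArithmeticFunction.moebius n : ℤ) : ℝ)| ≤ 1 := by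
    intro n
    rw [← Int.cast_abs]
    exact_mod_cast ArithmeticFunction.abs_moebius_le_one
  have h1 := hm (d j)
  have h2 := hm (e j)
  have h3 := hF j (Real.log (d j) / L)
  have h4 := hG j (Real.log (e j) / L)
  calc |((ArithmeticFunction.moebius (d j) : ℤ) : ℝ)| * |((ArithmeticFunction.moebius (e j) : ℤ) : ℝ)| *
        |F j (Real.log (d j) / L)| * |G j (Real.log (e j) / L)|
      ≤ 1 * 1 * Cf * Cf := by gcongr
    _ = Cf ^ 2 := by ring

end Pool.Agent.H378R2
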