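import Mathlib
import Pool.Agent.H50.G.S.H378R2.M7a
open Finset

namespace Pool.Agent.H378R2

theorem class_one (D c : ℕ) (h : ℤ) (hD : D ≠ 0) (hc : c.Coprime D) :
    ∃ r : ℕ, ∀ n : ℕ, ((D : ℤ) ∣ c * n + h ↔ n ≡ r [MOD D]) := by
  have hcz : IsCoprime (c : ℤ) (D : ℤ) := Nat.isCoprime_iff_coprime.2 hc
  obtain ⟨u, v, huv⟩ := hcz
  -- u * c + v * D = 1
  refine ⟨((-h * u) % D).toNat, fun n => ?_⟩
  have hDz : (D : ℤ) ≠ 0 := by exact_mod_cast hD
  have hnn : 0 ≤ (-h * u) % (D : ℤ) := Int.emod_nonneg _ hDz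
  rw [← Int.natCast_modEq_iff, Int.toNat_of_nonneg hnn]
  have h1 : (-h * u) % (D : ℤ) ≡ -h * u [ZMOD D] := Int.mod_modEq _ _
  constructor
  · intro hd
    have h2 : (D : ℤ) ∣ (-h * u) - n := by
      have : (-h * u) - n = -u * (c * n + h) + (u * c + v * D) * n - n - v * n * D := by ring
      rw [this, huv]
      have h3 : (D : ℤ) ∣ -u * (c * n + h) := Dvd.dvd.mul_left hd _
      have h4 : -u * (c * n + h) + 1 * (n : ℤ) - n - v * n * D = -u * (c * n + h) - v * n * D := by ring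
      rw [h4]
      exact dvd_sub h3 (dvd_mul_left _ _)
    exact (Int.modEq_iff_dvd.2 h2).trans h1.symm
  · intro hn
    have h2 : (n : ℤ) ≡ -h * u [ZMOD D] := hn.trans h1
    have h3 : (D : ℤ) ∣ (-h * u) - n := Int.modEq_iff_dvd.1 h2
    have : (c : ℤ) * n + h = -c * ((-h * u) - n) - h * (u * c + v * D) + h + h * v * D := by ring
    rw [this, huv]
    have h4 : -(c : ℤ) * ((-h * u) - n) - h * 1 + h + h * v * D = -c * ((-h * u) - n) + h * v * D := by ring
    rw [h4]
    exact dvd_add (Dvd.dvd.mul_left h3 _) (dvd_mul_left _ _)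

theorem modEq_prod {J : ℕ} (D : Fin J → ℕ) (hD : Pairwise (fun i j => (D i).Coprime (D j))) (n b : ℕ) :
    n ≡ b [MOD ∏ j, D j] ↔ ∀ j, n ≡ b [MOD D j] := by
  constructor
  · intro h j
    exact h.of_dvd (Finset.dvd_prod_of_mem _ (Finset.mem_univ j))
  · intro h
    rw [← Int.natCast_modEq_iff, Int.modEq_iff_dvd]
    push_cast
    apply Finset.prod_dvd_of_coprime
    · intro i _ j _ hij
      exact Nat.isCoprime_iff_coprime.2 (hD hij)
    · intro j _
      exact Int.modEq_iff_dvd.1 (Int.natCast_modEq_iff.2 (h j))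

theorem class_exists {J : ℕ} (W a : ℕ) (hW : W ≠ 0) (D : Fin J → ℕ) (c : Fin J → ℕ) (h : Fin J → ℤ)
    (hD0 : ∀ j, D j ≠ 0)
    (hD : Pairwise (fun i j => (D i).Coprime (D j))) (hDW : ∀ j, (D j).Coprime W)
    (hc : ∀ j, (c j).Coprime (D j)) :
    ∃ b : ℕ, ∀ n : ℕ, ((n ≡ a [MOD W] ∧ ∀ j, (D j : ℤ) ∣ c j * n + h j) ↔
      n ≡ b [MOD W * ∏ j, D j]) := by
  choose r hr using fun j => class_one (D j) (c j) (h j) (hD0 j) (hc j)
  obtain ⟨b, hb⟩ := Nat.chineseRemainderOfFinset (fun i : Option (Fin J) => i.elim a r)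
    (fun i : Option (Fin J) => i.elim W D) Finset.univ
    (by intro i _; cases i <;> simp [hW, hD0])
    (by
      intro i _ j _ hij
      cases i with
      | none => cases j with
        | none => exact absurd rfl hij
        | some j => exact (hDW j).symm
      | some i => cases j with
        | none => exact hDW i
        | some j => exact hD (fun hh => hij (by rw [hh])))
  refine ⟨b, fun n => ?_⟩
  have hb0 : b ≡ a [MOD W] := by simpa using hb none (Finset.mem_univ _)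
  have hbj : ∀ j, b ≡ r j [MOD D j] := fun j => by simpa using hb (some j) (Finset.mem_univ _)
  have hcop : W.Coprime (∏ j, D j) := Nat.Coprime.prod_right fun j _ => (hDW j).symm
  rw [← Nat.modEq_and_modEq_iff_modEq_mul hcop, modEq_prod D hD]
  constructor
  · rintro ⟨h1, h2⟩
    exact ⟨h1.trans hb0.symm, fun j => ((hr j n).1 (h2 j)).trans (hbj j).symm⟩
  · rintro ⟨h1, h2⟩
    exact ⟨h1.trans hb0, fun j => (hr j n).2 ((h2 j).trans (hbj j))⟩

end Pool.Agent.H378R2
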