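import Mathlib
import Pool.Agent.H50.G.S.H378R2.M7b
open Finset

namespace Pool.Agent.H378R2

theorem Phi_nonneg (u : ℝ) : 0 ≤ Phi u := le_max_left _ _

theorem Phi_le_half (u : ℝ) : Phi u ≤ 1 / 2 := by
  unfold Phi
  apply max_le (by norm_num)
  linarith [abs_nonneg (Real.log u - 1 / 2)]

theorem Phi_le_one (u : ℝ) : Phi u ≤ 1 := (Phi_le_half u).trans (by norm_num)

theorem abs_Phi_le (u : ℝ) : |Phi u| ≤ 1 := by
  rw [abs_of_nonneg (Phi_nonneg u)]; exact Phi_le_one u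

theorem Phi_eq_zero_of_le {u : ℝ} (h0 : 0 ≤ u) (h1 : u ≤ 1) : Phi u = 0 := by
  unfold Phi
  apply max_eq_left
  have : Real.log u ≤ 0 := Real.log_nonpos h0 h1
  rw [abs_of_nonpos (by linarith)]
  linarith

theorem Phi_eq_zero_of_ge {u : ℝ} (h : Real.exp 1 ≤ u) : Phi u = 0 := by
  unfold Phi
  apply max_eq_left
  have : 1 ≤ Real.log u := by
    rw [Real.le_log_iff_exp_le (lt_of_lt_of_le (Real.exp_pos 1) h)]; exact h
  rw [abs_of_nonneg (by linarith)]
  linarith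

theorem Phi_max {u : ℝ} (h : 0 ≤ u) : Phi u = Phi (max u 1) := by
  rcases le_total u 1 with h1 | h1
  · rw [max_eq_right h1, Phi_eq_zero_of_le h h1, Phi_eq_zero_of_le zero_le_one le_rfl]
  · rw [max_eq_left h1]

theorem log_lip {u v : ℝ} (hu : 1 ≤ u) (hv : 1 ≤ v) : |Real.log u - Real.log v| ≤ |u - v| := by
  wlog h : v ≤ u with H
  · rw [abs_sub_comm, abs_sub_comm u]
    exact H hv hu (le_of_not_ge h)
  have h1 : Real.log u - Real.log v = Real.log (u / v) := by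
    rw [Real.log_div (by linarith) (by linarith)]
  have h2 : Real.log (u / v) ≤ u / v - 1 := Real.log_le_sub_one_of_pos (by positivity)
  have h3 : u / v - 1 ≤ u - v := by
    rw [div_sub_one (by linarith), div_le_iff₀ (by linarith)]
    nlinarith
  have h4 : 0 ≤ Real.log u - Real.log v := by
    have := Real.log_le_log (by linarith) h
    linarith
  rw [abs_of_nonneg h4, abs_of_nonneg (by linarith)]
  linarith

theorem Phi_lip {u v : ℝ} (hu : 0 ≤ u) (hv : 0 ≤ v) : |Phi u - Phi v| ≤ |u - v| := by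
  rw [Phi_max hu, Phi_max hv]
  have h1 : |max u 1 - max v 1| ≤ |u - v| := by
    exact abs_max_sub_max_le_abs u v 1
  have h2 : |Real.log (max u 1) - Real.log (max v 1)| ≤ |max u 1 - max v 1| :=
    log_lip (le_max_right _ _) (le_max_right _ _)
  refine le_trans ?_ (h2.trans h1)
  unfold Phi
  set x := Real.log (max u 1)
  set y := Real.log (max v 1)
  have h3 : |max 0 (1 / 2 - |x - 1 / 2|) - max 0 (1 / 2 - |y - 1 / 2|)| ≤
      |(1 / 2 - |x - 1 / 2|) - (1 / 2 - |y - 1 / 2|)| := by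
    have := abs_max_sub_max_le_abs (1 / 2 - |x - 1 / 2|) (1 / 2 - |y - 1 / 2|) 0
    rwa [max_comm, max_comm (1 / 2 - |y - 1 / 2|)] at this
  refine h3.trans ?_
  have h4 : (1 / 2 - |x - 1 / 2|) - (1 / 2 - |y - 1 / 2|) = |y - 1 / 2| - |x - 1 / 2| := by ring
  rw [h4]
  refine (abs_abs_sub_abs_le_abs_sub _ _).trans ?_
  rw [abs_sub_comm x y]
  apply le_of_eq
  congr 1
  ring

theorem exp_one_lt_three' : Real.exp 1 < 3 := by
  have := Real.exp_one_lt_d9
  linarith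

/-- extension of the sum -/
theorem phi_ext (X : ℝ) (hX : 4 ≤ X) (M : ℕ) (hM : ⌊3 * X⌋₊ < M) (P : ℕ → Prop) [DecidablePred P] :
    ∑ n ∈ (Icc 1 ⌊3 * X⌋₊).filter P, Phi (n / X) = ∑ n ∈ (range M).filter P, Phi (n / X) := by
  apply Finset.sum_subset
  · intro n hn
    simp only [Finset.mem_filter, Finset.mem_Icc, Finset.mem_range] at hn ⊢
    exact ⟨by omega, hn.2⟩
  · intro n hn hn'
    simp only [Finset.mem_filter, Finset.mem_Icc, Finset.mem_range, not_and] at hn hn'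
    by_cases h0 : n = 0
    · subst h0
      simp only [Nat.cast_zero, zero_div]
      exact Phi_eq_zero_of_le le_rfl zero_le_one
    · have h1 : ¬ (n ≤ ⌊3 * X⌋₊) := fun h => hn' ⟨by omega, h⟩ hn.2
      push Not at h1
      have h2 : 3 * X < n := Nat.lt_of_floor_lt h1
      apply Phi_eq_zero_of_ge
      rw [le_div_iff₀ (by linarith)]
      have := exp_one_lt_three'
      nlinarith

theorem sum_range_mul_filter (Q I b : ℕ) (hQ : 0 < Q) (g : ℕ → ℝ) :
    ∑ n ∈ (range (Q * I)).filter (fun n => n ≡ b [MOD Q]), g n = ∑ i ∈ range I, g (Q * i + b % Q) := by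
  symm
  apply Finset.sum_nbij (fun i => Q * i + b % Q)
  · intro i hi
    simp only [Finset.mem_range, Finset.mem_filter] at hi ⊢
    constructor
    · have := Nat.mod_lt b hQ
      calc Q * i + b % Q < Q * i + Q := by omega
        _ = Q * (i + 1) := by ring
        _ ≤ Q * I := Nat.mul_le_mul_left _ hi
    · show (Q * i + b % Q) % Q = b % Q
      rw [Nat.mul_add_mod, Nat.mod_mod]
  · intro i _ j _ hij
    simp only at hij
    have : Q * i = Q * j := by omega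
    exact Nat.eq_of_mul_eq_mul_left hQ this
  · intro n hn
    simp only [Finset.coe_filter, Finset.mem_range, Set.mem_ofPred_eq] at hn
    refine ⟨n / Q, ?_, ?_⟩
    · simp only [Finset.coe_range, Set.mem_Iio]
      exact Nat.div_lt_of_lt_mul hn.1
    · have h1 : n % Q = b % Q := hn.2
      simp only
      rw [← h1]
      exact Nat.div_add_mod n Q
  · intro i _
    rfl

theorem sum_range_mul (Q I : ℕ) (hQ : 0 < Q) (g : ℕ → ℝ) :
    ∑ n ∈ range (Q * I), g n = ∑ j ∈ range Q, ∑ i ∈ range I, g (Q * i + j) := by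
  have h1 : ∀ j ∈ range Q, ∑ i ∈ range I, g (Q * i + j) =
      ∑ n ∈ (range (Q * I)).filter (fun n => n % Q = j), g n := by
    intro j hj
    have hj' : j % Q = j := Nat.mod_eq_of_lt (Finset.mem_range.1 hj)
    have h := sum_range_mul_filter Q I j hQ g
    rw [hj'] at h
    rw [← h]
    apply Finset.sum_congr _ (fun _ _ => rfl)
    apply Finset.filter_congr
    intro n _
    show n % Q = j % Q ↔ n % Q = j
    rw [hj']
  rw [Finset.sum_congr rfl h1]
  symm
  apply Finset.sum_fiberwise_of_maps_to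
  intro n _
  exact Finset.mem_range.2 (Nat.mod_lt n hQ)

/-- total mass -/
noncomputable def MPhi (X : ℝ) : ℝ := ∑ n ∈ Icc 1 ⌊3 * X⌋₊, Phi (n / X)

theorem phi_sum_class (X : ℝ) (hX : 4 ≤ X) (Q b : ℕ) (hQ : 0 < Q) (hQX : (Q : ℝ) ≤ X) :
    |∑ n ∈ (Icc 1 ⌊3 * X⌋₊).filter (fun n => n ≡ b [MOD Q]), Phi (n / X) - MPhi X * (1 / Q)| ≤ 5 := by
  set I := ⌊3 * X⌋₊ / Q + 1 with hI
  have hM : ⌊3 * X⌋₊ < Q * I := by
    rw [hI]
    exact Nat.lt_mul_div_succ _ hQ
  have e1 := phi_ext X hX (Q * I) hM (fun n => n ≡ b [MOD Q])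
  have e2 : MPhi X = ∑ n ∈ range (Q * I), Phi (n / X) := by
    have := phi_ext X hX (Q * I) hM (fun _ => True)
    simpa [MPhi] using this
  rw [e1, e2, sum_range_mul_filter Q I b hQ, sum_range_mul Q I hQ (fun n => Phi (n / X))]
  have hQr : (0 : ℝ) < Q := by exact_mod_cast hQ
  have hXp : (0 : ℝ) < X := by linarith
  have hIle : (I : ℝ) * Q ≤ 4 * X := by
    have h1 : ((⌊3 * X⌋₊ / Q : ℕ) : ℝ) * Q ≤ 3 * X := by
      have h2 : (⌊3 * X⌋₊ / Q) * Q ≤ ⌊3 * X⌋₊ := Nat.div_mul_le_self _ _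
      have h3 : (((⌊3 * X⌋₊ / Q) * Q : ℕ) : ℝ) ≤ (⌊3 * X⌋₊ : ℝ) := by exact_mod_cast h2
      rw [Nat.cast_mul] at h3
      exact h3.trans (Nat.floor_le (by linarith))
    rw [hI]
    push_cast
    linarith
  have key : ∀ j ∈ range Q, |∑ i ∈ range I, Phi (((Q * i + b % Q : ℕ) : ℝ) / X) -
      ∑ i ∈ range I, Phi (((Q * i + j : ℕ) : ℝ) / X)| ≤ 4 := by
    intro j hj
    rw [← Finset.sum_sub_distrib]
    refine (Finset.abs_sum_le_sum_abs _ _).trans ?_
    have : ∀ i ∈ range I, |Phi (((Q * i + b % Q : ℕ) : ℝ) / X) - Phi (((Q * i + j : ℕ) : ℝ) / X)| ≤ Q / X := by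
      intro i _
      refine (Phi_lip (by positivity) (by positivity)).trans ?_
      rw [← sub_div, abs_div, abs_of_pos hXp]
      apply div_le_div_of_nonneg_right _ hXp.le
      push_cast
      have h1 : ((b % Q : ℕ) : ℝ) < Q := by exact_mod_cast Nat.mod_lt b hQ
      have h2 : (j : ℝ) < Q := by exact_mod_cast Finset.mem_range.1 hj
      have h3 : (0 : ℝ) ≤ ((b % Q : ℕ) : ℝ) := Nat.cast_nonneg _
      have h4 : (0 : ℝ) ≤ (j : ℝ) := Nat.cast_nonneg _
      rw [abs_le]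
      constructor <;> linarith
    refine (Finset.sum_le_sum this).trans ?_
    rw [Finset.sum_const, Finset.card_range, nsmul_eq_mul, ← mul_div_assoc, div_le_iff₀ hXp]
    exact hIle
  have e3 : ∑ i ∈ range I, Phi (((Q * i + b % Q : ℕ) : ℝ) / X) =
      (∑ j ∈ range Q, ∑ i ∈ range I, Phi (((Q * i + b % Q : ℕ) : ℝ) / X)) * (1 / Q) := by
    rw [Finset.sum_const, Finset.card_range, nsmul_eq_mul]
    field_simp
  rw [e3, ← sub_mul, ← Finset.sum_sub_distrib, abs_mul, abs_of_pos (by positivity : (0 : ℝ) < 1 / Q)]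
  have h5 := (Finset.abs_sum_le_sum_abs (fun j => ∑ i ∈ range I, Phi (((Q * i + b % Q : ℕ) : ℝ) / X) -
      ∑ i ∈ range I, Phi (((Q * i + j : ℕ) : ℝ) / X)) (range Q)).trans (Finset.sum_le_sum key)
  rw [Finset.sum_const, Finset.card_range, nsmul_eq_mul] at h5
  calc _ ≤ (Q : ℝ) * 4 * (1 / Q) := mul_le_mul_of_nonneg_right h5 (by positivity)
    _ = 4 := by field_simp
    _ ≤ 5 := by norm_num

theorem MPhi_le (X : ℝ) (hX : 4 ≤ X) : MPhi X ≤ 2 * X := by
  unfold MPhi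
  have h : ∀ n ∈ Icc 1 ⌊3 * X⌋₊, Phi (n / X) ≤ 1 / 2 := fun n _ => Phi_le_half _
  refine (Finset.sum_le_sum h).trans ?_
  rw [Finset.sum_const, Nat.card_Icc, nsmul_eq_mul, Nat.add_sub_cancel]
  have := Nat.floor_le (by linarith : 0 ≤ 3 * X)
  linarith

theorem MPhi_ge (X : ℝ) (hX : 40 ≤ X) : X / 20 ≤ MPhi X := by
  unfold MPhi
  -- the integers in [3X/2, 2X]
  have hsub : Icc ⌈3 / 2 * X⌉₊ ⌊2 * X⌋₊ ⊆ Icc 1 ⌊3 * X⌋₊ := by
    intro n hn
    rw [Finset.mem_Icc] at hn ⊢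
    constructor
    · have : 0 < ⌈3 / 2 * X⌉₊ := Nat.ceil_pos.2 (by linarith)
      omega
    · exact hn.2.trans (Nat.floor_le_floor (by linarith))
  have h1 := Finset.sum_le_sum_of_subset_of_nonneg (f := fun n : ℕ => Phi (n / X)) hsub
    (fun n _ _ => Phi_nonneg _)
  refine le_trans ?_ h1
  have hlow : ∀ n ∈ Icc ⌈3 / 2 * X⌉₊ ⌊2 * X⌋₊, (1 / 4 : ℝ) ≤ Phi (n / X) := by
    intro n hn
    rw [Finset.mem_Icc] at hn
    have hn1 : 3 / 2 * X ≤ n := (Nat.le_ceil _).trans (by exact_mod_cast hn.1)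
    have hn2 : (n : ℝ) ≤ 2 * X := le_trans (by exact_mod_cast hn.2) (Nat.floor_le (by linarith))
    have hX0 : 0 < X := by linarith
    have h3 : 3 / 2 ≤ (n : ℝ) / X := by rw [le_div_iff₀ hX0]; linarith
    have h4 : (n : ℝ) / X ≤ 2 := by rw [div_le_iff₀ hX0]; linarith
    have h5 : Real.log ((n : ℝ) / X) ≤ 3 / 4 := by
      have := Real.log_le_log (by linarith) h4
      have h6 := Real.log_two_lt_d9
      linarith
    have h6 : 1 / 4 ≤ Real.log ((n : ℝ) / X) := by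
      have h7 : 1 - ((n : ℝ) / X)⁻¹ ≤ Real.log ((n : ℝ) / X) := by
        have := Real.one_sub_inv_le_log_of_pos (by linarith : 0 < (n : ℝ) / X)
        exact this
      have h8 : ((n : ℝ) / X)⁻¹ ≤ 2 / 3 := (inv_anti₀ (by norm_num) h3).trans (by norm_num)
      linarith
    unfold Phi
    apply le_max_of_le_right
    have : |Real.log ((n : ℝ) / X) - 1 / 2| ≤ 1 / 4 := by
      rw [abs_le]; constructor <;> linarith
    linarith
  refine le_trans ?_ (Finset.sum_le_sum hlow)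
  rw [Finset.sum_const, Nat.card_Icc, nsmul_eq_mul]
  have h3 : (2 * X - 1 : ℝ) < ⌊2 * X⌋₊ := by
    have := Nat.lt_floor_add_one (2 * X)
    linarith
  have h4 : (⌈3 / 2 * X⌉₊ : ℝ) < 3 / 2 * X + 1 := Nat.ceil_lt_add_one (by linarith)
  have h5 : ⌈3 / 2 * X⌉₊ ≤ ⌊2 * X⌋₊ + 1 := by
    have : (⌈3 / 2 * X⌉₊ : ℝ) ≤ ((⌊2 * X⌋₊ + 1 : ℕ) : ℝ) := by push_cast; linarith
    exact_mod_cast this
  rw [Nat.cast_sub h5]
  push_cast
  nlinarith

end Pool.Agent.H378R2
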