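import Mathlib
import Pool.Agent.H50.G.S.H378R2.Defs
open Finset MeasureTheory
open scoped ContDiff

namespace Pool.Agent.H378R2

/-- the basic bump -/
noncomputable def hb : ContDiffBump (0 : ℝ) := ⟨1 / 2, 1, by norm_num, by norm_num⟩

theorem hb_one {x : ℝ} (hx : |x| ≤ 1 / 2) : hb x = 1 := by
  apply hb.one_of_mem_closedBall
  rw [Metric.mem_closedBall, Real.dist_eq, sub_zero]
  exact hx

theorem hb_zero {x : ℝ} (hx : 1 ≤ |x|) : hb x = 0 := by
  apply hb.zero_of_le_dist
  rw [Real.dist_eq, sub_zero]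
  exact hx

theorem hb_smooth : ContDiff ℝ ∞ (fun x => hb x) := hb.contDiff

theorem hb_deriv_zero_left {x : ℝ} (hx : |x| ≤ 1 / 2) : deriv (fun x => hb x) x = 0 := by
  have : IsLocalMax (fun x => hb x) x := by
    apply Filter.Eventually.of_forall
    intro y
    show hb y ≤ hb x
    rw [hb_one hx]
    exact hb.le_one
  exact this.deriv_eq_zero

theorem hb_deriv_zero_right {x : ℝ} (hx : 1 ≤ |x|) : deriv (fun x => hb x) x = 0 := by
  have : IsLocalMin (fun x => hb x) x := by
    apply Filter.Eventually.of_forall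
    intro y
    show hb x ≤ hb y
    rw [hb_zero hx]
    exact hb.nonneg
  exact this.deriv_eq_zero

/-- scaled bump -/
noncomputable def hs (s : ℝ) (x : ℝ) : ℝ := hb (x / s)

theorem hs_smooth (s : ℝ) : ContDiff ℝ ∞ (hs s) :=
  hb_smooth.comp (contDiff_id.div_const s)

theorem hs_zero {s x : ℝ} (hs0 : 0 < s) (hx : s ≤ |x|) : hs s x = 0 := by
  unfold hs
  apply hb_zero
  rw [abs_div, abs_of_pos hs0, le_div_iff₀ hs0]
  linarith

theorem hs_compact {s : ℝ} (hs0 : 0 < s) : HasCompactSupport (hs s) := by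
  apply HasCompactSupport.intro (K := Metric.closedBall (0 : ℝ) s) (isCompact_closedBall 0 s)
  intro x hx
  rw [Metric.mem_closedBall, Real.dist_eq, sub_zero, not_le] at hx
  exact hs_zero hs0 hx.le

theorem hs_abs_le (s x : ℝ) : |hs s x| ≤ 1 := by
  unfold hs
  rw [abs_of_nonneg hb.nonneg]
  exact hb.le_one

theorem hs_at_zero (s : ℝ) : hs s 0 = 1 := by
  unfold hs
  rw [zero_div]
  apply hb_one
  norm_num

theorem hs_deriv (s x : ℝ) : deriv (hs s) x = deriv (fun x => hb x) (x / s) * (1 / s) := by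
  have h1 : HasDerivAt (fun x : ℝ => x / s) (1 / s) x := by
    simpa using (hasDerivAt_id x).div_const s
  have h2 : HasDerivAt (fun x => hb x) (deriv (fun x => hb x) (x / s)) (x / s) :=
    (hb_smooth.differentiable (by simp)).differentiableAt.hasDerivAt
  exact (h2.comp x h1).deriv

theorem hs_deriv_zero_left {s x : ℝ} (hs0 : 0 < s) (hx : |x| ≤ s / 2) : deriv (hs s) x = 0 := by
  rw [hs_deriv, hb_deriv_zero_left, zero_mul]
  rw [abs_div, abs_of_pos hs0, div_le_iff₀ hs0]
  linarith

theorem hs_deriv_zero_right {s x : ℝ} (hs0 : 0 < s) (hx : s ≤ |x|) : deriv (hs s) x = 0 := by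
  rw [hs_deriv, hb_deriv_zero_right, zero_mul]
  rw [abs_div, abs_of_pos hs0, le_div_iff₀ hs0]
  linarith

/-- the energy of the bump -/
noncomputable def gam : ℝ := ∫ t in Set.Ioi (0 : ℝ), deriv (fun x => hb x) t * deriv (fun x => hb x) t

theorem hb_deriv_cont : Continuous (deriv (fun x => hb x)) :=
  hb_smooth.continuous_deriv (by simp)

theorem hb_deriv_compact : HasCompactSupport (deriv (fun x => hb x)) := hb.hasCompactSupport.deriv

theorem hb_sq_integrable : Integrable (fun t => deriv (fun x => hb x) t * deriv (fun x => hb x) t) := by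
  apply Continuous.integrable_of_hasCompactSupport (hb_deriv_cont.mul hb_deriv_cont)
  exact hb_deriv_compact.mul_right

theorem gam_ge : 1 ≤ gam := by
  have h0 : ∫ t in (0 : ℝ)..1, deriv (fun x => hb x) t = -1 := by
    rw [intervalIntegral.integral_deriv_eq_sub]
    · rw [hb_zero (by norm_num), hb_one (by norm_num)]; norm_num
    · intro x _
      exact (hb_smooth.differentiable (by simp)).differentiableAt
    · exact hb_deriv_cont.intervalIntegrable _ _
  have h1 : ∫ t in (0 : ℝ)..1, (deriv (fun x => hb x) t * deriv (fun x => hb x) t) ≤ gam := by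
    unfold gam
    rw [intervalIntegral.integral_of_le zero_le_one]
    apply setIntegral_mono_set
    · exact hb_sq_integrable.integrableOn
    · exact Filter.Eventually.of_forall fun t => mul_self_nonneg _
    · exact Filter.Eventually.of_forall fun t ht => ht.1
  have h2 : 0 ≤ ∫ t in (0 : ℝ)..1, (deriv (fun x => hb x) t + 1) ^ 2 :=
    intervalIntegral.integral_nonneg zero_le_one fun t _ => sq_nonneg _
  have h3 : ∫ t in (0 : ℝ)..1, (deriv (fun x => hb x) t + 1) ^ 2 =
      (∫ t in (0 : ℝ)..1, (deriv (fun x => hb x) t * deriv (fun x => hb x) t)) +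
        (∫ t in (0 : ℝ)..1, (2 * deriv (fun x => hb x) t + 1)) := by
    rw [← intervalIntegral.integral_add]
    · apply intervalIntegral.integral_congr
      intro t _
      simp only
      ring
    · exact (hb_deriv_cont.mul hb_deriv_cont).intervalIntegrable _ _
    · exact ((continuous_const.mul hb_deriv_cont).add continuous_const).intervalIntegrable _ _
  have h4 : ∫ t in (0 : ℝ)..1, (2 * deriv (fun x => hb x) t + 1) = -1 := by
    rw [intervalIntegral.integral_add, intervalIntegral.integral_const_mul, h0]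
    · simp; norm_num
    · exact (continuous_const.mul hb_deriv_cont).intervalIntegrable _ _
    · exact continuous_const.intervalIntegrable _ _
  rw [h3, h4] at h2
  linarith

theorem gam_pos : 0 < gam := lt_of_lt_of_le one_pos gam_ge

theorem hs_energy {s : ℝ} (hs0 : 0 < s) :
    ∫ t in Set.Ioi (0 : ℝ), deriv (hs s) t * deriv (hs s) t = gam / s := by
  have h1 : ∀ t, deriv (hs s) t * deriv (hs s) t =
      (1 / s) ^ 2 * (fun u => deriv (fun x => hb x) u * deriv (fun x => hb x) u) (s⁻¹ * t) := by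
    intro t
    simp only
    rw [hs_deriv, div_eq_mul_inv t s, mul_comm t s⁻¹]
    ring
  have h2 := integral_comp_mul_left_Ioi
    (fun u => deriv (fun x => hb x) u * deriv (fun x => hb x) u) 0 (inv_pos.2 hs0)
  rw [mul_zero, inv_inv, smul_eq_mul] at h2
  have h3 : ∫ t in Set.Ioi (0 : ℝ), deriv (hs s) t * deriv (hs s) t = (1 / s) ^ 2 * (s * gam) := by
    unfold gam
    rw [← h2, ← integral_const_mul]
    exact integral_congr_ae (Filter.Eventually.of_forall h1)
  rw [h3]
  field_simp

theorem hs_disjoint {s s' : ℝ} (hs0 : 0 < s) (h : s ≤ s' / 2) :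
    ∫ t in Set.Ioi (0 : ℝ), deriv (hs s) t * deriv (hs s') t = 0 := by
  have : ∀ t : ℝ, deriv (hs s) t * deriv (hs s') t = 0 := by
    intro t
    rcases le_total |t| (s' / 2) with h1 | h1
    · rw [hs_deriv_zero_left (by linarith) h1, mul_zero]
    · rw [hs_deriv_zero_right hs0 (h.trans h1), zero_mul]
  simp_rw [this]
  simp


/-- the pairing of two derivatives -/
noncomputable def DD (f g : ℝ → ℝ) : ℝ := ∫ t in Set.Ioi (0 : ℝ), deriv f t * deriv g t

theorem DD_comm (f g : ℝ → ℝ) : DD f g = DD g f := by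
  unfold DD
  simp_rw [mul_comm]

theorem DD_hs_self {s : ℝ} (hs0 : 0 < s) : DD (hs s) (hs s) = gam / s := hs_energy hs0

theorem DD_hs_ne {s s' : ℝ} (hs0 : 0 < s) (h : s ≤ s' / 2) : DD (hs s) (hs s') = 0 := hs_disjoint hs0 h

theorem sum_prod_fun {n B : ℕ} (φ : Fin n → Fin B → ℝ) :
    ∑ a : Fin n → Fin B, ∏ j, φ j (a j) = ∏ j, ∑ l, φ j l := by
  rw [Finset.prod_univ_sum, Fintype.piFinset_univ]

/-- combinatorial part -/
theorem family_comb (K0 B : ℕ) (c rho : Fin B → ℝ) (g s : ℝ)
    (hg : 0 < g) (hc : ∀ l, 0 < c l) (hc1 : ∀ l, c l ≤ 1 / 8) (hcr : ∀ l, c l * rho l = g)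
    (hs : s = ∑ l, rho l) (hbig : 4 * K0 * B * g ≤ s) :
    (2 / 3) * s ^ K0 ≤ ∑ a ∈ (univ : Finset (Fin K0 → Fin B)).filter (fun a => ∑ j, c (a j) ≤ 3 / 4),
      ∏ j, rho (a j) := by
  classical
  have hrho : ∀ l, 0 < rho l := fun l => by
    have := hcr l
    by_contra h
    push Not at h
    have : c l * rho l ≤ 0 := mul_nonpos_of_nonneg_of_nonpos (hc l).le h
    linarith
  rcases Nat.eq_zero_or_pos K0 with hK | hK
  · subst hK
    simp
    norm_num
  have hs0 : 0 ≤ s := by rw [hs]; exact Finset.sum_nonneg fun l _ => (hrho l).le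
  have htot : ∑ a : Fin K0 → Fin B, ∏ j, rho (a j) = s ^ K0 := by
    rw [sum_prod_fun (fun _ l => rho l), Finset.prod_const, Finset.card_univ, Fintype.card_fin, hs]
  have hsplit := Finset.sum_filter_add_sum_filter_not (univ : Finset (Fin K0 → Fin B))
    (fun a => ∑ j, c (a j) ≤ 3 / 4) (fun a => ∏ j, rho (a j))
  rw [htot] at hsplit
  have hbad : ∑ a ∈ (univ : Finset (Fin K0 → Fin B)).filter (fun a => ¬ ∑ j, c (a j) ≤ 3 / 4),
      ∏ j, rho (a j) ≤ (4 / 3) * ∑ a : Fin K0 → Fin B, (∑ j, c (a j)) * ∏ j, rho (a j) := by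
    rw [Finset.mul_sum]
    calc _ ≤ ∑ a ∈ (univ : Finset (Fin K0 → Fin B)).filter (fun a => ¬ ∑ j, c (a j) ≤ 3 / 4),
          4 / 3 * ((∑ j, c (a j)) * ∏ j, rho (a j)) := by
            refine Finset.sum_le_sum fun a ha => ?_
            rw [Finset.mem_filter, not_le] at ha
            have hp : 0 ≤ ∏ j, rho (a j) := Finset.prod_nonneg fun j _ => (hrho _).le
            nlinarith [ha.2]
      _ ≤ _ := by
            apply Finset.sum_le_sum_of_subset_of_nonneg (Finset.filter_subset _ _)
            intro a _ _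
            have hp : 0 ≤ ∏ j, rho (a j) := Finset.prod_nonneg fun j _ => (hrho _).le
            have hq : 0 ≤ ∑ j, c (a j) := Finset.sum_nonneg fun j _ => (hc _).le
            positivity
  have hone : ∀ j : Fin K0, (∑ a : Fin K0 → Fin B, c (a j) * ∏ k, rho (a k)) * s = (B * g) * s ^ K0 := by
    intro j
    have h1 : ∀ a : Fin K0 → Fin B, c (a j) * ∏ k, rho (a k) =
        ∏ k, (fun (k : Fin K0) (l : Fin B) => if k = j then g else rho l) k (a k) := by
      intro a
      rw [← Finset.mul_prod_erase univ _ (Finset.mem_univ j), ← mul_assoc, hcr,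
        ← Finset.mul_prod_erase univ (fun k => (fun (k : Fin K0) (l : Fin B) => if k = j then g else rho l) k (a k))
          (Finset.mem_univ j)]
      simp only [if_true]
      congr 1
      refine Finset.prod_congr rfl fun k hk => ?_
      rw [if_neg (Finset.ne_of_mem_erase hk)]
    rw [Finset.sum_congr rfl (fun a _ => h1 a),
      sum_prod_fun (fun (k : Fin K0) (l : Fin B) => if k = j then g else rho l),
      ← Finset.mul_prod_erase univ _ (Finset.mem_univ j)]
    simp only [if_true]
    rw [Finset.sum_const, Finset.card_univ, Fintype.card_fin, nsmul_eq_mul]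
    have h2 : ∏ k ∈ univ.erase j, (∑ l : Fin B, if k = j then g else rho l) = s ^ (K0 - 1) := by
      rw [Finset.prod_congr rfl (g := fun _ => s)]
      · rw [Finset.prod_const, Finset.card_erase_of_mem (Finset.mem_univ j), Finset.card_univ, Fintype.card_fin]
      · intro k hk
        simp only [if_neg (Finset.ne_of_mem_erase hk)]
        exact hs.symm
    rw [h2, mul_assoc, ← pow_succ, Nat.sub_add_cancel hK]
  have hexch : (∑ a : Fin K0 → Fin B, (∑ j, c (a j)) * ∏ j, rho (a j)) * s = K0 * ((B * g) * s ^ K0) := by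
    have : (∑ a : Fin K0 → Fin B, (∑ j, c (a j)) * ∏ j, rho (a j)) * s =
        ∑ j : Fin K0, (∑ a : Fin K0 → Fin B, c (a j) * ∏ k, rho (a k)) * s := by
      rw [← Finset.sum_mul, Finset.sum_comm]
      congr 1
      refine Finset.sum_congr rfl fun a _ => ?_
      rw [Finset.sum_mul]
    rw [this, Finset.sum_congr rfl (fun j _ => hone j), Finset.sum_const, Finset.card_univ,
      Fintype.card_fin, nsmul_eq_mul]
  set U := ∑ a : Fin K0 → Fin B, (∑ j, c (a j)) * ∏ j, rho (a j) with hU
  set bad := ∑ a ∈ (univ : Finset (Fin K0 → Fin B)).filter (fun a => ¬ ∑ j, c (a j) ≤ 3 / 4),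
      ∏ j, rho (a j) with hbaddef
  set good := ∑ a ∈ (univ : Finset (Fin K0 → Fin B)).filter (fun a => ∑ j, c (a j) ≤ 3 / 4),
      ∏ j, rho (a j) with hgood
  -- show bad ≤ s^K0/3
  have hbad2 : bad ≤ s ^ K0 / 3 := by
    rcases hs0.eq_or_lt with h0 | hpos
    · -- s = 0 : no indices
      have hB : IsEmpty (Fin B) := by
        by_contra hne
        rw [not_isEmpty_iff] at hne
        have : 0 < ∑ l, rho l := Finset.sum_pos (fun l _ => hrho l) Finset.univ_nonempty
        rw [← hs, ← h0] at this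
        exact lt_irrefl _ this
      have hE : IsEmpty (Fin K0 → Fin B) := ⟨fun a => hB.false (a ⟨0, hK⟩)⟩
      have : bad = 0 := by
        rw [hbaddef]
        apply Finset.sum_eq_zero
        intro a
        exact (hE.false a).elim
      rw [this]
      positivity
    · have h1 : bad * s ≤ (s ^ K0 / 3) * s := by
        calc bad * s ≤ (4 / 3 * U) * s := mul_le_mul_of_nonneg_right hbad hpos.le
          _ = 4 / 3 * (U * s) := by ring
          _ = 4 / 3 * (K0 * ((B * g) * s ^ K0)) := by rw [hexch]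
          _ = (4 * K0 * B * g) * (s ^ K0 / 3) := by ring
          _ ≤ s * (s ^ K0 / 3) := mul_le_mul_of_nonneg_right hbig (by positivity)
          _ = _ := by ring
      exact le_of_mul_le_mul_right h1 hpos
  linarith

end Pool.Agent.H378R2
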