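import Mathlib
import Pool.Agent.H50.G.S.H378R2.Defs
open Finset
open scoped ContDiff

/-! The statements of the modules as propositions. -/

namespace Pool.Agent.H378R2

open Classical in
/-- (LS) -/
def LsSum : Prop := ∃ C X0 : ℝ, ∀ X : ℝ, X0 ≤ X →
    ∑ f ∈ Icc 2 ⌊X ^ (1 / 50 : ℝ)⌋₊,
      ∑ χ ∈ (univ : Finset (DirichletCharacter ℂ f)).filter (fun χ => χ.IsPrimitive), ‖psiPhi χ X‖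
      ≤ C * X * (Real.log X) ^ 8

/-- (BV) -/
def BVrel : Prop := ∀ (A Z : ℕ), ∃ X0 : ℝ, ∀ X : ℝ, X0 ≤ X →
    ∃ (ps : ℕ) (S : Finset ℕ), GoodP Z ps ∧ GoodS X S ∧
      ∀ b : ℕ → ℕ, (∀ q, 1 ≤ q → (b q).Coprime (WW X S ps * q)) →
      ∑ q ∈ (Icc 1 ⌊X ^ (1 / 100 : ℝ)⌋₊).filter
          (fun q => Squarefree q ∧ q.Coprime (WW X S ps * ps)),
        (q.divisors.card : ℝ) ^ A * |EPhi X (WW X S ps * q) (b q)|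
        ≤ X / ((Nat.totient (WW X S ps) : ℝ) * (Real.log X) ^ A)

/-- (M5) -/
def SieveAsymp : Prop := ∀ (J : ℕ) (F G : Fin J → ℝ → ℝ)
    (_ : ∀ j, ContDiff ℝ ∞ (F j)) (_ : ∀ j, ContDiff ℝ ∞ (G j))
    (_ : ∀ j, HasCompactSupport (F j)) (_ : ∀ j, HasCompactSupport (G j))
    (ε : ℝ) (_ : 0 < ε),
    ∃ δ : ℝ, 0 < δ ∧ ∀ (L : ℝ) (E : Fin J → Finset ℕ) (w : ℕ → Fin J → ℝ) (R : ℕ),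
      1 / δ ≤ L →
      (∀ j x, Real.log R / L < x → F j x = 0 ∧ G j x = 0) →
      (∀ j, ∀ p ∈ E j, p.Prime) →
      (∀ j, ∀ p : ℕ, p.Prime → (p : ℝ) ≤ 1 / δ → p ∈ E j) →
      (∀ j, ∑ p ∈ E j, Real.log p / p ≤ L ^ (1 / 4 : ℝ)) →
      (∀ j, ∑ p ∈ E j, (1 : ℝ) / p ≤ Real.log L / 32) →
      (∀ j, ∀ p : ℕ, p.Prime → p ∉ E j → |w p j - 1 / p| ≤ 2 / (p : ℝ) ^ 2) →
      |(∏ j, (L * ∏ p ∈ E j, (1 - 1 / (p : ℝ)))) * sieveSum J F G L E w R -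
        ∏ j, ∫ t in Set.Ioi (0 : ℝ), deriv (F j) t * deriv (G j) t| ≤ ε

/-- (M6) -/
def Cover : Prop := ∀ (m : ℕ) (_ : ∃ a, m = 2 ^ a) (δ : ℝ) (_ : 0 < δ) (K : ℕ),
    ∃ z Z : ℕ, K ≤ z ∧ z ≤ Z ∧ ∃ X0 : ℝ, ∀ X : ℝ, X0 ≤ X → ∀ (ps : ℕ) (S : Finset ℕ),
      GoodP Z ps → GoodS X S →
      ∃ a : ℕ, ⌊2 * Real.log X⌋₊ < a ∧ (∀ p ∈ PW X S ps, z < p → p ∣ a) ∧
        (∀ p : ℕ, p.Prime → p ≤ z → ¬ p ∣ a) ∧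
        ∑ s ∈ Icc 1 ⌊2 * Real.log X⌋₊, (1 : ℝ) / (Nat.gcd (m * a - s) (WW X S ps) : ℝ) ≤
          δ * Real.log X / Real.log (Real.log X)

/-- (M7) -/
def MainThm : Prop := ∀ (m r : ℕ) (_ : ∃ a, m = 2 ^ a) (ε : ℝ) (_ : 0 < ε),
    ∃ (H : ℕ) (X0 : ℝ), ∀ X : ℝ, X0 ≤ X → ∀ bad : Finset ℕ, (bad.card : ℝ) ≤ (Real.log X) ^ 4 →
      ∃ (n : ℕ) (C : Finset ℕ), X ≤ (m * n : ℕ) ∧ ((m * n : ℕ) : ℝ) ≤ X ^ (3 / 2 : ℝ) ∧ m * n ∉ bad ∧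
        C ⊆ Icc 1 H ∧ r ≤ (C.filter (fun c => (n + c).Prime)).card ∧
        (∀ c ∈ C, m * c ≤ H) ∧
        ∑ j ∈ (Icc (m * n - ⌊2 * Real.log X⌋₊) (m * n + H)) \ (C.image (fun c => m * (n + c))),
          Gp X j ≤ ε

/-- the core statement about steps -/
def CoreStmt : Prop := ∀ ε Y : ℝ, 0 < ε → ∃ (H : ℕ) (X0 : ℝ), ∀ X : ℝ, X0 ≤ X →
  ∀ bad : Finset ℕ, (bad.card : ℝ) ≤ (Real.log X) ^ 4 →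
  ∃ (N : ℕ) (C : Finset ℕ), X ≤ (N : ℝ) ∧ (N : ℝ) ≤ X ^ (3 / 2 : ℝ) ∧ N ∉ bad ∧
    C ⊆ Icc (N + 1) (N + H) ∧
    ∑ j ∈ (Icc (N - ⌊2 * Real.log X⌋₊) (N + H)) \ C, lg j ≤ ε ∧
    (∀ j ∈ C, lg j ≤ ε) ∧ Y ≤ ∑ j ∈ C, lg j

end Pool.Agent.H378R2
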