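import Mathlib
import Pool.Agent.H50.G.S.H378R2.Props
import Pool.Agent.H50.G.S.Erdos456.Mertens
open Finset Filter
open scoped ContDiff

namespace Pool.Agent.H378R2

open Pool.Agent.Erdos456.Mert (PP)

/-- sieve level in log scale -/
noncomputable def LL (X : ℝ) : ℝ := Real.log X / 200

noncomputable def RR (X : ℝ) : ℕ := ⌊Real.exp (LL X)⌋₊

/-- largest prime set used -/
noncomputable def Esup (X : ℝ) (ps : ℕ) : Finset ℕ :=
  PP ⌊(2 * Real.log X) ^ 3⌋₊ ∪ ({ps} : Finset ℕ).filter Nat.Prime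

noncomputable def BE (E : Finset ℕ) : ℝ := ∏ p ∈ E, (1 - 1 / (p : ℝ))

theorem mem_PP {N p : ℕ} : p ∈ PP N ↔ (1 ≤ p ∧ p ≤ N) ∧ p.Prime := by
  unfold PP
  rw [Finset.mem_filter, Finset.mem_Icc]

theorem mem_PP' {N p : ℕ} : p ∈ PP N ↔ p ≤ N ∧ p.Prime := by
  rw [mem_PP]
  constructor
  · rintro ⟨⟨_, h⟩, hp⟩; exact ⟨h, hp⟩
  · rintro ⟨h, hp⟩; exact ⟨⟨hp.one_lt.le, h⟩, hp⟩

theorem one_sub_ge_exp {x : ℝ} (h0 : 0 ≤ x) (h1 : x ≤ 1 / 2) : Real.exp (-x - 2 * x ^ 2) ≤ 1 - x := by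
  have h2 : 0 < 1 - x := by linarith
  rw [← Real.le_log_iff_exp_le h2]
  have h3 := Real.one_sub_inv_le_log_of_pos h2
  have h4 : 1 - (1 - x)⁻¹ = -x / (1 - x) := by
    field_simp
    ring
  rw [h4] at h3
  refine le_trans ?_ h3
  rw [le_div_iff₀ h2]
  nlinarith [mul_nonneg h0 (sq_nonneg x), mul_nonneg h0 (by linarith : 0 ≤ 1 / 2 - x),
    mul_nonneg (mul_nonneg h0 h0) (by linarith : 0 ≤ 1 / 2 - x)]

theorem one_sub_prime_pos {p : ℕ} (hp : p.Prime) : 0 < 1 - 1 / (p : ℝ) := by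
  have : (1 : ℝ) < p := by exact_mod_cast hp.one_lt
  have h2 : 1 / (p : ℝ) < 1 := by
    rw [div_lt_one (by linarith)]; exact this
  linarith

theorem BE_pos {E : Finset ℕ} (hE : ∀ p ∈ E, p.Prime) : 0 < BE E :=
  Finset.prod_pos fun p hp => one_sub_prime_pos (hE p hp)

theorem BE_le_one {E : Finset ℕ} (hE : ∀ p ∈ E, p.Prime) : BE E ≤ 1 := by
  unfold BE
  apply Finset.prod_le_one
  · intro p hp; exact (one_sub_prime_pos (hE p hp)).le
  · intro p hp
    have : (0 : ℝ) ≤ 1 / p := by positivity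
    linarith

theorem BE_anti {E E' : Finset ℕ} (h : E ⊆ E') (hE : ∀ p ∈ E', p.Prime) : BE E' ≤ BE E := by
  unfold BE
  rw [← Finset.prod_sdiff h]
  have h1 : ∏ p ∈ E' \ E, (1 - 1 / (p : ℝ)) ≤ 1 :=
    BE_le_one (E := E' \ E) (fun p hp => hE p (Finset.mem_sdiff.1 hp).1)
  have h2 : 0 < ∏ p ∈ E, (1 - 1 / (p : ℝ)) := BE_pos (E := E) (fun p hp => hE p (h hp))
  nlinarith

theorem sum_inv_sq_leB (E : Finset ℕ) (hE : ∀ p ∈ E, 1 ≤ p) : ∑ p ∈ E, (1 : ℝ) / (p : ℝ) ^ 2 ≤ 2 := by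
  have h1 : E ⊆ Icc 1 (E.sup id) := by
    intro p hp
    rw [Finset.mem_Icc]
    exact ⟨hE p hp, Finset.le_sup (f := id) hp⟩
  refine (Finset.sum_le_sum_of_subset_of_nonneg h1 (fun _ _ _ => by positivity)).trans ?_
  generalize E.sup id = N
  have : ∀ N : ℕ, ∑ p ∈ Icc 1 N, (1 : ℝ) / (p : ℝ) ^ 2 ≤ 2 - 1 / ((N : ℝ) + 1) := by
    intro N
    induction N with
    | zero => norm_num
    | succ N ih =>
      rw [Finset.sum_Icc_succ_top (by omega)]
      have h2 : (1 : ℝ) / ((N + 1 : ℕ) : ℝ) ^ 2 ≤ 1 / ((N : ℝ) + 1) - 1 / ((N : ℝ) + 2) + (1 / ((N : ℝ) + 1) ^ 2 - 1 / (((N : ℝ) + 1) * (N + 2))) := by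
        push_cast
        have h3 : 1 / ((N : ℝ) + 1) - 1 / ((N : ℝ) + 2) = 1 / (((N : ℝ) + 1) * (N + 2)) := by
          field_simp; ring
        rw [h3]
        linarith
      rcases Nat.eq_zero_or_pos N with h0 | h0
      · subst h0
        norm_num
      · have hN : (1 : ℝ) ≤ N := by exact_mod_cast h0
        -- direct: 1/(N+1)^2 <= 1/N - 1/(N+1); use weaker bookkeeping
        have h4 : ∀ M : ℕ, 1 ≤ M → ∑ p ∈ Icc 1 M, (1 : ℝ) / (p : ℝ) ^ 2 ≤ 2 - 1 / (M : ℝ) := by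
          intro M hM
          induction M, hM using Nat.le_induction with
          | base => norm_num
          | succ M hM ih2 =>
            rw [Finset.sum_Icc_succ_top (by omega)]
            have hM' : (1 : ℝ) ≤ M := by exact_mod_cast hM
            have h5 : (1 : ℝ) / ((M + 1 : ℕ) : ℝ) ^ 2 ≤ 1 / (M : ℝ) - 1 / ((M + 1 : ℕ) : ℝ) := by
              push_cast
              rw [div_sub_div _ _ (by positivity) (by positivity), div_le_div_iff₀ (by positivity) (by positivity)]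
              nlinarith
            linarith
        have h6 := h4 (N + 1) (by omega)
        rw [Finset.sum_Icc_succ_top (by omega)] at h6
        have h7 : (1 : ℝ) / (((N + 1 : ℕ) : ℝ) + 1) ≤ 1 / ((N + 1 : ℕ) : ℝ) := by
          apply one_div_le_one_div_of_le (by positivity)
          linarith
        linarith
  have h3 := this N
  have h4 : (0 : ℝ) ≤ 1 / ((N : ℝ) + 1) := by positivity
  linarith

theorem BE_ge {E : Finset ℕ} (hE : ∀ p ∈ E, p.Prime) :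
    Real.exp (-(∑ p ∈ E, (1 : ℝ) / p) - 4) ≤ BE E := by
  unfold BE
  have h1 : ∏ p ∈ E, Real.exp (-(1 / (p : ℝ)) - 2 * (1 / (p : ℝ)) ^ 2) ≤ ∏ p ∈ E, (1 - 1 / (p : ℝ)) := by
    apply Finset.prod_le_prod (fun p _ => (Real.exp_pos _).le)
    intro p hp
    apply one_sub_ge_exp (by positivity)
    have : (2 : ℝ) ≤ p := by exact_mod_cast (hE p hp).two_le
    exact one_div_le_one_div_of_le (by norm_num) this
  refine le_trans ?_ h1
  rw [← Real.exp_sum]
  apply Real.exp_le_exp.2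
  rw [Finset.sum_sub_distrib, Finset.sum_neg_distrib, ← Finset.mul_sum]
  have h2 := sum_inv_sq_leB E (fun p hp => (hE p hp).one_lt.le)
  have h3 : ∑ p ∈ E, (1 / (p : ℝ)) ^ 2 = ∑ p ∈ E, (1 : ℝ) / (p : ℝ) ^ 2 := by
    refine Finset.sum_congr rfl fun p _ => ?_
    rw [div_pow, one_pow]
  rw [h3]
  linarith

end Pool.Agent.H378R2
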