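import Mathlib
import Pool.Agent.H50.G.S.H398R2.BA2
import Pool.Agent.H50.G.S.H378R2.LSBV1
/-! Discrepancy of the weighted sums in terms of primitive characters. -/

open Finset

namespace Pool.Agent.H378R2.LSBV

open Pool.Agent.Helper112 Pool.Agent.Helper112.BLB Pool.Agent.H410R2 Pool.Agent.H398R2.BV

theorem Phi_nonneg (u : ℝ) : 0 ≤ Phi u := le_max_left _ _

theorem Phi_le_one (u : ℝ) : Phi u ≤ 1 := by
  unfold Phi
  apply max_le (by norm_num)
  have := abs_nonneg (Real.log u - 1 / 2)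
  linarith

/-- bound for the sum over integers not coprime to `m` -/
theorem sum_ncPhi (X : ℝ) (hX : 1 ≤ X) (m : ℕ) (hm : 1 ≤ m) :
    ∑ n ∈ (Icc 1 ⌊3 * X⌋₊).filter (fun n => ¬ n.Coprime m),
      Phi (n / X) * ArithmeticFunction.vonMangoldt n ≤
      m.primeFactors.card * Real.log (3 * X) := by
  calc ∑ n ∈ (Icc 1 ⌊3 * X⌋₊).filter (fun n => ¬ n.Coprime m),
      Phi (n / X) * ArithmeticFunction.vonMangoldt n ≤
      ∑ n ∈ (Icc 1 ⌊3 * X⌋₊).filter (fun n => ¬ n.Coprime m),
      ArithmeticFunction.vonMangoldt n := by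
        apply sum_le_sum
        intro n _
        calc Phi (n / X) * ArithmeticFunction.vonMangoldt n ≤
            1 * ArithmeticFunction.vonMangoldt n :=
              mul_le_mul_of_nonneg_right (Phi_le_one _) ArithmeticFunction.vonMangoldt_nonneg
          _ = _ := one_mul _
    _ ≤ m.primeFactors.card * Real.log ⌊3 * X⌋₊ := sum_not_coprime _ m hm
    _ ≤ m.primeFactors.card * Real.log (3 * X) := by
        apply mul_le_mul_of_nonneg_left _ (by positivity)
        exact log_natCast_le _ (3 * X) (by linarith) (Nat.floor_le (by linarith))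

open Classical in
theorem EPhi_char (X : ℝ) (m a : ℕ) [NeZero m] (ha : a.Coprime m) :
    |∑ n ∈ (Icc 1 ⌊3 * X⌋₊).filter (fun n => n ≡ a [MOD m]),
      Phi (n / X) * ArithmeticFunction.vonMangoldt n - (1 / (Nat.totient m : ℝ)) *
      ∑ n ∈ (Icc 1 ⌊3 * X⌋₊).filter (fun n => n.Coprime m),
        Phi (n / X) * ArithmeticFunction.vonMangoldt n| ≤
    (1 / (Nat.totient m : ℝ)) *
      ∑ χ ∈ (univ : Finset (DirichletCharacter ℂ m)).filter (fun χ => χ ≠ 1),
        ‖psiPhi χ X‖ := by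
  have key : ((∑ n ∈ (Icc 1 ⌊3 * X⌋₊).filter (fun n => n ≡ a [MOD m]),
      Phi (n / X) * ArithmeticFunction.vonMangoldt n - (1 / (Nat.totient m : ℝ)) *
      ∑ n ∈ (Icc 1 ⌊3 * X⌋₊).filter (fun n => n.Coprime m),
        Phi (n / X) * ArithmeticFunction.vonMangoldt n : ℝ) : ℂ) =
      (1 / (Nat.totient m : ℂ)) *
      ∑ χ ∈ (univ : Finset (DirichletCharacter ℂ m)).filter (fun χ => χ ≠ 1),
        χ ((a : ZMod m)⁻¹) * psiPhi χ X := by
    have h1 : ∑ n ∈ (Icc 1 ⌊3 * X⌋₊).filter (fun n => n ≡ a [MOD m]),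
      Phi (n / X) * ArithmeticFunction.vonMangoldt n - (1 / (Nat.totient m : ℝ)) *
        ∑ n ∈ (Icc 1 ⌊3 * X⌋₊).filter (fun n => n.Coprime m),
          Phi (n / X) * ArithmeticFunction.vonMangoldt n =
        ∑ n ∈ Icc 1 ⌊3 * X⌋₊, Phi (n / X) * ArithmeticFunction.vonMangoldt n *
          ((if n ≡ a [MOD m] then (1 : ℝ) else 0) -
            (if n.Coprime m then (1 : ℝ) / (Nat.totient m : ℝ) else 0)) := by
      rw [sum_filter, sum_filter, mul_sum, ← sum_sub_distrib]
      apply sum_congr rfl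
      intro n _
      split_ifs <;> ring
    rw [h1, Complex.ofReal_sum, mul_sum]
    have h2 : ∀ n ∈ Icc 1 ⌊3 * X⌋₊, ((Phi (n / X) * ArithmeticFunction.vonMangoldt n *
          ((if n ≡ a [MOD m] then (1 : ℝ) else 0) -
            (if n.Coprime m then (1 : ℝ) / (Nat.totient m : ℝ) else 0)) : ℝ) : ℂ) =
        ∑ χ ∈ (univ : Finset (DirichletCharacter ℂ m)).filter (fun χ => χ ≠ 1),
          (1 / (Nat.totient m : ℂ)) * (χ ((a : ZMod m)⁻¹) *
            (((Phi (n / X) * ArithmeticFunction.vonMangoldt n : ℝ) : ℂ) * χ (n : ZMod m))) := by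
      intro n _
      rw [Complex.ofReal_mul, bracket m a ha n, mul_sum, mul_sum]
      apply sum_congr rfl
      intro χ _
      push_cast
      ring
    rw [sum_congr rfl h2, sum_comm]
    apply sum_congr rfl
    intro χ _
    unfold psiPhi
    rw [mul_sum, mul_sum]
  rw [← Real.norm_eq_abs, ← Complex.norm_real, key, norm_mul]
  have h1 : ‖(1 / (Nat.totient m : ℂ))‖ = 1 / (Nat.totient m : ℝ) := by
    rw [norm_div, norm_one, Complex.norm_natCast]
  rw [h1]
  apply mul_le_mul_of_nonneg_left _ (by positivity)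
  refine (norm_sum_le _ _).trans (sum_le_sum ?_)
  intro χ _
  rw [norm_mul]
  have : ‖χ ((a : ZMod m)⁻¹)‖ ≤ 1 := χ.norm_le_one _
  calc _ ≤ 1 * ‖psiPhi χ X‖ := mul_le_mul_of_nonneg_right this (norm_nonneg _)
    _ = _ := one_mul _

theorem psiPhi_changeLevel (X : ℝ) (hX : 1 ≤ X) (m f : ℕ) (hm : 1 ≤ m) (h : f ∣ m)
    (ψ : DirichletCharacter ℂ f) :
    ‖psiPhi (DirichletCharacter.changeLevel h ψ) X‖ ≤
      ‖psiPhi ψ X‖ + m.primeFactors.card * Real.log (3 * X) := by
  have hf : NeZero m := ⟨by omega⟩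
  have e : psiPhi (DirichletCharacter.changeLevel h ψ) X = psiPhi ψ X -
      ∑ n ∈ (Icc 1 ⌊3 * X⌋₊).filter (fun n => ¬ n.Coprime m),
        ((Phi (n / X) * ArithmeticFunction.vonMangoldt n : ℝ) : ℂ) * ψ (n : ZMod f) := by
    unfold psiPhi
    rw [sum_filter, ← sum_sub_distrib]
    apply sum_congr rfl
    intro n _
    by_cases hn : n.Coprime m
    · have h1 := DirichletCharacter.changeLevel_eq_cast_of_dvd' ψ h (a := (n : ℤ))
        (by exact_mod_cast Nat.isCoprime_iff_coprime.mpr hn)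
      push_cast at h1
      rw [h1, if_neg (not_not.mpr hn), sub_zero]
    · rw [MulChar.map_nonunit _ (fun hu => hn ((ZMod.isUnit_iff_coprime n _).mp hu)), if_pos hn]
      ring
  rw [e]
  refine (norm_sub_le _ _).trans ?_
  apply add_le_add_right
  refine (norm_sum_le _ _).trans ?_
  refine le_trans ?_ (sum_ncPhi X hX m hm)
  apply sum_le_sum
  intro n hn
  rw [mem_filter] at hn
  have h2 := ψ.norm_le_one (n : ZMod f)
  have h3 : 0 ≤ Phi (n / X) * ArithmeticFunction.vonMangoldt n :=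
    mul_nonneg (Phi_nonneg _) ArithmeticFunction.vonMangoldt_nonneg
  rw [norm_mul, Complex.norm_real, Real.norm_eq_abs, abs_of_nonneg h3]
  calc Phi (n / X) * ArithmeticFunction.vonMangoldt n * ‖ψ (n : ZMod f)‖ ≤
      Phi (n / X) * ArithmeticFunction.vonMangoldt n * 1 := mul_le_mul_of_nonneg_left h2 h3
    _ = _ := by ring

/-- the sum over primitive characters -/
noncomputable def TT (X : ℝ) (f : ℕ) : ℝ := ∑ ψ ∈ Prim f, ‖psiPhi ψ X‖

theorem TT_nonneg (X : ℝ) (f : ℕ) : 0 ≤ TT X f := sum_nonneg fun _ _ => norm_nonneg _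

/-- the discrepancy for one modulus -/
theorem EPhi_le (X : ℝ) (hX : 1 ≤ X) (m a : ℕ) (hm : 1 ≤ m) (ha : a.Coprime m) :
    |EPhi X m a| ≤
      (1 / (Nat.totient m : ℝ)) * (∑ f ∈ m.divisors.filter (fun f => f ≠ 1), TT X f) +
        2 * (m.primeFactors.card * Real.log (3 * X)) := by
  classical
  have : NeZero m := ⟨by omega⟩
  set E := (m.primeFactors.card : ℝ) * Real.log (3 * X) with hE
  have hlog : 0 ≤ Real.log (3 * X) := Real.log_nonneg (by linarith)
  have hE0 : 0 ≤ E := by positivity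
  have hφ : (1:ℝ) ≤ Nat.totient m := by exact_mod_cast Nat.totient_pos.mpr (by omega)
  have h1 := EPhi_char X m a ha
  -- characters
  have h2 := step2 m (fun χ => max (‖psiPhi χ X‖ - E) 0)
    (fun χ => le_max_right _ _) (fun f ψ => ‖psiPhi ψ X‖) (by
      intro f h ψ
      apply max_le _ (norm_nonneg _)
      have := psiPhi_changeLevel X hX m f hm h ψ
      linarith)
  have h3 : ∑ χ ∈ (univ : Finset (DirichletCharacter ℂ m)).filter (fun χ => χ ≠ 1),
        ‖psiPhi χ X‖ ≤
      (∑ f ∈ m.divisors.filter (fun f => f ≠ 1), TT X f) + Nat.totient m * E := by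
    calc ∑ χ ∈ (univ : Finset (DirichletCharacter ℂ m)).filter (fun χ => χ ≠ 1),
        ‖psiPhi χ X‖ ≤
        ∑ χ ∈ (univ : Finset (DirichletCharacter ℂ m)).filter (fun χ => χ ≠ 1),
          (max (‖psiPhi χ X‖ - E) 0 + E) := by
          apply sum_le_sum
          intro χ _
          have := le_max_left (‖psiPhi χ X‖ - E) 0
          linarith
      _ = ∑ χ ∈ (univ : Finset (DirichletCharacter ℂ m)).filter (fun χ => χ ≠ 1),
          max (‖psiPhi χ X‖ - E) 0 +
          (((univ : Finset (DirichletCharacter ℂ m)).filter (fun χ => χ ≠ 1)).card : ℝ) * E := by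
          rw [sum_add_distrib, sum_const, nsmul_eq_mul]
      _ ≤ _ := by
          apply add_le_add
          · exact h2
          · apply mul_le_mul_of_nonneg_right _ hE0
            have h4 := DirichletCharacter.card_eq_totient_of_hasEnoughRootsOfUnity ℂ m
            rw [← h4, Nat.card_eq_fintype_card]
            exact_mod_cast (card_filter_le _ _)
  -- principal character
  have h5 : ∑ n ∈ Icc 1 ⌊3 * X⌋₊, Phi (n / X) * ArithmeticFunction.vonMangoldt n -
      ∑ n ∈ (Icc 1 ⌊3 * X⌋₊).filter (fun n => n.Coprime m),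
        Phi (n / X) * ArithmeticFunction.vonMangoldt n =
      ∑ n ∈ (Icc 1 ⌊3 * X⌋₊).filter (fun n => ¬ n.Coprime m),
        Phi (n / X) * ArithmeticFunction.vonMangoldt n := by
    rw [← sum_filter_add_sum_filter_not (Icc 1 ⌊3 * X⌋₊) (fun n => n.Coprime m)]
    ring
  have h6 := sum_ncPhi X hX m hm
  have h7 : 0 ≤ ∑ n ∈ (Icc 1 ⌊3 * X⌋₊).filter (fun n => ¬ n.Coprime m),
        Phi (n / X) * ArithmeticFunction.vonMangoldt n := by
    apply sum_nonneg
    intro n _
    exact mul_nonneg (Phi_nonneg _) ArithmeticFunction.vonMangoldt_nonneg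
  set P0 := ∑ n ∈ (Icc 1 ⌊3 * X⌋₊).filter (fun n => n.Coprime m),
        Phi (n / X) * ArithmeticFunction.vonMangoldt n with hP0
  set P1 := ∑ n ∈ Icc 1 ⌊3 * X⌋₊, Phi (n / X) * ArithmeticFunction.vonMangoldt n with hP1
  have h8 : |(1 / (Nat.totient m : ℝ)) * P0 - (1 / (Nat.totient m : ℝ)) * P1| ≤ E := by
    have : (1 / (Nat.totient m : ℝ)) * P0 - (1 / (Nat.totient m : ℝ)) * P1 =
        -((P1 - P0) / (Nat.totient m : ℝ)) := by ring
    rw [this, abs_neg, h5, abs_of_nonneg (by positivity)]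
    rw [div_le_iff₀ (by linarith)]
    calc _ ≤ E := h6
      _ = E * 1 := by ring
      _ ≤ E * (Nat.totient m : ℝ) := mul_le_mul_of_nonneg_left hφ hE0
  have h9 : (1 / (Nat.totient m : ℝ)) *
      ∑ χ ∈ (univ : Finset (DirichletCharacter ℂ m)).filter (fun χ => χ ≠ 1),
        ‖psiPhi χ X‖ ≤
      (1 / (Nat.totient m : ℝ)) * (∑ f ∈ m.divisors.filter (fun f => f ≠ 1), TT X f) + E := by
    calc _ ≤ (1 / (Nat.totient m : ℝ)) * ((∑ f ∈ m.divisors.filter (fun f => f ≠ 1),
        TT X f) + Nat.totient m * E) :=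
          mul_le_mul_of_nonneg_left h3 (by positivity)
      _ = _ := by
          have : (Nat.totient m : ℝ) ≠ 0 := by positivity
          field_simp
  unfold EPhi
  rw [← hP1]
  calc _ = |(∑ n ∈ (Icc 1 ⌊3 * X⌋₊).filter (fun n => n ≡ a [MOD m]),
          Phi (n / X) * ArithmeticFunction.vonMangoldt n - (1 / (Nat.totient m : ℝ)) * P0) +
        ((1 / (Nat.totient m : ℝ)) * P0 - (1 / (Nat.totient m : ℝ)) * P1)| := by
        congr 1; ring
    _ ≤ _ := abs_add_le _ _
    _ ≤ _ := by linarith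

end Pool.Agent.H378R2.LSBV
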