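import Mathlib
import Pool.Agent.H50.G.S.H378R2.LSBV2
/-! Divisor sum manipulations for the relative Bombieri-Vinogradov theorem. -/

open Finset

namespace Pool.Agent.H378R2.LSBV

open Pool.Agent.Helper112 Pool.Agent.H398R2.BV

theorem gcd_left_of_coprime {a b W q : ℕ} (h : W.Coprime q) (ha : a ∣ W) (hb : b ∣ q) :
    Nat.gcd (a * b) W = a := by
  have h1 : b.Coprime W := (h.symm.coprime_dvd_left hb)
  rw [Nat.Coprime.gcd_mul_right_cancel a h1]
  exact Nat.gcd_eq_left ha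

theorem gcd_right_of_coprime {a b W q : ℕ} (h : W.Coprime q) (ha : a ∣ W) (hb : b ∣ q) :
    Nat.gcd (a * b) q = b := by
  rw [mul_comm]
  exact gcd_left_of_coprime h.symm hb ha

/-- divisors of a product of coprime numbers -/
theorem sum_divisors_coprime (T : ℕ → ℝ) (W q : ℕ) (hW : 1 ≤ W) (hq : 1 ≤ q)
    (h : W.Coprime q) :
    ∑ f ∈ (W * q).divisors.filter (fun f => f ≠ 1), T f =
      ∑ p ∈ (W.divisors ×ˢ q.divisors).filter (fun p => p.1 * p.2 ≠ 1), T (p.1 * p.2) := by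
  have key : ∀ f, f ∣ W * q → Nat.gcd f W * Nat.gcd f q = f := by
    intro f hf
    rw [← Nat.Coprime.gcd_mul f h]
    exact Nat.gcd_eq_left hf
  refine sum_nbij' (fun f => (Nat.gcd f W, Nat.gcd f q)) (fun p => p.1 * p.2) ?_ ?_ ?_ ?_ ?_
  · intro f hf
    rw [mem_filter, Nat.mem_divisors] at hf
    rw [mem_filter, mem_product, Nat.mem_divisors, Nat.mem_divisors]
    refine ⟨⟨⟨Nat.gcd_dvd_right _ _, by omega⟩, ⟨Nat.gcd_dvd_right _ _, by omega⟩⟩, ?_⟩
    simp only
    rw [key f hf.1.1]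
    exact hf.2
  · intro p hp
    rw [mem_filter, mem_product, Nat.mem_divisors, Nat.mem_divisors] at hp
    rw [mem_filter, Nat.mem_divisors]
    refine ⟨⟨Nat.mul_dvd_mul hp.1.1.1 hp.1.2.1, by positivity⟩, hp.2⟩
  · intro f hf
    rw [mem_filter, Nat.mem_divisors] at hf
    exact key f hf.1.1
  · intro p hp
    rw [mem_filter, mem_product, Nat.mem_divisors, Nat.mem_divisors] at hp
    ext
    · exact gcd_left_of_coprime h hp.1.1.1 hp.1.2.1
    · exact gcd_right_of_coprime h hp.1.1.1 hp.1.2.1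
  · intro f hf
    rw [mem_filter, Nat.mem_divisors] at hf
    simp only
    rw [key f hf.1.1]

/-- admissible cofactors -/
def QQ (W ps R : ℕ) : Finset ℕ :=
  (Icc 1 R).filter (fun q => Squarefree q ∧ q.Coprime (W * ps))

theorem mem_QQ {W ps R q : ℕ} :
    q ∈ QQ W ps R ↔ (1 ≤ q ∧ q ≤ R) ∧ Squarefree q ∧ q.Coprime (W * ps) := by
  unfold QQ
  rw [mem_filter, mem_Icc]

/-- weight -/
noncomputable def wt (A b : ℕ) : ℝ := (b.divisors.card : ℝ) ^ A / (Nat.totient b : ℝ)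

theorem wt_nonneg (A b : ℕ) : 0 ≤ wt A b := by unfold wt; positivity

theorem wt_mul_le (A b e : ℕ) (hb : 1 ≤ b) (he : 1 ≤ e) : wt A (b * e) ≤ wt A b * wt A e := by
  unfold wt
  rw [div_mul_div_comm, ← mul_pow]
  have h1 : (((b * e).divisors.card : ℕ) : ℝ) ≤ (b.divisors.card : ℝ) * e.divisors.card := by
    exact_mod_cast card_div_mul_le b e
  have h2 : (Nat.totient b : ℝ) * Nat.totient e ≤ Nat.totient (b * e) := by
    exact_mod_cast Nat.totient_super_multiplicative b e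
  have hb' : (0:ℝ) < Nat.totient b := by exact_mod_cast Nat.totient_pos.mpr hb
  have he' : (0:ℝ) < Nat.totient e := by exact_mod_cast Nat.totient_pos.mpr he
  apply div_le_div₀ (by positivity) _ (by positivity) h2
  exact pow_le_pow_left₀ (by positivity) h1 A

theorem sum_wt_dvd (A W ps R b : ℕ) (hb : 1 ≤ b) :
    ∑ q ∈ (QQ W ps R).filter (fun q => b ∣ q), wt A q ≤ wt A b * ∑ e ∈ Icc 1 R, wt A e := by
  have h1 : ∀ q ∈ (QQ W ps R).filter (fun q => b ∣ q), wt A q ≤ wt A b * wt A (q / b) := by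
    intro q hq
    rw [mem_filter, mem_QQ] at hq
    obtain ⟨⟨⟨hq1, _⟩, _⟩, hbq⟩ := hq
    have h2 : b * (q / b) = q := Nat.mul_div_cancel' hbq
    have h3 : 1 ≤ q / b := Nat.div_pos (Nat.le_of_dvd hq1 hbq) hb
    have := wt_mul_le A b (q / b) hb h3
    rwa [h2] at this
  refine (sum_le_sum h1).trans ?_
  rw [← mul_sum]
  apply mul_le_mul_of_nonneg_left _ (wt_nonneg A b)
  rw [← sum_image (f := fun e => wt A e) (g := fun q => q / b)]
  · apply sum_le_sum_of_subset_of_nonneg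
    · intro e he
      rw [mem_image] at he
      obtain ⟨q, hq, rfl⟩ := he
      rw [mem_filter, mem_QQ] at hq
      obtain ⟨⟨⟨hq1, hq2⟩, _⟩, hbq⟩ := hq
      rw [mem_Icc]
      exact ⟨Nat.div_pos (Nat.le_of_dvd hq1 hbq) hb, (Nat.div_le_self _ _).trans hq2⟩
    · intro e _ _
      exact wt_nonneg A e
  · intro q hq q' hq' h
    simp only [Finset.mem_coe, mem_filter] at hq hq'
    have h1 := Nat.div_mul_cancel hq.2
    have h2 := Nat.div_mul_cancel hq'.2
    simp only at h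
    rw [← h1, ← h2, h]

/-- swapping the summations -/
theorem main_swap (A : ℕ) (T : ℕ → ℝ) (hT : ∀ f, 0 ≤ T f) (W ps R : ℕ) (hW : 1 ≤ W) :
    ∑ q ∈ QQ W ps R, (q.divisors.card : ℝ) ^ A * ((1 / (Nat.totient (W * q) : ℝ)) *
      ∑ f ∈ (W * q).divisors.filter (fun f => f ≠ 1), T f) ≤
    (1 / (Nat.totient W : ℝ)) * ((∑ e ∈ Icc 1 R, wt A e) *
      ∑ p ∈ (W.divisors ×ˢ QQ W ps R).filter (fun p => p.1 * p.2 ≠ 1),
        wt A p.2 * T (p.1 * p.2)) := by
  have e1 : ∀ q ∈ QQ W ps R, (q.divisors.card : ℝ) ^ A * ((1 / (Nat.totient (W * q) : ℝ)) *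
      ∑ f ∈ (W * q).divisors.filter (fun f => f ≠ 1), T f) =
      ∑ p ∈ (W.divisors ×ˢ QQ W ps R).filter (fun p => p.1 * p.2 ≠ 1),
        if p.2 ∣ q then (1 / (Nat.totient W : ℝ)) * (wt A q * T (p.1 * p.2)) else 0 := by
    intro q hq
    rw [mem_QQ] at hq
    obtain ⟨⟨hq1, hq2⟩, hqs, hqc⟩ := hq
    have hc : W.Coprime q := (Nat.Coprime.coprime_mul_right_right hqc).symm
    rw [sum_divisors_coprime T W q hW hq1 hc, Nat.totient_mul hc]
    rw [← sum_filter, filter_filter, mul_sum, mul_sum]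
    apply sum_congr
    · ext p
      rw [mem_filter, mem_filter, mem_product, mem_product, Nat.mem_divisors, Nat.mem_divisors,
        mem_QQ]
      constructor
      · rintro ⟨⟨⟨h1, h2⟩, h3, h4⟩, h5⟩
        refine ⟨⟨⟨h1, h2⟩, ⟨⟨Nat.pos_of_dvd_of_pos h3 hq1, (Nat.le_of_dvd hq1 h3).trans hq2⟩,
          hqs.squarefree_of_dvd h3, hqc.coprime_dvd_left h3⟩⟩, h5, h3⟩
      · rintro ⟨⟨⟨h1, h2⟩, _⟩, h5, h3⟩
        exact ⟨⟨⟨h1, h2⟩, h3, by omega⟩, h5⟩
    · intro p _
      unfold wt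
      push_cast
      have hφ : (Nat.totient q : ℝ) ≠ 0 := by
        have := Nat.totient_pos.mpr hq1
        positivity
      have hφ' : (Nat.totient W : ℝ) ≠ 0 := by
        have := Nat.totient_pos.mpr hW
        positivity
      field_simp
  rw [sum_congr rfl e1, sum_comm, mul_sum, mul_sum]
  apply sum_le_sum
  intro p hp
  rw [mem_filter, mem_product, mem_QQ] at hp
  rw [← sum_filter, ← mul_sum, ← sum_mul]
  apply mul_le_mul_of_nonneg_left _ (by positivity)
  have h2 := sum_wt_dvd A W ps R p.2 hp.1.2.1.1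
  calc _ ≤ (wt A p.2 * ∑ e ∈ Icc 1 R, wt A e) * T (p.1 * p.2) :=
        mul_le_mul_of_nonneg_right h2 (hT _)
    _ = _ := by ring

/-- pairs to products -/
theorem pair_inj (T : ℕ → ℝ) (hT : ∀ f, 0 ≤ T f) (W ps R : ℕ) (F : Finset ℕ)
    (S : Finset (ℕ × ℕ)) (hS : S ⊆ W.divisors ×ˢ QQ W ps R)
    (hF : ∀ p ∈ S, p.1 * p.2 ∈ F) :
    ∑ p ∈ S, T (p.1 * p.2) ≤ ∑ f ∈ F, T f := by
  rw [← sum_image (f := T) (g := fun p : ℕ × ℕ => p.1 * p.2) (s := S)]
  · apply sum_le_sum_of_subset_of_nonneg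
    · intro f hf
      rw [mem_image] at hf
      obtain ⟨p, hp, rfl⟩ := hf
      exact hF p hp
    · intro f _ _
      exact hT f
  · intro p hp p' hp' h
    have h1 := hS hp
    have h2 := hS hp'
    rw [mem_product, Nat.mem_divisors, mem_QQ] at h1 h2
    have c1 : W.Coprime p.2 := (Nat.Coprime.coprime_mul_right_right h1.2.2.2).symm
    have c2 : W.Coprime p'.2 := (Nat.Coprime.coprime_mul_right_right h2.2.2.2).symm
    simp only at h
    have g1 := gcd_left_of_coprime c1 h1.1.1 (dvd_refl _)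
    have g2 := gcd_left_of_coprime c2 h2.1.1 (dvd_refl _)
    have h3 : p.1 = p'.1 := by rw [← g1, ← g2, h]
    have h4 : p.2 = p'.2 := by
      rw [h3] at h
      have : 0 < p'.1 := Nat.pos_of_dvd_of_pos h2.1.1 (Nat.pos_of_ne_zero h2.1.2)
      exact Nat.eq_of_mul_eq_mul_left this h
    exact Prod.ext h3 h4

/-- the weight is small -/
theorem wt_le (A : ℕ) : ∃ C : ℝ, 0 < C ∧ ∀ b : ℕ, 1 ≤ b → wt A b ≤ C / Real.sqrt b := by
  obtain ⟨C, hC, hd⟩ := divisor_bound (1 / (2 * (A + 1))) (by positivity)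
  refine ⟨C ^ (A + 1), by positivity, fun b hb => ?_⟩
  have hb0 : (0:ℝ) < b := by exact_mod_cast hb
  have h1 := one_div_totient_le b hb
  have h2 : (2:ℝ) ^ b.primeFactors.card ≤ b.divisors.card := by
    exact_mod_cast two_pow_omega_le b (by omega)
  have h3 : wt A b ≤ (b.divisors.card : ℝ) ^ (A + 1) / b := by
    unfold wt
    calc (b.divisors.card : ℝ) ^ A / (Nat.totient b : ℝ) =
        (b.divisors.card : ℝ) ^ A * (1 / (Nat.totient b : ℝ)) := by ring
      _ ≤ (b.divisors.card : ℝ) ^ A * (2 ^ b.primeFactors.card / b) :=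
          mul_le_mul_of_nonneg_left h1 (by positivity)
      _ ≤ (b.divisors.card : ℝ) ^ A * (b.divisors.card / b) := by gcongr
      _ = _ := by rw [pow_succ]; ring
  refine h3.trans ?_
  have h4 : (b.divisors.card : ℝ) ^ (A + 1) ≤ C ^ (A + 1) * Real.sqrt b := by
    calc (b.divisors.card : ℝ) ^ (A + 1) ≤ (C * (b:ℝ) ^ (1 / (2 * (A + 1)) : ℝ)) ^ (A + 1) :=
          pow_le_pow_left₀ (by positivity) (hd b hb) _
      _ = C ^ (A + 1) * ((b:ℝ) ^ (1 / (2 * (A + 1)) : ℝ)) ^ (A + 1) := by rw [mul_pow]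
      _ = _ := by
          congr 1
          rw [← Real.rpow_natCast, ← Real.rpow_mul hb0.le, Real.sqrt_eq_rpow]
          congr 1
          push_cast
          field_simp
  rw [div_le_div_iff₀ hb0 (Real.sqrt_pos.mpr hb0)]
  calc (b.divisors.card : ℝ) ^ (A + 1) * Real.sqrt b ≤ C ^ (A + 1) * Real.sqrt b * Real.sqrt b :=
        mul_le_mul_of_nonneg_right h4 (Real.sqrt_nonneg _)
    _ = C ^ (A + 1) * b := by rw [mul_assoc, Real.mul_self_sqrt hb0.le]

theorem sum_wt (A R : ℕ) : ∑ e ∈ Icc 1 R, wt A e ≤ (1 + Real.log R) ^ (2 ^ (A + 1)) := by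
  refine le_trans ?_ (sum_card_pow_div (A + 1) R)
  apply sum_le_sum
  intro b hb
  rw [mem_Icc] at hb
  have h1 := one_div_totient_le b hb.1
  have h2 : (2:ℝ) ^ b.primeFactors.card ≤ b.divisors.card := by
    exact_mod_cast two_pow_omega_le b (by omega)
  unfold wt
  calc (b.divisors.card : ℝ) ^ A / (Nat.totient b : ℝ) =
      (b.divisors.card : ℝ) ^ A * (1 / (Nat.totient b : ℝ)) := by ring
    _ ≤ (b.divisors.card : ℝ) ^ A * (2 ^ b.primeFactors.card / b) :=
        mul_le_mul_of_nonneg_left h1 (by positivity)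
    _ ≤ (b.divisors.card : ℝ) ^ A * (b.divisors.card / b) := by gcongr
    _ = _ := by rw [pow_succ]; ring

end Pool.Agent.H378R2.LSBV
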