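import Mathlib
import Pool.Agent.H50.G.S.H378R2.LSBV5
import Pool.Agent.H50.G.S.H398R2.BV6
/-! The relative Bombieri-Vinogradov theorem: assembly. -/

open Finset Filter Topology

namespace Pool.Agent.H378R2.LSBV

open Pool.Agent.Helper112 Pool.Agent.H398R2.BV

theorem WW_coprime_ps (X : ℝ) (S : Finset ℕ) (ps Z : ℕ) (h : GoodP Z ps) :
    (WW X S ps).Coprime ps := by
  rcases h with h | h
  · subst h; exact Nat.coprime_one_right _
  · have h1 : ¬ ps ∣ WW X S ps := by
      intro hd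
      have h2 : ps ∈ (WW X S ps).primeFactors :=
        Nat.mem_primeFactors.mpr ⟨h.1, hd, by have := WW_pos X S ps; omega⟩
      rw [WW_primeFactors] at h2
      unfold PW at h2
      rw [mem_filter] at h2
      exact h2.2.2.2 rfl
    exact ((Nat.Prime.coprime_iff_not_dvd h.1).mpr h1).symm

/-- all nontrivial pairs -/
noncomputable def pairs (X : ℝ) (ps R : ℕ) (S : Finset ℕ) : Finset (ℕ × ℕ) :=
  ((WW X S ps).divisors ×ˢ QQ (WW X S ps) ps R).filter (fun p => p.1 * p.2 ≠ 1)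

theorem sum_pairsA (X : ℝ) (hX : 0 ≤ X) (ps R D Ω Z : ℕ) (hps : GoodP Z ps)
    (P S : Finset ℕ) (l : ℝ)
    (hsize : ∀ p ∈ pairs X ps R S, p.2 ≤ D → (P ∩ p.1.primeFactors).card < Ω →
      ((p.1 * p.2 : ℕ) : ℝ) ≤ Real.exp (l ^ 6))
    (hsc : ∀ f : ℕ, Squarefree f → 1 < f → (f : ℝ) ≤ Real.exp (l ^ 6) → f.Coprime ps →
        ∀ χ : DirichletCharacter ℂ f, χ.IsPrimitive →
          ‖psiPhi χ X‖ ≤ X * Real.exp (-l ^ 7)) :
    ∑ p ∈ (pairs X ps R S).filter (fun p => p.2 ≤ D ∧ (P ∩ p.1.primeFactors).card < Ω),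
      TT X (p.1 * p.2) ≤ X * Real.exp (2 * l ^ 6 - l ^ 7) := by
  set G := (Icc 2 ⌊Real.exp (l ^ 6)⌋₊).filter (fun f => Squarefree f ∧ f.Coprime ps) with hG
  have h1 : ∑ p ∈ (pairs X ps R S).filter (fun p => p.2 ≤ D ∧ (P ∩ p.1.primeFactors).card < Ω),
      TT X (p.1 * p.2) ≤ ∑ f ∈ G, TT X f := by
    apply pair_inj (TT X) (TT_nonneg X) (WW X S ps) ps R G
    · intro p hp
      rw [mem_filter] at hp
      unfold pairs at hp
      rw [mem_filter] at hp
      exact hp.1.1
    · intro p hp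
      rw [mem_filter] at hp
      have hs := hsize p hp.1 hp.2.1 hp.2.2
      unfold pairs at hp
      rw [mem_filter, mem_product, Nat.mem_divisors, mem_QQ] at hp
      obtain ⟨⟨⟨⟨ha, _⟩, ⟨hb1, hb2⟩, hb3, hb4⟩, h5⟩, _⟩ := hp
      have ha0 : 0 < p.1 := Nat.pos_of_dvd_of_pos ha (WW_pos X S ps)
      have h6 : 0 < p.1 * p.2 := by positivity
      rw [hG, mem_filter, mem_Icc]
      refine ⟨⟨by omega, Nat.le_floor hs⟩, ?_, ?_⟩
      · have hc : p.1.Coprime p.2 := by
          have : p.2.Coprime (WW X S ps) := Nat.Coprime.coprime_mul_right_right hb4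
          exact (this.coprime_dvd_right ha).symm
        rw [Nat.squarefree_mul hc]
        exact ⟨(WW_squarefree X S ps).squarefree_of_dvd ha, hb3⟩
      · apply Nat.Coprime.mul_left
        · exact (WW_coprime_ps X S ps Z hps).coprime_dvd_left ha
        · exact Nat.Coprime.coprime_mul_left_right hb4
  refine h1.trans ?_
  have h2 : ∀ f ∈ G, TT X f ≤ Real.exp (l ^ 6) * (X * Real.exp (-l ^ 7)) := by
    intro f hf
    rw [hG, mem_filter, mem_Icc] at hf
    obtain ⟨⟨hf1, hf2⟩, hf3, hf4⟩ := hf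
    have hfe : (f:ℝ) ≤ Real.exp (l ^ 6) := (Nat.le_floor_iff (by positivity)).mp hf2
    refine (TT_le X f (by omega) (X * Real.exp (-l ^ 7)) (by positivity)
      (hsc f hf3 (by omega) hfe hf4)).trans ?_
    exact mul_le_mul_of_nonneg_right hfe (by positivity)
  refine (sum_le_sum h2).trans ?_
  rw [sum_const, nsmul_eq_mul]
  have h3 : (G.card : ℝ) ≤ Real.exp (l ^ 6) := by
    have : G.card ≤ ⌊Real.exp (l ^ 6)⌋₊ := by
      refine (card_filter_le _ _).trans ?_
      rw [Nat.card_Icc]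
      omega
    calc (G.card : ℝ) ≤ ⌊Real.exp (l ^ 6)⌋₊ := by exact_mod_cast this
      _ ≤ _ := Nat.floor_le (by positivity)
  calc (G.card : ℝ) * (Real.exp (l ^ 6) * (X * Real.exp (-l ^ 7))) ≤
      Real.exp (l ^ 6) * (Real.exp (l ^ 6) * (X * Real.exp (-l ^ 7))) :=
        mul_le_mul_of_nonneg_right h3 (by positivity)
    _ = X * (Real.exp (l ^ 6) * Real.exp (l ^ 6) * Real.exp (-l ^ 7)) := by ring
    _ = _ := by
        rw [← Real.exp_add, ← Real.exp_add]
        congr 2
        ring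

/-- the main sum over pairs for a good set `S` -/
theorem sum_pairs (A : ℕ) (X C5 M L : ℝ) (hX : 0 ≤ X) (hC5 : 0 < C5)
    (hwt : ∀ b : ℕ, 1 ≤ b → wt A b ≤ C5 / Real.sqrt b) (ps R D Ω k F : ℕ) (P S : Finset ℕ)
    (hL : 1 ≤ L) (hM : 0 ≤ M) (hD : ∀ b : ℕ, D < b → L ^ (2 * k) ≤ b)
    (hF : primorial (yy X) * R ≤ F)
    (hall : ∑ f ∈ Icc 2 F, TT X f ≤ M * L ^ k)
    (hA : ∑ p ∈ (pairs X ps R S).filter (fun p => p.2 ≤ D ∧ (P ∩ p.1.primeFactors).card < Ω),
      TT X (p.1 * p.2) ≤ M)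
    (hB : ∑ p ∈ pairB X ps R D Ω P S, TT X (p.1 * p.2) ≤ 3 * M) :
    ∑ p ∈ pairs X ps R S, wt A p.2 * TT X (p.1 * p.2) ≤ 5 * C5 * M := by
  have hmem : ∀ p ∈ pairs X ps R S, 1 ≤ p.2 := by
    intro p hp
    unfold pairs at hp
    rw [mem_filter, mem_product, mem_QQ] at hp
    exact hp.1.2.1.1
  have hsmall : ∀ p ∈ pairs X ps R S, wt A p.2 ≤ C5 := by
    intro p hp
    have h1 := hmem p hp
    refine (hwt p.2 h1).trans ?_
    apply div_le_self hC5.le
    rw [Real.one_le_sqrt]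
    exact_mod_cast h1
  rw [← sum_filter_add_sum_filter_not (pairs X ps R S) (fun p => p.2 ≤ D)]
  have hC : ∑ p ∈ (pairs X ps R S).filter (fun p => ¬ p.2 ≤ D), wt A p.2 * TT X (p.1 * p.2) ≤
      C5 * M := by
    have h1 : ∀ p ∈ (pairs X ps R S).filter (fun p => ¬ p.2 ≤ D),
        wt A p.2 * TT X (p.1 * p.2) ≤ (C5 / L ^ k) * TT X (p.1 * p.2) := by
      intro p hp
      rw [mem_filter] at hp
      apply mul_le_mul_of_nonneg_right _ (TT_nonneg X _)
      refine (hwt p.2 (hmem p hp.1)).trans ?_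
      apply div_le_div_of_nonneg_left hC5.le (by positivity)
      apply Real.le_sqrt_of_sq_le
      rw [← pow_mul, mul_comm]
      exact hD p.2 (by omega)
    refine (sum_le_sum h1).trans ?_
    rw [← mul_sum]
    have h2 : ∑ p ∈ (pairs X ps R S).filter (fun p => ¬ p.2 ≤ D), TT X (p.1 * p.2) ≤
        ∑ f ∈ Icc 2 F, TT X f := by
      apply pair_inj (TT X) (TT_nonneg X) (WW X S ps) ps R
      · intro p hp
        rw [mem_filter] at hp
        unfold pairs at hp
        rw [mem_filter] at hp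
        exact hp.1.1
      · intro p hp
        rw [mem_filter] at hp
        unfold pairs at hp
        rw [mem_filter, mem_product, Nat.mem_divisors, mem_QQ] at hp
        obtain ⟨⟨⟨⟨ha, _⟩, ⟨hb1, hb2⟩, hb3, hb4⟩, h5⟩, _⟩ := hp
        have ha0 : 0 < p.1 := Nat.pos_of_dvd_of_pos ha (WW_pos X S ps)
        have h6 : 0 < p.1 * p.2 := by positivity
        rw [mem_Icc]
        refine ⟨by omega, le_trans ?_ hF⟩
        apply Nat.mul_le_mul _ hb2
        exact Nat.le_of_dvd (primorial_pos _) (ha.trans (WW_dvd_primorial X S ps))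
    calc (C5 / L ^ k) * ∑ p ∈ (pairs X ps R S).filter (fun p => ¬ p.2 ≤ D), TT X (p.1 * p.2) ≤
        (C5 / L ^ k) * (M * L ^ k) :=
          mul_le_mul_of_nonneg_left (h2.trans hall) (by positivity)
      _ = C5 * M := by
          have : L ^ k ≠ 0 := by positivity
          field_simp
  have hAB : ∑ p ∈ (pairs X ps R S).filter (fun p => p.2 ≤ D), wt A p.2 * TT X (p.1 * p.2) ≤
      C5 * (M + 3 * M) := by
    calc _ ≤ ∑ p ∈ (pairs X ps R S).filter (fun p => p.2 ≤ D), C5 * TT X (p.1 * p.2) := by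
          apply sum_le_sum
          intro p hp
          rw [mem_filter] at hp
          exact mul_le_mul_of_nonneg_right (hsmall p hp.1) (TT_nonneg X _)
      _ = C5 * ∑ p ∈ (pairs X ps R S).filter (fun p => p.2 ≤ D), TT X (p.1 * p.2) := by
          rw [mul_sum]
      _ ≤ _ := by
          apply mul_le_mul_of_nonneg_left _ hC5.le
          rw [← sum_filter_add_sum_filter_not _
            (fun p : ℕ × ℕ => (P ∩ p.1.primeFactors).card < Ω), filter_filter, filter_filter]
          apply add_le_add hA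
          refine le_trans (le_of_eq ?_) hB
          apply sum_congr _ (fun _ _ => rfl)
          unfold pairs pairB
          rw [filter_filter]
          ext p
          rw [mem_filter, mem_filter]
          constructor
          · rintro ⟨h1, h2, h3, h4⟩
            exact ⟨h1, h2, h3, by omega⟩
          · rintro ⟨h1, h2, h3, h4⟩
            exact ⟨h1, h2, h3, by omega⟩
  linarith

end Pool.Agent.H378R2.LSBV
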