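import Mathlib
import Pool.Agent.H50.G.S.H378R2.M1a
import Pool.Agent.H50.G.S.Erdos456.LDich
/-! Lower bounds for `L(s,χ)` near the line `Re s = 1`. -/

open MeasureTheory Filter Topology Set

namespace Pool.Agent.H378R2.M1

open Pool.Agent.Erdos456 (zeta_bound triv_bound four_prod two_pow_omega_le)
open DirichletCharacter

noncomputable section

lemma prod_upper (S : Finset ℕ) (hS : ∀ p ∈ S, 2 ≤ p) :
    ∏ p ∈ S, (1 + 1 / (p:ℝ)) ≤ (S.card : ℝ) + 1 := by
  induction S using Finset.induction_on_max with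
  | empty => simp
  | insert a s hlt ih =>
    have ha : a ∉ s := fun h => lt_irrefl _ (hlt a h)
    rw [Finset.prod_insert ha, Finset.card_insert_of_notMem ha]
    have ih' := ih (fun p hp => hS p (Finset.mem_insert_of_mem hp))
    have ha2 := hS a (Finset.mem_insert_self _ _)
    have hcard : s.card + 2 ≤ a := by
      have : s ⊆ Finset.Ico 2 a := by
        intro p hp
        exact Finset.mem_Ico.mpr ⟨hS p (Finset.mem_insert_of_mem hp), hlt p hp⟩
      have := Finset.card_le_card this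
      rw [Nat.card_Ico] at this
      omega
    have hc : ((s.card : ℝ) + 2) ≤ a := by exact_mod_cast hcard
    have hc0 : (0:ℝ) ≤ s.card := Nat.cast_nonneg _
    have h1 : 1 + 1 / (a:ℝ) ≤ ((s.card : ℝ) + 2) / (s.card + 1) := by
      have : 1 / (a:ℝ) ≤ 1 / ((s.card:ℝ) + 1) := one_div_le_one_div_of_le (by linarith) (by linarith)
      have e : ((s.card : ℝ) + 2) / (s.card + 1) = 1 + 1 / ((s.card:ℝ) + 1) := by
        field_simp; ring
      linarith
    have hp0 : 0 ≤ ∏ p ∈ s, (1 + 1 / (p:ℝ)) := Finset.prod_nonneg fun p _ => by positivity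
    calc (1 + 1 / (a:ℝ)) * ∏ p ∈ s, (1 + 1 / (p:ℝ))
        ≤ (((s.card : ℝ) + 2) / (s.card + 1)) * ((s.card : ℝ) + 1) := by
          gcongr
      _ = ((s.card + 1 : ℕ) : ℝ) + 1 := by
          push_cast
          field_simp
          ring

/-- the principal character -/
lemma triv_upper {l : ℝ} (hl : 4 ≤ l) {q : ℕ} [NeZero q] (hq : Real.log q ≤ l) {s : ℂ}
    (hs1 : 1 ≤ s.re) (hs2 : s.re ≤ 2) (hne : s ≠ 1) (htl : Real.log (|s.im| + 2) ≤ l) :
    ‖LFunctionTrivChar q s‖ ≤ 3 * l * (5 * l + 1 / ‖s - 1‖) := by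
  rw [LFunctionTrivChar_eq_mul_riemannZeta hne, norm_mul]
  have hl0 : 0 < l := by linarith
  have h1 : ‖∏ p ∈ q.primeFactors, (1 - (p : ℂ) ^ (-s))‖ ≤ 3 * l := by
    rw [norm_prod]
    have h2 : ∏ p ∈ q.primeFactors, ‖1 - (p : ℂ) ^ (-s)‖ ≤ ∏ p ∈ q.primeFactors, (1 + 1 / (p:ℝ)) := by
      apply Finset.prod_le_prod (fun p _ => norm_nonneg _)
      intro p hp
      have hp2 := (Nat.prime_of_mem_primeFactors hp).two_le
      have hp1 : (1:ℝ) ≤ p := by exact_mod_cast (Nat.prime_of_mem_primeFactors hp).one_le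
      refine (norm_sub_le _ _).trans ?_
      rw [norm_one, Complex.norm_natCast_cpow_of_pos (by omega), Complex.neg_re]
      gcongr
      calc (p:ℝ) ^ (-s.re) ≤ (p:ℝ) ^ (-1:ℝ) := by
            apply Real.rpow_le_rpow_of_exponent_le hp1; linarith
        _ = _ := by rw [Real.rpow_neg_one, one_div]
    have h3 := prod_upper q.primeFactors (fun p hp => (Nat.prime_of_mem_primeFactors hp).two_le)
    have h4 : (q.primeFactors.card : ℝ) ≤ 2 * l := by
      have h1 : (2:ℝ) ^ q.primeFactors.card ≤ q := by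
        exact_mod_cast two_pow_omega_le q (NeZero.ne q)
      have h2 : (q.primeFactors.card : ℝ) * Real.log 2 ≤ Real.log q := by
        rw [← Real.log_pow]
        exact Real.log_le_log (by positivity) h1
      have h4 : (0.5:ℝ) < Real.log 2 := by
        have := Real.log_two_gt_d9; linarith
      have h5 : (0:ℝ) ≤ q.primeFactors.card := Nat.cast_nonneg _
      nlinarith
    linarith
  have h2 := zeta_upper hl hs1 hs2 hne htl
  have h3 : 0 ≤ 5 * l + 1 / ‖s - 1‖ := by positivity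
  exact mul_le_mul h1 h2 (norm_nonneg _) (by positivity)

lemma div_pow_le {d l : ℝ} (hd0 : 0 ≤ d) (hl : 1 ≤ l) {n : ℕ} (hn : n ≠ 0) :
    d / l ^ n ≤ d / l := by
  have : l ≤ l ^ n := le_self_pow₀ hl hn
  gcongr

lemma aux1 {d l : ℝ} (hd0 : 0 ≤ d) (hd : d ≤ 1 / 4) (hl : 1 ≤ l) {n : ℕ} (hn : n ≠ 0) :
    d / l ^ n ≤ 1 / (4 * l) := by
  refine (div_pow_le hd0 hl hn).trans ?_
  have hl0 : 0 < l := by linarith
  rw [div_le_div_iff₀ hl0 (by positivity)]
  nlinarith

lemma aux2 {C Z B : ℝ} (hC : 1 ≤ C) (hZ : 1 ≤ Z) (hB : 0 ≤ B) :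
    B ≤ 256 * C ^ 5 * Z ^ 3 * B := by
  have hC5 : 1 ≤ C ^ 5 := one_le_pow₀ hC
  have hZ3 : 1 ≤ Z ^ 3 := one_le_pow₀ hZ
  have : 1 ≤ C ^ 5 * Z ^ 3 := one_le_mul_of_one_le_of_one_le hC5 hZ3
  nlinarith

lemma aux3 {C Z B l x d2 : ℝ} (hC : 0 < C) (hZ : 0 < Z) (hB : 0 < B) (hx : 0 < x)
    (e2 : l ^ 18 * x = d2) (hd2 : d2 = 1 / (256 * C ^ 5 * Z ^ 3 * B)) :
    Z ^ 3 * (C * B * l ^ 10) * (3 * C * l ^ 2 * x) ^ 4 ≤ x ^ 3 := by
  have e : Z ^ 3 * (C * B * l ^ 10) * (3 * C * l ^ 2 * x) ^ 4 =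
      (81 * C ^ 5 * Z ^ 3 * B * (l ^ 18 * x)) * x ^ 3 := by ring
  rw [e, e2]
  have e3 : 81 * C ^ 5 * Z ^ 3 * B * d2 ≤ 1 := by
    rw [hd2, mul_one_div, div_le_one (by positivity)]
    have : 0 < C ^ 5 * Z ^ 3 * B := by positivity
    nlinarith
  have hx3 : 0 < x ^ 3 := by positivity
  nlinarith

/-- quantitative 3-4-1 inequality -/
lemma three_four_one {Z : ℝ} (hZ : 1 ≤ Z)
    (hz : ∀ s : ℝ, 1 < s → s ≤ 2 → ‖riemannZeta (s:ℂ)‖ ≤ Z / (s - 1))
    {q : ℕ} [NeZero q] (χ : DirichletCharacter ℂ q) {x y B m : ℝ} (hx : 0 < x) (hx1 : x ≤ 1)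
    (hB : 0 < B) (hm : 0 < m)
    (hB2 : ‖LFunction (χ ^ 2) (1 + x + 2 * Complex.I * y)‖ ≤ B)
    (hcond : Z ^ 3 * B * m ^ 4 ≤ x ^ 3) :
    m ≤ ‖LFunction χ (1 + x + Complex.I * y)‖ := by
  by_contra hcon
  push Not at hcon
  have p := DirichletCharacter.norm_LFunction_product_ge_one χ hx y
  rw [norm_mul, norm_mul, norm_pow, norm_pow] at p
  have e1 : (1:ℂ) + (x : ℂ) = ((1 + x : ℝ) : ℂ) := by push_cast; rfl
  have z1 := hz (1 + x) (by linarith) (by linarith)
  have z2 := triv_bound (q := q) (s := 1 + x) (by linarith)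
  rw [add_sub_cancel_left] at z1
  have z3 : ‖LFunctionTrivChar q (1 + (x:ℂ))‖ ≤ Z / x := by rw [e1]; exact z2.trans z1
  have hZ0 : 0 < Z := by linarith
  have h4 : ‖LFunction χ (1 + x + Complex.I * y)‖ ^ 4 < m ^ 4 :=
    pow_lt_pow_left₀ hcon (norm_nonneg _) (by norm_num)
  have : ‖LFunctionTrivChar q (1 + (x:ℂ))‖ ^ 3 * ‖LFunction χ (1 + x + Complex.I * y)‖ ^ 4 *
      ‖LFunction (χ ^ 2) (1 + x + 2 * Complex.I * y)‖ < 1 := by
    calc _ ≤ (Z / x) ^ 3 * ‖LFunction χ (1 + x + Complex.I * y)‖ ^ 4 * B := by gcongr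
      _ < (Z / x) ^ 3 * m ^ 4 * B := by gcongr
      _ = (Z ^ 3 * B * m ^ 4) / x ^ 3 := by field_simp
      _ ≤ 1 := (div_le_one (by positivity)).mpr hcond
  linarith

/-- zero-free region and bound for the logarithmic derivative -/
theorem nzr : ∃ d1 d2 κ : ℝ, 0 < d1 ∧ d1 ≤ 1 / 2 ∧ 0 < d2 ∧ d2 ≤ 1 / 2 ∧ 0 < κ ∧
    (∀ l : ℝ, 4 ≤ l → ∀ (q : ℕ) [NeZero q] (χ : DirichletCharacter ℂ q), χ ≠ 1 →
      Real.log q ≤ l → (χ ^ 2 = 1 → κ / l ^ 7 ≤ ‖LFunction χ ((1 + d1 / l ^ 9 : ℝ) : ℂ)‖) →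
      ∀ s : ℂ, |s.re - 1| ≤ d2 / l ^ 18 → Real.log (2 * |s.im| + 3) ≤ l →
        LFunction χ s ≠ 0 ∧ ‖deriv (LFunction χ) s / LFunction χ s‖ ≤ l ^ 18 / d2) ∧
    (∀ l : ℝ, 4 ≤ l → ∀ (q₁ q₂ N : ℕ) [NeZero q₁] [NeZero q₂] [NeZero N],
      Real.log N ≤ 2 * l → ∀ (χ₁ : DirichletCharacter ℂ q₁) (χ₂ : DirichletCharacter ℂ q₂)
      (χ₃ : DirichletCharacter ℂ N), χ₁ ^ 2 = 1 → χ₂ ^ 2 = 1 →
      (∀ n : ℕ, χ₃ (n : ZMod N) = χ₁ (n : ZMod q₁) * χ₂ (n : ZMod q₂)) → χ₃ ≠ 1 →
      ‖LFunction χ₁ ((1 + d1 / l ^ 9 : ℝ) : ℂ)‖ < κ / l ^ 7 →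
      κ / l ^ 7 ≤ ‖LFunction χ₂ ((1 + d1 / l ^ 9 : ℝ) : ℂ)‖) := by
  obtain ⟨C, hC, h1, h2, h3⟩ := L_lip
  obtain ⟨Z, hZ, hz⟩ := zeta_bound
  have hC0 : 0 < C := by linarith
  have hZ0 : 0 < Z := by linarith
  set d1 : ℝ := 1 / (64 * Z * C ^ 3) with hd1
  have hC3 : 1 ≤ C ^ 3 := one_le_pow₀ hC
  have hC4 : 1 ≤ C ^ 4 := one_le_pow₀ hC
  have hZ3 : 1 ≤ Z ^ 3 := one_le_pow₀ hZ
  have hd1p : 0 < d1 := by positivity
  have hd1le : d1 ≤ 1 / 64 := by
    rw [hd1]
    apply one_div_le_one_div_of_le (by norm_num)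
    have : 1 ≤ Z * C ^ 3 := one_le_mul_of_one_le_of_one_le hZ hC3
    linarith
  set B1 : ℝ := 15 + 2 / d1 with hB1
  have hB1p : 15 ≤ B1 := by
    have : 0 < 2 / d1 := by positivity
    linarith
  have hB0 : 0 < B1 := by linarith
  set D : ℝ := 256 * C ^ 5 * Z ^ 3 * B1 with hD
  have hC5 : 1 ≤ C ^ 5 := one_le_pow₀ hC
  have hDB : B1 ≤ D := aux2 hC hZ hB0.le
  have hD0 : 0 < D := by linarith
  set d2 : ℝ := 1 / D with hd2
  have hd2p : 0 < d2 := by positivity
  have hd2d1 : d2 ≤ d1 := by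
    have e : 1 / B1 ≤ d1 := by
      rw [div_le_iff₀ hB0, hB1]
      have : d1 * (15 + 2 / d1) = 15 * d1 + 2 := by field_simp
      rw [this]
      linarith
    exact (one_div_le_one_div_of_le hB0 hDB).trans e
  refine ⟨d1, d2, 4 * C * d1, hd1p, by linarith, hd2p, by linarith, by positivity, ?_, ?_⟩
  · intro l hl q _ χ hχ hql hexc s hsre hsim
    have hl0 : 0 < l := by linarith
    have hl1 : 1 ≤ l := by linarith
    have hl18 : 1 ≤ l ^ 18 := one_le_pow₀ hl1
    have hl17 : 1 ≤ l ^ 17 := one_le_pow₀ hl1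
    set x : ℝ := d2 / l ^ 18 with hx
    have hx0 : 0 < x := by positivity
    have hx2l : x ≤ 1 / (4 * l) := aux1 hd2p.le (by linarith) hl1 (by norm_num)
    have h4l : 1 / (4 * l) ≤ 1 / 16 := one_div_le_one_div_of_le (by norm_num) (by linarith)
    have h24 : 1 / (2 * l) = 1 / (4 * l) + 1 / (4 * l) := by field_simp; norm_num
    have hx16 : x ≤ 1 / 16 := by linarith
    rw [abs_le] at hsre
    have hsr1 : 1 - 1 / (2 * l) ≤ s.re := by linarith [hsre.1]
    have hsr2 : s.re ≤ 3 / 2 := by linarith [hsre.2]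
    have hY0 := abs_nonneg s.im
    have hlog3 : Real.log (|s.im| + 3) ≤ l :=
      (Real.log_le_log (by positivity) (by linarith)).trans hsim
    -- the lower bound
    have hlow : C * d2 / l ^ 16 ≤ ‖LFunction χ s‖ := by
      -- case distinction
      by_cases hcase : χ ^ 2 = 1 ∧ |s.im| ≤ d1 / l ^ 9
      · obtain ⟨hsq, him⟩ := hcase
        have hex := hexc hsq
        have hl9 : 1 ≤ l ^ 9 := one_le_pow₀ hl1
        have hl8 : 1 ≤ l ^ 8 := one_le_pow₀ hl1
        have hp9 : d1 / l ^ 9 ≤ 1 / 64 := (div_le_self hd1p.le hl9).trans hd1le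
        have hp0 : 0 < d1 / l ^ 9 := by positivity
        have hxp : x ≤ d1 / l ^ 9 := by
          rw [hx]
          apply div_le_div₀ hd1p.le hd2d1 (by positivity)
          exact pow_le_pow_right₀ hl1 (by norm_num)
        have hl9l : d1 / l ^ 9 ≤ 1 / (4 * l) := aux1 hd1p.le (by linarith) hl1 (by norm_num)
        have h4lp : 0 < 1 / (4 * l) := by positivity
        have key := h3 l hl q χ hχ hql ((1 + d1 / l ^ 9 : ℝ) : ℂ) s
          (by rw [Complex.ofReal_re]; linarith)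
          (by rw [Complex.ofReal_re]; linarith) hsr1 hsr2 |s.im|
          (by rw [Complex.ofReal_im, abs_zero]; exact hY0) le_rfl hlog3
        have hdist : ‖((1 + d1 / l ^ 9 : ℝ) : ℂ) - s‖ ≤ 3 * (d1 / l ^ 9) := by
          have := Complex.norm_le_abs_re_add_abs_im (((1 + d1 / l ^ 9 : ℝ) : ℂ) - s)
          rw [Complex.sub_re, Complex.sub_im, Complex.ofReal_re, Complex.ofReal_im, zero_sub,
            abs_neg] at this
          have h5 : |1 + d1 / l ^ 9 - s.re| ≤ 2 * (d1 / l ^ 9) := by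
            rw [abs_le]
            constructor <;> linarith [hsre.1, hsre.2]
          linarith
        have h6 : C * l ^ 2 * ‖((1 + d1 / l ^ 9 : ℝ) : ℂ) - s‖ ≤ 3 * C * d1 / l ^ 7 := by
          calc _ ≤ C * l ^ 2 * (3 * (d1 / l ^ 9)) := by gcongr
            _ = 3 * C * d1 / l ^ 7 := by field_simp
        have h7 : ‖LFunction χ ((1 + d1 / l ^ 9 : ℝ) : ℂ)‖ ≤ ‖LFunction χ s‖ +
            ‖LFunction χ ((1 + d1 / l ^ 9 : ℝ) : ℂ) - LFunction χ s‖ := by
          have := norm_add_le (LFunction χ s)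
            (LFunction χ ((1 + d1 / l ^ 9 : ℝ) : ℂ) - LFunction χ s)
          rwa [add_sub_cancel] at this
        have h8 : C * d2 / l ^ 16 ≤ C * d1 / l ^ 7 := by
          apply div_le_div₀ (by positivity) (by gcongr) (by positivity)
          exact pow_le_pow_right₀ hl1 (by norm_num)
        have e9 : 4 * C * d1 / l ^ 7 = 3 * C * d1 / l ^ 7 + C * d1 / l ^ 7 := by ring
        linarith
      · -- 3-4-1
        have hBound : ‖LFunction (χ ^ 2) (1 + x + 2 * Complex.I * s.im)‖ ≤ C * B1 * l ^ 10 := by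
          have hre : (1 + (x:ℂ) + 2 * Complex.I * s.im).re = 1 + x := by simp
          have him : (1 + (x:ℂ) + 2 * Complex.I * s.im).im = 2 * s.im := by simp
          have hlog2 : Real.log (|2 * s.im| + 2) ≤ l := by
            rw [abs_mul, abs_of_pos (by norm_num : (0:ℝ) < 2)]
            exact (Real.log_le_log (by positivity) (by linarith)).trans hsim
          have hl10 : l ≤ l ^ 10 := le_self_pow₀ hl1 (by norm_num)
          by_cases hsq : χ ^ 2 = 1
          · have him2 : d1 / l ^ 9 < |s.im| := by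
              by_contra h
              exact hcase ⟨hsq, not_lt.mp h⟩
            have hp0 : 0 < d1 / l ^ 9 := by positivity
            have hne : (1 + (x:ℂ) + 2 * Complex.I * s.im) ≠ 1 := by
              intro h
              have := congrArg Complex.re h
              rw [hre, Complex.one_re] at this
              linarith
            rw [hsq]
            have key := triv_upper hl hql (s := 1 + (x:ℂ) + 2 * Complex.I * s.im)
              (by rw [hre]; linarith) (by rw [hre]; linarith) hne (by rw [him]; exact hlog2)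
            have hn : 2 * (d1 / l ^ 9) ≤ ‖(1 + (x:ℂ) + 2 * Complex.I * s.im) - 1‖ := by
              have h5 := Complex.abs_im_le_norm ((1 + (x:ℂ) + 2 * Complex.I * s.im) - 1)
              rw [Complex.sub_im, him, Complex.one_im, sub_zero, abs_mul,
                abs_of_pos (by norm_num : (0:ℝ) < 2)] at h5
              linarith
            have h6 : 1 / ‖(1 + (x:ℂ) + 2 * Complex.I * s.im) - 1‖ ≤ l ^ 9 / (2 * d1) := by
              refine (one_div_le_one_div_of_le (by positivity) hn).trans (le_of_eq ?_)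
              field_simp
            have h7 : 3 * l * (5 * l + 1 / ‖(1 + (x:ℂ) + 2 * Complex.I * s.im) - 1‖) ≤
                B1 * l ^ 10 := by
              calc _ ≤ 3 * l * (5 * l + l ^ 9 / (2 * d1)) := by gcongr
                _ = 15 * l ^ 2 + (3 / 2) / d1 * l ^ 10 := by field_simp; ring
                _ ≤ 15 * l ^ 10 + 2 / d1 * l ^ 10 := by
                    gcongr
                    · norm_num
                    · norm_num
                _ = B1 * l ^ 10 := by rw [hB1]; ring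
            have h8 : B1 * l ^ 10 ≤ C * B1 * l ^ 10 := by
              have : B1 ≤ C * B1 := le_mul_of_one_le_left hB0.le hC
              gcongr
            exact key.trans (h7.trans h8)
          · have key := h1 l hl q (χ ^ 2) hsq hql (1 + (x:ℂ) + 2 * Complex.I * s.im)
              (by rw [hre]; have : 0 < 1 / l := by positivity
                  linarith) (by rw [hre]; linarith) (by rw [him]; exact hlog2)
            refine key.trans ?_
            calc C * l ≤ C * l ^ 10 := by gcongr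
              _ ≤ C * B1 * l ^ 10 := by
                have : C ≤ C * B1 := le_mul_of_one_le_right hC0.le (by linarith)
                gcongr
        have hm : 3 * C * l ^ 2 * x ≤ ‖LFunction χ (1 + x + Complex.I * s.im)‖ := by
          apply three_four_one hZ hz χ hx0 (by linarith) (B := C * B1 * l ^ 10) (by positivity)
            (by positivity) hBound
          exact aux3 hC0 hZ0 hB0 hx0 (by rw [hx]; field_simp) hd2
        have hre2 : (1 + (x:ℂ) + Complex.I * s.im).re = 1 + x := by simp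
        have h4lp : 0 < 1 / (4 * l) := by positivity
        have key := h3 l hl q χ hχ hql (1 + x + Complex.I * s.im) s
          (by rw [hre2]; linarith) (by rw [hre2]; linarith) hsr1 hsr2 |s.im| (by simp) le_rfl hlog3
        have hdist : ‖(1 + (x:ℂ) + Complex.I * s.im) - s‖ ≤ 2 * x := by
          have e : (1 + (x:ℂ) + Complex.I * s.im) - s = ((1 + x - s.re : ℝ) : ℂ) := by
            apply Complex.ext <;> simp
          rw [e, Complex.norm_real, Real.norm_eq_abs, abs_le]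
          constructor <;> linarith [hsre.1, hsre.2]
        have h6 : C * l ^ 2 * ‖(1 + (x:ℂ) + Complex.I * s.im) - s‖ ≤ 2 * C * l ^ 2 * x := by
          calc _ ≤ C * l ^ 2 * (2 * x) := by gcongr
            _ = _ := by ring
        have h7 : ‖LFunction χ (1 + x + Complex.I * s.im)‖ ≤ ‖LFunction χ s‖ +
            ‖LFunction χ (1 + x + Complex.I * s.im) - LFunction χ s‖ := by
          have := norm_add_le (LFunction χ s)
            (LFunction χ (1 + x + Complex.I * s.im) - LFunction χ s)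
          rwa [add_sub_cancel] at this
        have h8 : C * d2 / l ^ 16 = C * l ^ 2 * x := by
          rw [hx]; field_simp
        rw [h8]
        have e9 : 3 * C * l ^ 2 * x = 2 * C * l ^ 2 * x + C * l ^ 2 * x := by ring
        linarith
    have hpos : 0 < C * d2 / l ^ 16 := by positivity
    have hne : LFunction χ s ≠ 0 := by
      intro h
      rw [h, norm_zero] at hlow
      linarith
    refine ⟨hne, ?_⟩
    rw [norm_div]
    calc ‖deriv (LFunction χ) s‖ / ‖LFunction χ s‖ ≤ (C * l ^ 2) / (C * d2 / l ^ 16) := by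
          apply div_le_div₀ (by positivity) _ hpos hlow
          exact h2 l hl q χ hχ hql s hsr1 hsr2 hlog3
      _ = l ^ 18 / d2 := by field_simp
  · intro l hl q₁ q₂ N _ _ _ hN χ₁ χ₂ χ₃ hχ₁ hχ₂ hmul hχ₃ hsmall
    have hl0 : 0 < l := by linarith
    have hl1 : 1 ≤ l := by linarith
    have hl9 : 1 ≤ l ^ 9 := one_le_pow₀ hl1
    have hp9 : d1 / l ^ 9 ≤ 1 / 64 := (div_le_self hd1p.le hl9).trans hd1le
    have hp0 : 0 < d1 / l ^ 9 := by positivity
    by_contra hcon
    push Not at hcon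
    have p := four_prod χ₁ χ₂ χ₃ hχ₁ hχ₂ hmul (s := 1 + d1 / l ^ 9) (by linarith)
    have z1 := hz (1 + d1 / l ^ 9) (by linarith) (by linarith)
    rw [add_sub_cancel_left] at z1
    have b := h1 (2 * l) (by linarith) N χ₃ hχ₃ hN ((1 + d1 / l ^ 9 : ℝ) : ℂ)
      (by rw [Complex.ofReal_re]
          have : 0 < 1 / (2 * l) := by positivity
          linarith)
      (by rw [Complex.ofReal_re]; linarith)
      (by rw [Complex.ofReal_im, abs_zero, zero_add]
          have := Real.log_two_lt_d9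
          linarith)
    have : ‖riemannZeta ((1 + d1 / l ^ 9 : ℝ) : ℂ)‖ * ‖LFunction χ₁ ((1 + d1 / l ^ 9 : ℝ) : ℂ)‖ *
        ‖LFunction χ₂ ((1 + d1 / l ^ 9 : ℝ) : ℂ)‖ * ‖LFunction χ₃ ((1 + d1 / l ^ 9 : ℝ) : ℂ)‖
        ≤ (Z / (d1 / l ^ 9)) * (4 * C * d1 / l ^ 7) * (4 * C * d1 / l ^ 7) * (C * (2 * l)) := by
      gcongr
    have e2 : (Z / (d1 / l ^ 9)) * (4 * C * d1 / l ^ 7) * (4 * C * d1 / l ^ 7) * (C * (2 * l)) =
        32 * Z * C ^ 3 * d1 / l ^ 4 := by
      field_simp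
      ring
    have e3 : 32 * Z * C ^ 3 * d1 = 1 / 2 := by
      rw [hd1]
      field_simp
      norm_num
    have e4 : 32 * Z * C ^ 3 * d1 / l ^ 4 ≤ 1 / 2 := by
      rw [e3]
      exact div_le_self (by norm_num) (one_le_pow₀ hl1)
    linarith

end

end Pool.Agent.H378R2.M1
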