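import Mathlib
import Pool.Agent.H50.G.S.H378R2.M1b
/-! At most one exceptional conductor. -/

open MeasureTheory Filter Topology Set

namespace Pool.Agent.H378R2.M1

open Pool.Agent.Erdos456 (fixed_lower_le mul_char_apply)
open DirichletCharacter

noncomputable section

lemma primitive_ne_one {f : ℕ} (hf : 1 < f) {χ : DirichletCharacter ℂ f} (hχ : χ.IsPrimitive) :
    χ ≠ 1 := by
  intro h
  have : NeZero f := ⟨by omega⟩
  have h1 := (isPrimitive_def χ).mp hχ
  rw [h, conductor_one] at h1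
  omega

/-- zero-free region away from one exceptional conductor -/
theorem nzr_exc : ∃ d2 : ℝ, 0 < d2 ∧ d2 ≤ 1 / 2 ∧ ∀ Z : ℕ, ∃ l0 : ℝ, ∀ l : ℝ, l0 ≤ l →
    ∃ fs : ℕ, (fs = 0 ∨ Z < fs) ∧ ∀ (f : ℕ) [NeZero f], 1 < f → Real.log f ≤ l → f ≠ fs →
      ∀ χ : DirichletCharacter ℂ f, χ.IsPrimitive →
        ∀ s : ℂ, |s.re - 1| ≤ d2 / l ^ 18 → Real.log (2 * |s.im| + 3) ≤ l →
          LFunction χ s ≠ 0 ∧ ‖deriv (LFunction χ) s / LFunction χ s‖ ≤ l ^ 18 / d2 := by
  obtain ⟨d1, d2, κ, hd1, hd1', hd2, hd2', hκ, hA, hB⟩ := nzr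
  refine ⟨d2, hd2, hd2', ?_⟩
  intro Z
  obtain ⟨c, hc, hlow⟩ := fixed_lower_le Z
  refine ⟨max 4 (κ / c + 1), ?_⟩
  intro l hl
  have hl4 : 4 ≤ l := (le_max_left _ _).trans hl
  have hlc : κ / c + 1 ≤ l := (le_max_right _ _).trans hl
  have hl0 : 0 < l := by linarith
  have hl1 : 1 ≤ l := by linarith
  have hl9 : 1 ≤ l ^ 9 := one_le_pow₀ hl1
  have hp9 : d1 / l ^ 9 ≤ 1 / 2 := (div_le_self hd1.le hl9).trans hd1'
  have hp0 : 0 < d1 / l ^ 9 := by positivity
  -- small conductors are not exceptional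
  have hκl : κ / l ^ 7 < c := by
    have h1 : κ / c < l := by linarith
    rw [div_lt_iff₀ hc] at h1
    rw [div_lt_iff₀ (by positivity)]
    have h2 : l ≤ l ^ 7 := le_self_pow₀ hl1 (by norm_num)
    calc κ < l * c := h1
      _ ≤ l ^ 7 * c := by gcongr
      _ = c * l ^ 7 := by ring
  by_cases hex : ∃ f : ℕ, ∃ _ : NeZero f, 1 < f ∧ Real.log f ≤ l ∧
      ∃ χ : DirichletCharacter ℂ f, χ.IsPrimitive ∧ χ ^ 2 = 1 ∧
        ‖LFunction χ ((1 + d1 / l ^ 9 : ℝ) : ℂ)‖ < κ / l ^ 7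
  · obtain ⟨fs, hfs0, hfs1, hfsl, χs, hχsp, hχs2, hχs⟩ := hex
    refine ⟨fs, Or.inr ?_, ?_⟩
    · by_contra hZ
      push Not at hZ
      have := hlow fs hZ χs (primitive_ne_one hfs1 hχsp) (1 + d1 / l ^ 9) (by linarith)
        (by linarith)
      linarith
    · intro f _ hf1 hfl hne χ hχ s hs1 hs2
      refine hA l hl4 f χ (primitive_ne_one hf1 hχ) hfl ?_ s hs1 hs2
      intro hsq
      have hN : NeZero (fs * f) := ⟨mul_ne_zero (NeZero.ne fs) (NeZero.ne f)⟩
      have hlogN : Real.log ((fs * f : ℕ) : ℝ) ≤ 2 * l := by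
        push_cast
        rw [Real.log_mul (by exact_mod_cast NeZero.ne fs) (by exact_mod_cast NeZero.ne f)]
        linarith
      refine hB l hl4 fs f (fs * f) hlogN χs χ
        (changeLevel (fs.dvd_mul_right f) χs * changeLevel (f.dvd_mul_left fs) χ) hχs2 hsq
        (mul_char_apply χs χ) ?_ hχs
      intro h3
      have e2 : changeLevel (f.dvd_mul_left fs) χ * changeLevel (f.dvd_mul_left fs) χ = 1 := by
        rw [← map_mul, ← pow_two, hsq, map_one]
      have e : changeLevel (fs.dvd_mul_right f) χs = changeLevel (f.dvd_mul_left fs) χ := by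
        rw [← h3] at e2
        exact (mul_right_cancel e2).symm
      have e4 := congrArg conductor e
      rw [conductor_changeLevel, conductor_changeLevel, (isPrimitive_def χs).mp hχsp,
        (isPrimitive_def χ).mp hχ] at e4
      exact hne e4.symm
  · refine ⟨0, Or.inl rfl, ?_⟩
    intro f hf0 hf1 hfl hne χ hχ s hs1 hs2
    refine hA l hl4 f χ (primitive_ne_one hf1 hχ) hfl ?_ s hs1 hs2
    intro hsq
    by_contra hcon
    push Not at hcon
    exact hex ⟨f, hf0, hf1, hfl, χ, hχ, hsq, hcon⟩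

end

end Pool.Agent.H378R2.M1
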