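import Mathlib
import Pool.Agent.H50.G.S.H378R2.Defs
/-! The Mellin transform of the weight `Phi`. -/

open MeasureTheory Filter Topology Set

namespace Pool.Agent.H378R2.M1

open Pool.Agent.H378R2 (Phi)

noncomputable section

lemma Phi_zero_left {u : ℝ} (h0 : 0 ≤ u) (h : u ≤ 1) : Phi u = 0 := by
  have h1 : Real.log u ≤ 0 := Real.log_nonpos h0 h
  unfold Phi
  rw [abs_of_nonpos (by linarith)]
  exact max_eq_left (by linarith)

lemma Phi_zero_right {u : ℝ} (h : Real.exp 1 ≤ u) : Phi u = 0 := by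
  have h1 : 1 ≤ Real.log u := by
    rw [Real.le_log_iff_exp_le ((Real.exp_pos _).trans_le h)]; exact h
  unfold Phi
  rw [abs_of_nonneg (by linarith)]
  exact max_eq_left (by linarith)

lemma Phi_left {u : ℝ} (h1 : 1 ≤ u) (h2 : u ≤ Real.exp (1 / 2)) : Phi u = Real.log u := by
  have h0 : 0 < u := by linarith
  have a1 : 0 ≤ Real.log u := Real.log_nonneg h1
  have a2 : Real.log u ≤ 1 / 2 := by
    rw [Real.log_le_iff_le_exp h0]; exact h2
  unfold Phi
  rw [abs_of_nonpos (by linarith), max_eq_right (by linarith)]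
  ring

lemma Phi_right {u : ℝ} (h1 : Real.exp (1 / 2) ≤ u) (h2 : u ≤ Real.exp 1) :
    Phi u = 1 - Real.log u := by
  have h0 : 0 < u := (Real.exp_pos _).trans_le h1
  have a1 : 1 / 2 ≤ Real.log u := by
    rw [Real.le_log_iff_exp_le h0]; exact h1
  have a2 : Real.log u ≤ 1 := by
    rw [Real.log_le_iff_le_exp h0]; exact h2
  unfold Phi
  rw [abs_of_nonneg (by linarith), max_eq_right (by linarith)]
  ring

lemma Phi_nonneg (u : ℝ) : 0 ≤ Phi u := le_max_left _ _

lemma Phi_le (u : ℝ) : Phi u ≤ 1 / 2 := by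
  unfold Phi
  apply max_le (by norm_num)
  have := abs_nonneg (Real.log u - 1 / 2)
  linarith

lemma Phi_continuousAt {u : ℝ} (hu : 0 < u) : ContinuousAt Phi u := by
  unfold Phi
  have h1 : ContinuousAt Real.log u := Real.continuousAt_log hu.ne'
  fun_prop

/-- the Mellin transform of `Phi` -/
def MPhi (s : ℂ) : ℂ := ((Complex.exp (s / 2) - 1) / s) ^ 2

lemma exp_cpow (a : ℝ) (s : ℂ) : ((Real.exp a : ℝ) : ℂ) ^ s = Complex.exp (a * s) := by
  have h : ((Real.exp a : ℝ) : ℂ) ≠ 0 := by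
    exact_mod_cast (Real.exp_pos a).ne'
  rw [Complex.cpow_def_of_ne_zero h, ← Complex.ofReal_log (Real.exp_pos a).le, Real.log_exp]

lemma hasDerivAt_F1 {s : ℂ} (hs : s ≠ 0) {u : ℝ} (hu : 0 < u) :
    HasDerivAt (fun u : ℝ => (u : ℂ) ^ s * ((Real.log u : ℝ) : ℂ) / s - (u : ℂ) ^ s / s ^ 2)
      ((u : ℂ) ^ (s - 1) * ((Real.log u : ℝ) : ℂ)) u := by
  have h1 : HasDerivAt (fun y : ℝ => (y : ℂ) ^ s) (s * (u : ℂ) ^ (s - 1)) u :=
    hasDerivAt_ofReal_cpow_const hu.ne' hs
  have h2 : HasDerivAt (fun y : ℝ => ((Real.log y : ℝ) : ℂ)) ((u⁻¹ : ℝ) : ℂ) u :=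
    (Real.hasDerivAt_log hu.ne').ofReal_comp
  have h3 : HasDerivAt (fun u : ℝ => (u : ℂ) ^ s * ((Real.log u : ℝ) : ℂ) / s -
      (u : ℂ) ^ s / s ^ 2) _ u := ((h1.mul h2).div_const s).sub (h1.div_const (s ^ 2))
  refine h3.congr_deriv ?_
  have hu' : (u : ℂ) ≠ 0 := by exact_mod_cast hu.ne'
  have e : (u : ℂ) ^ s = (u : ℂ) ^ (s - 1) * u := by
    rw [Complex.cpow_sub _ _ hu', Complex.cpow_one]
    field_simp
  rw [e]
  push_cast
  field_simp
  ring

lemma hasDerivAt_F2 {s : ℂ} (hs : s ≠ 0) {u : ℝ} (hu : 0 < u) :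
    HasDerivAt (fun u : ℝ => (u : ℂ) ^ s / s -
        ((u : ℂ) ^ s * ((Real.log u : ℝ) : ℂ) / s - (u : ℂ) ^ s / s ^ 2))
      ((u : ℂ) ^ (s - 1) * ((1 - Real.log u : ℝ) : ℂ)) u := by
  have h1 : HasDerivAt (fun y : ℝ => (y : ℂ) ^ s) (s * (u : ℂ) ^ (s - 1)) u :=
    hasDerivAt_ofReal_cpow_const hu.ne' hs
  have h3 : HasDerivAt (fun u : ℝ => (u : ℂ) ^ s / s -
        ((u : ℂ) ^ s * ((Real.log u : ℝ) : ℂ) / s - (u : ℂ) ^ s / s ^ 2)) _ u :=
    (h1.div_const s).sub (hasDerivAt_F1 hs hu)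
  refine h3.congr_deriv ?_
  push_cast
  field_simp

lemma cont_cpow (s : ℂ) {a b : ℝ} (ha : 0 < a) (hab : a ≤ b) :
    ContinuousOn (fun u : ℝ => (u : ℂ) ^ (s - 1)) (uIcc a b) := by
  intro t ht
  rw [uIcc_of_le hab] at ht
  exact (Complex.continuousAt_ofReal_cpow_const _ _ (Or.inr (by linarith [ht.1]))).continuousWithinAt

lemma cont_log {a b : ℝ} (ha : 0 < a) (hab : a ≤ b) :
    ContinuousOn (fun u : ℝ => ((Real.log u : ℝ) : ℂ)) (uIcc a b) := by
  intro t ht
  rw [uIcc_of_le hab] at ht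
  have : t ≠ 0 := by linarith [ht.1]
  exact (Complex.continuous_ofReal.continuousAt.comp (Real.continuousAt_log this)).continuousWithinAt

lemma mellin_Phi {s : ℂ} (hs : s ≠ 0) : mellin (fun u => (Phi u : ℂ)) s = MPhi s := by
  have he1 : 1 ≤ Real.exp (1 / 2) := Real.one_le_exp (by norm_num)
  have he2 : Real.exp (1 / 2) ≤ Real.exp 1 := Real.exp_le_exp.mpr (by norm_num)
  have hsub : Ioc 1 (Real.exp 1) ⊆ Ioi (0:ℝ) := fun x hx => by
    have := hx.1
    simp only [mem_Ioi]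
    linarith
  unfold mellin
  rw [setIntegral_eq_of_subset_of_forall_sdiff_eq_zero measurableSet_Ioi hsub]
  · rw [← intervalIntegral.integral_of_le (he1.trans he2)]
    have hA : ∫ u : ℝ in (1:ℝ)..(Real.exp (1/2)), (u : ℂ) ^ (s - 1) • (Phi u : ℂ) =
        ((Real.exp (1/2) : ℝ) : ℂ) ^ s * ((Real.log (Real.exp (1/2)) : ℝ) : ℂ) / s -
          ((Real.exp (1/2) : ℝ) : ℂ) ^ s / s ^ 2 -
          (((1:ℝ) : ℂ) ^ s * ((Real.log 1 : ℝ) : ℂ) / s - ((1:ℝ) : ℂ) ^ s / s ^ 2) := by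
      rw [← intervalIntegral.integral_eq_sub_of_hasDerivAt
        (f := fun u : ℝ => (u : ℂ) ^ s * ((Real.log u : ℝ) : ℂ) / s - (u : ℂ) ^ s / s ^ 2)
        (f' := fun u : ℝ => (u : ℂ) ^ (s - 1) * ((Real.log u : ℝ) : ℂ))]
      · apply intervalIntegral.integral_congr
        intro u hu
        rw [uIcc_of_le he1] at hu
        simp only
        rw [Phi_left hu.1 hu.2, smul_eq_mul]
      · intro u hu
        rw [uIcc_of_le he1] at hu
        exact hasDerivAt_F1 hs (by linarith [hu.1])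
      · exact ((cont_cpow s one_pos he1).mul (cont_log one_pos he1)).intervalIntegrable
    have hB : ∫ u : ℝ in (Real.exp (1/2))..(Real.exp 1), (u : ℂ) ^ (s - 1) • (Phi u : ℂ) =
        ((Real.exp 1 : ℝ) : ℂ) ^ s / s -
          (((Real.exp 1 : ℝ) : ℂ) ^ s * ((Real.log (Real.exp 1) : ℝ) : ℂ) / s -
            ((Real.exp 1 : ℝ) : ℂ) ^ s / s ^ 2) -
          (((Real.exp (1/2) : ℝ) : ℂ) ^ s / s -
          (((Real.exp (1/2) : ℝ) : ℂ) ^ s * ((Real.log (Real.exp (1/2)) : ℝ) : ℂ) / s -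
            ((Real.exp (1/2) : ℝ) : ℂ) ^ s / s ^ 2)) := by
      rw [← intervalIntegral.integral_eq_sub_of_hasDerivAt
        (f := fun u : ℝ => (u : ℂ) ^ s / s -
        ((u : ℂ) ^ s * ((Real.log u : ℝ) : ℂ) / s - (u : ℂ) ^ s / s ^ 2))
        (f' := fun u : ℝ => (u : ℂ) ^ (s - 1) * ((1 - Real.log u : ℝ) : ℂ))]
      · apply intervalIntegral.integral_congr
        intro u hu
        rw [uIcc_of_le he2] at hu
        simp only
        rw [Phi_right hu.1 hu.2, smul_eq_mul]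
      · intro u hu
        rw [uIcc_of_le he2] at hu
        exact hasDerivAt_F2 hs (by linarith [hu.1])
      · have : ContinuousOn (fun u : ℝ => ((1 - Real.log u : ℝ) : ℂ))
            (uIcc (Real.exp (1/2)) (Real.exp 1)) := by
          have := (continuousOn_const (c := (1:ℂ))).sub (cont_log (Real.exp_pos (1/2)) he2)
          refine this.congr fun u _ => ?_
          push_cast; rfl
        exact ((cont_cpow s (Real.exp_pos _) he2).mul this).intervalIntegrable
    have hint : ∀ a b : ℝ, 0 < a → a ≤ b →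
        IntervalIntegrable (fun u : ℝ => (u : ℂ) ^ (s - 1) • (Phi u : ℂ)) volume a b := by
      intro a b ha hab
      refine ContinuousOn.intervalIntegrable ?_
      refine (cont_cpow s ha hab).smul ?_
      intro t ht
      rw [uIcc_of_le hab] at ht
      exact (Complex.continuous_ofReal.continuousAt.comp
        (Phi_continuousAt (by linarith [ht.1]))).continuousWithinAt
    rw [← intervalIntegral.integral_add_adjacent_intervals (hint 1 _ one_pos he1)
      (hint _ _ (Real.exp_pos _) he2), hA, hB]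
    rw [exp_cpow, exp_cpow, Real.log_exp, Real.log_exp, Real.log_one, Complex.ofReal_one,
      Complex.one_cpow]
    unfold MPhi
    have e1 : Complex.exp ((1:ℂ) * s) = Complex.exp (s / 2) ^ 2 := by
      rw [← Complex.exp_nat_mul]; congr 1; push_cast; ring
    have e2 : Complex.exp (((1 / 2 : ℝ) : ℂ) * s) = Complex.exp (s / 2) := by
      congr 1; push_cast; ring
    rw [e2, e1]
    push_cast
    field_simp
    ring
  · intro u hu
    have h0 : 0 < u := hu.1
    have : Phi u = 0 := by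
      rcases le_or_gt u 1 with h | h
      · exact Phi_zero_left h0.le h
      · apply Phi_zero_right
        by_contra hlt
        exact hu.2 ⟨h, (not_le.mp hlt).le⟩
    simp [this]

lemma MPhi_bound {s : ℂ} (h2 : s.re ≤ 2) : ‖MPhi s‖ ≤ 16 / ‖s‖ ^ 2 := by
  unfold MPhi
  rw [norm_pow, norm_div, div_pow]
  gcongr
  have h1 : ‖Complex.exp (s / 2) - 1‖ ≤ 4 := by
    refine (norm_sub_le _ _).trans ?_
    rw [norm_one, Complex.norm_exp]
    have h3 : (s / 2).re ≤ 1 := by
      have : (s / 2).re = s.re / 2 := by simp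
      rw [this]; linarith
    have h4 : Real.exp (s / 2).re ≤ Real.exp 1 := Real.exp_le_exp.mpr h3
    have := Real.exp_one_lt_d9
    linarith
  calc ‖Complex.exp (s / 2) - 1‖ ^ 2 ≤ 4 ^ 2 := by gcongr
    _ = 16 := by norm_num

lemma MPhi_differentiableAt {s : ℂ} (hs : s ≠ 0) : DifferentiableAt ℂ MPhi s := by
  unfold MPhi
  fun_prop (disch := assumption)

lemma mellinConvergent_Phi {c : ℝ} (hc : 0 < c) :
    MellinConvergent (fun u => (Phi u : ℂ)) (c : ℂ) := by
  have he1 : 1 ≤ Real.exp (1 / 2) := Real.one_le_exp (by norm_num)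
  have he2 : Real.exp (1 / 2) ≤ Real.exp 1 := Real.exp_le_exp.mpr (by norm_num)
  have hsub : Ioc 1 (Real.exp 1) ⊆ Ioi (0:ℝ) := fun x hx => by
    have := hx.1
    simp only [mem_Ioi]
    linarith
  have hint : IntegrableOn (fun u : ℝ => (u : ℂ) ^ ((c:ℂ) - 1) • (Phi u : ℂ))
      (Ioc 1 (Real.exp 1)) := by
    rw [← intervalIntegrable_iff_integrableOn_Ioc_of_le (he1.trans he2)]
    refine ContinuousOn.intervalIntegrable ?_
    refine (cont_cpow _ one_pos (he1.trans he2)).smul ?_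
    intro t ht
    rw [uIcc_of_le (he1.trans he2)] at ht
    exact (Complex.continuous_ofReal.continuousAt.comp
      (Phi_continuousAt (by linarith [ht.1]))).continuousWithinAt
  refine hint.of_forall_sdiff_eq_zero measurableSet_Ioi ?_
  intro u hu
  have h0 : 0 < u := hu.1
  have : Phi u = 0 := by
    rcases le_or_gt u 1 with h | h
    · exact Phi_zero_left h0.le h
    · apply Phi_zero_right
      by_contra hlt
      exact hu.2 ⟨h, (not_le.mp hlt).le⟩
  simp [this]

lemma norm_sq_lower {c t : ℝ} (hc : 1 ≤ c) : 1 + t ^ 2 ≤ ‖(c : ℂ) + t * Complex.I‖ ^ 2 := by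
  rw [Complex.sq_norm, Complex.normSq_apply]
  simp
  nlinarith

lemma MPhi_line_bound {c t : ℝ} (hc : 1 ≤ c) (hc2 : c ≤ 2) :
    ‖MPhi ((c : ℂ) + t * Complex.I)‖ ≤ 16 * (1 + t ^ 2)⁻¹ := by
  refine (MPhi_bound (by simpa using hc2)).trans ?_
  rw [div_eq_mul_inv]
  have := norm_sq_lower (c := c) (t := t) hc
  gcongr

lemma line_ne_zero {c t : ℝ} (hc : 0 < c) : (c : ℂ) + t * Complex.I ≠ 0 := by
  intro h
  have := congrArg Complex.re h
  simp at this
  linarith

lemma MPhi_line_continuous {c : ℝ} (hc : 0 < c) :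
    Continuous (fun t : ℝ => MPhi ((c : ℂ) + t * Complex.I)) := by
  rw [continuous_iff_continuousAt]
  intro t
  have h1 := (MPhi_differentiableAt (line_ne_zero (t := t) hc)).continuousAt
  exact ContinuousAt.comp (f := fun t : ℝ => (c : ℂ) + t * Complex.I) (g := MPhi) h1 (by fun_prop)

lemma MPhi_line_integrable {c : ℝ} (hc : 1 ≤ c) (hc2 : c ≤ 2) :
    Integrable (fun t : ℝ => MPhi ((c : ℂ) + t * Complex.I)) := by
  refine Integrable.mono' (integrable_inv_one_add_sq.const_mul 16)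
    (MPhi_line_continuous (by linarith)).aestronglyMeasurable ?_
  exact Eventually.of_forall fun t => MPhi_line_bound hc hc2

/-- Mellin inversion for `Phi` -/
lemma Phi_inversion {c u : ℝ} (hc : 1 ≤ c) (hc2 : c ≤ 2) (hu : 0 < u) :
    (Phi u : ℂ) = (1 / (2 * Real.pi) : ℝ) *
      ∫ t : ℝ, (u : ℂ) ^ (-((c : ℂ) + t * Complex.I)) * MPhi ((c : ℂ) + t * Complex.I) := by
  have hm : ∀ t : ℝ, mellin (fun u => (Phi u : ℂ)) ((c : ℂ) + t * Complex.I) =
      MPhi ((c : ℂ) + t * Complex.I) := fun t => mellin_Phi (line_ne_zero (by linarith))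
  have h := mellinInv_mellin_eq c (fun u => (Phi u : ℂ)) hu (mellinConvergent_Phi (by linarith)) ?_ ?_
  · rw [← h]
    unfold mellinInv
    simp_rw [hm]
    simp only [smul_eq_mul]
    rw [Complex.real_smul]
  · unfold Complex.VerticalIntegrable
    simp_rw [hm]
    exact MPhi_line_integrable hc hc2
  · exact Complex.continuous_ofReal.continuousAt.comp (Phi_continuousAt hu)

end

end Pool.Agent.H378R2.M1
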