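import Mathlib
import Pool.Agent.H50.G.S.H378R2.M1d
/-! The integral formula for `psiPhi`. -/

open MeasureTheory Filter Topology Set

namespace Pool.Agent.H378R2.M1

open Pool.Agent.H378R2 (Phi psiPhi)
open DirichletCharacter
open ArithmeticFunction (vonMangoldt)

noncomputable section

/-- coefficients of `-L'/L` -/
def aT {q : ℕ} (χ : DirichletCharacter ℂ q) (n : ℕ) : ℂ := χ (n : ZMod q) * ((vonMangoldt n : ℝ) : ℂ)

/-- minus the logarithmic derivative -/
def G {q : ℕ} [NeZero q] (χ : DirichletCharacter ℂ q) (s : ℂ) : ℂ :=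
  -deriv (LFunction χ) s / LFunction χ s

lemma G_eq {q : ℕ} [NeZero q] (χ : DirichletCharacter ℂ q) {s : ℂ} (hs : 1 < s.re) :
    LSeries (aT χ) s = G χ s := by
  have h := LSeries_twist_vonMangoldt_eq χ hs
  unfold G
  rw [deriv_LFunction_eq_deriv_LSeries χ hs, LFunction_eq_LSeries χ hs, ← h]
  rfl

lemma norm_aT_le {q : ℕ} (χ : DirichletCharacter ℂ q) (n : ℕ) : ‖aT χ n‖ ≤ vonMangoldt n := by
  unfold aT
  rw [norm_mul, Complex.norm_real, Real.norm_of_nonneg ArithmeticFunction.vonMangoldt_nonneg]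
  have := χ.norm_le_one (n : ZMod q)
  calc ‖χ (n : ZMod q)‖ * vonMangoldt n ≤ 1 * vonMangoldt n :=
        mul_le_mul_of_nonneg_right this ArithmeticFunction.vonMangoldt_nonneg
    _ = _ := one_mul _

lemma term_norm {q : ℕ} (χ : DirichletCharacter ℂ q) (s : ℂ) (n : ℕ) :
    ‖LSeries.term (aT χ) s n‖ ≤ vonMangoldt n * (n : ℝ) ^ (-s.re) := by
  rcases Nat.eq_zero_or_pos n with h | h
  · subst h
    simp
  · rw [LSeries.norm_term_eq, if_neg h.ne', Real.rpow_neg (Nat.cast_nonneg n), div_eq_mul_inv]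
    exact mul_le_mul_of_nonneg_right (norm_aT_le χ n) (by positivity)

lemma term_norm_eq {q : ℕ} (χ : DirichletCharacter ℂ q) (c t : ℝ) (n : ℕ) :
    ‖LSeries.term (aT χ) ((c : ℂ) + t * Complex.I) n‖ = ‖LSeries.term (aT χ) (c : ℂ) n‖ := by
  rw [LSeries.norm_term_eq, LSeries.norm_term_eq]
  simp

lemma vM_summable {c : ℝ} (hc : 1 < c) :
    Summable (fun n : ℕ => vonMangoldt n * (n : ℝ) ^ (-c)) := by
  have h := (ArithmeticFunction.LSeriesSummable_vonMangoldt (s := (c : ℂ)) (by simpa using hc)).norm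
  refine h.congr fun n => ?_
  rcases Nat.eq_zero_or_pos n with h | h
  · subst h
    simp
  · rw [LSeries.norm_term_eq, if_neg h.ne', Real.rpow_neg (Nat.cast_nonneg n), div_eq_mul_inv,
      Complex.norm_real, Real.norm_of_nonneg ArithmeticFunction.vonMangoldt_nonneg,
      Complex.ofReal_re]

lemma aT_summable {q : ℕ} (χ : DirichletCharacter ℂ q) {c : ℝ} (hc : 1 < c) :
    Summable (fun n : ℕ => ‖LSeries.term (aT χ) (c : ℂ) n‖) := by
  refine Summable.of_nonneg_of_le (fun n => norm_nonneg _) (fun n => ?_) (vM_summable hc)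
  simpa using term_norm χ (c : ℂ) n

/-- the integrand -/
def Fint {q : ℕ} (χ : DirichletCharacter ℂ q) (X c : ℝ) (n : ℕ) (t : ℝ) : ℂ :=
  LSeries.term (aT χ) ((c : ℂ) + t * Complex.I) n *
    ((X : ℂ) ^ ((c : ℂ) + t * Complex.I) * MPhi ((c : ℂ) + t * Complex.I))

lemma Fint_norm {q : ℕ} (χ : DirichletCharacter ℂ q) {X c : ℝ} (hX : 0 < X) (n : ℕ) (t : ℝ) :
    ‖Fint χ X c n t‖ = ‖LSeries.term (aT χ) (c : ℂ) n‖ * X ^ c *
      ‖MPhi ((c : ℂ) + t * Complex.I)‖ := by
  unfold Fint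
  rw [norm_mul, norm_mul, term_norm_eq, Complex.norm_cpow_eq_rpow_re_of_pos hX]
  have : ((c : ℂ) + t * Complex.I).re = c := by simp
  rw [this]
  ring

lemma Fint_continuous {q : ℕ} (χ : DirichletCharacter ℂ q) {X c : ℝ} (hX : 0 < X) (hc : 0 < c)
    (n : ℕ) : Continuous (Fint χ X c n) := by
  unfold Fint
  have hX' : (X : ℂ) ≠ 0 := by exact_mod_cast hX.ne'
  refine Continuous.mul ?_ (Continuous.mul ?_ (MPhi_line_continuous hc))
  · rcases Nat.eq_zero_or_pos n with h | h
    · subst h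
      simp only [LSeries.term_zero]
      exact continuous_const
    · have hn : (n : ℂ) ≠ 0 := by exact_mod_cast h.ne'
      simp_rw [LSeries.term_of_ne_zero h.ne']
      refine Continuous.div continuous_const ?_ ?_
      · exact Continuous.const_cpow (by fun_prop) (Or.inl hn)
      · intro t
        rw [Ne, Complex.cpow_eq_zero_iff]
        tauto
  · exact Continuous.const_cpow (by fun_prop) (Or.inl hX')

lemma Fint_integrable {q : ℕ} (χ : DirichletCharacter ℂ q) {X c : ℝ} (hX : 0 < X) (hc : 1 ≤ c)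
    (hc2 : c ≤ 2) (n : ℕ) : Integrable (Fint χ X c n) := by
  refine Integrable.mono' ((MPhi_line_integrable hc hc2).norm.const_mul
    (‖LSeries.term (aT χ) (c : ℂ) n‖ * X ^ c))
    (Fint_continuous χ hX (by linarith) n).aestronglyMeasurable ?_
  exact Eventually.of_forall fun t => (Fint_norm χ hX n t).le

lemma Fint_integral {q : ℕ} (χ : DirichletCharacter ℂ q) {X c : ℝ} (hX : 0 < X) (hc : 1 ≤ c)
    (hc2 : c ≤ 2) (n : ℕ) :
    (1 / (2 * Real.pi) : ℝ) * ∫ t : ℝ, Fint χ X c n t =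
      ((Phi (n / X) * vonMangoldt n : ℝ) : ℂ) * χ (n : ZMod q) := by
  rcases Nat.eq_zero_or_pos n with h | h
  · subst h
    unfold Fint
    simp
  · have hn0 : (0 : ℝ) < n := by exact_mod_cast h
    have hu : 0 < (n : ℝ) / X := by positivity
    have key := Phi_inversion hc hc2 hu
    have e : ∀ t : ℝ, Fint χ X c n t = aT χ n *
        ((((n / X : ℝ)) : ℂ) ^ (-((c : ℂ) + t * Complex.I)) * MPhi ((c : ℂ) + t * Complex.I)) := by
      intro t
      unfold Fint
      rw [LSeries.term_of_ne_zero h.ne']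
      have hX' : (X : ℂ) ≠ 0 := by exact_mod_cast hX.ne'
      have hn' : (n : ℂ) ≠ 0 := by exact_mod_cast h.ne'
      have e1 : (((n / X : ℝ)) : ℂ) ^ (-((c : ℂ) + t * Complex.I)) =
          (X : ℂ) ^ ((c : ℂ) + t * Complex.I) / (n : ℂ) ^ ((c : ℂ) + t * Complex.I) := by
        have e2 : (((n / X : ℝ)) : ℂ) = ((n : ℝ) : ℂ) * ((X⁻¹ : ℝ) : ℂ) := by
          push_cast; rw [div_eq_mul_inv]
        rw [e2, Complex.mul_cpow_ofReal_nonneg hn0.le (by positivity), Complex.cpow_neg,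
          Complex.ofReal_natCast, Complex.ofReal_inv]
        have e3 : ((X : ℂ)⁻¹) ^ (-((c : ℂ) + t * Complex.I)) = (X : ℂ) ^ ((c : ℂ) + t * Complex.I) := by
          rw [Complex.cpow_neg, Complex.inv_cpow, inv_inv]
          rw [Complex.arg_ofReal_of_nonneg hX.le]
          exact Real.pi_pos.ne
        rw [e3]
        field_simp
      rw [e1]
      ring
    simp_rw [e]
    rw [integral_const_mul]
    push_cast at key ⊢
    rw [key]
    unfold aT
    ring

theorem psiPhi_eq {q : ℕ} [NeZero q] (χ : DirichletCharacter ℂ q) {X c : ℝ} (hX : 0 < X)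
    (hc : 1 < c) (hc2 : c ≤ 2) :
    psiPhi χ X = (1 / (2 * Real.pi) : ℝ) * ∫ t : ℝ, G χ ((c : ℂ) + t * Complex.I) *
      ((X : ℂ) ^ ((c : ℂ) + t * Complex.I) * MPhi ((c : ℂ) + t * Complex.I)) := by
  have hsum : HasSum (fun n => ∫ t : ℝ, Fint χ X c n t) (∫ t : ℝ, ∑' n, Fint χ X c n t) := by
    refine hasSum_integral_of_summable_integral_norm (Fint_integrable χ hX hc.le hc2) ?_
    simp_rw [Fint_norm χ hX, integral_const_mul]
    exact ((aT_summable χ hc).mul_right _).mul_right _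
  have h2 : ∫ t : ℝ, ∑' n, Fint χ X c n t = ∫ t : ℝ, G χ ((c : ℂ) + t * Complex.I) *
      ((X : ℂ) ^ ((c : ℂ) + t * Complex.I) * MPhi ((c : ℂ) + t * Complex.I)) := by
    congr 1
    funext t
    unfold Fint
    rw [tsum_mul_right]
    congr 1
    rw [← G_eq χ (by simpa using hc)]
    rfl
  rw [← h2]
  have h3 := hsum.mul_left (((1 / (2 * Real.pi) : ℝ)) : ℂ)
  rw [← h3.tsum_eq]
  simp_rw [Fint_integral χ hX hc.le hc2]
  unfold psiPhi
  symm
  apply tsum_eq_sum
  intro n hn
  rw [Finset.mem_Icc, not_and_or] at hn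
  have h0 : Phi (n / X) * vonMangoldt n = 0 := by
    rcases hn with hn | hn
    · have : n = 0 := by omega
      rw [this]; simp
    · have h3X : 3 * X < n := by
        rw [not_le] at hn
        exact (Nat.floor_lt (by positivity)).mp hn
      rw [Phi_zero_right, zero_mul]
      rw [le_div_iff₀ hX]
      have := Real.exp_one_lt_d9
      nlinarith
  rw [h0]
  simp

end

end Pool.Agent.H378R2.M1
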