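import Mathlib

set_option autoImplicit false

open Finset

namespace Pool.Agent.H378R2.M5

variable {R : Type*} [CommRing R]

/-- local weight of a pair of finite sets of primes -/
noncomputable def phi (a b w : ℕ → R) (P : Finset ℕ × Finset ℕ) : R :=
  (∏ p ∈ P.1, a p) * (∏ p ∈ P.2, b p) * ∏ p ∈ P.1 ∪ P.2, w p

theorem two_var (Q : Finset ℕ) (a b w c : ℕ → R) :
    ∑ D ∈ Q.powerset, ∑ D' ∈ Q.powerset, phi a b w (D, D') * ∏ p ∈ Q \ (D ∪ D'), c p =
      ∏ p ∈ Q, (c p + w p * (a p + b p + a p * b p)) := by
  classical
  induction Q using Finset.induction_on with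
  | empty => simp [phi]
  | insert q Q hq ih =>
    rw [Finset.prod_insert hq, ← ih]
    rw [Finset.sum_powerset_insert hq]
    simp_rw [Finset.sum_powerset_insert hq]
    rw [← Finset.sum_add_distrib, Finset.mul_sum]
    refine Finset.sum_congr rfl (fun D hD => ?_)
    rw [← Finset.sum_add_distrib, ← Finset.sum_add_distrib, ← Finset.sum_add_distrib,
      Finset.mul_sum]
    refine Finset.sum_congr rfl (fun D' hD' => ?_)
    rw [Finset.mem_powerset] at hD hD'
    have h1 : q ∉ D := fun h => hq (hD h)
    have h2 : q ∉ D' := fun h => hq (hD' h)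
    have h3 : q ∉ D ∪ D' := by simp [h1, h2]
    have e1 : insert q Q \ (D ∪ D') = insert q (Q \ (D ∪ D')) := by
      rw [Finset.insert_sdiff_of_notMem _ h3]
    have e2 : insert q Q \ (D ∪ insert q D') = Q \ (D ∪ D') := by
      ext x; simp only [mem_sdiff, mem_insert, mem_union, not_or]
      constructor
      · rintro ⟨h, h', h'', h'''⟩
        exact ⟨h.resolve_left h'', h', h'''⟩
      · rintro ⟨h, h', h''⟩
        exact ⟨Or.inr h, h', fun hx => hq (hx ▸ h), h''⟩
    have e3 : insert q Q \ (insert q D ∪ D') = Q \ (D ∪ D') := by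
      ext x; simp only [mem_sdiff, mem_insert, mem_union, not_or]
      constructor
      · rintro ⟨h, ⟨h', h''⟩, h'''⟩
        exact ⟨h.resolve_left h', h'', h'''⟩
      · rintro ⟨h, h', h''⟩
        exact ⟨Or.inr h, ⟨fun hx => hq (hx ▸ h), h'⟩, h''⟩
    have e4 : insert q Q \ (insert q D ∪ insert q D') = Q \ (D ∪ D') := by
      ext x; simp only [mem_sdiff, mem_insert, mem_union, not_or]
      constructor
      · rintro ⟨h, ⟨h', h''⟩, _, h'''⟩
        exact ⟨h.resolve_left h', h'', h'''⟩
      · rintro ⟨h, h', h''⟩
        exact ⟨Or.inr h, ⟨fun hx => hq (hx ▸ h), h'⟩, fun hx => hq (hx ▸ h), h''⟩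
    have h4 : q ∉ Q \ (D ∪ D') := fun h => hq (Finset.mem_sdiff.mp h).1
    rw [e1, e2, e3, e4, Finset.prod_insert h4]
    simp only [phi, Finset.insert_union, Finset.union_insert, Finset.insert_idem]
    rw [Finset.prod_insert h3, Finset.prod_insert h1, Finset.prod_insert h2]
    ring

/-- sum over a product set of tuples, splitting off the first coordinate -/
theorem sum_cons {X : Type*} {M : Type*} [AddCommMonoid M] (J : ℕ) (s : Finset X)
    (f : (Fin (J+1) → X) → M) :
    ∑ P ∈ Fintype.piFinset (fun _ : Fin (J+1) => s), f P =
      ∑ x ∈ s, ∑ P ∈ Fintype.piFinset (fun _ : Fin J => s), f (Fin.cons x P) := by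
  classical
  rw [← Finset.sum_product']
  apply Finset.sum_nbij' (fun P => (P 0, Fin.tail P)) (fun xP => Fin.cons xP.1 xP.2)
  · intro P hP
    rw [Fintype.mem_piFinset] at hP
    rw [Finset.mem_product, Fintype.mem_piFinset]
    exact ⟨hP 0, fun i => hP i.succ⟩
  · intro xP hxP
    rw [Finset.mem_product, Fintype.mem_piFinset] at hxP
    rw [Fintype.mem_piFinset]
    intro i
    refine Fin.cases ?_ (fun j => ?_) i
    · simpa using hxP.1
    · simpa using hxP.2 j
  · intro P _
    exact Fin.cons_self_tail P
  · intro xP _
    simp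
  · intro P _
    simp only [Fin.cons_self_tail]

/-- union of the pair -/
def U (P : Finset ℕ × Finset ℕ) : Finset ℕ := P.1 ∪ P.2

open Classical in
theorem euler (J : ℕ) : ∀ (Q : Finset ℕ) (a b w : Fin J → ℕ → R),
    ∑ P ∈ Fintype.piFinset (fun _ : Fin J => Q.powerset ×ˢ Q.powerset),
      (if Pairwise (fun i j => Disjoint (U (P i)) (U (P j))) then
        ∏ j, phi (a j) (b j) (w j) (P j) else 0) =
      ∏ p ∈ Q, (1 + ∑ j, w j p * (a j p + b j p + a j p * b j p)) := by
  induction J with
  | zero =>
    intro Q a b w
    simp [Pairwise]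
  | succ J ih =>
    intro Q a b w
    rw [sum_cons]
    -- inner sum
    have hinner : ∀ x ∈ Q.powerset ×ˢ Q.powerset,
        ∑ P ∈ Fintype.piFinset (fun _ : Fin J => Q.powerset ×ˢ Q.powerset),
          (if Pairwise (fun i j => Disjoint (U ((Fin.cons x P : Fin (J+1) → _) i))
              (U ((Fin.cons x P : Fin (J+1) → _) j))) then
            ∏ j, phi (a j) (b j) (w j) ((Fin.cons x P : Fin (J+1) → _) j) else 0) =
        phi (a 0) (b 0) (w 0) x * ∏ p ∈ Q \ U x,
          (1 + ∑ j : Fin J, w j.succ p * (a j.succ p + b j.succ p + a j.succ p * b j.succ p)) := by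
      intro x hx
      rw [← ih (Q \ U x) (fun j => a j.succ) (fun j => b j.succ) (fun j => w j.succ)]
      rw [Finset.mul_sum]
      have hsub : Fintype.piFinset (fun _ : Fin J => (Q \ U x).powerset ×ˢ (Q \ U x).powerset) ⊆
          Fintype.piFinset (fun _ : Fin J => Q.powerset ×ˢ Q.powerset) := by
        apply Fintype.piFinset_subset
        intro _
        apply Finset.product_subset_product <;>
        exact Finset.powerset_mono.mpr Finset.sdiff_subset
      rw [← Finset.sum_subset hsub]
      · refine Finset.sum_congr rfl (fun P hP => ?_)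
        rw [Fintype.mem_piFinset] at hP
        have hdis : ∀ j, Disjoint (U x) (U (P j)) := by
          intro j
          have := hP j
          rw [Finset.mem_product, Finset.mem_powerset, Finset.mem_powerset] at this
          rw [Finset.disjoint_left]
          intro p hp hpj
          have h1 : p ∈ Q \ U x := (Finset.union_subset this.1 this.2) hpj
          exact (Finset.mem_sdiff.mp h1).2 hp
        have hiff : Pairwise (fun i j => Disjoint (U ((Fin.cons x P : Fin (J+1) → _) i))
              (U ((Fin.cons x P : Fin (J+1) → _) j))) ↔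
              Pairwise (fun i j => Disjoint (U (P i)) (U (P j))) := by
          constructor
          · intro h i j hij
            have := h (i := i.succ) (j := j.succ) (fun hh => hij (Fin.succ_injective _ hh))
            simpa using this
          · intro h i j hij
            revert hij
            refine Fin.cases ?_ (fun i' => ?_) i <;> refine Fin.cases ?_ (fun j' => ?_) j
            · intro h; exact absurd rfl h
            · intro _; simpa using hdis j'
            · intro _; simpa using (hdis i').symm
            · intro hij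
              have := h (i := i') (j := j') (fun hh => hij (by rw [hh]))
              simpa using this
        by_cases hpw : Pairwise (fun i j => Disjoint (U (P i)) (U (P j)))
        · rw [if_pos (hiff.mpr hpw), if_pos hpw, Fin.prod_univ_succ]
          simp
        · rw [if_neg (fun h => hpw (hiff.mp h)), if_neg hpw, mul_zero]
      · intro P hP hPn
        rw [if_neg]
        intro hpw
        apply hPn
        rw [Fintype.mem_piFinset] at hP ⊢
        intro j
        have h1 := hP j
        rw [Finset.mem_product, Finset.mem_powerset, Finset.mem_powerset] at h1 ⊢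
        have h2 := hpw (i := 0) (j := j.succ) (Fin.succ_ne_zero j).symm
        simp only [Fin.cons_zero, Fin.cons_succ] at h2
        rw [Finset.disjoint_left] at h2
        constructor
        · intro p hp
          rw [Finset.mem_sdiff]
          exact ⟨h1.1 hp, fun hpx => h2 hpx (Finset.mem_union_left _ hp)⟩
        · intro p hp
          rw [Finset.mem_sdiff]
          exact ⟨h1.2 hp, fun hpx => h2 hpx (Finset.mem_union_right _ hp)⟩
    rw [Finset.sum_congr rfl hinner, Finset.sum_product]
    have h2 := two_var Q (a 0) (b 0) (w 0)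
      (fun p => 1 + ∑ j : Fin J, w j.succ p * (a j.succ p + b j.succ p + a j.succ p * b j.succ p))
    simp only [U] at h2 ⊢
    rw [h2]
    refine Finset.prod_congr rfl (fun p _ => ?_)
    rw [Fin.sum_univ_succ]
    ring

end Pool.Agent.H378R2.M5
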