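import Mathlib

set_option autoImplicit false

open Finset MeasureTheory
open scoped ContDiff FourierTransform

namespace Pool.Agent.H378R2.M5

/-- the exponent -/
noncomputable def ss (v : ℝ) : ℂ := 1 - 2 * Real.pi * Complex.I * v

theorem ss_re (v : ℝ) : (ss v).re = 1 := by
  simp [ss]

theorem norm_ss_le (v : ℝ) : ‖ss v‖ ≤ 1 + 2 * Real.pi * |v| := by
  rw [ss]
  refine (norm_sub_le _ _).trans ?_
  simp [abs_of_pos Real.pi_pos]

theorem one_le_norm_ss (v : ℝ) : 1 ≤ ‖ss v‖ := by
  have := Complex.abs_re_le_norm (ss v)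
  rw [ss_re] at this
  simpa using this

theorem continuous_ss : Continuous ss := by
  unfold ss; fun_prop

/-- Fourier data of a smooth compactly supported function -/
theorem fourier_data (f : ℝ → ℝ) (hf : ContDiff ℝ ∞ f) (hc : HasCompactSupport f) :
    ∃ η : ℝ → ℂ, Continuous η ∧ (∀ k : ℕ, Integrable (fun v => ‖ss v‖ ^ k * ‖η v‖)) ∧
      (∀ t : ℝ, (f t : ℂ) = ∫ v, η v * Complex.exp (-(ss v) * t)) ∧
      (∀ t : ℝ, ((deriv f t : ℝ) : ℂ) = -∫ v, η v * ss v * Complex.exp (-(ss v) * t)) := by
  set g : ℝ → ℂ := fun t => Complex.exp t * (f t : ℂ) with hg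
  have hgs : ContDiff ℝ ∞ g := by
    have h1 : ContDiff ℝ ∞ (fun t : ℝ => (f t : ℂ)) := Complex.ofRealCLM.contDiff.comp hf
    have h2 : ContDiff ℝ ∞ (fun t : ℝ => Complex.exp (t : ℂ)) :=
      (Complex.ofRealCLM.contDiff).cexp
    exact h2.mul h1
  have hgc : HasCompactSupport g := by
    have h1 : HasCompactSupport (fun t : ℝ => (f t : ℂ)) :=
      hc.comp_left (g := fun x : ℝ => (x : ℂ)) (by simp)
    exact h1.mul_left
  set S := hgc.toSchwartzMap hgs with hS
  have hSg : (S : ℝ → ℂ) = g := rfl
  set η : SchwartzMap ℝ ℂ := 𝓕 S with hη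
  have hηg : (η : ℝ → ℂ) = 𝓕 g := by
    rw [hη, SchwartzMap.fourier_coe, hSg]
  have hgi : Integrable g := by rw [← hSg]; exact S.integrable
  have hηi : Integrable (𝓕 g) := by rw [← hηg]; exact η.integrable
  have hinv : ∀ t : ℝ, g t = ∫ v : ℝ, Complex.exp (2 * Real.pi * Complex.I * (v * t)) * η v := by
    intro t
    have h1 := hgi.fourierInv_fourier_eq hηi (v := t) hgs.continuous.continuousAt
    rw [← h1, Real.fourierInv_eq', hηg]
    refine integral_congr_ae (Filter.Eventually.of_forall (fun v => ?_))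
    simp only [smul_eq_mul]
    congr 2
    simp
    ring
  have hder : ∀ t : ℝ, HasDerivAt g (Complex.exp (t : ℂ) * (f t : ℂ) + Complex.exp (t : ℂ) * ((deriv f t : ℝ) : ℂ)) t := by
    intro t
    have h1 : HasDerivAt (fun t : ℝ => Complex.exp (t : ℂ)) (Complex.exp (t : ℂ)) t := by
      have := (Complex.hasDerivAt_exp (t : ℂ)).comp_ofReal
      exact this
    have h2 : HasDerivAt (fun t : ℝ => (f t : ℂ)) ((deriv f t : ℝ) : ℂ) t := by
      have := ((hf.differentiable (by simp)) t).hasDerivAt
      exact this.ofReal_comp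
    exact h1.mul h2
  have hdg : deriv g = fun t : ℝ => Complex.exp (t : ℂ) * (f t : ℂ) + Complex.exp (t : ℂ) * ((deriv f t : ℝ) : ℂ) := by
    funext t; exact (hder t).deriv
  have hdgs : ContDiff ℝ ∞ (deriv g) := by
    exact (contDiff_infty_iff_deriv.mp hgs).2
  have hdgc : HasCompactSupport (deriv g) := hgc.deriv
  have hdgi : Integrable (deriv g) := hdgs.continuous.integrable_of_hasCompactSupport hdgc
  have hFd : 𝓕 (deriv g) = fun (x : ℝ) ↦ (2 * Real.pi * Complex.I * x) • (𝓕 g x) :=
    Real.fourier_deriv hgi (hgs.differentiable (by simp)) hdgi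
  have hmulint : Integrable (fun v : ℝ => (v : ℂ) * η v) := by
    have h1 := η.integrable_pow_mul volume 1
    refine h1.mono' ?_ ?_
    · exact (Continuous.mul (by fun_prop) η.continuous).aestronglyMeasurable
    · refine Filter.Eventually.of_forall (fun v => ?_)
      simp
  have hFdi : Integrable (𝓕 (deriv g)) := by
    rw [hFd, ← hηg]
    have : (fun (x : ℝ) ↦ (2 * Real.pi * Complex.I * x) • (η x)) =
        fun x : ℝ => (2 * Real.pi * Complex.I) * ((x : ℂ) * η x) := by
      funext x; simp [mul_assoc]
    rw [this]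
    exact hmulint.const_mul _
  have hinvd : ∀ t : ℝ, deriv g t = ∫ v : ℝ, Complex.exp (2 * Real.pi * Complex.I * (v * t)) *
      ((2 * Real.pi * Complex.I * v) * η v) := by
    intro t
    have h1 := hdgi.fourierInv_fourier_eq hFdi (v := t) hdgs.continuous.continuousAt
    rw [← h1, Real.fourierInv_eq', hFd, hηg]
    refine integral_congr_ae (Filter.Eventually.of_forall (fun v => ?_))
    simp only [smul_eq_mul]
    congr 2
    simp
    ring
  have hexpn : ∀ v t : ℝ, ‖Complex.exp (2 * Real.pi * Complex.I * (v * t))‖ = 1 := by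
    intro v t
    rw [Complex.norm_exp]
    simp
  have hi1 : ∀ t : ℝ, Integrable (fun v : ℝ => Complex.exp (2 * Real.pi * Complex.I * (v * t)) * η v) := by
    intro t
    refine (η.integrable (μ := volume)).norm.mono' ?_ ?_
    · exact (Continuous.mul (by fun_prop) η.continuous).aestronglyMeasurable
    · refine Filter.Eventually.of_forall (fun v => ?_)
      rw [norm_mul, hexpn, one_mul]
  have hi2 : ∀ t : ℝ, Integrable (fun v : ℝ => Complex.exp (2 * Real.pi * Complex.I * (v * t)) *
      ((2 * Real.pi * Complex.I * v) * η v)) := by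
    intro t
    have h3 : Integrable (fun v : ℝ => (2 * Real.pi * Complex.I * v) * η v) := by
      have : (fun v : ℝ => (2 * Real.pi * Complex.I * v) * η v) =
        fun x : ℝ => (2 * Real.pi * Complex.I) * ((x : ℂ) * η x) := by
        funext x; simp [mul_assoc]
      rw [this]
      exact hmulint.const_mul _
    refine h3.norm.mono' ?_ ?_
    · exact (Continuous.mul (by fun_prop) (Continuous.mul (by fun_prop) η.continuous)).aestronglyMeasurable
    · refine Filter.Eventually.of_forall (fun v => ?_)
      rw [norm_mul, hexpn, one_mul]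
  have hexp : ∀ v t : ℝ, Complex.exp (-(ss v) * t) =
      Complex.exp (-(t : ℂ)) * Complex.exp (2 * Real.pi * Complex.I * (v * t)) := by
    intro v t
    rw [← Complex.exp_add, ss]
    congr 1; ring
  refine ⟨η, η.continuous, ?_, ?_, ?_⟩
  · intro k
    have h1 := (η.integrable_pow_mul volume k).const_mul (2 ^ k * (2 * Real.pi) ^ k)
    have h2 := (η.integrable (μ := volume)).norm.const_mul (2 ^ k)
    refine (h1.add h2).mono' ?_ ?_
    · exact (Continuous.mul (by have := continuous_ss; fun_prop) η.continuous.norm).aestronglyMeasurable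
    · refine Filter.Eventually.of_forall (fun v => ?_)
      rw [norm_mul, norm_pow, norm_norm, norm_norm]
      simp only [Pi.add_apply]
      have h3 : ‖ss v‖ ^ k ≤ 2 ^ k * ((2 * Real.pi) ^ k * |v| ^ k) + 2 ^ k := by
        have h4 := norm_ss_le v
        have h5 : (1 + 2 * Real.pi * |v|) ≤ 2 * max 1 (2 * Real.pi * |v|) := by
          have := le_max_left 1 (2 * Real.pi * |v|)
          have := le_max_right 1 (2 * Real.pi * |v|)
          linarith
        calc ‖ss v‖ ^ k ≤ (2 * max 1 (2 * Real.pi * |v|)) ^ k :=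
              pow_le_pow_left₀ (norm_nonneg _) (h4.trans h5) k
          _ = 2 ^ k * (max 1 (2 * Real.pi * |v|)) ^ k := mul_pow _ _ _
          _ ≤ 2 ^ k * (1 + (2 * Real.pi * |v|) ^ k) := by
              apply mul_le_mul_of_nonneg_left _ (by positivity)
              rcases le_total 1 (2 * Real.pi * |v|) with h | h
              · rw [max_eq_right h]; linarith
              · rw [max_eq_left h]
                have : 0 ≤ (2 * Real.pi * |v|) ^ k := by positivity
                simpa using this
          _ = _ := by rw [mul_pow (2 * Real.pi)]; ring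
      calc ‖ss v‖ ^ k * ‖η v‖ ≤ (2 ^ k * ((2 * Real.pi) ^ k * |v| ^ k) + 2 ^ k) * ‖η v‖ :=
            mul_le_mul_of_nonneg_right h3 (norm_nonneg _)
        _ = _ := by rw [Real.norm_eq_abs]; ring
  · intro t
    have h1 : (f t : ℂ) = Complex.exp (-(t : ℂ)) * g t := by
      simp only [hg]
      rw [← mul_assoc, ← Complex.exp_add]; simp
    rw [h1, hinv, ← integral_const_mul]
    refine integral_congr_ae (Filter.Eventually.of_forall (fun v => ?_))
    simp only
    rw [hexp]; ring
  · intro t
    have h1 : ((deriv f t : ℝ) : ℂ) = Complex.exp (-(t : ℂ)) * (deriv g t - g t) := by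
      rw [hdg]
      simp only [hg]
      rw [add_sub_cancel_left, ← mul_assoc, ← Complex.exp_add]; simp
    rw [h1, hinvd, hinv, ← integral_sub (hi2 t) (hi1 t), ← integral_const_mul, ← integral_neg]
    refine integral_congr_ae (Filter.Eventually.of_forall (fun v => ?_))
    simp only
    rw [hexp, ss]; ring

end Pool.Agent.H378R2.M5
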