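import Mathlib
import Pool.Agent.H50.G.S.H378R2.M5b
import Pool.Agent.H50.G.S.H378R2.M5e
set_option autoImplicit false

open Finset Filter Topology

namespace Pool.Agent.H378R2.M5

/-- `p^{-s(v)/L}` -/
noncomputable def xp (L v : ℝ) (p : ℕ) : ℂ := Complex.exp (-(ss v) * ((Real.log p / L : ℝ) : ℂ))

theorem norm_xp (L v : ℝ) (p : ℕ) : ‖xp L v p‖ = Real.exp (-(Real.log p / L)) := by
  rw [xp, Complex.norm_exp, Complex.re_mul_ofReal, Complex.neg_re, ss_re]
  congr 1; ring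

theorem norm_xp_le_one {L : ℝ} (hL : 0 < L) (v : ℝ) (p : ℕ) : ‖xp L v p‖ ≤ 1 := by
  rw [norm_xp, Real.exp_le_one_iff]
  have : 0 ≤ Real.log p / L := div_nonneg (Real.log_natCast_nonneg p) hL.le
  linarith

theorem norm_one_sub_xp_le_two {L : ℝ} (hL : 0 < L) (v : ℝ) (p : ℕ) : ‖1 - xp L v p‖ ≤ 2 := by
  refine (norm_sub_le _ _).trans ?_
  have := norm_xp_le_one hL v p
  rw [norm_one]; linarith

theorem norm_one_sub_xp_le {L : ℝ} (hL : 0 < L) (v : ℝ) (p : ℕ) :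
    ‖1 - xp L v p‖ ≤ 2 * ‖ss v‖ * (Real.log p / L) := by
  have hlog : 0 ≤ Real.log p / L := div_nonneg (Real.log_natCast_nonneg p) hL.le
  set z : ℂ := -(ss v) * ((Real.log p / L : ℝ) : ℂ) with hz
  have hzn : ‖z‖ = ‖ss v‖ * (Real.log p / L) := by
    rw [hz, norm_mul, norm_neg, Complex.norm_real, Real.norm_of_nonneg hlog]
  rcases le_total ‖z‖ 1 with h | h
  · have h1 := Complex.norm_exp_sub_one_le h
    rw [xp, norm_sub_rev]
    refine h1.trans ?_
    rw [hzn, mul_assoc]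
  · refine (norm_one_sub_xp_le_two hL v p).trans ?_
    rw [mul_assoc, ← hzn]; linarith

/-- local Euler factor of the zeta quotient -/
noncomputable def uu (L v v' : ℝ) (p : ℕ) : ℂ :=
  (1 - xp L v p / p) * (1 - xp L v' p / p) / (1 - xp L v p * xp L v' p / p)

theorem norm_one_sub_div_ge {z : ℂ} (hz : ‖z‖ ≤ 1) {p : ℕ} (hp : p.Prime) :
    1 / 2 ≤ ‖1 - z / p‖ := by
  have hp2 : (2 : ℝ) ≤ p := by exact_mod_cast hp.two_le
  have h1 : ‖z / p‖ ≤ 1 / 2 := by
    rw [norm_div, Complex.norm_natCast, div_le_iff₀ (by linarith)]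
    linarith
  have := norm_sub_norm_le (1 : ℂ) (z / p)
  rw [norm_one] at this
  linarith

theorem one_sub_div_ne {z : ℂ} (hz : ‖z‖ ≤ 1) {p : ℕ} (hp : p.Prime) : 1 - z / p ≠ 0 := by
  have := norm_one_sub_div_ge hz hp
  intro h
  rw [h, norm_zero] at this
  norm_num at this

theorem norm_mul_xp_le {L : ℝ} (hL : 0 < L) (v v' : ℝ) (p : ℕ) : ‖xp L v p * xp L v' p‖ ≤ 1 := by
  rw [norm_mul]
  exact mul_le_one₀ (norm_xp_le_one hL v p) (norm_nonneg _) (norm_xp_le_one hL v' p)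

theorem uu_ne_zero {L : ℝ} (hL : 0 < L) (v v' : ℝ) {p : ℕ} (hp : p.Prime) : uu L v v' p ≠ 0 := by
  rw [uu]
  exact div_ne_zero (mul_ne_zero (one_sub_div_ne (norm_xp_le_one hL v p) hp)
    (one_sub_div_ne (norm_xp_le_one hL v' p) hp)) (one_sub_div_ne (norm_mul_xp_le hL v v' p) hp)

/-- `(1-1/p) u_p^{-1} = 1 + t_p` -/
noncomputable def tt (L v v' : ℝ) (p : ℕ) : ℂ :=
  -((1 - xp L v p) * (1 - xp L v' p) / (p * ((1 - xp L v p / p) * (1 - xp L v' p / p))))

theorem one_add_tt {L : ℝ} (hL : 0 < L) (v v' : ℝ) {p : ℕ} (hp : p.Prime) :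
    (1 - 1 / (p : ℂ)) * (uu L v v' p)⁻¹ = 1 + tt L v v' p := by
  have h1 := one_sub_div_ne (norm_xp_le_one hL v p) hp
  have h2 := one_sub_div_ne (norm_xp_le_one hL v' p) hp
  have h3 := one_sub_div_ne (norm_mul_xp_le hL v v' p) hp
  have hp0 : (p : ℂ) ≠ 0 := by exact_mod_cast hp.ne_zero
  rw [uu, tt, inv_div]
  generalize xp L v p = x at *
  generalize xp L v' p = y at *
  have h1' : (p : ℂ) - x ≠ 0 := by
    intro h; apply h1
    have e : 1 - x / p = (p - x) / p := by field_simp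
    rw [e, h, zero_div]
  have h2' : (p : ℂ) - y ≠ 0 := by
    intro h; apply h2
    have e : 1 - y / p = (p - y) / p := by field_simp
    rw [e, h, zero_div]
  field_simp
  ring

theorem norm_tt_le {L : ℝ} (hL : 0 < L) (v v' : ℝ) {p : ℕ} (hp : p.Prime) :
    ‖tt L v v' p‖ ≤ 4 * (‖1 - xp L v p‖ * ‖1 - xp L v' p‖) / p := by
  have h1 := norm_one_sub_div_ge (norm_xp_le_one hL v p) hp
  have h2 := norm_one_sub_div_ge (norm_xp_le_one hL v' p) hp
  have hp0 : (0 : ℝ) < p := by exact_mod_cast hp.pos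
  rw [tt, norm_neg, norm_div, norm_mul, norm_mul, norm_mul, Complex.norm_natCast]
  have h3 : 1 / 4 ≤ ‖1 - xp L v p / p‖ * ‖1 - xp L v' p / p‖ := by
    calc (1 : ℝ) / 4 = (1/2) * (1/2) := by norm_num
      _ ≤ _ := mul_le_mul h1 h2 (by norm_num) (norm_nonneg _)
  set A := ‖1 - xp L v p‖ * ‖1 - xp L v' p‖ with hA
  set B := ‖1 - xp L v p / p‖ * ‖1 - xp L v' p / p‖ with hB
  have hA0 : 0 ≤ A := by positivity
  rw [div_le_div_iff₀ (by positivity) hp0]
  nlinarith [mul_nonneg hA0 hp0.le]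

theorem norm_tt_le1 {L : ℝ} (hL : 0 < L) (v v' : ℝ) {p : ℕ} (hp : p.Prime) :
    ‖tt L v v' p‖ ≤ 16 * (1 / p) := by
  have hp0 : (0 : ℝ) < p := by exact_mod_cast hp.pos
  refine (norm_tt_le hL v v' hp).trans ?_
  rw [mul_one_div]
  apply div_le_div_of_nonneg_right _ hp0.le
  have h1 := norm_one_sub_xp_le_two hL v p
  have h2 := norm_one_sub_xp_le_two hL v' p
  nlinarith [norm_nonneg (1 - xp L v p), norm_nonneg (1 - xp L v' p)]

theorem norm_tt_le2 {L : ℝ} (hL : 0 < L) (v v' : ℝ) {p : ℕ} (hp : p.Prime) :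
    ‖tt L v v' p‖ ≤ 16 * ‖ss v‖ / L * (Real.log p / p) := by
  have hp0 : (0 : ℝ) < p := by exact_mod_cast hp.pos
  refine (norm_tt_le hL v v' hp).trans ?_
  have h1 := norm_one_sub_xp_le hL v p
  have h2 := norm_one_sub_xp_le_two hL v' p
  have h3 : 0 ≤ Real.log p := Real.log_natCast_nonneg p
  have e : 16 * ‖ss v‖ / L * (Real.log p / p) = (4 * (2 * ‖ss v‖ * (Real.log p / L) * 2)) / p := by
    field_simp; ring
  rw [e]
  apply div_le_div_of_nonneg_right _ hp0.le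
  apply mul_le_mul_of_nonneg_left _ (by norm_num)
  exact mul_le_mul h1 h2 (norm_nonneg _) (by positivity)

/-- `∏_{p ∈ E} (1-1/p) u_p^{-1}` -/
noncomputable def TTT (L v v' : ℝ) (E : Finset ℕ) : ℂ := ∏ p ∈ E, (1 + tt L v v' p)

theorem TTT_sub_one {L : ℝ} (hL : 0 < L) (v v' : ℝ) (E : Finset ℕ) (hE : ∀ p ∈ E, p.Prime)
    (h1 : ∑ p ∈ E, Real.log p / p ≤ L ^ (1 / 4 : ℝ)) :
    ‖TTT L v v' E - 1‖ ≤ Real.exp (16 * ‖ss v‖ * L ^ (-(3 / 4) : ℝ)) - 1 := by
  refine (Finset.norm_prod_one_add_sub_one_le _ _).trans ?_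
  apply sub_le_sub_right
  apply Real.exp_le_exp.mpr
  calc ∑ p ∈ E, ‖tt L v v' p‖ ≤ ∑ p ∈ E, 16 * ‖ss v‖ / L * (Real.log p / p) :=
        Finset.sum_le_sum (fun p hp => norm_tt_le2 hL v v' (hE p hp))
    _ = 16 * ‖ss v‖ / L * ∑ p ∈ E, Real.log p / p := by rw [Finset.mul_sum]
    _ ≤ 16 * ‖ss v‖ / L * L ^ (1 / 4 : ℝ) := mul_le_mul_of_nonneg_left h1 (by positivity)
    _ = 16 * ‖ss v‖ * L ^ (-(3 / 4) : ℝ) := by
        have : L ^ (-(3 / 4) : ℝ) = L ^ (1 / 4 : ℝ) / L := by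
          rw [← Real.rpow_sub_one hL.ne']; norm_num
        rw [this]; ring

theorem norm_TTT_le {L : ℝ} (hL : 1 ≤ L) (v v' : ℝ) (E : Finset ℕ) (hE : ∀ p ∈ E, p.Prime)
    (h1 : ∑ p ∈ E, Real.log p / p ≤ L ^ (1 / 4 : ℝ))
    (h2 : ∑ p ∈ E, (1 : ℝ) / p ≤ Real.log L / 32) :
    ‖TTT L v v' E‖ ≤ Real.exp 16 * ‖ss v‖ := by
  have hL0 : 0 < L := by linarith
  have hs := one_le_norm_ss v
  rcases le_total ‖ss v‖ (L ^ (3 / 4 : ℝ)) with h | h
  · have h3 := TTT_sub_one hL0 v v' E hE h1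
    have h4 : 16 * ‖ss v‖ * L ^ (-(3 / 4) : ℝ) ≤ 16 := by
      have : ‖ss v‖ * L ^ (-(3 / 4) : ℝ) ≤ 1 := by
        calc ‖ss v‖ * L ^ (-(3 / 4) : ℝ) ≤ L ^ (3 / 4 : ℝ) * L ^ (-(3 / 4) : ℝ) :=
              mul_le_mul_of_nonneg_right h (by positivity)
          _ = 1 := by rw [← Real.rpow_add hL0]; norm_num
      nlinarith
    have h5 : ‖TTT L v v' E‖ ≤ Real.exp 16 := by
      have h6 : ‖TTT L v v' E‖ ≤ ‖TTT L v v' E - 1‖ + 1 := by
        have := norm_add_le (TTT L v v' E - 1) 1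
        rw [sub_add_cancel, norm_one] at this
        exact this
      have h7 := Real.exp_le_exp.mpr h4
      linarith
    exact h5.trans (le_mul_of_one_le_right (Real.exp_pos _).le hs)
  · have h3 : ‖TTT L v v' E‖ ≤ Real.exp (∑ p ∈ E, ‖tt L v v' p‖) := by
      have h4 : ‖TTT L v v' E - 1‖ ≤ Real.exp (∑ p ∈ E, ‖tt L v v' p‖) - 1 :=
        Finset.norm_prod_one_add_sub_one_le _ _
      have h6 : ‖TTT L v v' E‖ ≤ ‖TTT L v v' E - 1‖ + 1 := by
        have := norm_add_le (TTT L v v' E - 1) 1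
        rw [sub_add_cancel, norm_one] at this
        exact this
      linarith
    have h5 : ∑ p ∈ E, ‖tt L v v' p‖ ≤ (1/2) * Real.log L := by
      calc ∑ p ∈ E, ‖tt L v v' p‖ ≤ ∑ p ∈ E, 16 * ((1 : ℝ) / p) :=
            Finset.sum_le_sum (fun p hp => norm_tt_le1 hL0 v v' (hE p hp))
        _ = 16 * ∑ p ∈ E, (1 : ℝ) / p := by rw [Finset.mul_sum]
        _ ≤ 16 * (Real.log L / 32) := mul_le_mul_of_nonneg_left h2 (by norm_num)
        _ = (1/2) * Real.log L := by ring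
    calc ‖TTT L v v' E‖ ≤ Real.exp ((1/2) * Real.log L) := h3.trans (Real.exp_le_exp.mpr h5)
      _ = L ^ (1 / 2 : ℝ) := by rw [Real.rpow_def_of_pos hL0, mul_comm]
      _ ≤ L ^ (3 / 4 : ℝ) := Real.rpow_le_rpow_of_exponent_le hL (by norm_num)
      _ ≤ ‖ss v‖ := h
      _ ≤ Real.exp 16 * ‖ss v‖ := le_mul_of_one_le_left (norm_nonneg _) (Real.one_le_exp (by norm_num))

/-! ### tails of the Euler product -/

theorem norm_uu_sub_one {L : ℝ} (hL : 0 < L) (v v' : ℝ) {p : ℕ} (hp : p.Prime) :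
    ‖uu L v v' p - 1‖ ≤ 8 * ((p : ℝ) ^ (1 + 1 / L))⁻¹ := by
  have hp0 : (0 : ℝ) < p := by exact_mod_cast hp.pos
  have hp1 : (1 : ℝ) ≤ p := by exact_mod_cast hp.one_lt.le
  have hpc : (p : ℂ) ≠ 0 := by exact_mod_cast hp.ne_zero
  have h3 := norm_one_sub_div_ge (norm_mul_xp_le hL v v' p) hp
  have h3' := one_sub_div_ne (norm_mul_xp_le hL v v' p) hp
  set X := Real.exp (-(Real.log p / L)) with hX
  have hX0 : 0 < X := Real.exp_pos _
  have hx : ‖xp L v p‖ = X := norm_xp L v p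
  have hy : ‖xp L v' p‖ = X := norm_xp L v' p
  have hX1 : X ≤ 1 := by rw [← hx]; exact norm_xp_le_one hL v p
  have e1 : uu L v v' p - 1 = ((-xp L v p - xp L v' p + xp L v p * xp L v' p) / p +
      xp L v p * xp L v' p / (p * p)) / (1 - xp L v p * xp L v' p / p) := by
    rw [uu, div_sub_one h3']
    congr 1
    field_simp
    ring
  have e2 : ((p : ℝ) ^ (1 + 1 / L))⁻¹ = X / p := by
    rw [Real.rpow_add hp0, Real.rpow_one, mul_inv, hX, Real.exp_neg]
    rw [Real.rpow_def_of_pos hp0, mul_one_div]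
    field_simp
  rw [e1, e2, norm_div]
  rw [div_le_iff₀ (by linarith)]
  have h4 : ‖(-xp L v p - xp L v' p + xp L v p * xp L v' p) / (p : ℂ) +
      xp L v p * xp L v' p / (p * p)‖ ≤ 4 * X / p := by
    have h5 : ‖(-xp L v p - xp L v' p + xp L v p * xp L v' p)‖ ≤ 3 * X := by
      calc ‖(-xp L v p - xp L v' p + xp L v p * xp L v' p)‖ ≤
            ‖-xp L v p - xp L v' p‖ + ‖xp L v p * xp L v' p‖ := norm_add_le _ _
        _ ≤ (‖-xp L v p‖ + ‖xp L v' p‖) + ‖xp L v p * xp L v' p‖ :=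
            add_le_add (norm_sub_le _ _) le_rfl
        _ = X + X + X * X := by rw [norm_neg, norm_mul, hx, hy]
        _ ≤ 3 * X := by nlinarith
    have h6 : ‖xp L v p * xp L v' p / ((p : ℂ) * p)‖ ≤ X / p := by
      rw [norm_div, norm_mul, norm_mul, hx, hy, Complex.norm_natCast, div_le_div_iff₀ (by positivity) hp0]
      have : X * X ≤ X := by nlinarith
      nlinarith [mul_pos hX0 hp0, mul_pos hX0 (mul_pos hp0 hp0)]
    refine (norm_add_le _ _).trans ?_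
    have h9 : ‖(-xp L v p - xp L v' p + xp L v p * xp L v' p) / (p : ℂ)‖ ≤ 3 * X / p := by
      rw [norm_div, Complex.norm_natCast]
      exact div_le_div_of_nonneg_right h5 hp0.le
    have h10 : 3 * X / p + X / p = 4 * X / p := by ring
    rw [← h10]
    exact add_le_add h9 h6
  refine h4.trans ?_
  have h7 : 0 ≤ X / p := by positivity
  have h8 := mul_le_mul_of_nonneg_left h3 (show 0 ≤ 8 * (X / p) by positivity)
  refine le_trans (le_of_eq ?_) h8
  ring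

/-- the zeta quotient -/
noncomputable def zq (L v v' : ℝ) : ℂ := riemannZeta (1 + (ss v / L + ss v' / L)) *
    (riemannZeta (1 + ss v / L))⁻¹ * (riemannZeta (1 + ss v' / L))⁻¹

theorem zf_eq_zq (L v v' : ℝ) : zf L v v' = L * zq L v v' := rfl

theorem cpow_eq (L v : ℝ) {p : ℕ} (hp : p.Prime) :
    (p : ℂ) ^ (-(1 + ss v / L)) = xp L v p / p := by
  have hpc : (p : ℂ) ≠ 0 := by exact_mod_cast hp.ne_zero
  rw [neg_add, Complex.cpow_add _ _ hpc, Complex.cpow_neg_one, xp]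
  rw [Complex.cpow_def_of_ne_zero hpc, ← Complex.natCast_log]
  rw [div_eq_mul_inv, mul_comm]
  congr 2
  push_cast; ring

theorem cpow_eq2 (L v v' : ℝ) {p : ℕ} (hp : p.Prime) :
    (p : ℂ) ^ (-(1 + (ss v / L + ss v' / L))) = xp L v p * xp L v' p / p := by
  have hpc : (p : ℂ) ≠ 0 := by exact_mod_cast hp.ne_zero
  rw [neg_add, Complex.cpow_add _ _ hpc, Complex.cpow_neg_one, xp, xp, ← Complex.exp_add]
  rw [Complex.cpow_def_of_ne_zero hpc, ← Complex.natCast_log]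
  rw [div_eq_mul_inv, mul_comm]
  congr 2
  push_cast; ring

theorem uu_tendsto {L : ℝ} (hL : 0 < L) (v v' : ℝ) :
    Tendsto (fun n : ℕ => ∏ p ∈ Nat.primesBelow n, uu L v v' p) atTop (𝓝 (zq L v v')) := by
  have r1 : 1 < (1 + (ss v / L + ss v' / L)).re := by
    rw [Complex.add_re, Complex.add_re, ss_div_re, ss_div_re, Complex.one_re]
    have : 0 < 1 / L := by positivity
    linarith
  have r2 : ∀ u, 1 < (1 + ss u / L).re := by
    intro u
    rw [Complex.add_re, ss_div_re, Complex.one_re]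
    have : 0 < 1 / L := by positivity
    linarith
  have h1 := riemannZeta_eulerProduct r1
  have h2 := (riemannZeta_eulerProduct (r2 v)).inv₀ (riemannZeta_ne_zero_of_one_le_re (r2 v).le)
  have h3 := (riemannZeta_eulerProduct (r2 v')).inv₀ (riemannZeta_ne_zero_of_one_le_re (r2 v').le)
  have h4 := (h1.mul h2).mul h3
  refine h4.congr (fun n => ?_)
  rw [← Finset.prod_inv_distrib, ← Finset.prod_inv_distrib, ← Finset.prod_mul_distrib,
    ← Finset.prod_mul_distrib]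
  refine Finset.prod_congr rfl (fun p hp => ?_)
  have hpp := Nat.prime_of_mem_primesBelow hp
  rw [cpow_eq L v hpp, cpow_eq L v' hpp, cpow_eq2 L v v' hpp, inv_inv, inv_inv, uu]
  rw [div_eq_mul_inv]; ring

theorem PY_eq (Y : ℕ) : PY Y = Nat.primesBelow (Y + 1) := by
  ext p
  rw [PY, Finset.mem_filter, Finset.mem_Icc, Nat.mem_primesBelow]
  constructor
  · rintro ⟨⟨_, h⟩, hp⟩; exact ⟨by omega, hp⟩
  · rintro ⟨h, hp⟩; exact ⟨⟨hp.one_lt.le, by omega⟩, hp⟩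

theorem exists_tail {L : ℝ} (hL : 0 < L) (κ : ℝ) (hκ : 0 < κ) :
    ∃ Y0 : ℕ, ∀ Y, Y0 ≤ Y → ∀ v v' : ℝ, ∃ τ : ℂ, ‖τ - 1‖ ≤ κ ∧
      ∏ p ∈ PY Y, uu L v v' p = τ * zq L v v' := by
  -- tail sums
  have hsum : Summable (fun n : ℕ => 8 * ((n : ℝ) ^ (1 + 1 / L))⁻¹) := by
    apply Summable.mul_left
    apply Real.summable_nat_rpow_inv.mpr
    have : 0 < 1 / L := by positivity
    linarith
  set θ : ℝ := min (κ / 2) (1 / 2) with hθ
  have hθ0 : 0 < θ := lt_min (by linarith) (by norm_num)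
  have hlog : 0 < Real.log (1 + θ) := Real.log_pos (by linarith)
  obtain ⟨s, hs⟩ := (summable_iff_vanishing_norm.mp hsum) (Real.log (1 + θ)) hlog
  obtain ⟨Y0, hY0⟩ : ∃ Y0 : ℕ, ∀ n ∈ s, n ≤ Y0 := ⟨s.sup id, fun n hn => Finset.le_sup (f := id) hn⟩
  refine ⟨Y0, ?_⟩
  intro Y hY v v'
  set Pf := ∏ p ∈ PY Y, uu L v v' p with hPf
  have hPf0 : Pf ≠ 0 := by
    rw [hPf, Finset.prod_ne_zero_iff]
    intro p hp
    rw [PY, Finset.mem_filter] at hp
    exact uu_ne_zero hL v v' hp.2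
  -- bound for finite N
  have hfin : ∀ N : ℕ, Y + 1 ≤ N → ‖(∏ p ∈ Nat.primesBelow N, uu L v v' p) / Pf - 1‖ ≤ θ := by
    intro N hN
    have hsub : PY Y ⊆ Nat.primesBelow N := by
      rw [PY_eq]
      intro p hp
      rw [Nat.mem_primesBelow] at hp ⊢
      exact ⟨by omega, hp.2⟩
    rw [← Finset.prod_sdiff hsub, ← hPf, mul_div_assoc, div_self hPf0, mul_one]
    have h1 := Finset.norm_prod_one_add_sub_one_le (Nat.primesBelow N \ PY Y) (fun p => uu L v v' p - 1)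
    simp only [add_sub_cancel] at h1
    refine h1.trans ?_
    have h2 : ∑ p ∈ Nat.primesBelow N \ PY Y, ‖uu L v v' p - 1‖ ≤ Real.log (1 + θ) := by
      have h3 : ∀ p ∈ Nat.primesBelow N \ PY Y, ‖uu L v v' p - 1‖ ≤ 8 * ((p : ℝ) ^ (1 + 1 / L))⁻¹ := by
        intro p hp
        rw [Finset.mem_sdiff] at hp
        exact norm_uu_sub_one hL v v' (Nat.prime_of_mem_primesBelow hp.1)
      refine (Finset.sum_le_sum h3).trans ?_
      have h4 : Disjoint (Nat.primesBelow N \ PY Y) s := by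
        rw [Finset.disjoint_left]
        intro p hp hps
        rw [Finset.mem_sdiff, PY_eq, Nat.mem_primesBelow, Nat.mem_primesBelow] at hp
        have := hY0 p hps
        exact hp.2 ⟨by omega, hp.1.2⟩
      have h5 := hs _ h4
      exact (le_abs_self _).trans h5.le
    have h6 := Real.exp_le_exp.mpr h2
    rw [Real.exp_log (by linarith)] at h6
    linarith
  have hlim : Tendsto (fun N : ℕ => ‖(∏ p ∈ Nat.primesBelow N, uu L v v' p) / Pf - 1‖) atTop
      (𝓝 ‖zq L v v' / Pf - 1‖) :=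
    (((uu_tendsto hL v v').div_const Pf).sub_const 1).norm
  have hle : ‖zq L v v' / Pf - 1‖ ≤ θ := by
    apply le_of_tendsto hlim
    filter_upwards [eventually_ge_atTop (Y + 1)] with N hN
    exact hfin N hN
  set q := zq L v v' / Pf with hq
  have hθ2 : θ ≤ 1 / 2 := min_le_right _ _
  have hθκ : θ ≤ κ / 2 := min_le_left _ _
  have hqn : 1 / 2 ≤ ‖q‖ := by
    have := norm_sub_norm_le (1 : ℂ) (1 - q)
    rw [norm_one, sub_sub_cancel, norm_sub_rev] at this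
    linarith
  have hq0 : q ≠ 0 := by
    intro h; rw [h, norm_zero] at hqn; norm_num at hqn
  refine ⟨q⁻¹, ?_, ?_⟩
  · have : q⁻¹ - 1 = -(q - 1) / q := by field_simp; ring
    rw [this, norm_div, norm_neg, div_le_iff₀ (by linarith)]
    calc ‖q - 1‖ ≤ κ / 2 := hle.trans hθκ
      _ = κ * (1 / 2) := by ring
      _ ≤ κ * ‖q‖ := mul_le_mul_of_nonneg_left hqn hκ.le
  · rw [hq] at hq0 ⊢
    have hz : zq L v v' ≠ 0 := by
      intro h; apply hq0; rw [h, zero_div]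
    field_simp

end Pool.Agent.H378R2.M5
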