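import Mathlib
import Pool.Agent.H50.G.S.H378R2.M5h
set_option autoImplicit false

open Finset Filter Topology MeasureTheory
open scoped ContDiff

namespace Pool.Agent.H378R2.M5

theorem factorization {J : ℕ} {L : ℝ} (hL : 0 < L) (E : Fin J → Finset ℕ) (w : ℕ → Fin J → ℝ)
    (N Y : ℕ) (hN : 1 ≤ N) (hNJ : 32 * J ≤ N) (κ : ℝ)
    (hE : ∀ j, ∀ p : ℕ, p.Prime → p ≤ N → p ∈ E j)
    (hw : ∀ j, ∀ p : ℕ, p.Prime → p ∉ E j → |w p j - 1 / p| ≤ 2 / (p : ℝ) ^ 2)
    (hEY : ∀ j, E j ⊆ PY Y)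
    (hY : ∀ v v' : ℝ, ∃ τ : ℂ, ‖τ - 1‖ ≤ κ ∧ ∏ p ∈ PY Y, uu L v v' p = τ * zq L v v')
    (z : Fin J → ℝ × ℝ) :
    ∃ (ρ : ℂ) (τ : Fin J → ℂ), ‖ρ - 1‖ ≤ Real.exp (CJ J / N) - 1 ∧ (∀ j, ‖τ j - 1‖ ≤ κ) ∧
      (∏ j, ((L : ℂ) * ∏ p ∈ E j, (1 - 1 / (p : ℂ)))) * ∏ p ∈ PY Y, kk L E w z p =
        ρ * ∏ j, (TTT L (z j).1 (z j).2 (E j) * (τ j * zf L (z j).1 (z j).2)) := by
  obtain ⟨ρ, hρ, hρ'⟩ := exists_rho hL E w N Y hN hNJ hE hw z
  choose τ hτ hτ' using fun j : Fin J => hY (z j).1 (z j).2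
  refine ⟨ρ, τ, hρ, hτ, ?_⟩
  rw [hρ']
  have h1 := assemble hL E Y hEY z
  calc _ = ρ * ((∏ j, ((L : ℂ) * ∏ p ∈ E j, (1 - 1 / (p : ℂ)))) * ∏ p ∈ PY Y, UU L E z p) := by ring
    _ = _ := by
      rw [h1]
      congr 1
      refine Finset.prod_congr rfl (fun j _ => ?_)
      rw [hτ' j, zf_eq_zq]
      ring

end Pool.Agent.H378R2.M5

namespace Pool.Agent.H378R2

open M5 in
/-- (M5) asymptotics of the general main-term sum -/
theorem sieve_asymp (J : ℕ) (F G : Fin J → ℝ → ℝ)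
    (hF : ∀ j, ContDiff ℝ ∞ (F j)) (hG : ∀ j, ContDiff ℝ ∞ (G j))
    (hFc : ∀ j, HasCompactSupport (F j)) (hGc : ∀ j, HasCompactSupport (G j))
    (ε : ℝ) (hε : 0 < ε) :
    ∃ δ : ℝ, 0 < δ ∧ ∀ (L : ℝ) (E : Fin J → Finset ℕ) (w : ℕ → Fin J → ℝ) (R : ℕ),
      1 / δ ≤ L →
      (∀ j x, Real.log R / L < x → F j x = 0 ∧ G j x = 0) →
      (∀ j, ∀ p ∈ E j, p.Prime) →
      (∀ j, ∀ p : ℕ, p.Prime → (p : ℝ) ≤ 1 / δ → p ∈ E j) →
      (∀ j, ∑ p ∈ E j, Real.log p / p ≤ L ^ (1 / 4 : ℝ)) →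
      (∀ j, ∑ p ∈ E j, (1 : ℝ) / p ≤ Real.log L / 32) →
      (∀ j, ∀ p : ℕ, p.Prime → p ∉ E j → |w p j - 1 / p| ≤ 2 / (p : ℝ) ^ 2) →
      |(∏ j, (L * ∏ p ∈ E j, (1 - 1 / (p : ℝ)))) * sieveSum J F G L E w R -
        ∏ j, ∫ t in Set.Ioi (0 : ℝ), deriv (F j) t * deriv (G j) t| ≤ ε := by
  classical
  by_contra hcon
  push Not at hcon
  choose η hηc hηi hηF hηF' using fun j => fourier_data (F j) (hF j) (hFc j)
  choose η' hηc' hηi' hηG hηG' using fun j => fourier_data (G j) (hG j) (hGc j)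
  set M : ℕ → ℕ := fun n => n + 32 * J + 2 with hM
  have hM0 : ∀ n, (0 : ℝ) < M n := by intro n; simp only [hM]; positivity
  choose L E w R hL hFG hEp hEs hE1 hE2 hw hbig using
    fun n : ℕ => hcon (1 / (M n : ℝ)) (by have := hM0 n; positivity)
  have hLM : ∀ n, (M n : ℝ) ≤ L n := by
    intro n
    have := hL n
    rwa [one_div_one_div] at this
  have hL2 : ∀ n, 2 ≤ L n := by
    intro n
    refine le_trans ?_ (hLM n)
    have : 2 ≤ M n := by simp [hM]
    exact_mod_cast this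
  have hL0 : ∀ n, 0 < L n := fun n => by linarith [hL2 n]
  have hMtop : Tendsto (fun n => (M n : ℝ)) atTop atTop := by
    apply tendsto_natCast_atTop_atTop.comp
    apply tendsto_atTop_mono (f := fun n => n)
    · intro n; simp only [hM]; omega
    · exact tendsto_id
  have hLtop : Tendsto L atTop atTop := tendsto_atTop_mono hLM hMtop
  -- choice of Y
  have hYex : ∀ n, ∃ Y : ℕ, R n ≤ Y ∧ (∀ j, E n j ⊆ PY Y) ∧
      ∀ v v' : ℝ, ∃ τ : ℂ, ‖τ - 1‖ ≤ 1 / (M n : ℝ) ∧ ∏ p ∈ PY Y, uu (L n) v v' p = τ * zq (L n) v v' := by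
    intro n
    obtain ⟨Y0, hY0⟩ := exists_tail (hL0 n) (1 / (M n : ℝ)) (by have := hM0 n; positivity)
    set Y1 : ℕ := Finset.univ.sup (fun j => (E n j).sup id) with hY1
    refine ⟨max Y0 (max (R n) Y1), ?_, ?_, hY0 _ (le_max_left _ _)⟩
    · exact (le_max_left _ _).trans (le_max_right _ _)
    · intro j p hp
      rw [PY, Finset.mem_filter, Finset.mem_Icc]
      refine ⟨⟨(hEp n j p hp).one_lt.le, ?_⟩, hEp n j p hp⟩
      have h1 : p ≤ (E n j).sup id := Finset.le_sup (f := id) hp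
      have h2 : (E n j).sup id ≤ Y1 := Finset.le_sup (f := fun j => (E n j).sup id) (Finset.mem_univ j)
      exact (h1.trans h2).trans ((le_max_right _ _).trans (le_max_right _ _))
  choose Y hRY hEY hYt using hYex
  -- factorization
  have hfact : ∀ (n : ℕ) (z : Fin J → ℝ × ℝ), ∃ (ρ : ℂ) (τ : Fin J → ℂ),
      ‖ρ - 1‖ ≤ Real.exp (CJ J / (M n : ℕ)) - 1 ∧ (∀ j, ‖τ j - 1‖ ≤ 1 / (M n : ℝ)) ∧
      (∏ j, ((L n : ℂ) * ∏ p ∈ E n j, (1 - 1 / (p : ℂ)))) * ∏ p ∈ PY (Y n), kk (L n) (E n) (w n) z p =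
        ρ * ∏ j, (TTT (L n) (z j).1 (z j).2 (E n j) * (τ j * zf (L n) (z j).1 (z j).2)) := by
    intro n z
    apply factorization (hL0 n) (E n) (w n) (M n) (Y n) (by simp [hM]) (by simp only [hM]; omega)
      (1 / (M n : ℝ)) _ (hw n) (hEY n) (hYt n) z
    intro j p hp hpM
    apply hEs n j p hp
    rw [one_div_one_div]
    exact_mod_cast hpM
  choose ρ τ hρ hτ hfac using hfact
  -- integrand
  set V : ℕ → ℂ := fun n => ∏ j, ((L n : ℂ) * ∏ p ∈ E n j, (1 - 1 / (p : ℂ))) with hV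
  set Φ : ℕ → (Fin J → ℝ × ℝ) → ℂ := fun n z =>
    (∏ j, (η j (z j).1 * η' j (z j).2)) * (V n * ∏ p ∈ PY (Y n), kk (L n) (E n) (w n) z p) with hΦ
  set f : (Fin J → ℝ × ℝ) → ℂ := fun z =>
    ∏ j, (η j (z j).1 * η' j (z j).2 * (ss (z j).1 * ss (z j).2 / (ss (z j).1 + ss (z j).2))) with hf
  obtain ⟨C, hC1, hC⟩ := zf_bound
  set c0 : ℝ := Real.exp 16 * (2 * C) with hc0
  have hc00 : 0 ≤ c0 := by positivity
  set bnd : (Fin J → ℝ × ℝ) → ℝ := fun z => Real.exp (CJ J) *
    ∏ j, (c0 * ((‖ss (z j).1‖ ^ 3 * ‖η j (z j).1‖) * (‖ss (z j).2‖ ^ 2 * ‖η' j (z j).2‖))) with hbnd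
  have hCJ : 0 ≤ CJ J := by rw [CJ]; positivity
  have hM1 : ∀ n, (1 : ℝ) ≤ M n := by
    intro n
    have : 1 ≤ M n := by simp only [hM]; omega
    exact_mod_cast this
  have hηint : ∀ j, Integrable (η j) := by
    intro j
    have h1 := hηi j 0
    simp only [pow_zero, one_mul] at h1
    exact (integrable_norm_iff (hηc j).aestronglyMeasurable).mp h1
  have hηint' : ∀ j, Integrable (η' j) := by
    intro j
    have h1 := hηi' j 0
    simp only [pow_zero, one_mul] at h1
    exact (integrable_norm_iff (hηc' j).aestronglyMeasurable).mp h1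
  have hlim : Tendsto (fun n => ∫ z, Φ n z) atTop (𝓝 (∫ z, f z)) := by
    apply tendsto_integral_of_dominated_convergence bnd
    · -- measurability
      intro n
      apply Continuous.aestronglyMeasurable
      have c1 : ∀ j : Fin J, Continuous (fun z : Fin J → ℝ × ℝ => η j (z j).1) := fun j =>
        (hηc j).comp (continuous_fst.comp (continuous_apply j))
      have c2 : ∀ j : Fin J, Continuous (fun z : Fin J → ℝ × ℝ => η' j (z j).2) := fun j =>
        (hηc' j).comp (continuous_snd.comp (continuous_apply j))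
      have c3 : ∀ (j : Fin J) (p : ℕ), Continuous (fun z : Fin J → ℝ × ℝ => xp (L n) (z j).1 p) :=
        fun j p => (continuous_xp (L n) p).comp (continuous_fst.comp (continuous_apply j))
      have c4 : ∀ (j : Fin J) (p : ℕ), Continuous (fun z : Fin J → ℝ × ℝ => xp (L n) (z j).2 p) :=
        fun j p => (continuous_xp (L n) p).comp (continuous_snd.comp (continuous_apply j))
      refine (continuous_finsetProd _ (fun j _ => (c1 j).mul (c2 j))).mul
        (continuous_const.mul (continuous_finsetProd _ (fun p _ => ?_)))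
      unfold kk
      refine continuous_const.add (continuous_finsetSum _ (fun j _ => continuous_const.mul ?_))
      exact ((c3 j p).neg.add (c4 j p).neg).add ((c3 j p).neg.mul (c4 j p).neg)
    · -- integrability of the bound
      apply Integrable.const_mul
      apply Integrable.fintype_prod (f := fun j (z : ℝ × ℝ) =>
        c0 * ((‖ss z.1‖ ^ 3 * ‖η j z.1‖) * (‖ss z.2‖ ^ 2 * ‖η' j z.2‖)))
      intro j
      exact ((hηi j 3).mul_prod (hηi' j 2)).const_mul c0
    · intro n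
      refine Filter.Eventually.of_forall (fun z => ?_)
      simp only [hΦ, hbnd]
      rw [hV]
      simp only
      rw [hfac n z, norm_mul, norm_mul, norm_prod, norm_prod]
      have hρn : ‖ρ n z‖ ≤ Real.exp (CJ J) := by
        have h1 : ‖ρ n z‖ ≤ ‖ρ n z - 1‖ + 1 := by
          have := norm_add_le (ρ n z - 1) 1
          rwa [sub_add_cancel, norm_one] at this
        have h2 := hρ n z
        have h3 : Real.exp (CJ J / (M n : ℕ)) ≤ Real.exp (CJ J) := by
          apply Real.exp_le_exp.mpr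
          exact div_le_self hCJ (hM1 n)
        linarith
      have hfacj : ∀ j, ‖TTT (L n) (z j).1 (z j).2 (E n j) * (τ n z j * zf (L n) (z j).1 (z j).2)‖ ≤
          c0 * (‖ss (z j).1‖ ^ 3 * ‖ss (z j).2‖ ^ 2) := by
        intro j
        rw [norm_mul, norm_mul]
        have h1 := norm_TTT_le (L := L n) (by linarith [hL2 n]) (z j).1 (z j).2 (E n j) (hEp n j)
          (hE1 n j) (hE2 n j)
        have h2 : ‖τ n z j‖ ≤ 2 := by
          have h3 : ‖τ n z j‖ ≤ ‖τ n z j - 1‖ + 1 := by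
            have := norm_add_le (τ n z j - 1) 1
            rwa [sub_add_cancel, norm_one] at this
          have h4 := hτ n z j
          have h5 : 1 / (M n : ℝ) ≤ 1 := by
            rw [div_le_one (hM0 n)]; exact hM1 n
          linarith
        have h3 := hC (L n) (hL2 n) (z j).1 (z j).2
        calc ‖TTT (L n) (z j).1 (z j).2 (E n j)‖ * (‖τ n z j‖ * ‖zf (L n) (z j).1 (z j).2‖) ≤
            (Real.exp 16 * ‖ss (z j).1‖) * (2 * (C * ‖ss (z j).1‖ ^ 2 * ‖ss (z j).2‖ ^ 2)) := by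
              apply mul_le_mul h1 _ (by positivity) (by positivity)
              exact mul_le_mul h2 h3 (norm_nonneg _) (by norm_num)
          _ = c0 * (‖ss (z j).1‖ ^ 3 * ‖ss (z j).2‖ ^ 2) := by rw [hc0]; ring
      calc (∏ j, ‖η j (z j).1 * η' j (z j).2‖) * (‖ρ n z‖ *
            ∏ j, ‖TTT (L n) (z j).1 (z j).2 (E n j) * (τ n z j * zf (L n) (z j).1 (z j).2)‖) ≤
          (∏ j, ‖η j (z j).1 * η' j (z j).2‖) * (Real.exp (CJ J) *
            ∏ j, (c0 * (‖ss (z j).1‖ ^ 3 * ‖ss (z j).2‖ ^ 2))) := by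
            apply mul_le_mul_of_nonneg_left _ (Finset.prod_nonneg (fun _ _ => norm_nonneg _))
            apply mul_le_mul hρn _ (Finset.prod_nonneg (fun _ _ => norm_nonneg _)) (Real.exp_pos _).le
            exact Finset.prod_le_prod (fun _ _ => norm_nonneg _) (fun j _ => hfacj j)
        _ = Real.exp (CJ J) * ∏ j, (c0 * ((‖ss (z j).1‖ ^ 3 * ‖η j (z j).1‖) *
            (‖ss (z j).2‖ ^ 2 * ‖η' j (z j).2‖))) := by
            rw [mul_left_comm, ← Finset.prod_mul_distrib]
            congr 1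
            refine Finset.prod_congr rfl (fun j _ => ?_)
            rw [norm_mul]; ring
    · -- pointwise convergence
      refine Filter.Eventually.of_forall (fun z => ?_)
      simp only [hΦ, hf]
      have hρlim : Tendsto (fun n => ρ n z) atTop (𝓝 1) := by
        rw [tendsto_iff_norm_sub_tendsto_zero]
        have h1 : Tendsto (fun n => Real.exp (CJ J / (M n : ℕ)) - 1) atTop (𝓝 0) := by
          have h2 : Tendsto (fun n => CJ J / (M n : ℝ)) atTop (𝓝 0) := hMtop.const_div_atTop (CJ J)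
          have h3 := ((Real.continuous_exp.tendsto 0).comp h2).sub_const 1
          simpa using h3
        exact squeeze_zero (fun _ => norm_nonneg _) (fun n => hρ n z) h1
      have hτlim : ∀ j, Tendsto (fun n => τ n z j) atTop (𝓝 1) := by
        intro j
        rw [tendsto_iff_norm_sub_tendsto_zero]
        exact squeeze_zero (fun _ => norm_nonneg _) (fun n => hτ n z j) (hMtop.const_div_atTop 1)
      have hTlim : ∀ j, Tendsto (fun n => TTT (L n) (z j).1 (z j).2 (E n j)) atTop (𝓝 1) := by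
        intro j
        rw [tendsto_iff_norm_sub_tendsto_zero]
        have h1 : Tendsto (fun n => Real.exp (16 * ‖ss (z j).1‖ * (L n) ^ (-(3 / 4) : ℝ)) - 1)
            atTop (𝓝 0) := by
          have h2 : Tendsto (fun n => (L n) ^ (-(3 / 4) : ℝ)) atTop (𝓝 0) :=
            (tendsto_rpow_neg_atTop (by norm_num)).comp hLtop
          have h3 := h2.const_mul (16 * ‖ss (z j).1‖)
          rw [mul_zero] at h3
          have h4 := ((Real.continuous_exp.tendsto 0).comp h3).sub_const 1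
          simpa using h4
        exact squeeze_zero (fun _ => norm_nonneg _)
          (fun n => TTT_sub_one (hL0 n) _ _ _ (hEp n j) (hE1 n j)) h1
      have hzlim : ∀ j, Tendsto (fun n => zf (L n) (z j).1 (z j).2) atTop
          (𝓝 (ss (z j).1 * ss (z j).2 / (ss (z j).1 + ss (z j).2))) :=
        fun j => zf_tendsto L hLtop _ _
      have h1 : Tendsto (fun n => ρ n z * ∏ j, (TTT (L n) (z j).1 (z j).2 (E n j) *
          (τ n z j * zf (L n) (z j).1 (z j).2))) atTop
          (𝓝 (1 * ∏ j : Fin J, (1 * (1 * (ss (z j).1 * ss (z j).2 / (ss (z j).1 + ss (z j).2)))))) := by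
        apply hρlim.mul
        apply tendsto_finsetProd
        intro j _
        exact (hTlim j).mul ((hτlim j).mul (hzlim j))
      have h2 := h1.const_mul (∏ j, (η j (z j).1 * η' j (z j).2))
      simp only [one_mul] at h2
      rw [← Finset.prod_mul_distrib] at h2
      refine h2.congr (fun n => ?_)
      rw [hV]
      simp only
      rw [hfac n z]
  -- value of the limit
  have hval : ∫ z, f z = ((∏ j, ∫ t in Set.Ioi (0 : ℝ), deriv (F j) t * deriv (G j) t : ℝ) : ℂ) := by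
    rw [hf]
    rw [integral_fintype_prod_volume_eq_prod (fun j (z : ℝ × ℝ) =>
      (η j z.1 * η' j z.2 * (ss z.1 * ss z.2 / (ss z.1 + ss z.2))))]
    push_cast
    refine Finset.prod_congr rfl (fun j _ => ?_)
    have := main_integral (F j) (G j) (η j) (η' j) (hηc j) (hηc' j) (hηi j 1) (hηi' j 1)
      (hηF' j) (hηG' j)
    rw [this]
  -- value of the integrals
  have hIn : ∀ n, ∫ z, Φ n z = (((∏ j, (L n * ∏ p ∈ E n j, (1 - 1 / (p : ℝ)))) *
      sieveSum J F G (L n) (E n) (w n) (R n) : ℝ) : ℂ) := by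
    intro n
    have h1 := representation F G (hL0 n) (E n) (w n) (R n) (Y n) (hRY n)
      (fun j => (hF j).continuous) (fun j => (hG j).continuous) (hFG n) η η' hηc hηc' hηint hηint'
      hηF hηG
    have h2 : ∀ z, Φ n z = V n * ((∏ j, (η j (z j).1 * η' j (z j).2)) *
        ∏ p ∈ PY (Y n), kk (L n) (E n) (w n) z p) := by
      intro z; simp only [hΦ]; ring
    simp_rw [h2]
    rw [integral_const_mul, ← h1, hV]
    push_cast
    ring
  have hfinal : Tendsto (fun n => |(∏ j, (L n * ∏ p ∈ E n j, (1 - 1 / (p : ℝ)))) *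
      sieveSum J F G (L n) (E n) (w n) (R n) -
        ∏ j, ∫ t in Set.Ioi (0 : ℝ), deriv (F j) t * deriv (G j) t|) atTop (𝓝 0) := by
    have h1 := hlim
    rw [hval] at h1
    simp_rw [hIn] at h1
    have h2 := (Complex.continuous_re.tendsto _).comp h1
    simp only [Complex.ofReal_re, Function.comp_def] at h2
    rw [tendsto_iff_norm_sub_tendsto_zero] at h2
    exact h2
  have h3 := (hfinal.eventually (gt_mem_nhds hε)).exists
  obtain ⟨n, hn⟩ := h3
  exact absurd hn (not_lt.mpr (hbig n).le)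

end Pool.Agent.H378R2
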