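import Mathlib
import Pool.Agent.H50.G.S.H378R2.M7j
open Finset Filter
open scoped ContDiff

namespace Pool.Agent.H378R2

/-- square root of the weight -/
noncomputable def sqw {K B : ℕ} (E : Finset ℕ) (X : ℝ) (f : Fin B → ℝ → ℝ) (A : Finset (Fin K → Fin B))
    (x : Fin K → ℤ) : ℝ := ∑ a ∈ A, ∏ j, VVm E (RR X) (LL X) (f (a j)) (x j)

theorem sqw_sq {K B : ℕ} (E : Finset ℕ) (X : ℝ) (f : Fin B → ℝ → ℝ) (A : Finset (Fin K → Fin B))
    (x : Fin K → ℤ) : sqw E X f A x ^ 2 =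
      ∑ a ∈ A, ∑ b ∈ A, ∏ j, (VVm E (RR X) (LL X) (f (a j)) (x j) * VVm E (RR X) (LL X) (f (b j)) (x j)) := by
  unfold sqw
  rw [sq, Finset.sum_mul_sum]
  refine Finset.sum_congr rfl fun a _ => Finset.sum_congr rfl fun b _ => ?_
  rw [Finset.prod_mul_distrib]

/-- the residue class weight -/
noncomputable def nu (X : ℝ) (W a n : ℕ) : ℝ := if n ≡ a [MOD W] then Phi (n / X) else 0

theorem nu_nonneg (X : ℝ) (W a n : ℕ) : 0 ≤ nu X W a n := by
  unfold nu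
  split_ifs
  · exact Phi_nonneg _
  · exact le_rfl

theorem size_aux : ∀ᶠ X : ℝ in atTop, ∀ (S : Finset ℕ) (ps : ℕ) (v : ℝ), v ≤ 4 →
    (WW X S ps : ℝ) * Real.exp (LL X * v) ≤ X := by
  filter_upwards [eventually_ge_atTop 1] with X hX
  intro S ps v hv
  have h1 := WW_le X hX S ps
  have hl : 0 ≤ Real.log X := Real.log_nonneg hX
  have h2 : Real.exp (LL X * v) ≤ Real.exp (Real.log X / 50) := by
    apply Real.exp_le_exp.2
    unfold LL
    nlinarith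
  calc (WW X S ps : ℝ) * Real.exp (LL X * v) ≤ Real.exp (Real.log X / 700) * Real.exp (Real.log X / 50) := by
        gcongr
    _ = Real.exp (Real.log X / 700 + Real.log X / 50) := by rw [Real.exp_add]
    _ ≤ Real.exp (Real.log X) := by
        apply Real.exp_le_exp.2
        linarith
    _ = X := Real.exp_log (by linarith)

theorem S1_bound (h5 : SieveAsymp) {K B : ℕ} (f : Fin B → ℝ → ℝ) (c : Fin B → ℝ) (A : Finset (Fin K → Fin B))
    (hsm : ∀ l, ContDiff ℝ ∞ (f l)) (hcs : ∀ l, HasCompactSupport (f l)) (hf0 : ∀ l x, c l < x → f l x = 0)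
    (hc : ∀ l, 0 ≤ c l ∧ c l ≤ 1 / 2) (hA : ∀ a ∈ A, ∑ j, c (a j) ≤ 1) (hf1 : ∀ l x, |f l x| ≤ 1)
    (ε1 : ℝ) (hε1 : 0 < ε1) :
    ∀ᶠ X : ℝ in atTop, ∀ (ps : ℕ) (S : Finset ℕ) (a0 : ℕ) (t : Fin K → ℕ), GoodS X S →
      (∀ i j, i ≠ j → ∀ p : ℕ, p.Prime → p ∉ EE X S ps → ¬ (p : ℤ) ∣ (t i : ℤ) - t j) →
      ∑ n ∈ Icc 1 ⌊3 * X⌋₊, nu X (WW X S ps) a0 n *
          sqw (EE X S ps) X f A (fun j => (n : ℤ) + t j) ^ 2 ≤
        (MPhi X * (1 / (WW X S ps : ℝ))) * (1 / (LL X * BE (EE X S ps)) ^ K) * (II f A + ε1) +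
          (A.card : ℝ) ^ 2 * (5 * Real.exp (2 * LL X)) := by
  classical
  have hev : ∀ᶠ X : ℝ in atTop, ∀ a ∈ A, ∀ b ∈ A, ∀ (ps : ℕ) (E : Fin K → Finset ℕ) (w : ℕ → Fin K → ℝ),
      (∀ j, E j ⊆ Esup X ps) → (∀ j, ∀ p : ℕ, p.Prime → p ≤ z2 X → p ∈ E j) →
      (∀ j, ∀ p : ℕ, p.Prime → |w p j - 1 / p| ≤ 2 / (p : ℝ) ^ 2) →
      |(∏ j, (LL X * BE (E j))) * sieveSum K (fun j => f (a j)) (fun j => f (b j)) (LL X) E w (RR X) -
        ∏ j, DD (f (a j)) (f (b j))| ≤ ε1 / ((A.card : ℝ) ^ 2 + 1) := by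
    rw [Filter.eventually_all_finset]
    intro a _
    rw [Filter.eventually_all_finset]
    intro b _
    exact asymp1 h5 K (fun j => f (a j)) (fun j => f (b j)) (fun j => hsm _) (fun j => hsm _)
      (fun j => hcs _) (fun j => hcs _) (fun j x hx => hf0 _ x ((hc _).2.trans_lt hx))
      (fun j x hx => hf0 _ x ((hc _).2.trans_lt hx)) _ (by positivity)
  filter_upwards [hev, EE_facts 0, size_aux, eventually_ge_atTop 4, LL_tendsto.eventually_ge_atTop 1]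
    with X h1 h2 h3 h4 h6
  intro ps S a0 t hS ht
  set E := EE X S ps with hE
  set W := WW X S ps with hW
  have hWpos : 0 < W := WW_pos X S ps
  have hWr : (0 : ℝ) < W := by exact_mod_cast hWpos
  have hBE : 0 < BE E := BE_pos fun p hp => EE_prime hp
  have hLB : 0 < LL X * BE E := by positivity
  have hMnn : 0 ≤ MPhi X := Finset.sum_nonneg fun n _ => Phi_nonneg _
  have hone : ∀ a ∈ A, ∀ b ∈ A, ∑ n ∈ Icc 1 ⌊3 * X⌋₊, nu X W a0 n *
      ∏ j, (VVm E (RR X) (LL X) (f (a j)) ((n : ℤ) + t j) * VVm E (RR X) (LL X) (f (b j)) ((n : ℤ) + t j)) ≤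
      (MPhi X * (1 / (W : ℝ))) * (1 / (LL X * BE E) ^ K) *
        (∏ j, DD (f (a j)) (f (b j)) + ε1 / ((A.card : ℝ) ^ 2 + 1)) + 5 * Real.exp (2 * LL X) := by
    intro a ha b hb
    have hsum : ∑ j, c (a j) + ∑ j, c (b j) ≤ 2 := by
      have := hA a ha
      have := hA b hb
      linarith
    have k1 := sum1 X h4 W a0 hWpos (fun j => f (a j)) (fun j => f (b j)) (LL X) 1 (by linarith) zero_le_one
      (fun j => c (a j)) (fun j => c (b j)) (fun j x => hf1 _ x) (fun j x => hf1 _ x)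
      (fun j x hx => hf0 _ x hx) (fun j x hx => hf0 _ x hx) (fun _ => E) (RR X) (fun _ => 1)
      (fun j => (t j : ℤ)) (fun _ p hp h => not_dvd_WW hp h)
      (fun _ p hp _ h => hp.one_lt.ne' (Nat.dvd_one.1 h))
      (by
        intro i j hij p hp hpE _ n hh
        apply ht i j hij p hp hpE
        have := dvd_sub hh.1 hh.2
        have h7 : ((1 : ℕ) : ℤ) * n + t i - (((1 : ℕ) : ℤ) * n + t j) = t i - t j := by ring
        rwa [h7] at this)
      (h3 S ps _ (by linarith))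
    have k2 := h1 a ha b hb ps (fun _ => E) (fun p _ => 1 / (p : ℝ)) (fun _ => EE_sub h2.2.2)
      (fun _ p hp hpl => EE_small hS h2.2.1 hp hpl) (fun _ p _ => w_one p)
    have k3 : ∏ j : Fin K, (LL X * BE E) = (LL X * BE E) ^ K := by
      rw [Finset.prod_const, Finset.card_univ, Fintype.card_fin]
    rw [k3] at k2
    have k4 := (abs_le.1 k1).2
    have k5 := (abs_le.1 k2).2
    set SS := sieveSum K (fun j => f (a j)) (fun j => f (b j)) (LL X) (fun _ => E) (fun p _ => 1 / (p : ℝ)) (RR X)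
    have k6 : SS ≤ (1 / (LL X * BE E) ^ K) * (∏ j, DD (f (a j)) (f (b j)) + ε1 / ((A.card : ℝ) ^ 2 + 1)) := by
      rw [one_div, ← div_eq_inv_mul, le_div_iff₀ (by positivity)]
      linarith
    have k7 : MPhi X * (1 / (W : ℝ)) * SS ≤ (MPhi X * (1 / (W : ℝ))) * ((1 / (LL X * BE E) ^ K) *
        (∏ j, DD (f (a j)) (f (b j)) + ε1 / ((A.card : ℝ) ^ 2 + 1))) :=
      mul_le_mul_of_nonneg_left k6 (by positivity)
    have k8 : 5 * (1 : ℝ) ^ (2 * K) * Real.exp (LL X * (∑ j, c (a j) + ∑ j, c (b j))) ≤ 5 * Real.exp (2 * LL X) := by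
      rw [one_pow, mul_one]
      have : Real.exp (LL X * (∑ j, c (a j) + ∑ j, c (b j))) ≤ Real.exp (2 * LL X) := by
        apply Real.exp_le_exp.2
        nlinarith
      linarith
    have k9 : ∑ n ∈ Icc 1 ⌊3 * X⌋₊, nu X W a0 n *
      ∏ j, (VVm E (RR X) (LL X) (f (a j)) ((n : ℤ) + t j) * VVm E (RR X) (LL X) (f (b j)) ((n : ℤ) + t j)) =
      ∑ n ∈ Icc 1 ⌊3 * X⌋₊, (if n ≡ a0 [MOD W] then Phi (n / X) else 0) *
        ∏ j, (VVm E (RR X) (LL X) (f (a j)) (((1 : ℕ) : ℤ) * n + t j) *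
          VVm E (RR X) (LL X) (f (b j)) (((1 : ℕ) : ℤ) * n + t j)) := by
      refine Finset.sum_congr rfl fun n _ => ?_
      unfold nu
      simp only [Nat.cast_one, one_mul]
    rw [k9]
    linarith
  simp_rw [sqw_sq, Finset.mul_sum]
  rw [Finset.sum_comm]
  have hswap : ∀ a ∈ A, ∑ n ∈ Icc 1 ⌊3 * X⌋₊, ∑ b ∈ A, nu X W a0 n *
      ∏ j, (VVm E (RR X) (LL X) (f (a j)) ((n : ℤ) + t j) * VVm E (RR X) (LL X) (f (b j)) ((n : ℤ) + t j)) ≤
      ∑ b ∈ A, ((MPhi X * (1 / (W : ℝ))) * (1 / (LL X * BE E) ^ K) *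
        (∏ j, DD (f (a j)) (f (b j)) + ε1 / ((A.card : ℝ) ^ 2 + 1)) + 5 * Real.exp (2 * LL X)) := by
    intro a ha
    rw [Finset.sum_comm]
    exact Finset.sum_le_sum fun b hb => hone a ha b hb
  refine (Finset.sum_le_sum hswap).trans ?_
  simp_rw [Finset.sum_add_distrib, ← Finset.mul_sum, Finset.sum_add_distrib, Finset.sum_const, nsmul_eq_mul]
  have hfin : ((A.card : ℝ) * ((A.card : ℝ) * (ε1 / ((A.card : ℝ) ^ 2 + 1)))) ≤ ε1 := by
    have : (A.card : ℝ) * ((A.card : ℝ) * (ε1 / ((A.card : ℝ) ^ 2 + 1))) =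
        ((A.card : ℝ) ^ 2 / ((A.card : ℝ) ^ 2 + 1)) * ε1 := by ring
    rw [this]
    have h7 : (A.card : ℝ) ^ 2 / ((A.card : ℝ) ^ 2 + 1) ≤ 1 := by
      rw [div_le_one (by positivity)]; linarith
    nlinarith
  have hcoef : 0 ≤ (MPhi X * (1 / (W : ℝ))) * (1 / (LL X * BE E) ^ K) := by positivity
  have : (MPhi X * (1 / (W : ℝ))) * (1 / (LL X * BE E) ^ K) *
      (∑ a ∈ A, ∑ b ∈ A, ∏ j, DD (f (a j)) (f (b j)) +
        (A.card : ℝ) * ((A.card : ℝ) * (ε1 / ((A.card : ℝ) ^ 2 + 1)))) ≤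
      (MPhi X * (1 / (W : ℝ))) * (1 / (LL X * BE E) ^ K) * (II f A + ε1) := by
    apply mul_le_mul_of_nonneg_left _ hcoef
    unfold II
    linarith
  calc _ = (MPhi X * (1 / (W : ℝ))) * (1 / (LL X * BE E) ^ K) *
      (∑ a ∈ A, ∑ b ∈ A, ∏ j, DD (f (a j)) (f (b j)) +
        (A.card : ℝ) * ((A.card : ℝ) * (ε1 / ((A.card : ℝ) ^ 2 + 1)))) +
          (A.card : ℝ) ^ 2 * (5 * Real.exp (2 * LL X)) := by ring
    _ ≤ _ := by linarith

end Pool.Agent.H378R2
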