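import Mathlib
import Pool.Agent.H50.G.S.H378R2.M7l
open Finset Filter
open scoped ContDiff

namespace Pool.Agent.H378R2

/-- `log` on the primes -/
noncomputable def th (n : ℕ) : ℝ := if n.Prime then Real.log n else 0

theorem th_nonneg (n : ℕ) : 0 ≤ th n := by
  unfold th
  split_ifs
  · exact Real.log_natCast_nonneg n
  · exact le_rfl

theorem VV_abs_le (E : Finset ℕ) (R : ℕ) (L : ℝ) (hL : 0 < L) (F : ℝ → ℝ) (c : ℝ) (hF : ∀ x, |F x| ≤ 1)
    (hF0 : ∀ x, c < x → F x = 0) (x : ℤ) : |VVm E R L F x| ≤ Real.exp (L * c) := by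
  classical
  unfold VVm
  have h1 : ∑ d ∈ adm E R, (if (d : ℤ) ∣ x then ((ArithmeticFunction.moebius d : ℤ) : ℝ) * F (Real.log d / L) else 0) =
      ∑ d ∈ (adm E R).filter (fun d : ℕ => Real.log (d : ℝ) ≤ L * c),
        (if (d : ℤ) ∣ x then ((ArithmeticFunction.moebius d : ℤ) : ℝ) * F (Real.log d / L) else 0) := by
    rw [Finset.sum_filter]
    refine Finset.sum_congr rfl fun d _ => ?_
    by_cases h : Real.log (d : ℝ) ≤ L * c
    · rw [if_pos h]
    · rw [if_neg h, hF0, mul_zero, ite_self]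
      rw [lt_div_iff₀ hL]
      push Not at h
      linarith
  rw [h1]
  refine (Finset.abs_sum_le_sum_abs _ _).trans ?_
  have h2 : ∀ d ∈ (adm E R).filter (fun d : ℕ => Real.log (d : ℝ) ≤ L * c),
      |if (d : ℤ) ∣ x then ((ArithmeticFunction.moebius d : ℤ) : ℝ) * F (Real.log d / L) else 0| ≤ 1 := by
    intro d _
    split_ifs
    · rw [abs_mul]
      have hm : |((ArithmeticFunction.moebius d : ℤ) : ℝ)| ≤ 1 := by
        rw [← Int.cast_abs]
        exact_mod_cast ArithmeticFunction.abs_moebius_le_one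
      calc |((ArithmeticFunction.moebius d : ℤ) : ℝ)| * |F (Real.log d / L)| ≤ 1 * 1 := by
            apply mul_le_mul hm (hF _) (abs_nonneg _) zero_le_one
        _ = 1 := one_mul 1
    · rw [abs_zero]; exact zero_le_one
  refine (Finset.sum_le_sum h2).trans ?_
  rw [Finset.sum_const, nsmul_eq_mul, mul_one]
  have hsub : (adm E R).filter (fun d : ℕ => Real.log (d : ℝ) ≤ L * c) ⊆ Icc 1 ⌊Real.exp (L * c)⌋₊ := by
    intro d hd
    rw [Finset.mem_filter, mem_adm] at hd
    rw [Finset.mem_Icc]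
    refine ⟨hd.1.1.1, Nat.le_floor ?_⟩
    have hd0 : (0 : ℝ) < d := by exact_mod_cast hd.1.1.1
    exact (Real.log_le_iff_le_exp hd0).1 hd.2
  have h1 := Finset.card_le_card hsub
  rw [Nat.card_Icc, Nat.add_sub_cancel] at h1
  calc ((((adm E R).filter (fun d : ℕ => Real.log (d : ℝ) ≤ L * c)).card : ℕ) : ℝ) ≤ (⌊Real.exp (L * c)⌋₊ : ℝ) := by
        exact_mod_cast h1
    _ ≤ _ := Nat.floor_le (Real.exp_pos _).le

theorem VV_eq_of_only_one (E : Finset ℕ) (R : ℕ) (hR : 1 ≤ R) (L : ℝ) (F : ℝ → ℝ) (x : ℤ)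
    (h : ∀ d ∈ adm E R, (d : ℤ) ∣ x → d = 1) : VVm E R L F x = F 0 := by
  unfold VVm
  rw [Finset.sum_eq_single 1]
  · simp
  · intro d hd hne
    rw [if_neg]
    intro hdx
    exact hne (h d hd hdx)
  · intro h1
    exfalso
    apply h1
    rw [mem_adm]
    refine ⟨⟨le_rfl, hR⟩, squarefree_one, fun p _ hp h2 => hp.one_lt.ne' (Nat.dvd_one.1 h2)⟩

theorem VV_prime (E : Finset ℕ) (R : ℕ) (hR : 1 ≤ R) (L : ℝ) (F : ℝ → ℝ) (p : ℕ) (hp : p.Prime) (hpR : R < p) :
    VVm E R L F (p : ℤ) = F 0 := by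
  apply VV_eq_of_only_one E R hR
  intro d hd hdp
  rw [mem_adm] at hd
  have h1 : d ∣ p := Int.natCast_dvd_natCast.1 hdp
  rcases (Nat.dvd_prime hp).1 h1 with h2 | h2
  · exact h2
  · omega

theorem prod_VV_le {K B : ℕ} (E : Finset ℕ) (R : ℕ) (L : ℝ) (hL : 0 < L) (f : Fin B → ℝ → ℝ) (c : Fin B → ℝ)
    (hf0 : ∀ l x, c l < x → f l x = 0) (hf1 : ∀ l x, |f l x| ≤ 1) (a b : Fin K → Fin B)
    (hsum : ∑ j, c (a j) + ∑ j, c (b j) ≤ 2) (x : Fin K → ℤ) :
    |∏ j, (VVm E R L (f (a j)) (x j) * VVm E R L (f (b j)) (x j))| ≤ Real.exp (2 * L) := by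
  rw [Finset.abs_prod]
  have h1 : ∀ j, |VVm E R L (f (a j)) (x j) * VVm E R L (f (b j)) (x j)| ≤ Real.exp (L * c (a j)) * Real.exp (L * c (b j)) := by
    intro j
    rw [abs_mul]
    apply mul_le_mul (VV_abs_le E R L hL _ _ (hf1 _) (hf0 _) _) (VV_abs_le E R L hL _ _ (hf1 _) (hf0 _) _)
      (abs_nonneg _) (Real.exp_pos _).le
  refine (Finset.prod_le_prod (fun j _ => abs_nonneg _) (fun j _ => h1 j)).trans ?_
  rw [Finset.prod_mul_distrib, ← Real.exp_sum, ← Real.exp_sum, ← Real.exp_add, ← Finset.mul_sum, ← Finset.mul_sum]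
  apply Real.exp_le_exp.2
  nlinarith

theorem vonMangoldt_le_log' (n : ℕ) : ArithmeticFunction.vonMangoldt n ≤ Real.log n :=
  ArithmeticFunction.vonMangoldt_le_log

theorem sum_nonprime_le (x : ℝ) (hx : 1 ≤ x) :
    ∑ n ∈ (Icc 1 ⌊x⌋₊).filter (fun n => ¬ n.Prime), ArithmeticFunction.vonMangoldt n ≤
      2 * Real.sqrt x * Real.log x := by
  have h1 := Chebyshev.psi_sub_theta_le hx
  have h2 := Chebyshev.psi_sub_theta_eq_sum_not_prime x
  rw [h2] at h1
  refine le_trans (le_of_eq ?_) h1
  apply Finset.sum_congr _ (fun _ _ => rfl)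
  ext n
  simp [Finset.mem_filter, Finset.mem_Icc, Finset.mem_Ioc]
  omega

/-- shifting and passing from `Λ` to `log` on primes -/
theorem shift_bound (X : ℝ) (hX : 4 ≤ X) (W a0 t : ℕ) (htX : (t : ℝ) ≤ X / 2) (P : ℕ → ℝ) (M : ℝ) (hM : ∀ n, |P n| ≤ M) :
    |∑ n ∈ Icc 1 ⌊3 * X⌋₊, nu X W a0 n * th (n + t) * P (n + t) -
      ∑ n ∈ Icc 1 ⌊3 * X⌋₊, (if n ≡ a0 + t [MOD W] then Phi (n / X) * ArithmeticFunction.vonMangoldt n else 0) * P n| ≤
    M * ((4 * t) * Real.log (4 * X) + 4 * Real.sqrt X * Real.log (4 * X)) := by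
  classical
  set N := ⌊3 * X⌋₊ with hN
  have hM0 : 0 ≤ M := (abs_nonneg _).trans (hM 0)
  have hNle : (N : ℝ) ≤ 3 * X := Nat.floor_le (by linarith)
  -- both as sums over Icc 1 (N+t)
  have e1 : ∑ n ∈ Icc 1 N, nu X W a0 n * th (n + t) * P (n + t) =
      ∑ n ∈ Icc 1 (N + t), nu X W a0 (n - t) * th n * P n := by
    have h1 : ∑ n ∈ Icc 1 (N + t), nu X W a0 (n - t) * th n * P n =
        ∑ n ∈ Icc (1 + t) (N + t), nu X W a0 (n - t) * th n * P n := by
      symm
      apply Finset.sum_subset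
      · intro n hn
        rw [Finset.mem_Icc] at hn ⊢
        omega
      · intro n hn hn'
        rw [Finset.mem_Icc] at hn hn'
        have h2 : n - t = 0 := by omega
        have h3 : nu X W a0 (n - t) = 0 := by
          rw [h2]
          unfold nu
          simp only [Nat.cast_zero, zero_div]
          rw [Phi_eq_zero_of_le le_rfl zero_le_one, ite_self]
        rw [h3, zero_mul, zero_mul]
    rw [h1, ← Finset.image_add_right_Icc, Finset.sum_image (fun a _ b _ h => Nat.add_right_cancel h)]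
    refine Finset.sum_congr rfl fun n _ => ?_
    rw [Nat.add_sub_cancel]
  have e2 : ∑ n ∈ Icc 1 N, (if n ≡ a0 + t [MOD W] then Phi (n / X) * ArithmeticFunction.vonMangoldt n else 0) * P n =
      ∑ n ∈ Icc 1 (N + t), (if n ≡ a0 + t [MOD W] then Phi (n / X) * ArithmeticFunction.vonMangoldt n else 0) * P n := by
    apply Finset.sum_subset
    · intro n hn
      rw [Finset.mem_Icc] at hn ⊢
      omega
    · intro n hn hn'
      rw [Finset.mem_Icc] at hn hn'
      have h2 : N < n := by omega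
      have h3 : 3 * X < n := Nat.lt_of_floor_lt h2
      have h4 : Phi (n / X) = 0 := by
        apply Phi_eq_zero_of_ge
        rw [le_div_iff₀ (by linarith)]
        have := exp_one_lt_three'
        nlinarith
      rw [h4, zero_mul, ite_self, zero_mul]
  rw [e1, e2, ← Finset.sum_sub_distrib]
  refine (Finset.abs_sum_le_sum_abs _ _).trans ?_
  have hlog4 : 0 ≤ Real.log (4 * X) := Real.log_nonneg (by linarith)
  have key : ∀ n ∈ Icc 1 (N + t), |nu X W a0 (n - t) * th n * P n -
      (if n ≡ a0 + t [MOD W] then Phi (n / X) * ArithmeticFunction.vonMangoldt n else 0) * P n| ≤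
      M * ((t / X) * Real.log (4 * X) + (if ¬ n.Prime then ArithmeticFunction.vonMangoldt n else 0)) := by
    intro n hn
    rw [Finset.mem_Icc] at hn
    rw [← sub_mul, abs_mul, mul_comm]
    apply mul_le_mul (hM n) _ (abs_nonneg _) hM0
    have hrhs : 0 ≤ (t / X) * Real.log (4 * X) := by positivity
    have hvnn : 0 ≤ (if ¬ n.Prime then ArithmeticFunction.vonMangoldt n else 0) := by
      split_ifs
      · exact le_rfl
      · exact ArithmeticFunction.vonMangoldt_nonneg
    rcases le_or_gt n t with hnt | hnt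
    · have h2 : n - t = 0 := by omega
      have h3 : nu X W a0 (n - t) = 0 := by
        rw [h2]
        unfold nu
        simp only [Nat.cast_zero, zero_div]
        rw [Phi_eq_zero_of_le le_rfl zero_le_one, ite_self]
      have h4 : Phi (n / X) = 0 := by
        apply Phi_eq_zero_of_le (by positivity)
        rw [div_le_one (by linarith)]
        have : (n : ℝ) ≤ t := by exact_mod_cast hnt
        linarith
      rw [h3, h4, zero_mul, zero_mul, ite_self, sub_zero, abs_zero]
      linarith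
    · have hiff : (n - t ≡ a0 [MOD W]) ↔ (n ≡ a0 + t [MOD W]) := by
        constructor
        · intro h
          have := Nat.ModEq.add_right t h
          rwa [Nat.sub_add_cancel hnt.le] at this
        · intro h
          apply Nat.ModEq.add_right_cancel' t
          rwa [Nat.sub_add_cancel hnt.le]
      unfold nu
      by_cases hcl : n ≡ a0 + t [MOD W]
      · rw [if_pos (hiff.2 hcl), if_pos hcl]
        by_cases hp : n.Prime
        · have e3 : th n = Real.log n := by unfold th; rw [if_pos hp]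
          rw [e3, ArithmeticFunction.vonMangoldt_apply_prime hp, ← sub_mul, abs_mul, if_neg (not_not.2 hp), add_zero]
          have h5 : |Phi (((n - t : ℕ) : ℝ) / X) - Phi (n / X)| ≤ t / X := by
            refine (Phi_lip (by positivity) (by positivity)).trans ?_
            rw [← sub_div, abs_div, abs_of_pos (by linarith : (0 : ℝ) < X)]
            apply div_le_div_of_nonneg_right _ (by linarith)
            rw [Nat.cast_sub hnt.le]
            rw [show (n : ℝ) - t - n = -t by ring, abs_neg, abs_of_nonneg (Nat.cast_nonneg _)]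
          have h6 : |Real.log (n : ℝ)| ≤ Real.log (4 * X) := by
            rw [abs_of_nonneg (Real.log_natCast_nonneg n)]
            apply Real.log_le_log (by exact_mod_cast hp.pos)
            have : (n : ℝ) ≤ ((N + t : ℕ) : ℝ) := by exact_mod_cast hn.2
            push_cast at this
            linarith
          exact mul_le_mul h5 h6 (abs_nonneg _) (by positivity)
        · have e3 : th n = 0 := by unfold th; rw [if_neg hp]
          rw [e3, mul_zero, zero_sub, abs_neg, if_pos hp, abs_mul,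
            abs_of_nonneg ArithmeticFunction.vonMangoldt_nonneg]
          have h5 := abs_Phi_le (n / X)
          have h6 : 0 ≤ ArithmeticFunction.vonMangoldt n := ArithmeticFunction.vonMangoldt_nonneg
          nlinarith
      · rw [if_neg (fun h => hcl (hiff.1 h)), if_neg hcl, zero_mul, sub_zero, abs_zero]
        linarith
  refine (Finset.sum_le_sum key).trans ?_
  rw [← Finset.mul_sum, Finset.sum_add_distrib]
  apply mul_le_mul_of_nonneg_left _ hM0
  apply add_le_add
  · rw [Finset.sum_const, Nat.card_Icc, Nat.add_sub_cancel, nsmul_eq_mul]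
    push_cast
    have h7 : (N : ℝ) + t ≤ 4 * X := by linarith
    calc ((N : ℝ) + t) * (t / X * Real.log (4 * X)) ≤ (4 * X) * (t / X * Real.log (4 * X)) := by
          apply mul_le_mul_of_nonneg_right h7 (by positivity)
      _ = 4 * t * Real.log (4 * X) := by
          field_simp
  · rw [← Finset.sum_filter]
    have h8 := sum_nonprime_le (4 * X) (by linarith)
    have h9 : Real.sqrt (4 * X) = 2 * Real.sqrt X := by
      rw [Real.sqrt_mul (by norm_num), show (4 : ℝ) = 2 ^ 2 by norm_num, Real.sqrt_sq (by norm_num)]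
    rw [h9] at h8
    refine le_trans ?_ (h8.trans (le_of_eq (by ring)))
    apply Finset.sum_le_sum_of_subset_of_nonneg
    · intro n hn
      rw [Finset.mem_filter, Finset.mem_Icc] at hn ⊢
      refine ⟨⟨hn.1.1, Nat.le_floor ?_⟩, hn.2⟩
      have : (n : ℝ) ≤ ((N + t : ℕ) : ℝ) := by exact_mod_cast hn.1.2
      push_cast at this
      linarith
    · intro n _ _
      exact ArithmeticFunction.vonMangoldt_nonneg

end Pool.Agent.H378R2
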