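import Mathlib
import Pool.Agent.H50.G.S.H378R2.M7m
open Finset Filter
open scoped ContDiff

namespace Pool.Agent.H378R2

/-- the error term from Bombieri-Vinogradov -/
noncomputable def BVerr (K0 : ℕ) (X : ℝ) (S : Finset ℕ) (ps : ℕ) (Bc : ℕ → ℕ) : ℝ :=
  ∑ q ∈ (Icc 1 ⌊X ^ (1 / 100 : ℝ)⌋₊).filter (fun q => Squarefree q ∧ q.Coprime (WW X S ps * ps)),
    (q.divisors.card : ℝ) ^ (2 * K0) * |EPhi X (WW X S ps * q) (Bc q)|

/-- the product of the remaining forms, as a function of the prime -/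
noncomputable def PR {K0 B : ℕ} (E : Finset ℕ) (X : ℝ) (f : Fin B → ℝ → ℝ) (a b : Fin (K0 + 1) → Fin B)
    (i : Fin (K0 + 1)) (t : Fin (K0 + 1) → ℕ) (n : ℕ) : ℝ :=
  ∏ j : Fin K0, (VVm E (RR X) (LL X) (f (a (i.succAbove j))) ((n : ℤ) + ((t (i.succAbove j) : ℤ) - t i)) *
    VVm E (RR X) (LL X) (f (b (i.succAbove j))) ((n : ℤ) + ((t (i.succAbove j) : ℤ) - t i)))

theorem exp_two_LL (X : ℝ) (hX : 0 < X) : Real.exp (2 * LL X) = X ^ (1 / 100 : ℝ) := by
  rw [Real.rpow_def_of_pos hX]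
  congr 1
  unfold LL
  ring

theorem sum_succAbove_le {K0 B : ℕ} (c : Fin B → ℝ) (hc : ∀ l, 0 ≤ c l) (a : Fin (K0 + 1) → Fin B) (i : Fin (K0 + 1)) :
    ∑ j : Fin K0, c (a (i.succAbove j)) ≤ ∑ j, c (a j) := by
  rw [Fin.sum_univ_succAbove (fun j => c (a j)) i]
  have := hc (a i)
  linarith

theorem S2_pair (h5 : SieveAsymp) {K0 B : ℕ} (f : Fin B → ℝ → ℝ) (c : Fin B → ℝ)
    (hsm : ∀ l, ContDiff ℝ ∞ (f l)) (hcs : ∀ l, HasCompactSupport (f l)) (hf0 : ∀ l x, c l < x → f l x = 0)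
    (hc : ∀ l, 0 ≤ c l ∧ c l ≤ 1 / 2) (hf1 : ∀ l x, |f l x| ≤ 1) (T0 : ℕ)
    (ε1 : ℝ) (hε1 : 0 < ε1) (a b : Fin (K0 + 1) → Fin B) (i : Fin (K0 + 1))
    (ha : ∑ j, c (a j) ≤ 1) (hb : ∑ j, c (b j) ≤ 1) :
    ∀ᶠ X : ℝ in atTop, ∀ (Z ps : ℕ) (S : Finset ℕ) (a0 : ℕ) (t : Fin (K0 + 1) → ℕ), GoodP Z ps → GoodS X S →
      (∀ i j, i ≠ j → ∀ p : ℕ, p.Prime → p ∉ EE X S ps → ¬ (p : ℤ) ∣ (t i : ℤ) - t j) →
      (∀ j, t j ≤ T0) → ((a0 + t i).Coprime (WW X S ps)) →
      ∀ Bc : ℕ → ℕ, (∀ q, 1 ≤ q → ∀ b' : ℕ, b'.Coprime (WW X S ps * q) →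
        |EPhi X (WW X S ps * q) b'| ≤ |EPhi X (WW X S ps * q) (Bc q)|) →
      |∑ n ∈ Icc 1 ⌊3 * X⌋₊, nu X (WW X S ps) a0 n * th (n + t i) * PR (EE X S ps) X f a b i t (n + t i) -
        (LPhi X * (1 / ((WW X S ps).totient : ℝ))) * (1 / (LL X * BE (EE X S ps)) ^ K0) *
          ∏ j : Fin K0, DD (f (a (i.succAbove j))) (f (b (i.succAbove j)))| ≤
      (LPhi X * (1 / ((WW X S ps).totient : ℝ))) * (1 / (LL X * BE (EE X S ps)) ^ K0) * ε1 +
        (BVerr K0 X S ps Bc + Real.exp (2 * LL X) *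
          ((4 * T0) * Real.log (4 * X) + 4 * Real.sqrt X * Real.log (4 * X))) := by
  classical
  have hev := asymp1 h5 K0 (fun j => f (a (i.succAbove j))) (fun j => f (b (i.succAbove j))) (fun j => hsm _) (fun j => hsm _)
      (fun j => hcs _) (fun j => hcs _) (fun j x hx => hf0 _ x ((hc _).2.trans_lt hx))
      (fun j x hx => hf0 _ x ((hc _).2.trans_lt hx)) ε1 hε1
  filter_upwards [hev, EE_facts 0, eventually_ge_atTop 4, LL_tendsto.eventually_ge_atTop 1,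
    eventually_ge_atTop (2 * (T0 : ℝ))] with X h1 h2 h4 h6 h7
  intro Z ps S a0 t hps hS ht htT hcop Bc hBc
  set E := EE X S ps with hE
  set W := WW X S ps with hW
  have hWpos : 0 < W := WW_pos X S ps
  have hBE : 0 < BE E := BE_pos fun p hp => EE_prime hp
  have hLB : 0 < LL X * BE E := by positivity
  have hsum : ∑ j : Fin K0, c (a (i.succAbove j)) + ∑ j : Fin K0, c (b (i.succAbove j)) ≤ 2 := by
    have := sum_succAbove_le c (fun l => (hc l).1) a i
    have := sum_succAbove_le c (fun l => (hc l).1) b i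
    linarith
  -- step 1 : shift
  have s1 := shift_bound X h4 W a0 (t i) (by
      have : (t i : ℝ) ≤ T0 := by exact_mod_cast htT i
      linarith) (PR E X f a b i t) (Real.exp (2 * LL X)) (fun n => by
        unfold PR
        exact prod_VV_le E (RR X) (LL X) (by linarith) f c hf0 hf1 (fun j => a (i.succAbove j))
          (fun j => b (i.succAbove j)) hsum _)
  -- step 2 : sieve
  have s2 := sum2 X W (W * ps) (a0 + t i) hWpos hcop (fun j => f (a (i.succAbove j))) (fun j => f (b (i.succAbove j)))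
    (LL X) 1 (by linarith) zero_le_one (fun j => c (a (i.succAbove j))) (fun j => c (b (i.succAbove j)))
    (fun j x => hf1 _ x) (fun j x => hf1 _ x)
    (fun j x hx => hf0 _ x hx) (fun j x hx => hf0 _ x hx) (fun _ => E) (RR X)
    (fun j => (t (i.succAbove j) : ℤ) - t i)
    (fun _ p hp h => not_dvd_WW hp h)
    (fun _ p hp h => not_dvd_WWps hps hp h)
    (fun j p hp h => ht _ _ (Fin.succAbove_ne i j) p hp h)
    (by
      intro j k hjk p hp hpE _ n hh
      have hne : i.succAbove j ≠ i.succAbove k := fun h => hjk (Fin.succAbove_right_injective h)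
      apply ht _ _ hne p hp hpE
      have := dvd_sub hh.1 hh.2
      have h8 : (n : ℤ) + ((t (i.succAbove j) : ℤ) - t i) - (n + ((t (i.succAbove k) : ℤ) - t i)) =
        t (i.succAbove j) - t (i.succAbove k) := by ring
      rwa [h8] at this)
    Bc hBc
  have s3 : ∑ n ∈ Icc 1 ⌊3 * X⌋₊, (if n ≡ a0 + t i [MOD W] then Phi (n / X) * ArithmeticFunction.vonMangoldt n else 0) *
      PR E X f a b i t n =
      ∑ n ∈ Icc 1 ⌊3 * X⌋₊, (if n ≡ a0 + t i [MOD W] then Phi (n / X) * ArithmeticFunction.vonMangoldt n else 0) *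
        ∏ j : Fin K0, (VVm E (RR X) (LL X) (f (a (i.succAbove j))) (n + ((t (i.succAbove j) : ℤ) - t i)) *
          VVm E (RR X) (LL X) (f (b (i.succAbove j))) (n + ((t (i.succAbove j) : ℤ) - t i))) := rfl
  rw [← s3] at s2
  have s4 : (1 : ℝ) ^ (2 * K0) * ∑ q ∈ (Icc 1 ⌊Real.exp (LL X * (∑ j : Fin K0, c (a (i.succAbove j)) +
      ∑ j : Fin K0, c (b (i.succAbove j))))⌋₊).filter
      (fun q => Squarefree q ∧ q.Coprime (W * ps)), (q.divisors.card : ℝ) ^ (2 * K0) * |EPhi X (W * q) (Bc q)| ≤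
      BVerr K0 X S ps Bc := by
    rw [one_pow, one_mul]
    unfold BVerr
    apply Finset.sum_le_sum_of_subset_of_nonneg
    · apply Finset.filter_subset_filter
      apply Finset.Icc_subset_Icc le_rfl
      apply Nat.floor_le_floor
      rw [← exp_two_LL X (by linarith)]
      apply Real.exp_le_exp.2
      nlinarith
    · intro q _ _
      positivity
  -- step 3 : asymptotics
  have s5 := h1 ps (fun _ => E) (fun p _ => 1 / ((p : ℝ) - 1)) (fun _ => EE_sub h2.2.2)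
      (fun _ p hp hpl => EE_small hS h2.2.1 hp hpl) (fun _ p hp => w_two hp)
  have k3 : ∏ j : Fin K0, (LL X * BE E) = (LL X * BE E) ^ K0 := by
    rw [Finset.prod_const, Finset.card_univ, Fintype.card_fin]
  rw [k3] at s5
  set SS := sieveSum K0 (fun j => f (a (i.succAbove j))) (fun j => f (b (i.succAbove j))) (LL X) (fun _ => E)
    (fun p _ => 1 / ((p : ℝ) - 1)) (RR X)
  set D := ∏ j : Fin K0, DD (f (a (i.succAbove j))) (f (b (i.succAbove j))) with hD
  have hLP : 0 ≤ LPhi X * (1 / (W.totient : ℝ)) := by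
    apply mul_nonneg
    · unfold LPhi
      exact Finset.sum_nonneg fun n _ => mul_nonneg (Phi_nonneg _) ArithmeticFunction.vonMangoldt_nonneg
    · positivity
  have s6 : |(LPhi X * (1 / (W.totient : ℝ))) * SS -
      (LPhi X * (1 / (W.totient : ℝ))) * (1 / (LL X * BE E) ^ K0) * D| ≤
      (LPhi X * (1 / (W.totient : ℝ))) * (1 / (LL X * BE E) ^ K0) * ε1 := by
    have : (LPhi X * (1 / (W.totient : ℝ))) * SS -
      (LPhi X * (1 / (W.totient : ℝ))) * (1 / (LL X * BE E) ^ K0) * D =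
      (LPhi X * (1 / (W.totient : ℝ))) * (1 / (LL X * BE E) ^ K0) * ((LL X * BE E) ^ K0 * SS - D) := by
      field_simp
    rw [this, abs_mul, abs_of_nonneg (by positivity)]
    exact mul_le_mul_of_nonneg_left s5 (by positivity)
  have s7 : Real.exp (2 * LL X) * ((4 * (t i : ℝ)) * Real.log (4 * X) + 4 * Real.sqrt X * Real.log (4 * X)) ≤
      Real.exp (2 * LL X) * ((4 * (T0 : ℝ)) * Real.log (4 * X) + 4 * Real.sqrt X * Real.log (4 * X)) := by
    have hti : (t i : ℝ) ≤ T0 := by exact_mod_cast htT i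
    have hl : 0 ≤ Real.log (4 * X) := Real.log_nonneg (by linarith)
    gcongr
  have s8 := abs_le.1 s1
  have s9 := abs_le.1 s2
  have s10 := abs_le.1 s6
  rw [abs_le]
  constructor <;> linarith [s8.1, s8.2, s9.1, s9.2, s10.1, s10.2, s4, s7]

theorem sqw_at_prime {K0 B : ℕ} (E : Finset ℕ) (X : ℝ) (f : Fin B → ℝ → ℝ) (A : Finset (Fin (K0 + 1) → Fin B))
    (i : Fin (K0 + 1)) (t : Fin (K0 + 1) → ℕ) (n : ℕ) (hR : 1 ≤ RR X) (hp : (n + t i).Prime) (hRp : RR X < n + t i) :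
    sqw E X f A (fun j => (n : ℤ) + t j) ^ 2 =
      ∑ a ∈ A, ∑ b ∈ A, f (a i) 0 * f (b i) 0 * PR E X f a b i t (n + t i) := by
  rw [sqw_sq]
  refine Finset.sum_congr rfl fun a _ => Finset.sum_congr rfl fun b _ => ?_
  rw [Fin.prod_univ_succAbove _ i]
  have h1 : ∀ l, VVm E (RR X) (LL X) (f l) ((n : ℤ) + t i) = f l 0 := by
    intro l
    have := VV_prime E (RR X) hR (LL X) (f l) (n + t i) hp hRp
    push_cast at this
    exact this
  rw [h1, h1]
  congr 1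
  unfold PR
  refine Finset.prod_congr rfl fun j _ => ?_
  have h2 : (((n + t i : ℕ) : ℤ)) + ((t (i.succAbove j) : ℤ) - t i) = (n : ℤ) + t (i.succAbove j) := by
    push_cast; ring
  rw [h2]

theorem S2_bound (h5 : SieveAsymp) {K0 B : ℕ} (f : Fin B → ℝ → ℝ) (c : Fin B → ℝ)
    (A : Finset (Fin (K0 + 1) → Fin B))
    (hsm : ∀ l, ContDiff ℝ ∞ (f l)) (hcs : ∀ l, HasCompactSupport (f l)) (hf0 : ∀ l x, c l < x → f l x = 0)
    (hc : ∀ l, 0 ≤ c l ∧ c l ≤ 1 / 2) (hA : ∀ a ∈ A, ∑ j, c (a j) ≤ 1) (hf1 : ∀ l x, |f l x| ≤ 1) (T0 : ℕ)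
    (ε1 : ℝ) (hε1 : 0 < ε1) :
    ∀ᶠ X : ℝ in atTop, ∀ (Z ps : ℕ) (S : Finset ℕ) (a0 : ℕ) (t : Fin (K0 + 1) → ℕ), GoodP Z ps → GoodS X S →
      (∀ i j, i ≠ j → ∀ p : ℕ, p.Prime → p ∉ EE X S ps → ¬ (p : ℤ) ∣ (t i : ℤ) - t j) →
      (∀ j, t j ≤ T0) → (∀ i, (a0 + t i).Coprime (WW X S ps)) →
      ∀ Bc : ℕ → ℕ, (∀ q, 1 ≤ q → ∀ b' : ℕ, b'.Coprime (WW X S ps * q) →
        |EPhi X (WW X S ps * q) b'| ≤ |EPhi X (WW X S ps * q) (Bc q)|) →
      ∀ i, (LPhi X * (1 / ((WW X S ps).totient : ℝ))) * (1 / (LL X * BE (EE X S ps)) ^ K0) *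
          (JJ f A i - ε1) -
        (A.card : ℝ) ^ 2 * (BVerr K0 X S ps Bc + Real.exp (2 * LL X) *
          ((4 * T0) * Real.log (4 * X) + 4 * Real.sqrt X * Real.log (4 * X))) ≤
      ∑ n ∈ Icc 1 ⌊3 * X⌋₊, nu X (WW X S ps) a0 n * (sqw (EE X S ps) X f A (fun j => (n : ℤ) + t j) ^ 2 * th (n + t i)) := by
  classical
  have hev : ∀ i : Fin (K0 + 1), ∀ᶠ X : ℝ in atTop, ∀ a ∈ A, ∀ b ∈ A,
    ∀ (Z ps : ℕ) (S : Finset ℕ) (a0 : ℕ) (t : Fin (K0 + 1) → ℕ), GoodP Z ps → GoodS X S →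
      (∀ i j, i ≠ j → ∀ p : ℕ, p.Prime → p ∉ EE X S ps → ¬ (p : ℤ) ∣ (t i : ℤ) - t j) →
      (∀ j, t j ≤ T0) → ((a0 + t i).Coprime (WW X S ps)) →
      ∀ Bc : ℕ → ℕ, (∀ q, 1 ≤ q → ∀ b' : ℕ, b'.Coprime (WW X S ps * q) →
        |EPhi X (WW X S ps * q) b'| ≤ |EPhi X (WW X S ps * q) (Bc q)|) →
      |∑ n ∈ Icc 1 ⌊3 * X⌋₊, nu X (WW X S ps) a0 n * th (n + t i) * PR (EE X S ps) X f a b i t (n + t i) -
        (LPhi X * (1 / ((WW X S ps).totient : ℝ))) * (1 / (LL X * BE (EE X S ps)) ^ K0) *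
          ∏ j : Fin K0, DD (f (a (i.succAbove j))) (f (b (i.succAbove j)))| ≤
      (LPhi X * (1 / ((WW X S ps).totient : ℝ))) * (1 / (LL X * BE (EE X S ps)) ^ K0) * (ε1 / ((A.card : ℝ) ^ 2 + 1)) +
        (BVerr K0 X S ps Bc + Real.exp (2 * LL X) *
          ((4 * T0) * Real.log (4 * X) + 4 * Real.sqrt X * Real.log (4 * X))) := by
    intro i
    rw [Filter.eventually_all_finset]
    intro a ha
    rw [Filter.eventually_all_finset]
    intro b hb
    exact S2_pair h5 f c hsm hcs hf0 hc hf1 T0 _ (by positivity) a b i (hA a ha) (hA b hb)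
  rw [← Filter.eventually_all] at hev
  have hR : ∀ᶠ X : ℝ in atTop, 1 ≤ RR X ∧ (RR X : ℝ) < X := by
    filter_upwards [LL_tendsto.eventually_ge_atTop 1, eventually_gt_atTop 1] with X h1 h2
    have hlog : 0 < Real.log X := Real.log_pos h2
    constructor
    · unfold RR
      apply Nat.le_floor
      rw [Nat.cast_one]
      exact Real.one_le_exp (by linarith)
    · unfold RR
      calc (⌊Real.exp (LL X)⌋₊ : ℝ) ≤ Real.exp (LL X) := Nat.floor_le (Real.exp_pos _).le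
        _ < Real.exp (Real.log X) := by
            apply Real.exp_lt_exp.2
            unfold LL
            linarith
        _ = X := Real.exp_log (by linarith)
  filter_upwards [hev, hR, eventually_ge_atTop 4] with X h1 h2 h4
  intro Z ps S a0 t hps hS ht htT hcop Bc hBc i
  set E := EE X S ps with hE
  set W := WW X S ps with hW
  have hterm : ∀ n ∈ Icc 1 ⌊3 * X⌋₊, nu X W a0 n * (sqw E X f A (fun j => (n : ℤ) + t j) ^ 2 * th (n + t i)) =
      ∑ a ∈ A, ∑ b ∈ A, f (a i) 0 * f (b i) 0 * (nu X W a0 n * th (n + t i) * PR E X f a b i t (n + t i)) := by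
    intro n _
    by_cases hz : nu X W a0 n * th (n + t i) = 0
    · have e1 : nu X W a0 n * (sqw E X f A (fun j => (n : ℤ) + t j) ^ 2 * th (n + t i)) =
        (nu X W a0 n * th (n + t i)) * sqw E X f A (fun j => (n : ℤ) + t j) ^ 2 := by ring
      rw [e1, hz, zero_mul]
      symm
      apply Finset.sum_eq_zero; intro a _
      apply Finset.sum_eq_zero; intro b _
      rw [zero_mul, mul_zero]
    · have hnu : nu X W a0 n ≠ 0 := fun h => hz (by rw [h, zero_mul])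
      have hth : th (n + t i) ≠ 0 := fun h => hz (by rw [h, mul_zero])
      have hp : (n + t i).Prime := by
        by_contra hnp
        apply hth
        unfold th
        rw [if_neg hnp]
      have hXn : X < n := by
        by_contra hle
        push Not at hle
        apply hnu
        unfold nu
        rw [Phi_eq_zero_of_le (by positivity) (by rw [div_le_one (by linarith)]; exact hle), ite_self]
      have hRn : RR X < n + t i := by
        have h3 : (RR X : ℝ) < n := h2.2.trans hXn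
        have h5 : RR X < n := by exact_mod_cast h3
        omega
      rw [sqw_at_prime E X f A i t n h2.1 hp hRn, Finset.sum_mul, Finset.mul_sum]
      refine Finset.sum_congr rfl fun a _ => ?_
      rw [Finset.sum_mul, Finset.mul_sum]
      refine Finset.sum_congr rfl fun b _ => ?_
      ring
  rw [Finset.sum_congr rfl hterm]
  have hexch : ∑ n ∈ Icc 1 ⌊3 * X⌋₊, ∑ a ∈ A, ∑ b ∈ A,
      f (a i) 0 * f (b i) 0 * (nu X W a0 n * th (n + t i) * PR E X f a b i t (n + t i)) =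
      ∑ a ∈ A, ∑ b ∈ A, f (a i) 0 * f (b i) 0 *
        ∑ n ∈ Icc 1 ⌊3 * X⌋₊, nu X W a0 n * th (n + t i) * PR E X f a b i t (n + t i) := by
    rw [Finset.sum_comm]
    refine Finset.sum_congr rfl fun a _ => ?_
    rw [Finset.sum_comm]
    refine Finset.sum_congr rfl fun b _ => ?_
    rw [Finset.mul_sum]
  rw [hexch]
  set M1 := (LPhi X * (1 / (W.totient : ℝ))) * (1 / (LL X * BE E) ^ K0) with hM1
  set Er := BVerr K0 X S ps Bc + Real.exp (2 * LL X) *
          ((4 * T0) * Real.log (4 * X) + 4 * Real.sqrt X * Real.log (4 * X)) with hEr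
  have hpair : ∀ a ∈ A, ∀ b ∈ A, M1 * (f (a i) 0 * f (b i) 0 * ∏ j : Fin K0, DD (f (a (i.succAbove j))) (f (b (i.succAbove j)))) -
      (M1 * (ε1 / ((A.card : ℝ) ^ 2 + 1)) + Er) ≤ f (a i) 0 * f (b i) 0 *
        ∑ n ∈ Icc 1 ⌊3 * X⌋₊, nu X W a0 n * th (n + t i) * PR E X f a b i t (n + t i) := by
    intro a ha b hb
    have k1 := h1 i a ha b hb Z ps S a0 t hps hS ht htT (hcop i) Bc hBc
    have k2 : |f (a i) 0 * f (b i) 0| ≤ 1 := by
      rw [abs_mul]
      calc |f (a i) 0| * |f (b i) 0| ≤ 1 * 1 := mul_le_mul (hf1 _ _) (hf1 _ _) (abs_nonneg _) zero_le_one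
        _ = 1 := one_mul 1
    set U := ∑ n ∈ Icc 1 ⌊3 * X⌋₊, nu X W a0 n * th (n + t i) * PR E X f a b i t (n + t i)
    set D := ∏ j : Fin K0, DD (f (a (i.succAbove j))) (f (b (i.succAbove j)))
    have k3 : |f (a i) 0 * f (b i) 0 * (U - M1 * D)| ≤ M1 * (ε1 / ((A.card : ℝ) ^ 2 + 1)) + Er := by
      rw [abs_mul]
      calc |f (a i) 0 * f (b i) 0| * |U - M1 * D| ≤ 1 * (M1 * (ε1 / ((A.card : ℝ) ^ 2 + 1)) + Er) :=
            mul_le_mul k2 k1 (abs_nonneg _) zero_le_one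
        _ = _ := one_mul _
    have k4 := (abs_le.1 k3).1
    have k5 : f (a i) 0 * f (b i) 0 * (U - M1 * D) = f (a i) 0 * f (b i) 0 * U - M1 * (f (a i) 0 * f (b i) 0 * D) := by
      ring
    rw [k5] at k4
    linarith
  refine le_trans ?_ (Finset.sum_le_sum fun a ha => Finset.sum_le_sum fun b hb => hpair a ha b hb)
  simp_rw [Finset.sum_sub_distrib, ← Finset.mul_sum, Finset.sum_const, nsmul_eq_mul]
  have hfin : ((A.card : ℝ) * ((A.card : ℝ) * (ε1 / ((A.card : ℝ) ^ 2 + 1)))) ≤ ε1 := by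
    have : (A.card : ℝ) * ((A.card : ℝ) * (ε1 / ((A.card : ℝ) ^ 2 + 1))) =
        ((A.card : ℝ) ^ 2 / ((A.card : ℝ) ^ 2 + 1)) * ε1 := by ring
    rw [this]
    have h7 : (A.card : ℝ) ^ 2 / ((A.card : ℝ) ^ 2 + 1) ≤ 1 := by
      rw [div_le_one (by positivity)]; linarith
    nlinarith
  have hM1nn : 0 ≤ M1 := by
    rw [hM1]
    apply mul_nonneg
    · apply mul_nonneg
      · unfold LPhi
        exact Finset.sum_nonneg fun n _ => mul_nonneg (Phi_nonneg _) ArithmeticFunction.vonMangoldt_nonneg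
      · positivity
    · apply one_div_nonneg.2
      apply pow_nonneg
      apply mul_nonneg
      · unfold LL
        have := Real.log_nonneg (by linarith : (1 : ℝ) ≤ X)
        positivity
      · exact (BE_pos fun p hp => EE_prime hp).le
  have hJ : JJ f A i = ∑ a ∈ A, ∑ b ∈ A, f (a i) 0 * f (b i) 0 * ∏ j : Fin K0, DD (f (a (i.succAbove j))) (f (b (i.succAbove j))) := rfl
  rw [← hJ]
  have := mul_le_mul_of_nonneg_left hfin hM1nn
  calc M1 * (JJ f A i - ε1) - (A.card : ℝ) ^ 2 * Er = M1 * JJ f A i - M1 * ε1 - (A.card : ℝ) ^ 2 * Er := by ring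
    _ ≤ M1 * JJ f A i - M1 * ((A.card : ℝ) * ((A.card : ℝ) * (ε1 / ((A.card : ℝ) ^ 2 + 1)))) - (A.card : ℝ) ^ 2 * Er := by
        linarith
    _ = _ := by ring

end Pool.Agent.H378R2
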