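import Mathlib
import Pool.Agent.H50.G.S.H378R2.M7p
open Finset Filter
open scoped ContDiff

namespace Pool.Agent.H378R2

open Pool.Agent.Erdos456.Mert (PP)

/-- coefficient of the position `v` -/
noncomputable def Gv (k H m a0 W v : ℕ) : ℝ := if v < k then 1 / (Nat.gcd (m * a0 - (k - v)) W : ℝ) else 1

theorem Gv_nonneg (k H m a0 W v : ℕ) : 0 ≤ Gv k H m a0 W v := by
  unfold Gv
  split_ifs
  · positivity
  · exact zero_le_one

theorem Gv_le_one (k H m a0 W v : ℕ) (hW : 0 < W) : Gv k H m a0 W v ≤ 1 := by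
  unfold Gv
  split_ifs
  · have : 0 < Nat.gcd (m * a0 - (k - v)) W := Nat.gcd_pos_of_pos_right _ hW
    have h1 : (1 : ℝ) ≤ (Nat.gcd (m * a0 - (k - v)) W : ℝ) := by exact_mod_cast this
    rw [div_le_one (by linarith)]
    exact h1
  · exact le_rfl

theorem sum_Gv (k H m a0 W : ℕ) : ∑ v ∈ range (k + H + 1), Gv k H m a0 W v =
    ∑ s ∈ Icc 1 k, (1 : ℝ) / (Nat.gcd (m * a0 - s) W : ℝ) + (H + 1) := by
  have h1 : range (k + H + 1) = range k ∪ Ico k (k + H + 1) := by
    ext v; simp only [Finset.mem_union, Finset.mem_range, Finset.mem_Ico]; omega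
  have h2 : Disjoint (range k) (Ico k (k + H + 1)) := by
    rw [Finset.disjoint_left]; intro v; simp only [Finset.mem_range, Finset.mem_Ico]; omega
  rw [h1, Finset.sum_union h2]
  congr 1
  · have h3 : ∀ v ∈ range k, Gv k H m a0 W v = (fun s => (1 : ℝ) / (Nat.gcd (m * a0 - s) W : ℝ)) (k - v) := by
      intro v hv
      unfold Gv
      rw [if_pos (Finset.mem_range.1 hv)]
    rw [Finset.sum_congr rfl h3]
    apply Finset.sum_nbij' (i := fun v => k - v) (j := fun s => k - s)
    · intro v hv; simp only [Finset.mem_range, Finset.mem_Icc] at *; omega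
    · intro v hv; simp only [Finset.mem_range, Finset.mem_Icc] at *; omega
    · intro v hv; simp only [Finset.mem_range] at hv; omega
    · intro v hv; simp only [Finset.mem_Icc] at hv; omega
    · intro v hv; rfl
  · have h3 : ∀ v ∈ Ico k (k + H + 1), Gv k H m a0 W v = 1 := by
      intro v hv
      unfold Gv
      rw [if_neg]
      have := (Finset.mem_Ico.1 hv).1
      omega
    rw [Finset.sum_congr rfl h3, Finset.sum_const, Nat.card_Ico, nsmul_eq_mul, mul_one]
    have : k + H + 1 - k = H + 1 := by omega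
    rw [this]
    push_cast
    ring

/-- the primes to be avoided at the position `v` -/
noncomputable def E1v {K : ℕ} (X : ℝ) (S : Finset ℕ) (ps m k : ℕ) (t : Fin K → ℕ) (v : ℕ) : Finset ℕ :=
  EE X S ps ∪ univ.biUnion (fun j => ((m : ℤ) * t j - ((v : ℤ) - k)).natAbs.primeFactors)

theorem T_sum (h5 : SieveAsymp) {K B : ℕ} (f : Fin B → ℝ → ℝ) (c : Fin B → ℝ) (A : Finset (Fin K → Fin B))
    (hsm : ∀ l, ContDiff ℝ ∞ (f l)) (hcs : ∀ l, HasCompactSupport (f l)) (hf0 : ∀ l x, c l < x → f l x = 0)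
    (hc : ∀ l, 0 ≤ c l ∧ c l ≤ 1 / 2) (hA : ∀ a ∈ A, ∑ j, c (a j) ≤ 1) (hf1 : ∀ l x, |f l x| ≤ 1)
    (hIInn : 0 ≤ II f A)
    (c0 : ℝ) (hc0 : 0 < c0)
    (hset : ∀ᶠ X : ℝ in atTop, ∀ (ps : ℕ) (E : Finset ℕ), E ⊆ Esup X ps → c0 / Real.log (Real.log X) ≤ BE E)
    (m : ℕ) (hm : ∃ a, m = 2 ^ a) (T0 H : ℕ) (hT0H : m * T0 ≤ H) (δ ε1 : ℝ) (hδ : 0 < δ) (hε1 : 0 < ε1) :
    ∀ᶠ X : ℝ in atTop, ∀ (ps : ℕ) (S : Finset ℕ) (a0 : ℕ) (t : Fin K → ℕ), GoodS X S →
      (∀ i j, i ≠ j → ∀ p : ℕ, p.Prime → p ∉ EE X S ps → ¬ (p : ℤ) ∣ (t i : ℤ) - t j) →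
      (∀ j, t j ≤ T0) → ⌊2 * Real.log X⌋₊ < a0 →
      ∑ s ∈ Icc 1 ⌊2 * Real.log X⌋₊, (1 : ℝ) / (Nat.gcd (m * a0 - s) (WW X S ps) : ℝ) ≤
        δ * Real.log X / Real.log (Real.log X) →
      ∑ n ∈ Icc 1 ⌊3 * X⌋₊, nu X (WW X S ps) a0 n *
          (sqw (EE X S ps) X f A (fun j => (n : ℤ) + t j) ^ 2 *
            ∑ v ∈ Vpos X m H t, Gp X (m * n - ⌊2 * Real.log X⌋₊ + v)) ≤
        (MPhi X * (1 / (WW X S ps : ℝ))) * (1 / (LL X * BE (EE X S ps)) ^ K) *
          ((200 / c0) * (II f A * (2 * gam) + ε1) * (2 * δ)) +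
        2 * (⌊2 * Real.log X⌋₊ + H + 1) * ((A.card : ℝ) ^ 2 * (5 * Real.exp (3 * LL X))) := by
  classical
  have hll : Tendsto (fun X : ℝ => Real.log (Real.log X)) atTop atTop :=
    Real.tendsto_log_atTop.comp Real.tendsto_log_atTop
  filter_upwards [T_bound h5 f c A hsm hcs hf0 hc hA hf1 ε1 hε1, hset, EE_facts 2, ev3 H δ hδ, ev4 H,
    eventually_ge_atTop 4, LL_tendsto.eventually_ge_atTop 1, hll.eventually_ge_atTop 1,
    Real.tendsto_log_atTop.eventually_ge_atTop 1]
    with X hTB hBEl hEf h3 h4 hX4 hL1 hll1 hl1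
  intro ps S a0 t hS ht htT hka hcov
  set k := ⌊2 * Real.log X⌋₊ with hk
  set E := EE X S ps with hE
  set W := WW X S ps with hW
  have hWpos : 0 < W := WW_pos X S ps
  have hWr : (0 : ℝ) < W := by exact_mod_cast hWpos
  have hm1 : 1 ≤ m := by
    obtain ⟨a, ha⟩ := hm
    rw [ha]; exact Nat.one_le_two_pow
  have hkle : (k : ℝ) ≤ 2 * Real.log X := Nat.floor_le (by linarith)
  have hz2 : 0 < z2 X := by omega
  have hz2r : (0 : ℝ) < z2 X := by exact_mod_cast hz2
  have hMnn : 0 ≤ MPhi X := Finset.sum_nonneg fun n _ => Phi_nonneg _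
  have hBE : 0 < BE E := BE_pos fun p hp => EE_prime hp
  -- pointwise bound
  have hpt : ∀ n ∈ Icc 1 ⌊3 * X⌋₊, nu X W a0 n *
      (sqw E X f A (fun j => (n : ℤ) + t j) ^ 2 * ∑ v ∈ Vpos X m H t, Gp X (m * n - k + v)) ≤
      ∑ v ∈ Vpos X m H t, (Gv k H m a0 W v * (nu X W a0 n * (sqw E X f A (fun j => (n : ℤ) + t j) ^ 2 *
          (VVm (E1v X S ps m k t v) (RR X) (LL X) fst ((m : ℤ) * n + ((v : ℤ) - k))) ^ 2)) +
        (1 / (z2 X : ℝ)) * (nu X W a0 n * (sqw E X f A (fun j => (n : ℤ) + t j) ^ 2 *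
          (VVm (Esup X ps) (RR X) (LL X) fst ((m : ℤ) * n + ((v : ℤ) - k))) ^ 2))) := by
    intro n hn
    by_cases hz : nu X W a0 n = 0
    · rw [hz, zero_mul]
      apply Finset.sum_nonneg
      intro v _
      rw [zero_mul, mul_zero, zero_mul, mul_zero, add_zero]
    · have hXn : X < n := by
        by_contra hle
        push Not at hle
        apply hz
        unfold nu
        rw [Phi_eq_zero_of_le (by positivity) (by rw [div_le_one (by linarith)]; exact hle), ite_self]
      have hcl : n ≡ a0 [MOD W] := by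
        by_contra h
        apply hz
        unfold nu
        rw [if_neg h]
      have hmn : (n : ℝ) ≤ ((m * n : ℕ) : ℝ) := by
        exact_mod_cast Nat.le_mul_of_pos_left n hm1
      have hkmn : k ≤ m * n := by
        have : (k : ℝ) ≤ ((m * n : ℕ) : ℝ) := by
          have h41 := h4.1
          have : 0 ≤ (⌊(2 * Real.log X) ^ 3⌋₊ : ℝ) * ⌊(2 * Real.log X) ^ 3⌋₊ := by positivity
          linarith
        exact_mod_cast this
      have hG : ∀ v ∈ Vpos X m H t, Gp X (m * n - k + v) ≤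
          Gv k H m a0 W v * (VVm (E1v X S ps m k t v) (RR X) (LL X) fst ((m : ℤ) * n + ((v : ℤ) - k))) ^ 2 +
          (1 / (z2 X : ℝ)) * (VVm (Esup X ps) (RR X) (LL X) fst ((m : ℤ) * n + ((v : ℤ) - k))) ^ 2 := by
        intro v hv
        have hjr : X - 2 * Real.log X < ((m * n - k + v : ℕ) : ℝ) := by
          rw [Nat.cast_add, Nat.cast_sub hkmn]
          have : (0 : ℝ) ≤ v := Nat.cast_nonneg v
          linarith
        have hcast : (((m * n - k + v : ℕ) : ℤ)) = (m : ℤ) * n + ((v : ℤ) - k) := by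
          rw [Nat.cast_add, Nat.cast_sub hkmn]
          push_cast
          ring
        have hmain := Gp_le X (m * n - k + v) W (RR X) (LL X) (E1v X S ps m k t v) (Esup X ps) (z2 X) hz2
          (by
            have h41 := h4.1
            have : ((⌊(2 * Real.log X) ^ 3⌋₊ * ⌊(2 * Real.log X) ^ 3⌋₊ : ℕ) : ℝ) < ((m * n - k + v : ℕ) : ℝ) := by
              push_cast at hjr ⊢
              linarith
            exact_mod_cast this)
          (by
            have h41 := h4.2.1
            have : ((⌊(2 * Real.log X) ^ 3⌋₊ * RR X : ℕ) : ℝ) < ((m * n - k + v : ℕ) : ℝ) := by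
              push_cast at hjr ⊢
              linarith
            exact_mod_cast this)
          h4.2.2.2.1 hWpos
          (by
            intro q hq hqW
            have := (mem_PW.1 ((prime_dvd_WW hq).1 hqW)).1
            exact this.trans hEf.2.2)
          (by
            intro q hq hqE
            by_contra hle
            push Not at hle
            apply hqE
            unfold E1v
            exact Finset.mem_union_left _ (EE_small hS hEf.2.1 hq hle))
          (by
            intro q hq hqN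
            unfold Esup
            exact Finset.mem_union_left _ (mem_PP'.2 ⟨hqN, hq⟩))
        rw [hcast] at hmain
        refine hmain.trans ?_
        apply add_le_add_left
        apply mul_le_mul_of_nonneg_right _ (sq_nonneg _)
        unfold Gv
        split_ifs with hvk
        · have e1 : m * n - k + v = m * n - (k - v) := by omega
          have hma : k ≤ m * a0 := by
            calc k ≤ a0 := hka.le
              _ ≤ m * a0 := Nat.le_mul_of_pos_left _ hm1
          rw [e1, gcd_congr hcl (by omega) (by omega)]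
        · have : 0 < Nat.gcd (m * n - k + v) W := Nat.gcd_pos_of_pos_right _ hWpos
          have h1 : (1 : ℝ) ≤ (Nat.gcd (m * n - k + v) W : ℝ) := by exact_mod_cast this
          rw [div_le_one (by linarith)]
          exact h1
      have hnn : 0 ≤ nu X W a0 n * sqw E X f A (fun j => (n : ℤ) + t j) ^ 2 :=
        mul_nonneg (nu_nonneg _ _ _ _) (sq_nonneg _)
      calc nu X W a0 n * (sqw E X f A (fun j => (n : ℤ) + t j) ^ 2 * ∑ v ∈ Vpos X m H t, Gp X (m * n - k + v))
          = (nu X W a0 n * sqw E X f A (fun j => (n : ℤ) + t j) ^ 2) * ∑ v ∈ Vpos X m H t, Gp X (m * n - k + v) := by ring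
        _ ≤ (nu X W a0 n * sqw E X f A (fun j => (n : ℤ) + t j) ^ 2) * ∑ v ∈ Vpos X m H t,
            (Gv k H m a0 W v * (VVm (E1v X S ps m k t v) (RR X) (LL X) fst ((m : ℤ) * n + ((v : ℤ) - k))) ^ 2 +
          (1 / (z2 X : ℝ)) * (VVm (Esup X ps) (RR X) (LL X) fst ((m : ℤ) * n + ((v : ℤ) - k))) ^ 2) :=
            mul_le_mul_of_nonneg_left (Finset.sum_le_sum hG) hnn
        _ = _ := by
            rw [Finset.mul_sum]
            refine Finset.sum_congr rfl fun v _ => ?_
            ring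
  refine (Finset.sum_le_sum hpt).trans ?_
  rw [Finset.sum_comm]
  -- bound for each position
  set Q : ℝ := (MPhi X * (1 / (W : ℝ))) * (1 / (LL X * BE E) ^ K) with hQ
  have hQnn : 0 ≤ Q := by
    rw [hQ]
    have : 0 < LL X * BE E := by positivity
    positivity
  set Er : ℝ := (A.card : ℝ) ^ 2 * (5 * Real.exp (3 * LL X)) with hEr
  have hErnn : 0 ≤ Er := by rw [hEr]; positivity
  set IG : ℝ := II f A * (2 * gam) + ε1 with hIG
  have hIGnn : 0 ≤ IG := by
    rw [hIG]
    have := gam_pos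
    positivity
  have hlogpos : 0 < Real.log X := by linarith
  have hllpos : 0 < Real.log (Real.log X) := by linarith
  have hinv : ∀ E' : Finset ℕ, E' ⊆ Esup X ps → 1 / (LL X * BE E') ≤ 200 * Real.log (Real.log X) / (c0 * Real.log X) := by
    intro E' hE'
    have h1 := hBEl ps E' hE'
    have hpos : 0 < c0 / Real.log (Real.log X) := by positivity
    have h2 : LL X * (c0 / Real.log (Real.log X)) ≤ LL X * BE E' :=
      mul_le_mul_of_nonneg_left h1 (by linarith)
    calc 1 / (LL X * BE E') ≤ 1 / (LL X * (c0 / Real.log (Real.log X))) := by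
          apply one_div_le_one_div_of_le (by positivity) h2
      _ = 200 * Real.log (Real.log X) / (c0 * Real.log X) := by
          unfold LL
          field_simp
  set Cf : ℝ := 200 * Real.log (Real.log X) / (c0 * Real.log X) with hCf
  have hCfnn : 0 ≤ Cf := by rw [hCf]; positivity
  have hTE : ∀ v ∈ Vpos X m H t, ∀ E' : Finset ℕ, E ⊆ E' → E' ⊆ Esup X ps →
      (∀ j, ∀ p : ℕ, p.Prime → p ∉ E' → ¬ (p : ℤ) ∣ (m : ℤ) * t j - ((v : ℤ) - k)) →
      ∑ n ∈ Icc 1 ⌊3 * X⌋₊, nu X W a0 n * (sqw E X f A (fun j => (n : ℤ) + t j) ^ 2 *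
          (VVm E' (RR X) (LL X) fst ((m : ℤ) * n + ((v : ℤ) - k))) ^ 2) ≤ Q * Cf * IG + Er := by
    intro v _ E' hEE' hE's hE'r
    have h1 := hTB ps S a0 t hS ht E' m ((v : ℤ) - k) hEE' hE's
      (by
        intro p hp hpE hpm
        obtain ⟨α, hα⟩ := hm
        rw [hα] at hpm
        have hp2 : p = 2 := (Nat.prime_dvd_prime_iff_eq hp Nat.prime_two).1 (hp.dvd_of_dvd_pow hpm)
        apply hpE
        apply hEE'
        rw [hp2]
        exact EE_small hS hEf.2.1 Nat.prime_two hEf.1.le)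
      hE'r
    refine h1.trans ?_
    apply add_le_add_left
    have h6 : Q * (1 / (LL X * BE E')) ≤ Q * Cf := mul_le_mul_of_nonneg_left (hinv E' hE's) hQnn
    exact mul_le_mul_of_nonneg_right h6 hIGnn
  have hNat : ∀ v ∈ Vpos X m H t, ∀ j, ((m : ℤ) * t j - ((v : ℤ) - k)).natAbs ≤ ⌊(2 * Real.log X) ^ 3⌋₊ ∧
      ((m : ℤ) * t j - ((v : ℤ) - k)).natAbs ≠ 0 := by
    intro v hv j
    rw [mem_Vpos] at hv
    constructor
    · have h1 : m * t j ≤ H := (Nat.mul_le_mul_left m (htT j)).trans hT0H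
      have h2 : ((m : ℤ) * t j - ((v : ℤ) - k)).natAbs ≤ H + k + H := by
        have h3 : ((m : ℤ) * t j) ≤ H := by exact_mod_cast h1
        have h4 : (0 : ℤ) ≤ (m : ℤ) * t j := by positivity
        have h5 : (v : ℤ) < k + H + 1 := by exact_mod_cast hv.1
        omega
      have h3 : ((H + k + H : ℕ) : ℝ) ≤ (⌊(2 * Real.log X) ^ 3⌋₊ : ℝ) := by
        push_cast
        have h43 := h4.2.2.1
        have : (0 : ℝ) ≤ H := Nat.cast_nonneg H
        linarith
      exact h2.trans (by exact_mod_cast h3)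
    · intro h0
      have h1 := hv.2 j
      apply h1
      have : (m : ℤ) * t j - ((v : ℤ) - k) = 0 := Int.natAbs_eq_zero.1 h0
      have h2 : (v : ℤ) = ((k + m * t j : ℕ) : ℤ) := by push_cast; linarith
      exact_mod_cast h2
  have hpos : ∀ v ∈ Vpos X m H t, ∑ n ∈ Icc 1 ⌊3 * X⌋₊,
      (Gv k H m a0 W v * (nu X W a0 n * (sqw E X f A (fun j => (n : ℤ) + t j) ^ 2 *
          (VVm (E1v X S ps m k t v) (RR X) (LL X) fst ((m : ℤ) * n + ((v : ℤ) - k))) ^ 2)) +
        (1 / (z2 X : ℝ)) * (nu X W a0 n * (sqw E X f A (fun j => (n : ℤ) + t j) ^ 2 *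
          (VVm (Esup X ps) (RR X) (LL X) fst ((m : ℤ) * n + ((v : ℤ) - k))) ^ 2))) ≤
      (Gv k H m a0 W v + 1 / (z2 X : ℝ)) * (Q * Cf * IG + Er) := by
    intro v hv
    rw [Finset.sum_add_distrib, ← Finset.mul_sum, ← Finset.mul_sum, add_mul]
    apply add_le_add
    · apply mul_le_mul_of_nonneg_left _ (Gv_nonneg _ _ _ _ _ _)
      apply hTE v hv
      · unfold E1v; exact Finset.subset_union_left
      · unfold E1v
        apply Finset.union_subset (EE_sub hEf.2.2)
        intro p hp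
        rw [Finset.mem_biUnion] at hp
        obtain ⟨j, _, hpj⟩ := hp
        rw [Nat.mem_primeFactors] at hpj
        unfold Esup
        apply Finset.mem_union_left
        rw [mem_PP']
        refine ⟨?_, hpj.1⟩
        exact (Nat.le_of_dvd (Nat.pos_of_ne_zero hpj.2.2) hpj.2.1).trans (hNat v hv j).1
      · intro j p hp hpE hd
        apply hpE
        unfold E1v
        apply Finset.mem_union_right
        rw [Finset.mem_biUnion]
        refine ⟨j, Finset.mem_univ _, ?_⟩
        rw [Nat.mem_primeFactors]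
        exact ⟨hp, Int.natCast_dvd.1 hd, (hNat v hv j).2⟩
    · apply mul_le_mul_of_nonneg_left _ (by positivity)
      apply hTE v hv
      · exact EE_sub hEf.2.2
      · exact Finset.Subset.refl _
      · intro j p hp hpE hd
        apply hpE
        unfold Esup
        apply Finset.mem_union_left
        rw [mem_PP']
        refine ⟨?_, hp⟩
        exact (Nat.le_of_dvd (Nat.pos_of_ne_zero (hNat v hv j).2) (Int.natCast_dvd.1 hd)).trans (hNat v hv j).1
  refine (Finset.sum_le_sum hpos).trans ?_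
  rw [← Finset.sum_mul]
  have hcard : ((Vpos X m H t).card : ℝ) ≤ (k : ℝ) + H + 1 := by
    have := Vpos_card X m H t
    exact_mod_cast this
  have hsumG : ∑ v ∈ Vpos X m H t, Gv k H m a0 W v ≤ δ * Real.log X / Real.log (Real.log X) + (H + 1) := by
    calc _ ≤ ∑ v ∈ range (k + H + 1), Gv k H m a0 W v := by
          apply Finset.sum_le_sum_of_subset_of_nonneg
          · intro v hv
            rw [mem_Vpos] at hv
            exact Finset.mem_range.2 hv.1
          · intro v _ _; exact Gv_nonneg _ _ _ _ _ _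
      _ = _ := sum_Gv k H m a0 W
      _ ≤ _ := by linarith
  have hsum1 : ∑ v ∈ Vpos X m H t, (Gv k H m a0 W v + 1 / (z2 X : ℝ)) ≤ 2 * (δ * Real.log X / Real.log (Real.log X)) := by
    rw [Finset.sum_add_distrib, Finset.sum_const, nsmul_eq_mul]
    have h1 : ((Vpos X m H t).card : ℝ) * (1 / (z2 X : ℝ)) ≤ (2 * Real.log X + H + 1) / (Real.log (Real.log X)) ^ 3 := by
      have h2 : (Real.log (Real.log X)) ^ 3 ≤ (z2 X : ℝ) := by unfold z2; exact Nat.le_ceil _
      rw [mul_one_div]
      apply div_le_div₀ (by positivity) (by linarith) (by positivity) h2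
    linarith
  have hsum2 : ∑ v ∈ Vpos X m H t, (Gv k H m a0 W v + 1 / (z2 X : ℝ)) ≤ 2 * ((k : ℝ) + H + 1) := by
    have h1 : ∀ v ∈ Vpos X m H t, (Gv k H m a0 W v + 1 / (z2 X : ℝ)) ≤ 2 := by
      intro v _
      have h2 := Gv_le_one k H m a0 W v hWpos
      have h3 : 1 / (z2 X : ℝ) ≤ 1 := by
        rw [div_le_one hz2r]
        exact_mod_cast hz2
      linarith
    refine (Finset.sum_le_sum h1).trans ?_
    rw [Finset.sum_const, nsmul_eq_mul]
    linarith
  have hsnn : 0 ≤ ∑ v ∈ Vpos X m H t, (Gv k H m a0 W v + 1 / (z2 X : ℝ)) := by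
    apply Finset.sum_nonneg
    intro v _
    have := Gv_nonneg k H m a0 W v
    positivity
  rw [mul_add]
  apply add_le_add
  · calc (∑ v ∈ Vpos X m H t, (Gv k H m a0 W v + 1 / (z2 X : ℝ))) * (Q * Cf * IG)
        ≤ (2 * (δ * Real.log X / Real.log (Real.log X))) * (Q * Cf * IG) :=
          mul_le_mul_of_nonneg_right hsum1 (by positivity)
      _ = Q * ((200 / c0) * IG * (2 * δ)) := by
          rw [hCf]
          field_simp
  · exact mul_le_mul_of_nonneg_right hsum2 hErnn

end Pool.Agent.H378R2
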