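import Mathlib
import Pool.Agent.H50.G.S.H378R2.M7r
open Finset Filter
open scoped ContDiff

namespace Pool.Agent.H378R2

theorem Gp_nonnegB (X : ℝ) (j : ℕ) : 0 ≤ Gp X j := Finset.sum_nonneg fun _ _ => by positivity

theorem Bc_exists (X : ℝ) (W : ℕ) (hW : 0 < W) : ∃ Bc : ℕ → ℕ, (∀ q, 1 ≤ q → (Bc q).Coprime (W * q)) ∧
    ∀ q, 1 ≤ q → ∀ b' : ℕ, b'.Coprime (W * q) → |EPhi X (W * q) b'| ≤ |EPhi X (W * q) (Bc q)| := by
  classical
  have h : ∀ q : ℕ, ∃ b : ℕ, 1 ≤ q → (b.Coprime (W * q) ∧ ∀ b' : ℕ, b'.Coprime (W * q) →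
      |EPhi X (W * q) b'| ≤ |EPhi X (W * q) b|) := by
    intro q
    by_cases hq : 1 ≤ q
    · have hQ : 0 < W * q := Nat.mul_pos hW hq
      set cand := (range (W * q + 1)).filter (fun b => b.Coprime (W * q)) with hcand
      have hne : cand.Nonempty := ⟨1, by
        rw [hcand, Finset.mem_filter, Finset.mem_range]
        exact ⟨by omega, Nat.coprime_one_left _⟩⟩
      obtain ⟨b, hb, hmax⟩ := Finset.exists_max_image cand (fun b => |EPhi X (W * q) b|) hne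
      refine ⟨b, fun _ => ⟨(Finset.mem_filter.1 hb).2, fun b' hb' => ?_⟩⟩
      have e1 : EPhi X (W * q) b' = EPhi X (W * q) (b' % (W * q)) := by
        unfold EPhi
        congr 1
        apply Finset.sum_congr _ (fun _ _ => rfl)
        apply Finset.filter_congr
        intro n _
        constructor
        · intro h; exact h.trans (Nat.mod_modEq b' (W * q)).symm
        · intro h; exact h.trans (Nat.mod_modEq b' (W * q))
      rw [e1]
      apply hmax
      rw [hcand, Finset.mem_filter, Finset.mem_range]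
      refine ⟨?_, ?_⟩
      · have := Nat.mod_lt b' hQ
        omega
      · have : Nat.gcd (b' % (W * q)) (W * q) = Nat.gcd b' (W * q) := Nat.ModEq.gcd_eq (Nat.mod_modEq _ _)
        rw [Nat.coprime_iff_gcd_eq_one, this]
        exact hb'
    · exact ⟨0, fun h => absurd h hq⟩
  choose Bc hBc using h
  exact ⟨Bc, fun q hq => (hBc q hq).1, fun q hq => (hBc q hq).2⟩

theorem sqw_sq_le {K B : ℕ} (E : Finset ℕ) (X : ℝ) (hL : 0 < LL X) (f : Fin B → ℝ → ℝ) (c : Fin B → ℝ)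
    (A : Finset (Fin K → Fin B))
    (hf0 : ∀ l x, c l < x → f l x = 0) (hA : ∀ a ∈ A, ∑ j, c (a j) ≤ 1) (hf1 : ∀ l x, |f l x| ≤ 1)
    (x : Fin K → ℤ) : sqw E X f A x ^ 2 ≤ (A.card : ℝ) ^ 2 * Real.exp (2 * LL X) := by
  rw [sqw_sq]
  have h1 : ∀ a ∈ A, ∀ b ∈ A, ∏ j, (VVm E (RR X) (LL X) (f (a j)) (x j) * VVm E (RR X) (LL X) (f (b j)) (x j)) ≤
      Real.exp (2 * LL X) := by
    intro a ha b hb
    exact (le_abs_self _).trans (prod_VV_le E (RR X) (LL X) hL f c hf0 hf1 a b (by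
      have := hA a ha
      have := hA b hb
      linarith) x)
  refine (Finset.sum_le_sum fun a ha => Finset.sum_le_sum fun b hb => h1 a ha b hb).trans ?_
  rw [Finset.sum_const, Finset.sum_const, nsmul_eq_mul, nsmul_eq_mul]
  apply le_of_eq
  ring

/-- the total secondary error -/
theorem errB (K r T0 H : ℕ) (cA ε η : ℝ) (hcA : 0 ≤ cA) (hε : 0 < ε) (hη : 0 < η) :
    ∀ᶠ X : ℝ in atTop, ∀ W : ℝ, 0 < W → W ≤ Real.exp (Real.log X / 700) →
      (K : ℝ) * cA ^ 2 * (Real.exp (2 * LL X) * ((4 * T0) * Real.log (4 * X) + 4 * Real.sqrt X * Real.log (4 * X))) +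
      (r : ℝ) * (cA ^ 2 * (5 * Real.exp (2 * LL X))) +
      (K : ℝ) / ε * (2 * (⌊2 * Real.log X⌋₊ + H + 1) * (cA ^ 2 * (5 * Real.exp (3 * LL X)))) +
      (K : ℝ) * ((Real.log X) ^ 4 * (cA ^ 2 * Real.exp (2 * LL X))) ≤
      (X / (W * (Real.log X) ^ K)) * η := by
  set C : ℝ := (K : ℝ) * cA ^ 2 * (8 * T0 + 8) + 5 * r * cA ^ 2 + (K : ℝ) / ε * (10 * (H + 3) * cA ^ 2) + K * cA ^ 2 with hC
  have hCnn : 0 ≤ C := by rw [hC]; positivity
  have h1 := Real.tendsto_log_atTop.eventually (ev_pow_exp (4 + K) (2 / 5) (C / η) (by norm_num))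
  filter_upwards [h1, eventually_ge_atTop 4, Real.tendsto_log_atTop.eventually_ge_atTop 2] with X h2 h4 h5
  intro W hW hWle
  set l := Real.log X with hl
  have hXexp : X = Real.exp l := (Real.exp_log (by linarith)).symm
  have hsq1 : 1 ≤ Real.sqrt X := Real.one_le_sqrt.2 (by linarith)
  have hlog4 : Real.log (4 * X) ≤ 2 * l ^ 4 := by
    rw [Real.log_mul (by norm_num) (by linarith), ← hl]
    have h6 : Real.log 4 ≤ 2 := by
      have : Real.log 4 = 2 * Real.log 2 := by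
        rw [show (4 : ℝ) = 2 ^ 2 by norm_num, Real.log_pow]; norm_num
      have := Real.log_two_lt_d9
      linarith
    have h7 : l ≤ l ^ 4 := by
      have : 1 ≤ l ^ 3 := one_le_pow₀ (by linarith)
      nlinarith
    linarith
  have hlog4nn : 0 ≤ Real.log (4 * X) := Real.log_nonneg (by linarith)
  have hl4 : 1 ≤ l ^ 4 := one_le_pow₀ (by linarith)
  have hL : LL X = l / 200 := rfl
  have he23 : Real.exp (2 * LL X) ≤ Real.exp (3 * LL X) := by
    apply Real.exp_le_exp.2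
    rw [hL]
    linarith
  set e3 := Real.exp (3 * LL X) with he3
  have he3pos : 0 < e3 := Real.exp_pos _
  set s := Real.sqrt X with hs
  have hkk : (⌊2 * l⌋₊ : ℝ) + H + 1 ≤ (H + 3) * l ^ 4 := by
    have h6 : (⌊2 * l⌋₊ : ℝ) ≤ 2 * l := Nat.floor_le (by linarith)
    have h7 : l ≤ l ^ 4 := by
      have : 1 ≤ l ^ 3 := one_le_pow₀ (by linarith)
      nlinarith
    have h8 : (0 : ℝ) ≤ H := Nat.cast_nonneg H
    nlinarith
  have t1 : (K : ℝ) * cA ^ 2 * (Real.exp (2 * LL X) * ((4 * T0) * Real.log (4 * X) + 4 * s * Real.log (4 * X))) ≤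
      ((K : ℝ) * cA ^ 2 * (8 * T0 + 8)) * (l ^ 4 * s * e3) := by
    have h6 : (4 * (T0 : ℝ)) * Real.log (4 * X) + 4 * s * Real.log (4 * X) ≤ (8 * T0 + 8) * (l ^ 4 * s) := by
      have h7 : (4 * (T0 : ℝ)) * Real.log (4 * X) ≤ (4 * T0) * (2 * l ^ 4) * s := by
        calc (4 * (T0 : ℝ)) * Real.log (4 * X) ≤ (4 * T0) * (2 * l ^ 4) := by gcongr
          _ ≤ (4 * T0) * (2 * l ^ 4) * s := le_mul_of_one_le_right (by positivity) hsq1
      have h8 : 4 * s * Real.log (4 * X) ≤ 4 * s * (2 * l ^ 4) := by gcongr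
      nlinarith
    have h7 : 0 ≤ (4 * (T0 : ℝ)) * Real.log (4 * X) + 4 * s * Real.log (4 * X) := by positivity
    calc (K : ℝ) * cA ^ 2 * (Real.exp (2 * LL X) * ((4 * T0) * Real.log (4 * X) + 4 * s * Real.log (4 * X)))
        ≤ (K : ℝ) * cA ^ 2 * (e3 * ((8 * T0 + 8) * (l ^ 4 * s))) := by gcongr
      _ = _ := by ring
  have t2 : (r : ℝ) * (cA ^ 2 * (5 * Real.exp (2 * LL X))) ≤ (5 * r * cA ^ 2) * (l ^ 4 * s * e3) := by
    calc (r : ℝ) * (cA ^ 2 * (5 * Real.exp (2 * LL X))) ≤ (r : ℝ) * (cA ^ 2 * (5 * e3)) := by gcongr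
      _ = (5 * r * cA ^ 2) * (1 * 1 * e3) := by ring
      _ ≤ _ := by gcongr
  have t3 : (K : ℝ) / ε * (2 * (⌊2 * l⌋₊ + H + 1) * (cA ^ 2 * (5 * e3))) ≤
      ((K : ℝ) / ε * (10 * (H + 3) * cA ^ 2)) * (l ^ 4 * s * e3) := by
    calc (K : ℝ) / ε * (2 * (⌊2 * l⌋₊ + H + 1) * (cA ^ 2 * (5 * e3))) ≤
        (K : ℝ) / ε * (2 * ((H + 3) * l ^ 4) * (cA ^ 2 * (5 * e3))) := by gcongr
      _ = ((K : ℝ) / ε * (10 * (H + 3) * cA ^ 2)) * (l ^ 4 * 1 * e3) := by ring
      _ ≤ _ := by gcongr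
  have t4 : (K : ℝ) * (l ^ 4 * (cA ^ 2 * Real.exp (2 * LL X))) ≤ (K * cA ^ 2) * (l ^ 4 * s * e3) := by
    calc (K : ℝ) * (l ^ 4 * (cA ^ 2 * Real.exp (2 * LL X))) ≤ (K : ℝ) * (l ^ 4 * (cA ^ 2 * e3)) := by gcongr
      _ = (K * cA ^ 2) * (l ^ 4 * 1 * e3) := by ring
      _ ≤ _ := by gcongr
  have ttot : (K : ℝ) * cA ^ 2 * (Real.exp (2 * LL X) * ((4 * T0) * Real.log (4 * X) + 4 * s * Real.log (4 * X))) +
      (r : ℝ) * (cA ^ 2 * (5 * Real.exp (2 * LL X))) +
      (K : ℝ) / ε * (2 * (⌊2 * l⌋₊ + H + 1) * (cA ^ 2 * (5 * e3))) +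
      (K : ℝ) * (l ^ 4 * (cA ^ 2 * Real.exp (2 * LL X))) ≤ C * (l ^ 4 * s * e3) := by
    calc _ ≤ ((K : ℝ) * cA ^ 2 * (8 * T0 + 8)) * (l ^ 4 * s * e3) + (5 * r * cA ^ 2) * (l ^ 4 * s * e3) +
        ((K : ℝ) / ε * (10 * (H + 3) * cA ^ 2)) * (l ^ 4 * s * e3) + (K * cA ^ 2) * (l ^ 4 * s * e3) := by
          linarith
      _ = _ := by rw [hC]; ring
  refine ttot.trans ?_
  have hlpos : 0 < l := by linarith
  rw [div_mul_eq_mul_div, le_div_iff₀ (by positivity)]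
  have hsexp : s = Real.exp (l / 2) := by
    rw [hs, hXexp, Real.sqrt_eq_iff_mul_self_eq (Real.exp_pos _).le (Real.exp_pos _).le, ← Real.exp_add]
    congr 1; ring
  have h6 : C * l ^ (4 + K) ≤ η * Real.exp (2 / 5 * l) := by
    have : C / η * l ^ (4 + K) * η ≤ Real.exp (2 / 5 * l) * η := mul_le_mul_of_nonneg_right h2 hη.le
    have h7 : C / η * l ^ (4 + K) * η = C * l ^ (4 + K) := by field_simp
    rw [h7] at this
    linarith
  calc C * (l ^ 4 * s * e3) * (W * l ^ K) = (C * l ^ (4 + K)) * (s * e3 * W) := by ring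
    _ ≤ (η * Real.exp (2 / 5 * l)) * (s * e3 * Real.exp (l / 700)) := by
        have hs0 : 0 ≤ s := by linarith
        gcongr
    _ = η * Real.exp (2 / 5 * l + l / 2 + 3 * LL X + l / 700) := by
        rw [Real.exp_add, Real.exp_add, Real.exp_add, hsexp]
        ring
    _ ≤ η * Real.exp l := by
        apply mul_le_mul_of_nonneg_left _ hη.le
        apply Real.exp_le_exp.2
        rw [hL]
        linarith
    _ = X * η := by rw [← hXexp]; ring

/-- the Bombieri-Vinogradov error -/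
theorem errBV (K0 : ℕ) (cc c0 η : ℝ) (hcc : 0 ≤ cc) (hc0 : 0 < c0) (hη : 0 < η) :
    ∀ᶠ X : ℝ in atTop, ∀ W BEP V : ℝ, 0 < W → c0 / Real.log (Real.log X) ≤ BEP →
      V ≤ X / ((W * BEP) * (Real.log X) ^ (2 * K0 + 2)) →
      cc * V ≤ (X / (W * (Real.log X) ^ (K0 + 1))) * η := by
  have h1 : ∀ᶠ t : ℝ in atTop, (cc / (c0 * η)) * Real.log t ≤ t := by
    have h2 := Real.isLittleO_log_id_atTop.def (by positivity : (0 : ℝ) < 1 / (cc / (c0 * η) + 1))
    filter_upwards [h2, eventually_ge_atTop 1] with t ht ht1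
    rw [Real.norm_of_nonneg (Real.log_nonneg ht1), id, Real.norm_of_nonneg (by linarith)] at ht
    have hc : 0 ≤ cc / (c0 * η) := by positivity
    have h3 : (cc / (c0 * η) + 1) * Real.log t ≤ t := by
      have := mul_le_mul_of_nonneg_left ht (by positivity : (0 : ℝ) ≤ cc / (c0 * η) + 1)
      calc (cc / (c0 * η) + 1) * Real.log t ≤ (cc / (c0 * η) + 1) * (1 / (cc / (c0 * η) + 1) * t) := this
        _ = t := by field_simp
    have h4 := Real.log_nonneg ht1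
    linarith
  have h2 := Real.tendsto_log_atTop.eventually h1
  have hll : Tendsto (fun X : ℝ => Real.log (Real.log X)) atTop atTop :=
    Real.tendsto_log_atTop.comp Real.tendsto_log_atTop
  filter_upwards [h2, Real.tendsto_log_atTop.eventually_ge_atTop 1, hll.eventually_gt_atTop 0, eventually_gt_atTop 0]
    with X h3 h4 h5 h6
  intro W BEP V hW hB hV
  set l := Real.log X with hl
  set u := Real.log l with hu
  have hBpos : 0 < BEP := lt_of_lt_of_le (by positivity) hB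
  have hlpos : 0 < l := by linarith
  calc cc * V ≤ cc * (X / ((W * BEP) * l ^ (2 * K0 + 2))) := mul_le_mul_of_nonneg_left hV hcc
    _ ≤ cc * (X / ((W * (c0 / u)) * l ^ (2 * K0 + 2))) := by gcongr
    _ = (cc / (c0 * η) * u) / l ^ (K0 + 1) * ((X / (W * l ^ (K0 + 1))) * η) := by
        have : l ^ (2 * K0 + 2) = l ^ (K0 + 1) * l ^ (K0 + 1) := by rw [← pow_add]; congr 1; ring
        rw [this]
        field_simp
    _ ≤ 1 * ((X / (W * l ^ (K0 + 1))) * η) := by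
        apply mul_le_mul_of_nonneg_right _ (by positivity)
        rw [div_le_one (by positivity)]
        calc cc / (c0 * η) * u ≤ l := h3
          _ = l ^ 1 := (pow_one l).symm
          _ ≤ l ^ (K0 + 1) := pow_le_pow_right₀ h4 (by omega)
    _ = _ := one_mul _

end Pool.Agent.H378R2
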