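import Mathlib
import Pool.Agent.H50.G.S.H378R2.M7s
import Pool.Agent.H50.G.S.H378R2.M7u
open Finset Filter
open scoped ContDiff

namespace Pool.Agent.H378R2

theorem not_dvd_primorial {z p : ℕ} (hp : p.Prime) (h : z < p) : ¬ p ∣ primorial z := by
  unfold primorial
  rw [Prime.dvd_finsetProd_iff hp.prime]
  rintro ⟨q, hq, hpq⟩
  rw [Finset.mem_filter, Finset.mem_range] at hq
  rw [(Nat.prime_dvd_prime_iff_eq hp hq.2).1 hpq] at h
  omega

theorem dvd_primorial' {z p : ℕ} (hp : p.Prime) (h : p ≤ z) : p ∣ primorial z := by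
  unfold primorial
  apply Finset.dvd_prod_of_mem
  rw [Finset.mem_filter, Finset.mem_range]
  exact ⟨by omega, hp⟩

/-- the shifts -/
noncomputable def tt (z : ℕ) {K : ℕ} (j : Fin K) : ℕ := ((j : ℕ) + 1) * primorial z

theorem tt_diff {z K : ℕ} (hKz : K ≤ z) {i j : Fin K} (hij : i ≠ j) {p : ℕ} (hp : p.Prime) (hzp : z < p) :
    ¬ (p : ℤ) ∣ ((tt z i : ℕ) : ℤ) - (tt z j : ℕ) := by
  unfold tt
  push_cast
  rw [← sub_mul]
  intro h
  have hpz : Prime (p : ℤ) := Nat.prime_iff_prime_int.1 hp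
  rcases hpz.dvd_or_dvd h with h1 | h1
  · have h2 : (((i : ℕ) : ℤ) + 1 - (((j : ℕ) : ℤ) + 1)) ≠ 0 := by
      intro h3
      apply hij
      apply Fin.ext
      omega
    have h3 := Int.natAbs_dvd_natAbs.2 h1
    rw [Int.natAbs_natCast] at h3
    have h4 := Nat.le_of_dvd (Int.natAbs_pos.2 h2) h3
    have h5 := i.2
    have h6 := j.2
    omega
  · exact not_dvd_primorial hp hzp (Int.natCast_dvd_natCast.1 h1)

theorem tt_not_dvd {z K : ℕ} (hKz : K ≤ z) (i : Fin K) {p : ℕ} (hp : p.Prime) (hzp : z < p) :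
    ¬ p ∣ tt z i := by
  unfold tt
  rw [Nat.Prime.dvd_mul hp, not_or]
  refine ⟨fun h => ?_, not_dvd_primorial hp hzp⟩
  have := Nat.le_of_dvd (Nat.succ_pos _) h
  have := i.2
  omega

/-- conclusion from a good `n` -/
theorem finish (K0 m r : ℕ) (hm1 : 1 ≤ m) (ε X : ℝ) (hε : 0 < ε) (t : Fin (K0 + 1) → ℕ) (T0 H : ℕ)
    (htT : ∀ j, t j ≤ T0) (ht1 : ∀ j, 1 ≤ t j) (htinj : Function.Injective t) (hH : H = m * T0)
    (hX1 : 3 * (m : ℝ) ≤ Real.sqrt X) (hX2 : (2 * T0 : ℝ) ≤ X) (hX40 : 40 ≤ X) (hlX : 2 * Real.log X < X)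
    (hlX0 : 0 ≤ Real.log X)
    (bad : Finset ℕ) (n : ℕ) (hXn : X < n) (hn3 : (n : ℝ) ≤ 3 * X)
    (hBr : 0 < (∑ i, th (n + t i)) / Real.log (4 * X) - r -
      ((K0 + 1 : ℕ) : ℝ) / ε * (∑ v ∈ Vpos X m H t, Gp X (m * n - ⌊2 * Real.log X⌋₊ + v)) -
      ((K0 + 1 : ℕ) : ℝ) * (if m * n ∈ bad then 1 else 0)) :
    ∃ (n : ℕ) (C : Finset ℕ), X ≤ (m * n : ℕ) ∧ ((m * n : ℕ) : ℝ) ≤ X ^ (3 / 2 : ℝ) ∧ m * n ∉ bad ∧
        C ⊆ Icc 1 H ∧ r ≤ (C.filter (fun c => (n + c).Prime)).card ∧
        (∀ c ∈ C, m * c ≤ H) ∧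
        ∑ j ∈ (Icc (m * n - ⌊2 * Real.log X⌋₊) (m * n + H)) \ (C.image (fun c => m * (n + c))),
          Gp X j ≤ ε := by
  classical
  have hXpos : 0 < X := by linarith
  have hTH : T0 ≤ H := by rw [hH]; exact Nat.le_mul_of_pos_left _ hm1
  set k := ⌊2 * Real.log X⌋₊ with hk
  set Tn : ℝ := ∑ v ∈ Vpos X m H t, Gp X (m * n - k + v) with hTn
  set l4 := Real.log (4 * X) with hl4
  have hl4pos : 0 < l4 := Real.log_pos (by linarith)
  have hmr : (1 : ℝ) ≤ m := by exact_mod_cast hm1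
  have hTnn : 0 ≤ Tn := Finset.sum_nonneg fun v _ => Gp_nonnegB _ _
  have hth : ∀ i, th (n + t i) / l4 ≤ if (n + t i).Prime then 1 else 0 := by
    intro i
    unfold th
    split_ifs with hp
    · rw [div_le_one hl4pos, hl4]
      apply Real.log_le_log (by exact_mod_cast hp.pos)
      push_cast
      have h1 : (t i : ℝ) ≤ T0 := by exact_mod_cast htT i
      linarith
    · rw [zero_div]
  have hthsum : (∑ i, th (n + t i)) / l4 ≤ ((univ.filter (fun i => (n + t i).Prime)).card : ℝ) := by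
    rw [Finset.sum_div]
    refine (Finset.sum_le_sum fun i _ => hth i).trans ?_
    rw [Finset.sum_boole]
  have hcardK : ((univ.filter (fun i => (n + t i).Prime)).card : ℝ) ≤ ((K0 + 1 : ℕ) : ℝ) := by
    have h1 : (univ.filter (fun i => (n + t i).Prime)).card ≤ K0 + 1 := by
      refine (Finset.card_filter_le _ _).trans ?_
      rw [Finset.card_univ, Fintype.card_fin]
    exact_mod_cast h1
  set K : ℝ := ((K0 + 1 : ℕ) : ℝ) with hKdef
  have hKpos : 0 < K := by rw [hKdef]; positivity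
  have hrnn : (0 : ℝ) ≤ r := Nat.cast_nonneg r
  have hKT : 0 ≤ K / ε * Tn := by positivity
  have hbdnn : (0 : ℝ) ≤ K * (if m * n ∈ bad then 1 else 0) := by
    split_ifs
    · rw [mul_one]; exact hKpos.le
    · rw [mul_zero]
  refine ⟨n, univ.image t, ?_, ?_, ?_, ?_, ?_, ?_, ?_⟩
  · push_cast
    have : (n : ℝ) ≤ m * n := le_mul_of_one_le_left (by linarith) hmr
    linarith
  · push_cast
    have h1 : X ^ (3 / 2 : ℝ) = Real.sqrt X * X := by
      rw [Real.sqrt_eq_rpow, ← Real.rpow_add_one hXpos.ne']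
      norm_num
    rw [h1]
    calc (m : ℝ) * n ≤ m * (3 * X) := mul_le_mul_of_nonneg_left hn3 (by linarith)
      _ = (3 * m) * X := by ring
      _ ≤ Real.sqrt X * X := mul_le_mul_of_nonneg_right hX1 hXpos.le
  · intro hb
    rw [if_pos hb] at hBr
    linarith
  · intro c' hc'
    rw [Finset.mem_image] at hc'
    obtain ⟨i, _, rfl⟩ := hc'
    rw [Finset.mem_Icc]
    exact ⟨ht1 i, (htT i).trans hTH⟩
  · have h1 : (r : ℝ) < ((univ.filter (fun i => (n + t i).Prime)).card : ℝ) := by linarith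
    have h2 : r < (univ.filter (fun i => (n + t i).Prime)).card := by exact_mod_cast h1
    have h3 : (univ.filter (fun i => (n + t i).Prime)).card ≤ ((univ.image t).filter (fun c => (n + c).Prime)).card := by
      rw [← Finset.card_image_of_injective _ htinj]
      apply Finset.card_le_card
      intro x hx
      rw [Finset.mem_image] at hx
      obtain ⟨i, hi, rfl⟩ := hx
      rw [Finset.mem_filter]
      exact ⟨Finset.mem_image_of_mem _ (Finset.mem_univ _), (Finset.mem_filter.1 hi).2⟩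
    omega
  · intro c' hc'
    rw [Finset.mem_image] at hc'
    obtain ⟨i, _, rfl⟩ := hc'
    rw [hH]
    exact Nat.mul_le_mul_left m (htT i)
  · have hT : Tn ≤ ε := by
      have h1 : K / ε * Tn ≤ K := by linarith
      have h2 : K / ε * Tn = K * (Tn / ε) := by ring
      rw [h2] at h1
      have h3 : Tn / ε ≤ 1 := le_of_mul_le_mul_left (by linarith) hKpos
      rwa [div_le_one hε] at h3
    refine le_trans ?_ hT
    have hkmn : k ≤ m * n := by
      have h43 : (k : ℝ) ≤ 2 * Real.log X := Nat.floor_le (by linarith)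
      have : (k : ℝ) ≤ ((m * n : ℕ) : ℝ) := by
        push_cast
        have : (n : ℝ) ≤ m * n := le_mul_of_one_le_left (by linarith) hmr
        linarith
      exact_mod_cast this
    have hinj : Set.InjOn (fun v => m * n - k + v) (Vpos X m H t : Set ℕ) := by
      intro a _ b _ hab
      simp only at hab
      omega
    rw [hTn, ← Finset.sum_image (f := fun j => Gp X j) hinj]
    apply Finset.sum_le_sum_of_subset_of_nonneg
    · intro j hj
      rw [Finset.mem_sdiff, Finset.mem_Icc] at hj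
      rw [Finset.mem_image]
      refine ⟨j - (m * n - k), ?_, by omega⟩
      rw [mem_Vpos]
      refine ⟨by omega, ?_⟩
      intro i hcon
      apply hj.2
      rw [Finset.mem_image]
      refine ⟨t i, Finset.mem_image_of_mem _ (Finset.mem_univ _), ?_⟩
      have : j = m * n + m * t i := by omega
      rw [this]
      ring
    · intro j _ _
      exact Gp_nonnegB _ _

end Pool.Agent.H378R2
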