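import Mathlib
import Pool.Agent.H50.G.S.H378R2.M7v
open Finset Filter
open scoped ContDiff

namespace Pool.Agent.H378R2

/-- the positivity statement at a single `X` -/
theorem pos_at (K0 B m r T0 H : ℕ) (hm1 : 1 ≤ m) (f : Fin B → ℝ → ℝ) (c : Fin B → ℝ)
    (A : Finset (Fin (K0 + 1) → Fin B)) (hf0 : ∀ l x, c l < x → f l x = 0)
    (hA : ∀ a ∈ A, ∑ j, c (a j) ≤ 1) (hf1 : ∀ l x, |f l x| ≤ 1) (hIpos : 0 < II f A)
    (c0 ε ε1 δ X : ℝ) (hc0 : 0 < c0) (hε : 0 < ε) (hε1 : 0 < ε1)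
    (hε1le : (((K0 + 1 : ℕ) : ℝ) + r) * ε1 ≤ II f A) (hε1le2 : ε1 ≤ II f A)
    (hδ : δ = ε * c0 / (400 * ((K0 + 1 : ℕ) : ℝ) * (2 * gam + 1)))
    (hratio : 1600000 * ((r : ℝ) + 3) * II f A ≤ ∑ i, JJ f A i)
    (ps a0 : ℕ) (S : Finset ℕ) (t : Fin (K0 + 1) → ℕ) (Bc : ℕ → ℕ)
    (hX40 : 40 ≤ X) (hL1 : 1 ≤ LL X)
    (hMM : MPhi X / 400 ≤ LPhi X)
    (hEsup : PW X S ps ⊆ Esup X ps)
    (hBEl : ∀ (ps : ℕ) (E : Finset ℕ), E ⊆ Esup X ps → c0 / Real.log (Real.log X) ≤ BE E)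
    (S1 : ∑ n ∈ Icc 1 ⌊3 * X⌋₊, nu X (WW X S ps) a0 n *
          sqw (EE X S ps) X f A (fun j => (n : ℤ) + t j) ^ 2 ≤
        (MPhi X * (1 / (WW X S ps : ℝ))) * (1 / (LL X * BE (EE X S ps)) ^ (K0 + 1)) * (II f A + ε1) +
          (A.card : ℝ) ^ 2 * (5 * Real.exp (2 * LL X)))
    (S2 : ∀ i, (LPhi X * (1 / ((WW X S ps).totient : ℝ))) * (1 / (LL X * BE (EE X S ps)) ^ K0) *
          (JJ f A i - ε1) -
        (A.card : ℝ) ^ 2 * (BVerr K0 X S ps Bc + Real.exp (2 * LL X) *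
          ((4 * T0) * Real.log (4 * X) + 4 * Real.sqrt X * Real.log (4 * X))) ≤
      ∑ n ∈ Icc 1 ⌊3 * X⌋₊, nu X (WW X S ps) a0 n * (sqw (EE X S ps) X f A (fun j => (n : ℤ) + t j) ^ 2 * th (n + t i)))
    (TS : ∑ n ∈ Icc 1 ⌊3 * X⌋₊, nu X (WW X S ps) a0 n *
          (sqw (EE X S ps) X f A (fun j => (n : ℤ) + t j) ^ 2 *
            ∑ v ∈ Vpos X m H t, Gp X (m * n - ⌊2 * Real.log X⌋₊ + v)) ≤
        (MPhi X * (1 / (WW X S ps : ℝ))) * (1 / (LL X * BE (EE X S ps)) ^ (K0 + 1)) *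
          ((200 / c0) * (II f A * (2 * gam) + ε1) * (2 * δ)) +
        2 * (⌊2 * Real.log X⌋₊ + H + 1) * ((A.card : ℝ) ^ 2 * (5 * Real.exp (3 * LL X))))
    (hBV : BVerr K0 X S ps Bc ≤ X / ((WW X S ps * BE (PW X S ps)) * (Real.log X) ^ (2 * K0 + 2)))
    (herrB : ∀ W : ℝ, 0 < W → W ≤ Real.exp (Real.log X / 700) →
      ((K0 + 1 : ℕ) : ℝ) * (A.card : ℝ) ^ 2 * (Real.exp (2 * LL X) * ((4 * T0) * Real.log (4 * X) +
        4 * Real.sqrt X * Real.log (4 * X))) +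
      (r : ℝ) * ((A.card : ℝ) ^ 2 * (5 * Real.exp (2 * LL X))) +
      ((K0 + 1 : ℕ) : ℝ) / ε * (2 * (⌊2 * Real.log X⌋₊ + H + 1) * ((A.card : ℝ) ^ 2 * (5 * Real.exp (3 * LL X)))) +
      ((K0 + 1 : ℕ) : ℝ) * ((Real.log X) ^ 4 * ((A.card : ℝ) ^ 2 * Real.exp (2 * LL X))) ≤
      (X / (W * (Real.log X) ^ (K0 + 1))) * (II f A / 80))
    (herrBV : ∀ W BEP V : ℝ, 0 < W → c0 / Real.log (Real.log X) ≤ BEP →
      V ≤ X / ((W * BEP) * (Real.log X) ^ (2 * K0 + 2)) →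
      (((K0 + 1 : ℕ) : ℝ) * (A.card : ℝ) ^ 2) * V ≤ (X / (W * (Real.log X) ^ (K0 + 1))) * (II f A / 80))
    (bad : Finset ℕ) (hbad : (bad.card : ℝ) ≤ (Real.log X) ^ 4) :
    0 < ∑ n ∈ Icc 1 ⌊3 * X⌋₊, (nu X (WW X S ps) a0 n * sqw (EE X S ps) X f A (fun j => (n : ℤ) + t j) ^ 2) *
      ((∑ i, th (n + t i)) / Real.log (4 * X) - r -
      ((K0 + 1 : ℕ) : ℝ) / ε * (∑ v ∈ Vpos X m H t, Gp X (m * n - ⌊2 * Real.log X⌋₊ + v)) -
      ((K0 + 1 : ℕ) : ℝ) * (if m * n ∈ bad then 1 else 0)) := by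
  classical
  have hXpos : 0 < X := by linarith
  have hLl : LL X = Real.log X / 200 := rfl
  have hlogX : 200 ≤ Real.log X := by linarith
  have hWpos : 0 < WW X S ps := WW_pos X S ps
  have hWr : (0 : ℝ) < (WW X S ps : ℝ) := by exact_mod_cast hWpos
  have hBE : 0 < BE (EE X S ps) := BE_pos fun p hp => EE_prime hp
  have hBE1 : BE (EE X S ps) ≤ 1 := BE_le_one fun p hp => EE_prime hp
  have hPWpos : 0 < BE (PW X S ps) := BE_pos fun p hp => (mem_PW.1 hp).2.1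
  have hMge := MPhi_ge X hX40
  have hMpos : 0 < MPhi X := lt_of_lt_of_le (by positivity) hMge
  set Wn : ℕ → ℝ := fun n => nu X (WW X S ps) a0 n * sqw (EE X S ps) X f A (fun j => (n : ℤ) + t j) ^ 2 with hWn
  set Tn : ℕ → ℝ := fun n => ∑ v ∈ Vpos X m H t, Gp X (m * n - ⌊2 * Real.log X⌋₊ + v) with hTn
  set bd : ℕ → ℝ := fun n => if m * n ∈ bad then 1 else 0 with hbd
  have hl4 : 1 ≤ Real.log (4 * X) := by
    rw [Real.log_mul (by norm_num) hXpos.ne']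
    have := Real.log_nonneg (by norm_num : (1 : ℝ) ≤ 4)
    linarith
  have hl4le : Real.log (4 * X) ≤ 400 * LL X := by
    rw [Real.log_mul (by norm_num) hXpos.ne']
    have h2 : Real.log 4 ≤ 2 := by
      have : Real.log 4 = 2 * Real.log 2 := by
        rw [show (4 : ℝ) = 2 ^ 2 by norm_num, Real.log_pow]; norm_num
      have := Real.log_two_lt_d9
      linarith
    rw [hLl]
    linarith
  have E1 : ∑ n ∈ Icc 1 ⌊3 * X⌋₊, Wn n ≤ (MPhi X * (1 / (WW X S ps : ℝ))) *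
      (1 / (LL X * BE (EE X S ps)) ^ (K0 + 1)) * (II f A + ε1) + (A.card : ℝ) ^ 2 * (5 * Real.exp (2 * LL X)) := S1
  have E2 : (LPhi X * (1 / ((WW X S ps).totient : ℝ))) * (1 / (LL X * BE (EE X S ps)) ^ K0) *
      (∑ i, JJ f A i - ((K0 + 1 : ℕ) : ℝ) * ε1) - ((K0 + 1 : ℕ) : ℝ) * ((A.card : ℝ) ^ 2 * (BVerr K0 X S ps Bc +
        Real.exp (2 * LL X) * ((4 * T0) * Real.log (4 * X) + 4 * Real.sqrt X * Real.log (4 * X)))) ≤
      ∑ n ∈ Icc 1 ⌊3 * X⌋₊, Wn n * ∑ i, th (n + t i) := by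
    have h1 : ∑ n ∈ Icc 1 ⌊3 * X⌋₊, Wn n * ∑ i, th (n + t i) =
        ∑ i, ∑ n ∈ Icc 1 ⌊3 * X⌋₊, nu X (WW X S ps) a0 n *
          (sqw (EE X S ps) X f A (fun j => (n : ℤ) + t j) ^ 2 * th (n + t i)) := by
      rw [Finset.sum_comm]
      refine Finset.sum_congr rfl fun n _ => ?_
      rw [Finset.mul_sum]
      refine Finset.sum_congr rfl fun i _ => ?_
      simp only [hWn]
      ring
    rw [h1]
    refine le_trans (le_of_eq ?_) (Finset.sum_le_sum fun i _ => S2 i)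
    rw [Finset.sum_sub_distrib, ← Finset.mul_sum, Finset.sum_sub_distrib, Finset.sum_const, Finset.sum_const,
      Finset.card_univ, Fintype.card_fin, nsmul_eq_mul, nsmul_eq_mul]
  have E3 : ∑ n ∈ Icc 1 ⌊3 * X⌋₊, Wn n * Tn n ≤ (MPhi X * (1 / (WW X S ps : ℝ))) *
      (1 / (LL X * BE (EE X S ps)) ^ (K0 + 1)) * ((200 / c0) * (II f A * (2 * gam) + ε1) * (2 * δ)) +
      2 * (⌊2 * Real.log X⌋₊ + H + 1) * ((A.card : ℝ) ^ 2 * (5 * Real.exp (3 * LL X))) := by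
    refine le_trans (le_of_eq ?_) TS
    refine Finset.sum_congr rfl fun n _ => ?_
    simp only [hWn, hTn]
    ring
  have E4 : ∑ n ∈ Icc 1 ⌊3 * X⌋₊, Wn n * bd n ≤ (Real.log X) ^ 4 * ((A.card : ℝ) ^ 2 * Real.exp (2 * LL X)) := by
    have h1 : ∀ n, Wn n ≤ (A.card : ℝ) ^ 2 * Real.exp (2 * LL X) := by
      intro n
      have h2 := sqw_sq_le (EE X S ps) X (by linarith) f c A hf0 hA hf1 (fun j => (n : ℤ) + t j)
      have h3 : nu X (WW X S ps) a0 n ≤ 1 := by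
        unfold nu
        split_ifs
        · exact Phi_le_one _
        · exact zero_le_one
      calc Wn n ≤ 1 * sqw (EE X S ps) X f A (fun j => (n : ℤ) + t j) ^ 2 := mul_le_mul_of_nonneg_right h3 (sq_nonneg _)
        _ ≤ _ := by rw [one_mul]; exact h2
    have h2 : ∑ n ∈ Icc 1 ⌊3 * X⌋₊, Wn n * bd n = ∑ n ∈ (Icc 1 ⌊3 * X⌋₊).filter (fun n => m * n ∈ bad), Wn n := by
      rw [Finset.sum_filter]
      refine Finset.sum_congr rfl fun n _ => ?_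
      simp only [hbd]
      split_ifs
      · rw [mul_one]
      · rw [mul_zero]
    rw [h2]
    refine (Finset.sum_le_sum fun n _ => h1 n).trans ?_
    rw [Finset.sum_const, nsmul_eq_mul]
    apply mul_le_mul_of_nonneg_right _ (by positivity)
    refine le_trans ?_ hbad
    have h3 : ((Icc 1 ⌊3 * X⌋₊).filter (fun n => m * n ∈ bad)).card ≤ bad.card := by
      apply Finset.card_le_card_of_injOn (fun n => m * n)
      · intro n hn
        exact (Finset.mem_filter.1 hn).2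
      · intro a _ b _ hab
        exact Nat.eq_of_mul_eq_mul_left hm1 hab
    exact_mod_cast h3
  have e0 : ∑ n ∈ Icc 1 ⌊3 * X⌋₊, Wn n * ((∑ i, th (n + t i)) / Real.log (4 * X) - r -
      ((K0 + 1 : ℕ) : ℝ) / ε * Tn n - ((K0 + 1 : ℕ) : ℝ) * bd n) =
      (∑ n ∈ Icc 1 ⌊3 * X⌋₊, Wn n * ∑ i, th (n + t i)) / Real.log (4 * X) -
      r * ∑ n ∈ Icc 1 ⌊3 * X⌋₊, Wn n - ((K0 + 1 : ℕ) : ℝ) / ε * ∑ n ∈ Icc 1 ⌊3 * X⌋₊, Wn n * Tn n -
      ((K0 + 1 : ℕ) : ℝ) * ∑ n ∈ Icc 1 ⌊3 * X⌋₊, Wn n * bd n := by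
    rw [Finset.sum_div, Finset.mul_sum, Finset.mul_sum, Finset.mul_sum, ← Finset.sum_sub_distrib,
      ← Finset.sum_sub_distrib, ← Finset.sum_sub_distrib]
    refine Finset.sum_congr rfl fun n _ => ?_
    ring
  have hgoal : 0 < (∑ n ∈ Icc 1 ⌊3 * X⌋₊, Wn n * ∑ i, th (n + t i)) / Real.log (4 * X) -
      r * ∑ n ∈ Icc 1 ⌊3 * X⌋₊, Wn n - ((K0 + 1 : ℕ) : ℝ) / ε * ∑ n ∈ Icc 1 ⌊3 * X⌋₊, Wn n * Tn n -
      ((K0 + 1 : ℕ) : ℝ) * ∑ n ∈ Icc 1 ⌊3 * X⌋₊, Wn n * bd n := by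
    have hM2 : (MPhi X * (1 / (WW X S ps : ℝ))) * (1 / (LL X * BE (EE X S ps)) ^ (K0 + 1)) * (LL X / 800) ≤
        (LPhi X * (1 / ((WW X S ps).totient : ℝ))) * (1 / (LL X * BE (EE X S ps)) ^ K0) := by
      rw [totient_WW]
      exact M2_real (MPhi X) (LPhi X) (WW X S ps) (BE (EE X S ps)) (BE (PW X S ps)) (LL X) K0 hMpos.le hWr hBE
        hPWpos (by linarith) (BE_EE_ge X S ps) hMM
    have hMm := Mm_real X (MPhi X) (WW X S ps) (BE (EE X S ps)) (LL X) (Real.log X) (K0 + 1) hXpos hWr hBE hBE1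
      (by linarith) (by rw [hLl]; linarith) hMge
    have hMmpos : 0 < (MPhi X * (1 / (WW X S ps : ℝ))) * (1 / (LL X * BE (EE X S ps)) ^ (K0 + 1)) := by
      have : 0 < LL X := by linarith
      positivity
    have hBVnn : 0 ≤ BVerr K0 X S ps Bc := by
      unfold BVerr
      exact Finset.sum_nonneg fun q _ => by positivity
    have hE2nn : 0 ≤ Real.exp (2 * LL X) * ((4 * T0) * Real.log (4 * X) + 4 * Real.sqrt X * Real.log (4 * X)) := by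
      have : 0 ≤ Real.log (4 * X) := by linarith
      positivity
    exact combine_real _ _ (II f A) ε1 ((K0 + 1 : ℕ) : ℝ) r (Real.log (4 * X)) (LL X) (∑ i, JJ f A i) c0 δ gam ε
      _ _ _ _ (A.card : ℝ) (BVerr K0 X S ps Bc) (Real.exp (2 * LL X)) (Real.exp (3 * LL X)) _
      ((⌊2 * Real.log X⌋₊ : ℝ) + H + 1) (X / ((WW X S ps : ℝ) * (Real.log X) ^ (K0 + 1))) ((Real.log X) ^ 4) 0 0
      hMmpos hIpos hε1 (by positivity) (Nat.cast_nonneg _) hl4 hl4le (by linarith) hc0 gam_pos hε hε1le hε1le2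
      hδ hratio hM2 hBVnn hE2nn E1 E2 E3 E4 (herrB _ hWr (WW_le X (by linarith) S ps))
      (herrBV _ _ _ hWr (hBEl ps _ hEsup) hBV) hMm
  calc _ < _ := hgoal
    _ = _ := e0.symm

theorem main_of (h5 : SieveAsymp) (hbv : BVrel) (hcover : Cover) : MainThm := by
  classical
  intro m r hm ε hε
  obtain ⟨c0, hc0, X1, hset⟩ := setfacts
  have hset' : ∀ᶠ X : ℝ in atTop, ∀ (ps : ℕ) (E : Finset ℕ), E ⊆ Esup X ps → c0 / Real.log (Real.log X) ≤ BE E := by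
    filter_upwards [eventually_ge_atTop X1] with X hX
    exact fun ps E hE => (hset X hX ps E hE).2.2
  obtain ⟨K0, B, f, c, A, hsm, hcs, hf0, hc, hA, hf1, hIpos, hratio⟩ := family (1600000 * (r + 3))
  have hKpos : (0 : ℝ) < ((K0 + 1 : ℕ) : ℝ) := by positivity
  obtain ⟨ε1, hε1⟩ : ∃ ε1 : ℝ, ε1 = II f A / (((K0 + 1 : ℕ) : ℝ) + r + 1) := ⟨_, rfl⟩
  have hrnn : (0 : ℝ) ≤ r := Nat.cast_nonneg r
  have hden : (0 : ℝ) < ((K0 + 1 : ℕ) : ℝ) + r + 1 := by positivity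
  have hε1pos : 0 < ε1 := by rw [hε1]; positivity
  have hε1eq : (((K0 + 1 : ℕ) : ℝ) + r + 1) * ε1 = II f A := by
    rw [hε1]; field_simp
  have hε1le : (((K0 + 1 : ℕ) : ℝ) + r) * ε1 ≤ II f A := by linarith
  have hε1le2 : ε1 ≤ II f A := by
    have : 0 ≤ (((K0 + 1 : ℕ) : ℝ) + r) * ε1 := by positivity
    linarith
  obtain ⟨δ, hδ⟩ : ∃ δ : ℝ, δ = ε * c0 / (400 * ((K0 + 1 : ℕ) : ℝ) * (2 * gam + 1)) := ⟨_, rfl⟩
  have hgam := gam_pos
  have hδpos : 0 < δ := by rw [hδ]; positivity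
  obtain ⟨z, Z, hKz, hzZ, X2, hcov⟩ := hcover m hm δ hδpos (K0 + 1)
  obtain ⟨X3, hbvX⟩ := hbv (2 * K0 + 2) Z
  set t : Fin (K0 + 1) → ℕ := fun j => tt z j with ht
  obtain ⟨T0, hT0⟩ : ∃ T0 : ℕ, T0 = (K0 + 1) * primorial z := ⟨_, rfl⟩
  have hprim : 0 < primorial z := primorial_pos z
  have htT : ∀ j, t j ≤ T0 := by
    intro j
    simp only [ht, tt, hT0]
    apply Nat.mul_le_mul_right
    have := j.2
    omega
  have ht1 : ∀ j, 1 ≤ t j := by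
    intro j
    simp only [ht, tt]
    exact Nat.mul_pos (Nat.succ_pos _) hprim
  have htinj : Function.Injective t := by
    intro i j hij
    simp only [ht, tt] at hij
    have := Nat.eq_of_mul_eq_mul_right hprim hij
    exact Fin.ext (by omega)
  obtain ⟨H, hH⟩ : ∃ H : ℕ, H = m * T0 := ⟨_, rfl⟩
  have hm1 : 1 ≤ m := by
    obtain ⟨a, ha⟩ := hm
    rw [ha]; exact Nat.one_le_two_pow
  refine ⟨H, ?_⟩
  rw [← Filter.eventually_atTop]
  have evm : ∀ᶠ X : ℝ in atTop, 3 * (m : ℝ) ≤ Real.sqrt X ∧ (2 * T0 : ℝ) ≤ X := by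
    filter_upwards [eventually_ge_atTop ((3 * (m : ℝ)) ^ 2), eventually_ge_atTop (2 * T0 : ℝ)] with X h1 h2
    exact ⟨Real.le_sqrt_of_sq_le h1, h2⟩
  have hη : 0 < II f A / 80 := by positivity
  have hcc : 0 ≤ ((K0 + 1 : ℕ) : ℝ) * (A.card : ℝ) ^ 2 := by positivity
  filter_upwards [S1_bound h5 f c A hsm hcs hf0 hc hA hf1 ε1 hε1pos,
    S2_bound h5 f c A hsm hcs hf0 hc hA hf1 T0 ε1 hε1pos,
    T_sum h5 f c A hsm hcs hf0 hc hA hf1 hIpos.le c0 hc0 hset' m hm T0 H hH.ge δ ε1 hδpos hε1pos,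
    EE_facts z, hset', LPhi_ge, errB (K0 + 1) r T0 H A.card ε (II f A / 80) (Nat.cast_nonneg _) hε hη,
    errBV K0 (((K0 + 1 : ℕ) : ℝ) * (A.card : ℝ) ^ 2) c0 (II f A / 80) hcc hc0 hη,
    evm, LL_tendsto.eventually_ge_atTop 1, eventually_ge_atTop 40, eventually_ge_atTop X2, eventually_ge_atTop X3,
    ev4 H]
    with X hS1 hS2 hTs hEf hBEl hLP herrB herrBV hmX hL1 hX40 hX2 hX3 h4
  intro bad hbad
  obtain ⟨ps, S, hps, hS, hbvS⟩ := hbvX X hX3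
  obtain ⟨a0, hka, haPW, hasm, hcovs⟩ := hcov X hX2 ps S hps hS
  have hWpos : 0 < WW X S ps := WW_pos X S ps
  obtain ⟨Bc, hBc1, hBc2⟩ := Bc_exists X (WW X S ps) hWpos
  have hpE : ∀ p : ℕ, p.Prime → p ∉ EE X S ps → z < p := by
    intro p hp hpE
    by_contra hle
    push Not at hle
    apply hpE
    exact EE_small hS hEf.2.1 hp (by omega)
  have htd : ∀ i j, i ≠ j → ∀ p : ℕ, p.Prime → p ∉ EE X S ps → ¬ (p : ℤ) ∣ (t i : ℤ) - t j := by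
    intro i j hij p hp hpE'
    exact tt_diff hKz hij hp (hpE p hp hpE')
  have hcop : ∀ i, (a0 + t i).Coprime (WW X S ps) := by
    intro i
    by_contra hc'
    obtain ⟨p, hp, h1, h2⟩ := Nat.Prime.not_coprime_iff_dvd.1 hc'
    have hpPW := (prime_dvd_WW hp).1 h2
    rcases le_or_gt p z with hz | hz
    · have h3 : p ∣ t i := (dvd_primorial' hp hz).trans (Dvd.intro_left _ rfl)
      exact hasm p hp hz ((Nat.dvd_add_left h3).1 h1)
    · have h3 : p ∣ a0 := haPW p hpPW hz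
      exact tt_not_dvd hKz i hp hz ((Nat.dvd_add_right h3).1 h1)
  have hPWsub : PW X S ps ⊆ Esup X ps := by
    refine Finset.Subset.trans ?_ (EE_sub hEf.2.2 (S := S))
    unfold EE
    exact Finset.subset_union_left
  have hBVle : BVerr K0 X S ps Bc ≤ X / ((WW X S ps * BE (PW X S ps)) * (Real.log X) ^ (2 * K0 + 2)) := by
    have h1 := hbvS Bc hBc1
    rw [totient_WW] at h1
    refine le_trans ?_ h1
    unfold BVerr
    apply Finset.sum_le_sum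
    intro q hq
    apply mul_le_mul_of_nonneg_right _ (abs_nonneg _)
    rw [Finset.mem_filter, Finset.mem_Icc] at hq
    have h2 : (1 : ℝ) ≤ (q.divisors.card : ℝ) := by
      have : 0 < q.divisors.card := Finset.card_pos.2 ⟨1, Nat.one_mem_divisors.2 (by omega)⟩
      exact_mod_cast this
    exact pow_le_pow_right₀ h2 (by omega)
  have hMM : MPhi X / 400 ≤ LPhi X := by
    have := MPhi_le X (by linarith)
    linarith
  have hpos := pos_at K0 B m r T0 H hm1 f c A hf0 hA hf1 hIpos c0 ε ε1 δ X hc0 hε hε1pos hε1le hε1le2 hδ hratio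
    ps a0 S t Bc hX40 hL1 hMM hPWsub hBEl (hS1 ps S a0 t hS htd) (hS2 Z ps S a0 t hps hS htd htT hcop Bc hBc2)
    (hTs ps S a0 t hS htd htT hka hcovs) hBVle herrB herrBV bad hbad
  obtain ⟨n, hn, hnpos⟩ : ∃ n ∈ Icc 1 ⌊3 * X⌋₊, 0 < (nu X (WW X S ps) a0 n *
      sqw (EE X S ps) X f A (fun j => (n : ℤ) + t j) ^ 2) *
      ((∑ i, th (n + t i)) / Real.log (4 * X) - r -
      ((K0 + 1 : ℕ) : ℝ) / ε * (∑ v ∈ Vpos X m H t, Gp X (m * n - ⌊2 * Real.log X⌋₊ + v)) -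
      ((K0 + 1 : ℕ) : ℝ) * (if m * n ∈ bad then 1 else 0)) := by
    by_contra hcon
    push Not at hcon
    exact absurd hpos (not_lt.2 (Finset.sum_nonpos hcon))
  have hWnn : 0 ≤ nu X (WW X S ps) a0 n * sqw (EE X S ps) X f A (fun j => (n : ℤ) + t j) ^ 2 :=
    mul_nonneg (nu_nonneg _ _ _ _) (sq_nonneg _)
  have hWpos' : 0 < nu X (WW X S ps) a0 n * sqw (EE X S ps) X f A (fun j => (n : ℤ) + t j) ^ 2 := by
    rcases hWnn.eq_or_lt with h | h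
    · rw [← h, zero_mul] at hnpos; exact absurd hnpos (lt_irrefl _)
    · exact h
  have hBrpos := (mul_pos_iff_of_pos_left hWpos').1 hnpos
  have hnu : nu X (WW X S ps) a0 n ≠ 0 := by
    intro h
    rw [h, zero_mul] at hWpos'
    exact lt_irrefl _ hWpos'
  have hXpos : 0 < X := by linarith
  have hXn : X < n := by
    by_contra hle
    push Not at hle
    apply hnu
    unfold nu
    rw [Phi_eq_zero_of_le (by positivity) (by rw [div_le_one hXpos]; exact hle), ite_self]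
  have hn3 : (n : ℝ) ≤ 3 * X := by
    rw [Finset.mem_Icc] at hn
    exact (Nat.cast_le.2 hn.2).trans (Nat.floor_le (by linarith))
  have h2l : 2 * Real.log X < X := by
    have h41 := h4.1
    have h42 : 0 ≤ (⌊(2 * Real.log X) ^ 3⌋₊ : ℝ) * ⌊(2 * Real.log X) ^ 3⌋₊ := by positivity
    linarith
  exact finish K0 m r hm1 ε X hε t T0 H htT ht1 htinj hH hmX.1 hmX.2 hX40 h2l (Real.log_nonneg (by linarith)) bad n
    hXn hn3 hBrpos

end Pool.Agent.H378R2
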