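import Mathlib
import Pool.Agent.H50.G.S.H378R2.Defs
import Pool.Agent.H50.G.S.H378R2.M8b
open Finset

namespace Pool.Agent.H378R2

lemma lg_eq (j : ℕ) (hj : 1 ≤ j) :
    lg j = ∑ p ∈ j.primeFactors, Real.log (1 + (j.factorization p : ℝ) /
      (((j - 1).factorial.factorization p : ℝ) + 1)) := by
  have h0 : j.factorial = (j - 1).factorial * j := by
    obtain ⟨i, rfl⟩ := Nat.exists_eq_add_of_le' hj
    simp [Nat.factorial_succ, mul_comm]
  have hf : ∀ p, j.factorial.factorization p = (j - 1).factorial.factorization p + j.factorization p := by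
    intro p
    rw [h0, Nat.factorization_mul (Nat.factorial_ne_zero _) (by omega)]
    rfl
  have hsub1 : (j - 1).factorial.primeFactors ⊆ j.factorial.primeFactors :=
    Nat.primeFactors_mono (by rw [h0]; exact dvd_mul_right _ _) (Nat.factorial_ne_zero _)
  have hsub2 : j.primeFactors ⊆ j.factorial.primeFactors :=
    Nat.primeFactors_mono (by rw [h0]; exact dvd_mul_left _ _) (Nat.factorial_ne_zero _)
  have h1 : ((j - 1).factorial.divisors.card : ℝ) =
      ∏ p ∈ j.factorial.primeFactors, (((j - 1).factorial.factorization p : ℝ) + 1) := by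
    rw [Nat.card_divisors (Nat.factorial_ne_zero _)]
    push_cast
    apply Finset.prod_subset hsub1
    intro p _ hp
    rw [← Nat.support_factorization, Finsupp.notMem_support_iff] at hp
    rw [hp]; simp
  have h2 : (j.factorial.divisors.card : ℝ) =
      ∏ p ∈ j.factorial.primeFactors, (((j - 1).factorial.factorization p : ℝ) + j.factorization p + 1) := by
    rw [Nat.card_divisors (Nat.factorial_ne_zero _)]
    push_cast
    apply Finset.prod_congr rfl
    intro p _
    rw [hf p]; push_cast; ring
  unfold lg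
  rw [h1, h2, ← Finset.prod_div_distrib, Real.log_prod]
  · symm
    rw [← Finset.sum_subset hsub2]
    · apply Finset.sum_congr rfl
      intro p _
      congr 1
      have : (((j - 1).factorial.factorization p : ℝ) + 1) ≠ 0 := by positivity
      field_simp
      ring
    · intro p _ hp
      rw [← Nat.support_factorization, Finsupp.notMem_support_iff] at hp
      rw [hp]
      have : (((j - 1).factorial.factorization p : ℝ) + 1) ≠ 0 := by positivity
      simp [div_self this]
  · intro p _
    positivity

/-- sum of the prime factors with multiplicity -/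
def sopfr (j : ℕ) : ℕ := j.factorization.sum (fun p k => k * p)

lemma sopfr_mul (a b : ℕ) (ha : a ≠ 0) (hb : b ≠ 0) : sopfr (a * b) = sopfr a + sopfr b := by
  unfold sopfr
  rw [Nat.factorization_mul ha hb]
  exact Finsupp.sum_add_index' (fun p => by simp) (fun p k1 k2 => by ring)

lemma sopfr_prime (p : ℕ) (hp : p.Prime) : sopfr p = p := by
  unfold sopfr
  rw [hp.factorization]
  simp

lemma sopfr_one : sopfr 1 = 0 := by simp [sopfr]

lemma sopfr_le (l : ℕ) (hl : 1 ≤ l) : sopfr l ≤ l := by
  induction l using Nat.strong_induction_on with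
  | _ l ih =>
    rcases Nat.eq_or_lt_of_le hl with h1 | h1
    · rw [← h1, sopfr_one]; omega
    · have hp := Nat.minFac_prime (show l ≠ 1 by omega)
      obtain ⟨c, hc⟩ := Nat.minFac_dvd l
      have hc0 : c ≠ 0 := by rintro rfl; omega
      have hcl : c < l := by
        rw [hc]; have := hp.two_le; nlinarith [Nat.pos_of_ne_zero hc0]
      rw [hc, sopfr_mul _ _ hp.ne_zero hc0, sopfr_prime _ hp]
      rcases Nat.eq_or_lt_of_le (Nat.pos_of_ne_zero hc0) with h2 | h2
      · rw [← h2]; simp [sopfr_one]
      · have h3 := ih c hcl (by omega)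
        have h4 := hp.two_le
        have h5 : 2 ≤ c := h2
        nlinarith

lemma sopfr_le_log (P l : ℕ) (hl : 1 ≤ l) (hP : ∀ q, q.Prime → q ∣ l → q ≤ P) :
    sopfr l ≤ P * Nat.log 2 l := by
  induction l using Nat.strong_induction_on with
  | _ l ih =>
    rcases Nat.eq_or_lt_of_le hl with h1 | h1
    · rw [← h1, sopfr_one]; omega
    · have hp := Nat.minFac_prime (show l ≠ 1 by omega)
      obtain ⟨c, hc⟩ := Nat.minFac_dvd l
      have hc0 : c ≠ 0 := by rintro rfl; omega
      have h2 := hp.two_le
      have hcl : c < l := by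
        rw [hc]; nlinarith [Nat.pos_of_ne_zero hc0]
      have h3 := ih c hcl (by omega) (fun q hq hqc => hP q hq (hc ▸ hqc.mul_left _))
      have h4 : Nat.log 2 c + 1 ≤ Nat.log 2 l := by
        rw [← Nat.log_mul_base (by norm_num) hc0]
        apply Nat.log_mono_right
        rw [hc]
        have : c * 2 ≤ c * l.minFac := Nat.mul_le_mul_left _ h2
        rw [mul_comm c l.minFac] at this
        exact this
      have h5 : l.minFac ≤ P := hP _ hp (Nat.minFac_dvd l)
      have h6 : sopfr l = l.minFac + sopfr c := by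
        conv_lhs => rw [hc]
        rw [sopfr_mul _ _ hp.ne_zero hc0, sopfr_prime _ hp]
      rw [h6]
      calc l.minFac + sopfr c ≤ P + P * Nat.log 2 c := by omega
        _ = P * (Nat.log 2 c + 1) := by ring
        _ ≤ P * Nat.log 2 l := Nat.mul_le_mul_left _ h4

lemma vfac_ge (j p : ℕ) (hj : 1 ≤ j) (hp : p.Prime) (hpj : p ∣ j) :
    j ≤ p * ((j - 1).factorial.factorization p + 1) := by
  obtain ⟨t, rfl⟩ := hpj
  have ht : 1 ≤ t := by
    rcases Nat.eq_zero_or_pos t with h | h
    · subst h; simp at hj
    · exact h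
  apply Nat.mul_le_mul_left
  have h1 : (p * (t - 1)).factorial.factorization p ≤ (p * t - 1).factorial.factorization p := by
    have hd : (p * (t - 1)).factorial ∣ (p * t - 1).factorial := by
      apply Nat.factorial_dvd_factorial
      have : p * (t - 1) + p = p * t := by
        rw [← Nat.mul_succ]; congr 1; omega
      have := hp.two_le
      omega
    exact (Nat.factorization_le_iff_dvd (Nat.factorial_ne_zero _) (Nat.factorial_ne_zero _)).2 hd p
  rw [Nat.factorization_factorial_mul hp] at h1
  omega

lemma lg_le_sopfr (j : ℕ) (hj : 1 ≤ j) : lg j ≤ (sopfr j : ℝ) / j := by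
  rw [lg_eq j hj]
  have hj0 : (0 : ℝ) < j := by exact_mod_cast hj
  have h1 : (sopfr j : ℝ) / j = ∑ p ∈ j.primeFactors, ((j.factorization p : ℝ) * p) / j := by
    rw [← Finset.sum_div]
    congr 1
    unfold sopfr
    rw [Finsupp.sum, Nat.support_factorization]
    push_cast
    rfl
  rw [h1]
  apply Finset.sum_le_sum
  intro p hp
  have hpp := Nat.prime_of_mem_primeFactors hp
  have hpd := Nat.dvd_of_mem_primeFactors hp
  have h2 := vfac_ge j p hj hpp hpd
  have h3 : (j : ℝ) ≤ p * (((j - 1).factorial.factorization p : ℝ) + 1) := by exact_mod_cast h2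
  have h4 : (0 : ℝ) < (((j - 1).factorial.factorization p : ℝ) + 1) := by positivity
  calc Real.log (1 + (j.factorization p : ℝ) / (((j - 1).factorial.factorization p : ℝ) + 1))
      ≤ (1 + (j.factorization p : ℝ) / (((j - 1).factorial.factorization p : ℝ) + 1)) - 1 :=
        Real.log_le_sub_one_of_pos (by positivity)
    _ = (j.factorization p : ℝ) / (((j - 1).factorial.factorization p : ℝ) + 1) := by ring
    _ ≤ ((j.factorization p : ℝ) * p) / j := by
        rw [div_le_div_iff₀ h4 hj0]
        have : (0 : ℝ) ≤ (j.factorization p : ℝ) := Nat.cast_nonneg _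
        nlinarith

/-- decomposition with the largest prime factor -/
lemma lg_decomp (j : ℕ) (hj : 2 ≤ j) : ∃ P l : ℕ, P.Prime ∧ j = P * l ∧ 1 ≤ l ∧
    (∀ q, q.Prime → q ∣ j → q ≤ P) ∧ lg j ≤ 1 / (l : ℝ) + 1 / (P : ℝ) ∧
    lg j ≤ (1 + (Nat.log 2 l : ℝ)) / l := by
  have hne : j.primeFactors.Nonempty := Nat.nonempty_primeFactors.2 (by omega)
  set P := j.primeFactors.max' hne with hPdef
  have hPm := Finset.max'_mem _ hne
  have hP : P.Prime := Nat.prime_of_mem_primeFactors hPm
  obtain ⟨l, hl⟩ : P ∣ j := Nat.dvd_of_mem_primeFactors hPm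
  have hl1 : 1 ≤ l := by
    rcases Nat.eq_zero_or_pos l with h | h
    · subst h; simp at hl; omega
    · exact h
  have hmax : ∀ q, q.Prime → q ∣ j → q ≤ P := by
    intro q hq hqj
    exact Finset.le_max' _ _ (Nat.mem_primeFactors.2 ⟨hq, hqj, by omega⟩)
  have hs : sopfr j = P + sopfr l := by
    rw [hl, sopfr_mul _ _ hP.ne_zero (by omega), sopfr_prime _ hP]
  have hlg := lg_le_sopfr j (by omega)
  have hl0 : (0 : ℝ) < l := by exact_mod_cast hl1
  have hP0 : (0 : ℝ) < P := by exact_mod_cast hP.pos
  have hjr : (j : ℝ) = P * l := by exact_mod_cast hl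
  refine ⟨P, l, hP, hl, hl1, hmax, ?_, ?_⟩
  · refine hlg.trans ?_
    have h1 : (sopfr j : ℝ) ≤ P + l := by
      rw [hs]; push_cast
      have : (sopfr l : ℝ) ≤ l := by exact_mod_cast sopfr_le l hl1
      linarith
    rw [hjr]
    calc (sopfr j : ℝ) / (P * l) ≤ (P + l) / (P * l) := by gcongr
      _ = 1 / (l : ℝ) + 1 / P := by field_simp
  · refine hlg.trans ?_
    have h1 : (sopfr j : ℝ) ≤ P + P * Nat.log 2 l := by
      rw [hs]; push_cast
      have : (sopfr l : ℝ) ≤ P * Nat.log 2 l := by
        exact_mod_cast sopfr_le_log P l hl1 (fun q hq hql => hmax q hq (hl ▸ hql.mul_left _))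
      linarith
    rw [hjr]
    calc (sopfr j : ℝ) / (P * l) ≤ (P + P * Nat.log 2 l) / (P * l) := by gcongr
      _ = (1 + (Nat.log 2 l : ℝ)) / l := by field_simp

lemma lg_mul_prime_ge (m q : ℕ) (hm : 1 ≤ m) (hq : q.Prime) (hmq : m < q) :
    Real.log (1 + 1 / (m : ℝ)) ≤ lg (m * q) := by
  have hj : 1 ≤ m * q := Nat.mul_pos hm hq.pos
  rw [lg_eq _ hj]
  have hqm : ¬ q ∣ m := fun h => absurd (Nat.le_of_dvd (by omega) h) (by omega)
  have hmem : q ∈ (m * q).primeFactors :=
    Nat.mem_primeFactors.2 ⟨hq, dvd_mul_left _ _, by omega⟩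
  have hv1 : (m * q).factorization q = 1 := by
    rw [Nat.factorization_mul (by omega) hq.ne_zero]
    simp [Nat.factorization_eq_zero_of_not_dvd hqm, hq.factorization_self]
  have hv2 : (m * q - 1).factorial.factorization q + 1 = m := by
    have h1 : (q * m).factorial.factorization q = m.factorial.factorization q + m :=
      Nat.factorization_factorial_mul hq
    have h2 : m.factorial.factorization q = 0 := by
      apply Nat.factorization_eq_zero_of_not_dvd
      rw [hq.dvd_factorial]; omega
    have h3 : (m * q).factorial = (m * q - 1).factorial * (m * q) := by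
      obtain ⟨i, hi⟩ := Nat.exists_eq_add_of_le' hj
      rw [hi]; simp [Nat.factorial_succ, mul_comm]
    have h4 : (m * q).factorial.factorization q =
        (m * q - 1).factorial.factorization q + (m * q).factorization q := by
      rw [h3, Nat.factorization_mul (Nat.factorial_ne_zero _) (by omega)]
      rfl
    rw [mul_comm q m] at h1
    omega
  have hterm : Real.log (1 + ((m * q).factorization q : ℝ) /
      (((m * q - 1).factorial.factorization q : ℝ) + 1)) = Real.log (1 + 1 / (m : ℝ)) := by
    rw [hv1]
    have : (((m * q - 1).factorial.factorization q : ℝ) + 1) = m := by exact_mod_cast hv2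
    rw [this]; simp
  rw [← hterm]
  apply Finset.single_le_sum (f := fun p => Real.log (1 + ((m * q).factorization p : ℝ) /
      (((m * q - 1).factorial.factorization p : ℝ) + 1))) _ hmem
  intro p _
  apply Real.log_nonneg
  have : (0 : ℝ) ≤ ((m * q).factorization p : ℝ) /
      (((m * q - 1).factorial.factorization p : ℝ) + 1) := by positivity
  linarith

end Pool.Agent.H378R2
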