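import Mathlib
import Pool.Agent.H50.G.S.H378R2.Defs
import Pool.Agent.H50.G.S.H378R2.M8b
import Pool.Agent.H50.G.S.H378R2.M8a
open Finset Filter

namespace Pool.Agent.H378R2

/-- statement of (M7) -/
def MainStmt : Prop := ∀ (m r : ℕ) (_hm : ∃ a, m = 2 ^ a) (ε : ℝ) (_hε : 0 < ε),
    ∃ (H : ℕ) (X0 : ℝ), ∀ X : ℝ, X0 ≤ X → ∀ bad : Finset ℕ, (bad.card : ℝ) ≤ (Real.log X) ^ 4 →
      ∃ (n : ℕ) (C : Finset ℕ), X ≤ (m * n : ℕ) ∧ ((m * n : ℕ) : ℝ) ≤ X ^ (3 / 2 : ℝ) ∧ m * n ∉ bad ∧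
        C ⊆ Icc 1 H ∧ r ≤ (C.filter (fun c => (n + c).Prime)).card ∧
        (∀ c ∈ C, m * c ≤ H) ∧
        ∑ j ∈ (Icc (m * n - ⌊2 * Real.log X⌋₊) (m * n + H)) \ (C.image (fun c => m * (n + c))),
          Gp X j ≤ ε

lemma lg_bound (X : ℝ) (hX : 4 ≤ X) (hL : 2 ≤ Real.log X) (hXL : 16 * (Real.log X) ^ 5 ≤ X)
    (j : ℕ) (hj1 : X / 2 ≤ j) (hj2 : (j : ℝ) ≤ X ^ (2 : ℝ)) :
    ∃ P l : ℕ, P.Prime ∧ j = P * l ∧ 1 ≤ l ∧ (∀ q, q.Prime → q ∣ j → q ≤ P) ∧
      ((l : ℝ) ≤ (2 * Real.log X) ^ 3 → lg j ≤ 1 / (l : ℝ) + 1 / (Real.log X) ^ 2) ∧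
      ((2 * Real.log X) ^ 3 < (l : ℝ) → lg j ≤ 1 / (Real.log X) ^ 2) := by
  have hj : 2 ≤ j := by
    have : (2 : ℝ) ≤ j := by linarith
    exact_mod_cast this
  obtain ⟨P, l, hP, hjl, hl1, hmax, hb1, hb2⟩ := lg_decomp j hj
  set L := Real.log X with hLdef
  have hL0 : 0 < L := by linarith
  have hl0 : (0 : ℝ) < l := by exact_mod_cast hl1
  have hP0 : (0 : ℝ) < P := by exact_mod_cast hP.pos
  have hjr : (j : ℝ) = P * l := by exact_mod_cast hjl
  refine ⟨P, l, hP, hjl, hl1, hmax, ?_, ?_⟩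
  · intro hl
    have h1 : L ^ 2 ≤ P := by
      by_contra hcon
      push Not at hcon
      have h2 : (j : ℝ) < L ^ 2 * (2 * L) ^ 3 := by
        rw [hjr]
        calc (P : ℝ) * l ≤ P * (2 * L) ^ 3 := by gcongr
          _ < L ^ 2 * (2 * L) ^ 3 := by
            apply mul_lt_mul_of_pos_right hcon (by positivity)
      have h3 : L ^ 2 * (2 * L) ^ 3 = 8 * L ^ 5 := by ring
      linarith
    have h4 : 1 / (P : ℝ) ≤ 1 / L ^ 2 := one_div_le_one_div_of_le (by positivity) h1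
    linarith
  · intro hl
    refine hb2.trans ?_
    have h1 : (Nat.log 2 l : ℝ) * Real.log 2 ≤ Real.log l := by
      have h2 : 2 ^ (Nat.log 2 l) ≤ l := Nat.pow_log_le_self 2 (by omega)
      have h3 : ((2 : ℝ) ^ (Nat.log 2 l)) ≤ l := by exact_mod_cast h2
      have h4 := Real.log_le_log (by positivity) h3
      rwa [Real.log_pow] at h4
    have h2 : Real.log l ≤ 2 * L := by
      have h3 : (l : ℝ) ≤ X ^ (2 : ℝ) := by
        refine le_trans ?_ hj2
        have : l ≤ j := by rw [hjl]; exact Nat.le_mul_of_pos_left _ hP.pos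
        exact_mod_cast this
      have h4 := Real.log_le_log hl0 h3
      rwa [Real.log_rpow (by linarith)] at h4
    have h3 : (0.69 : ℝ) < Real.log 2 := by
      have := Real.log_two_gt_d9; linarith
    have h4 : (1 + (Nat.log 2 l : ℝ)) ≤ 4 * L := by
      have h5 : (Nat.log 2 l : ℝ) * 0.69 ≤ 2 * L := by
        have : (0 : ℝ) ≤ (Nat.log 2 l : ℝ) := Nat.cast_nonneg _
        nlinarith
      linarith
    rw [div_le_div_iff₀ hl0 (by positivity)]
    have h6 : (1 + (Nat.log 2 l : ℝ)) * L ^ 2 ≤ 4 * L * L ^ 2 := by gcongr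
    have h7 : 4 * L * L ^ 2 ≤ (2 * L) ^ 3 := by nlinarith [pow_pos hL0 3]
    linarith

lemma Gp_nonneg (X : ℝ) (j : ℕ) : 0 ≤ Gp X j := by
  unfold Gp
  apply Finset.sum_nonneg
  intro l _
  positivity

lemma lg_le_Gp (X : ℝ) (hX : 4 ≤ X) (hL : 2 ≤ Real.log X) (hXL : 16 * (Real.log X) ^ 5 ≤ X)
    (j : ℕ) (hj1 : X / 2 ≤ j) (hj2 : (j : ℝ) ≤ X ^ (2 : ℝ)) :
    lg j ≤ Gp X j + 1 / (Real.log X) ^ 2 := by
  obtain ⟨P, l, hP, hjl, hl1, hmax, hb1, hb2⟩ := lg_bound X hX hL hXL j hj1 hj2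
  by_cases hl : (l : ℝ) ≤ (2 * Real.log X) ^ 3
  · refine (hb1 hl).trans ?_
    have h1 : 1 / (l : ℝ) ≤ Gp X j := by
      unfold Gp
      apply Finset.single_le_sum (f := fun l : ℕ => (1 : ℝ) / l) (fun i _ => by positivity)
      rw [mem_filter, mem_Icc]
      refine ⟨⟨hl1, Nat.le_floor hl⟩, ⟨P, by rw [hjl, mul_comm]⟩, ?_⟩
      rw [hjl, Nat.mul_div_cancel _ (by omega)]
      exact hP
    linarith
  · have := hb2 (not_le.1 hl)
    have := Gp_nonneg X j
    linarith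

/-- (M8a) from (M7) to the core statement -/
theorem core_of_main (hmain : MainStmt) : Core := by
  intro ε Y hε
  obtain ⟨a, ha⟩ : ∃ a : ℕ, 2 / ε < (2 : ℝ) ^ a := pow_unbounded_of_one_lt _ (by norm_num)
  obtain ⟨m, hm⟩ : ∃ m : ℕ, m = 2 ^ a := ⟨_, rfl⟩
  have hm1 : 1 ≤ m := by rw [hm]; exact Nat.one_le_two_pow
  have hm0 : (0 : ℝ) < m := by exact_mod_cast hm1
  have hmε : 1 / (m : ℝ) ≤ ε / 2 := by
    have h1 : 2 / ε < (m : ℝ) := by rw [hm]; push_cast; exact ha
    rw [div_lt_iff₀ hε] at h1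
    rw [div_le_div_iff₀ hm0 (by norm_num)]
    linarith
  have hlm : 0 < Real.log (1 + 1 / (m : ℝ)) := Real.log_pos (by
    have : 0 < 1 / (m : ℝ) := by positivity
    linarith)
  obtain ⟨r, hr⟩ : ∃ r : ℕ, Y / Real.log (1 + 1 / (m : ℝ)) ≤ r := exists_nat_ge _
  have hrY : Y ≤ r * Real.log (1 + 1 / (m : ℝ)) := by rwa [div_le_iff₀ hlm] at hr
  obtain ⟨H, X0, hX⟩ := hmain m r ⟨a, hm⟩ (ε / 2) (by positivity)
  have hev : ∀ᶠ X : ℝ in atTop, X0 ≤ X ∧ 4 ≤ X ∧ (H : ℝ) + 2 ≤ Real.log X ∧ 6 / ε ≤ Real.log X ∧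
      16 * (Real.log X) ^ 5 ≤ X ∧ (m : ℝ) ^ 2 < X ∧ (H : ℝ) ≤ X := by
    have hlogtop : Tendsto Real.log atTop atTop := Real.tendsto_log_atTop
    have h5 : ∀ᶠ X : ℝ in atTop, 16 * (Real.log X) ^ 5 ≤ X := by
      have h1 := (Real.isLittleO_pow_log_id_atTop (n := 5)).bound (show (0 : ℝ) < 1 / 16 by norm_num)
      filter_upwards [h1, eventually_ge_atTop (1 : ℝ)] with X h1 h2
      simp only [id, Real.norm_eq_abs] at h1
      rw [abs_of_nonneg (pow_nonneg (Real.log_nonneg h2) 5), abs_of_nonneg (by linarith)] at h1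
      linarith
    filter_upwards [eventually_ge_atTop X0, eventually_ge_atTop (4 : ℝ),
      hlogtop.eventually_ge_atTop ((H : ℝ) + 2), hlogtop.eventually_ge_atTop (6 / ε), h5,
      eventually_gt_atTop ((m : ℝ) ^ 2), eventually_ge_atTop (H : ℝ)] with X a1 a2 a3 a4 a5 a6 a7
    exact ⟨a1, a2, a3, a4, a5, a6, a7⟩
  obtain ⟨X1, hX1⟩ := eventually_atTop.1 hev
  refine ⟨H, X1, fun X hXX bad hbad => ?_⟩
  obtain ⟨a1, a2, a3, a4, a5, a6, a7⟩ := hX1 X hXX
  obtain ⟨n, C, hn1, hn2, hn3, hC, hr', hmc, hsum⟩ := hX X a1 bad hbad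
  set L := Real.log X with hLdef
  have hH0 : (0 : ℝ) ≤ H := Nat.cast_nonneg _
  have hL2 : 2 ≤ L := by linarith
  have hL0 : 0 < L := by linarith
  set K := ⌊2 * L⌋₊ with hK
  have hKle : (K : ℝ) ≤ 2 * L := Nat.floor_le (by positivity)
  have hLX : 16 * L ≤ X := by
    have h1 : L ≤ L ^ 5 := by
      calc L = L ^ 1 := (pow_one L).symm
        _ ≤ L ^ 5 := pow_le_pow_right₀ (by linarith) (by norm_num)
    linarith
  have hXX2 : X ^ (3 / 2 : ℝ) + X ≤ X ^ (2 : ℝ) := by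
    have h3 : X ^ (2 : ℝ) = X ^ (3 / 2 : ℝ) * X ^ (1 / 2 : ℝ) := by
      rw [← Real.rpow_add (show 0 < X by linarith)]; norm_num
    have h4 : (2 : ℝ) ≤ X ^ (1 / 2 : ℝ) := by
      have : (2 : ℝ) = 4 ^ (1 / 2 : ℝ) := by
        rw [show (4 : ℝ) = 2 ^ (2 : ℝ) by norm_num, ← Real.rpow_mul (show (0 : ℝ) ≤ 2 by norm_num)]
        norm_num
      exact this.le.trans (Real.rpow_le_rpow (by norm_num) a2 (by norm_num))
    have h5 : X ≤ X ^ (3 / 2 : ℝ) := by
      conv_lhs => rw [← Real.rpow_one X]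
      exact Real.rpow_le_rpow_of_exponent_le (by linarith) (by norm_num)
    rw [h3]
    nlinarith [show 0 < X ^ (3 / 2 : ℝ) by positivity]
  set N := m * n with hN
  -- range
  have hrange1 : ∀ j : ℕ, N - K ≤ j → X / 2 ≤ (j : ℝ) := by
    intro j hj
    have h1 : N ≤ j + K := by omega
    have h2 : (N : ℝ) ≤ j + K := by exact_mod_cast h1
    linarith
  have hrange2 : ∀ j : ℕ, j ≤ N + H → (j : ℝ) ≤ X ^ (2 : ℝ) := by
    intro j hj
    have h2 : (j : ℝ) ≤ N + H := by exact_mod_cast hj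
    linarith
  have hinj : Set.InjOn (fun c => m * (n + c)) (C : Set ℕ) := by
    intro c _ d _ h
    have := Nat.eq_of_mul_eq_mul_left hm1 h
    omega
  refine ⟨N, C.image (fun c => m * (n + c)), hn1, hn2, hn3, ?_, ?_, ?_, ?_⟩
  · intro j hj
    obtain ⟨c, hc, rfl⟩ := mem_image.1 hj
    have h1 := mem_Icc.1 (hC hc)
    have h2 := hmc c hc
    rw [mem_Icc, Nat.mul_add]
    have : 1 ≤ m * c := Nat.mul_pos hm1 h1.1
    omega
  · calc ∑ j ∈ Icc (N - K) (N + H) \ C.image (fun c => m * (n + c)), lg j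
        ≤ ∑ j ∈ Icc (N - K) (N + H) \ C.image (fun c => m * (n + c)), (Gp X j + 1 / L ^ 2) := by
          apply Finset.sum_le_sum
          intro j hj
          have h1 := mem_Icc.1 (Finset.mem_sdiff.1 hj).1
          exact lg_le_Gp X a2 hL2 a5 j (hrange1 j h1.1) (hrange2 j h1.2)
      _ = ∑ j ∈ Icc (N - K) (N + H) \ C.image (fun c => m * (n + c)), Gp X j +
          ((Icc (N - K) (N + H) \ C.image (fun c => m * (n + c))).card : ℝ) * (1 / L ^ 2) := by
          rw [Finset.sum_add_distrib, Finset.sum_const, nsmul_eq_mul]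
      _ ≤ ε / 2 + (3 * L) * (1 / L ^ 2) := by
          have h1 : ((Icc (N - K) (N + H) \ C.image (fun c => m * (n + c))).card : ℝ) ≤ 3 * L := by
            have h2 : (Icc (N - K) (N + H) \ C.image (fun c => m * (n + c))).card ≤ K + H + 1 := by
              refine (Finset.card_le_card Finset.sdiff_subset).trans ?_
              rw [Nat.card_Icc]; omega
            have h3 : ((Icc (N - K) (N + H) \ C.image (fun c => m * (n + c))).card : ℝ) ≤ K + H + 1 := by
              exact_mod_cast h2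
            linarith
          have h4 : (0 : ℝ) ≤ 1 / L ^ 2 := by positivity
          have := mul_le_mul_of_nonneg_right h1 h4
          linarith
      _ ≤ ε := by
          have h1 : (3 * L) * (1 / L ^ 2) = 3 / L := by field_simp
          rw [h1]
          have h2 : 3 / L ≤ ε / 2 := by
            rw [div_le_div_iff₀ hL0 (by norm_num)]
            rw [div_le_iff₀ hε] at a4
            linarith
          linarith
  · intro j hj
    obtain ⟨c, hc, rfl⟩ := mem_image.1 hj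
    have h1 := mem_Icc.1 (hC hc)
    have h2 := hmc c hc
    have hj1 : N ≤ m * (n + c) := by rw [Nat.mul_add]; omega
    have hj2 : m * (n + c) ≤ N + H := by rw [Nat.mul_add]; omega
    have hL1 : 1 / L ^ 2 ≤ ε / 6 := by
      rw [div_le_div_iff₀ (by positivity) (by norm_num)]
      rw [div_le_iff₀ hε] at a4
      nlinarith
    obtain ⟨P, l, hP, hjl, hl1, hmax, hb1, hb2⟩ := lg_bound X a2 hL2 a5 (m * (n + c))
      (hrange1 _ (by omega)) (hrange2 _ hj2)
    by_cases hl : (l : ℝ) ≤ (2 * L) ^ 3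
    · refine (hb1 hl).trans ?_
      have hml : m ≤ l := by
        rcases eq_or_ne P 2 with hP2 | hP2
        · exfalso
          subst hP2
          have h3 : (N : ℝ) ≤ 2 * l := by
            have : N ≤ 2 * l := by omega
            exact_mod_cast this
          have h4 : (2 * L) ^ 3 ≤ 2 * L ^ 5 := by
            have h5 : (4 : ℝ) ≤ L ^ 2 := by nlinarith
            nlinarith [pow_pos hL0 3]
          have h6 : 0 < L ^ 5 := by positivity
          linarith
        · have hcop : Nat.Coprime m P := by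
            rw [hm]
            apply Nat.Coprime.pow_left
            exact (Nat.coprime_primes Nat.prime_two hP).2 (Ne.symm hP2)
          have h3 : m ∣ P * l := hjl ▸ dvd_mul_right _ _
          exact Nat.le_of_dvd (by omega) (hcop.dvd_of_dvd_mul_left h3)
      have h3 : 1 / (l : ℝ) ≤ 1 / m :=
        one_div_le_one_div_of_le hm0 (by exact_mod_cast hml)
      linarith
    · have := hb2 (not_le.1 hl)
      linarith
  · rw [Finset.sum_image hinj]
    calc Y ≤ r * Real.log (1 + 1 / (m : ℝ)) := hrY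
      _ ≤ ((C.filter (fun c => (n + c).Prime)).card : ℝ) * Real.log (1 + 1 / (m : ℝ)) := by
          have : (r : ℝ) ≤ ((C.filter (fun c => (n + c).Prime)).card : ℝ) := by exact_mod_cast hr'
          exact mul_le_mul_of_nonneg_right this hlm.le
      _ = ∑ c ∈ C.filter (fun c => (n + c).Prime), Real.log (1 + 1 / (m : ℝ)) := by
          rw [Finset.sum_const, nsmul_eq_mul]
      _ ≤ ∑ c ∈ C.filter (fun c => (n + c).Prime), lg (m * (n + c)) := by
          apply Finset.sum_le_sum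
          intro c hc
          have h1 := mem_filter.1 hc
          apply lg_mul_prime_ge m (n + c) hm1 h1.2
          have h2 : (m : ℝ) ^ 2 < ((m * n : ℕ) : ℝ) := lt_of_lt_of_le a6 hn1
          have h3 : m ^ 2 < m * n := by exact_mod_cast h2
          have h4 : m < n := by
            rw [pow_two] at h3
            exact Nat.lt_of_mul_lt_mul_left h3
          exact lt_of_lt_of_le h4 (Nat.le_add_right n c)
      _ ≤ ∑ c ∈ C, lg (m * (n + c)) := by
          apply Finset.sum_le_sum_of_subset_of_nonneg (Finset.filter_subset _ _)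
          intro i _ _
          exact lg_nonneg _

end Pool.Agent.H378R2
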